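import Pool.Agent.BSv.Code

/-!
# Module FAM2: the Whitney squares near a connected set

`Wp` = the Whitney squares `q` of `V` with `(D ∩ thickening (1/4) (dsq q)).Nonempty` (finite:
`wh_finite`); `W ⊆ Wp`.
* `D ⊆ UV V`, every cell of `V` lies in a Whitney square: `D ⊆ thickening (1/4) (cells (famT Wp))`.
* If `q ∈ Wp` and `p ∈ D` is within `1/4` of `dsq q`, let `b` be a closed unit cell containing `p`.
  Then `b` and `dsq q` touch (grid squares at distance `< 1`).  If `b ∉ V` then `b ∈ B`, otherwise `b` lies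
  in a Whitney square `q' ∈ W` (met by `D`), which touches `q`.
* So (with the labelled squares and `exists_stp`, `wh_near`, `wh_closed`) every `q ∈ Wp` is
  `stp α` of a labelled element of `W` or `B` for some of the 96 letters `α`.
* WALK: `F` = labelled `Wp` and labelled `B`, `R x y` = both in `F`, closed squares intersect.  Cut
  property for `F = A ⊔ A'`: if both parts contain a square met by `D` then as in module Code
  (the squares met by `D` are `W` and `B`, they cover `D`); if one part contains only squares of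
  `Wp` not met by `D`, take one of them: it touches a square met by `D`, which is in the other
  part.  `exists_walk`, and `Tst` as in module Code.
-/

open MeasureTheory Set Filter Topology Pool.Agent.BSv
open scoped ENNReal NNReal ContDiff

noncomputable section

namespace Pool.Agent.BSs

private theorem cell_eq_dsq2 (c : ℤ × ℤ) : cell c = dsq 0 c.1 c.2 := by
  simp [cell, dsq]

private theorem isClosed_dsq2 (k : ℕ) (i j : ℤ) : IsClosed (dsq k i j) :=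
  isClosed_Icc.prod isClosed_Icc

private theorem mem_dsq2 {k : ℕ} {i j : ℤ} {p : Pl} : p ∈ dsq k i j ↔
    ((i : ℝ) * 2 ^ k ≤ p.1 ∧ p.1 ≤ (i : ℝ) * 2 ^ k + 2 ^ k) ∧
      ((j : ℝ) * 2 ^ k ≤ p.2 ∧ p.2 ≤ (j : ℝ) * 2 ^ k + 2 ^ k) := by
  unfold dsq Pool.Agent.BSv.sq
  rw [Set.mem_prod, Set.mem_Icc, Set.mem_Icc]

/-- a unit cell containing a point near a grid square touches it -/
private theorem touch {k : ℕ} {i j : ℤ} {p z : Pl} (hz : z ∈ dsq k i j) (h : dist p z < 1 / 4) :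
    (dsq 0 ⌊p.1⌋ ⌊p.2⌋ ∩ dsq k i j).Nonempty := by
  rw [mem_dsq2] at hz
  rw [Prod.dist_eq, max_lt_iff, Real.dist_eq, Real.dist_eq, abs_lt, abs_lt] at h
  have key : ∀ (x y : ℝ) (i : ℤ), (i : ℝ) * 2 ^ k ≤ y → y ≤ (i : ℝ) * 2 ^ k + 2 ^ k →
      -(1 / 4) < x - y → x - y < 1 / 4 → ∃ u : ℝ, ((⌊x⌋ : ℤ) : ℝ) ≤ u ∧ u ≤ ((⌊x⌋ : ℤ) : ℝ) + 1 ∧
        (i : ℝ) * 2 ^ k ≤ u ∧ u ≤ (i : ℝ) * 2 ^ k + 2 ^ k := by
    intro x y i h1 h2 h3 h4
    have h5 := Int.floor_le x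
    have h6 := Int.lt_floor_add_one x
    have h7 : ⌊x⌋ ≤ i * 2 ^ k + 2 ^ k := by
      have : ((⌊x⌋ : ℤ) : ℝ) < ((i * 2 ^ k + 2 ^ k + 1 : ℤ) : ℝ) := by
        push_cast; linarith
      have h8 : ⌊x⌋ < i * 2 ^ k + 2 ^ k + 1 := by exact_mod_cast this
      omega
    have h9 : i * 2 ^ k ≤ ⌊x⌋ + 1 := by
      have : ((i * 2 ^ k : ℤ) : ℝ) < ((⌊x⌋ + 2 : ℤ) : ℝ) := by
        push_cast; linarith
      have h8 : i * 2 ^ k < ⌊x⌋ + 2 := by exact_mod_cast this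
      omega
    have h7' : ((⌊x⌋ : ℤ) : ℝ) ≤ (i : ℝ) * 2 ^ k + 2 ^ k := by exact_mod_cast h7
    have h9' : (i : ℝ) * 2 ^ k ≤ ((⌊x⌋ : ℤ) : ℝ) + 1 := by exact_mod_cast h9
    have h10 : (0 : ℝ) < 2 ^ k := by positivity
    refine ⟨max ((⌊x⌋ : ℤ) : ℝ) ((i : ℝ) * 2 ^ k), le_max_left _ _, max_le (by linarith) h9',
      le_max_right _ _, max_le h7' (by linarith)⟩
  obtain ⟨u, a1, a2, a3, a4⟩ := key p.1 z.1 i hz.1.1 hz.1.2 h.1.1 h.1.2
  obtain ⟨v, b1, b2, b3, b4⟩ := key p.2 z.2 j hz.2.1 hz.2.2 h.2.1 h.2.2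
  refine ⟨(u, v), ?_, ?_⟩
  · rw [mem_dsq2]
    simp only [pow_zero, mul_one]
    exact ⟨⟨a1, a2⟩, ⟨b1, b2⟩⟩
  · rw [mem_dsq2]
    exact ⟨⟨a3, a4⟩, ⟨b3, b4⟩⟩

private theorem mem_floor_cell (p : Pl) : p ∈ cell (⌊p.1⌋, ⌊p.2⌋) := by
  rw [cell_eq_dsq2, mem_dsq2]
  simp only [pow_zero, mul_one]
  exact ⟨⟨Int.floor_le _, (Int.lt_floor_add_one _).le⟩, ⟨Int.floor_le _, (Int.lt_floor_add_one _).le⟩⟩

private theorem cell_sub_dsq {k : ℕ} {i j : ℤ} {c : ℤ × ℤ} (h : c ∈ cellsOf k i j) :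
    cell c ⊆ dsq k i j := by
  rw [← cells_cellsOf]
  exact Set.subset_biUnion_of_mem (u := fun c : ℤ × ℤ => cell c) h

theorem exists_code2 {V : Finset (ℤ × ℤ)} {D : Set Pl} (hDc : IsConnected D) (hDU : D ⊆ UV V)
    {W : Finset (ℕ × ℤ × ℤ)} {B : Finset (ℤ × ℤ)}
    (hW : ∀ q, q ∈ W ↔ wh V q.1 q.2.1 q.2.2 ∧ (D ∩ dsq q.1 q.2.1 q.2.2).Nonempty)
    (hB : ∀ c, c ∈ B ↔ c ∉ V ∧ (D ∩ cell c).Nonempty)
    (hcov : D ⊆ (⋃ q ∈ W, dsq q.1 q.2.1 q.2.2) ∪ ⋃ c ∈ B, cell c)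
    {q0 : ℕ × ℤ × ℤ} (hq0 : q0 ∈ W) :
    ∃ Wp : Finset (ℕ × ℤ × ℤ), W ⊆ Wp ∧ (∀ q ∈ Wp, wh V q.1 q.2.1 q.2.2) ∧
      D ⊆ Metric.thickening (1 / 4) (cells (famT Wp)) ∧
      Wp.card ≤ 97 * (W.card + B.card) ∧
      ∃ w : List Alf, w.length ≤ 2 * (Wp.card + B.card) ∧
        Tst (wlk w (q0.1, q0.2.1, q0.2.2, true)) = famT Wp := by
  classical
  set Wp : Finset (ℕ × ℤ × ℤ) := (wh_finite V).toFinset.filter
    fun q => (D ∩ Metric.thickening (1 / 4) (dsq q.1 q.2.1 q.2.2)).Nonempty with hWpdef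
  have hWp : ∀ q, q ∈ Wp ↔ wh V q.1 q.2.1 q.2.2 ∧
      (D ∩ Metric.thickening (1 / 4) (dsq q.1 q.2.1 q.2.2)).Nonempty := by
    intro q
    rw [hWpdef, Finset.mem_filter, Set.Finite.mem_toFinset, Set.mem_ofPred_eq]
  have hWWp : W ⊆ Wp := by
    intro q hq
    obtain ⟨h1, h2⟩ := (hW q).mp hq
    rw [hWp]
    refine ⟨h1, h2.mono ?_⟩
    exact Set.inter_subset_inter_right _ (Metric.self_subset_thickening (by norm_num) _)
  -- labelled squares
  set S : Vx → Set Pl := fun x => dsq x.1 x.2.1 x.2.2.1 with hSdef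
  set F0 : Finset Vx := W.image (fun q => ((q.1, q.2.1, q.2.2, true) : Vx)) ∪
    B.image (fun c => ((0, c.1, c.2, false) : Vx)) with hF0def
  set F : Finset Vx := Wp.image (fun q => ((q.1, q.2.1, q.2.2, true) : Vx)) ∪
    B.image (fun c => ((0, c.1, c.2, false) : Vx)) with hFdef
  have hF0cases : ∀ x : Vx, x ∈ F0 ↔ (∃ q ∈ W, ((q.1, q.2.1, q.2.2, true) : Vx) = x) ∨
      ∃ c ∈ B, ((0, c.1, c.2, false) : Vx) = x := by
    intro x
    simp only [hF0def, Finset.mem_union, Finset.mem_image]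
  have hFcases : ∀ x : Vx, x ∈ F ↔ (∃ q ∈ Wp, ((q.1, q.2.1, q.2.2, true) : Vx) = x) ∨
      ∃ c ∈ B, ((0, c.1, c.2, false) : Vx) = x := by
    intro x
    simp only [hFdef, Finset.mem_union, Finset.mem_image]
  have hF0F : F0 ⊆ F := by
    intro x hx
    rw [hFcases]
    rcases (hF0cases x).1 hx with ⟨q, hq, h⟩ | h
    · exact Or.inl ⟨q, hWWp hq, h⟩
    · exact Or.inr h
  have hmeet : ∀ x ∈ F0, (D ∩ S x).Nonempty := by
    intro x hx
    rcases (hF0cases x).1 hx with ⟨q, hq, rfl⟩ | ⟨c, hc, rfl⟩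
    · exact ((hW q).mp hq).2
    · have := ((hB c).mp hc).2
      rwa [cell_eq_dsq2] at this
  have hcovF : ∀ p ∈ D, ∃ x ∈ F0, p ∈ S x := by
    intro p hp
    rcases hcov hp with h | h
    · obtain ⟨q, hq, hpq⟩ := Set.mem_iUnion₂.1 h
      exact ⟨(q.1, q.2.1, q.2.2, true), (hF0cases _).2 (Or.inl ⟨q, hq, rfl⟩), hpq⟩
    · obtain ⟨c, hc, hpc⟩ := Set.mem_iUnion₂.1 h
      rw [cell_eq_dsq2] at hpc
      exact ⟨(0, c.1, c.2, false), (hF0cases _).2 (Or.inr ⟨c, hc, rfl⟩), hpc⟩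
  -- every square of `Wp` touches a square met by `D`
  have htouch : ∀ q ∈ Wp, ∃ x ∈ F0, (S x ∩ dsq q.1 q.2.1 q.2.2).Nonempty := by
    intro q hq
    obtain ⟨h1, p, hpD, hp⟩ := (hWp q).mp hq
    obtain ⟨z, hz, hpz⟩ := Metric.mem_thickening_iff.mp hp
    have ht := touch hz hpz
    by_cases hb : ((⌊p.1⌋, ⌊p.2⌋) : ℤ × ℤ) ∈ V
    · obtain ⟨k', hk'⟩ := wh_cover hb
      have hmem : ((⌊p.1⌋, ⌊p.2⌋) : ℤ × ℤ) ∈ cellsOf k' (⌊p.1⌋ / 2 ^ k') (⌊p.2⌋ / 2 ^ k') :=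
        mem_cellsOf.mpr ⟨rfl, rfl⟩
      have hsub := cell_sub_dsq hmem
      refine ⟨(k', ⌊p.1⌋ / 2 ^ k', ⌊p.2⌋ / 2 ^ k', true), ?_, ?_⟩
      · rw [hF0cases]
        refine Or.inl ⟨(k', ⌊p.1⌋ / 2 ^ k', ⌊p.2⌋ / 2 ^ k'), ?_, rfl⟩
        rw [hW]
        exact ⟨hk', p, hpD, hsub (mem_floor_cell p)⟩
      · refine ht.mono (Set.inter_subset_inter_left _ ?_)
        have := hsub
        rw [cell_eq_dsq2] at this
        exact this
    · refine ⟨(0, ⌊p.1⌋, ⌊p.2⌋, false), ?_, ht⟩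
      rw [hF0cases]
      refine Or.inr ⟨(⌊p.1⌋, ⌊p.2⌋), ?_, rfl⟩
      rw [hB]
      exact ⟨hb, p, hpD, mem_floor_cell p⟩
  -- one step between touching squares
  have hscale : ∀ x ∈ F, ∀ y ∈ F, (S x ∩ S y).Nonempty → x.1 ≤ y.1 + 1 ∧ y.1 ≤ x.1 + 1 := by
    intro x h1 y h2 h3
    rcases (hFcases x).1 h1 with ⟨q, hq, rfl⟩ | ⟨c, hc, rfl⟩
    · rcases (hFcases y).1 h2 with ⟨q', hq', rfl⟩ | ⟨c', hc', rfl⟩
      · exact wh_near ((hWp q).mp hq).1 ((hWp q').mp hq').1 h3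
      · have h0 : q.1 = 0 := by
          refine wh_closed ((hWp q).mp hq).1 ((hB c').mp hc').1 ?_
          rw [cell_eq_dsq2]
          exact h3
        simp [h0]
    · rcases (hFcases y).1 h2 with ⟨q', hq', rfl⟩ | ⟨c', hc', rfl⟩
      · have h0 : q'.1 = 0 := by
          refine wh_closed ((hWp q').mp hq').1 ((hB c).mp hc).1 ?_
          rw [cell_eq_dsq2, Set.inter_comm]
          exact h3
        simp [h0]
      · simp
  have hstep : ∀ x ∈ F, ∀ y ∈ F, (S x ∩ S y).Nonempty → ∃ α : Alf, stp α x = y := by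
    intro x h1 y h2 h3
    have key := hscale x h1 y h2 h3
    obtain ⟨k, i, j, b⟩ := x
    obtain ⟨k', i', j', b'⟩ := y
    exact exists_stp key.1 key.2 h3 b b'
  have hF0card : F0.card ≤ W.card + B.card := by
    refine (Finset.card_union_le _ _).trans ?_
    exact Nat.add_le_add Finset.card_image_le Finset.card_image_le
  have hFcard : F.card ≤ Wp.card + B.card := by
    refine (Finset.card_union_le _ _).trans ?_
    exact Nat.add_le_add Finset.card_image_le Finset.card_image_le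
  have hWpcard : Wp.card ≤ 97 * (W.card + B.card) := by
    have h1 : Wp.image (fun q => ((q.1, q.2.1, q.2.2, true) : Vx)) ⊆
        (F0 ×ˢ (Finset.univ : Finset Alf)).image fun z => stp z.2 z.1 := by
      intro y hy
      rw [Finset.mem_image] at hy
      obtain ⟨q, hq, rfl⟩ := hy
      obtain ⟨x, hx, ht⟩ := htouch q hq
      have hyF : ((q.1, q.2.1, q.2.2, true) : Vx) ∈ F := (hFcases _).2 (Or.inl ⟨q, hq, rfl⟩)
      obtain ⟨α, hα⟩ := hstep x (hF0F hx) _ hyF ht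
      rw [Finset.mem_image]
      exact ⟨(x, α), Finset.mem_product.mpr ⟨hx, Finset.mem_univ _⟩, hα⟩
    have h2 : (Wp.image (fun q => ((q.1, q.2.1, q.2.2, true) : Vx))).card = Wp.card := by
      apply Finset.card_image_of_injective
      rintro ⟨k, i, j⟩ ⟨k', i', j'⟩ h
      simp only [Prod.mk.injEq] at h
      obtain ⟨h1, h2, h3, -⟩ := h
      rw [h1, h2, h3]
    have h3 := (Finset.card_le_card h1).trans Finset.card_image_le
    rw [h2, Finset.card_product, Finset.card_univ] at h3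
    have h4 : Fintype.card Alf = 96 := by
      simp [Alf]
    rw [h4] at h3
    omega
  refine ⟨Wp, hWWp, fun q hq => ((hWp q).mp hq).1, ?_, hWpcard, ?_⟩
  · -- the covering of `D`
    intro p hp
    obtain ⟨z, hz, hpz⟩ := Metric.mem_thickening_iff.mp (hDU hp)
    unfold cells at hz
    rw [Set.mem_iUnion₂] at hz
    obtain ⟨c, hc, hzc⟩ := hz
    obtain ⟨k', hk'⟩ := wh_cover hc
    have hmem : c ∈ cellsOf k' (c.1 / 2 ^ k') (c.2 / 2 ^ k') := mem_cellsOf.mpr ⟨rfl, rfl⟩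
    have hq : ((k', c.1 / 2 ^ k', c.2 / 2 ^ k') : ℕ × ℤ × ℤ) ∈ Wp := by
      rw [hWp]
      refine ⟨hk', p, hp, ?_⟩
      exact Metric.mem_thickening_iff.mpr ⟨z, cell_sub_dsq hmem hzc, hpz⟩
    refine Metric.mem_thickening_iff.mpr ⟨z, ?_, hpz⟩
    unfold cells
    rw [Set.mem_iUnion₂]
    refine ⟨c, ?_, hzc⟩
    unfold famT
    rw [Finset.mem_biUnion]
    exact ⟨_, hq, hmem⟩
  · -- the walk
    set R : Vx → Vx → Prop := fun x y => x ∈ F ∧ y ∈ F ∧ (S x ∩ S y).Nonempty with hRdef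
    have hsym : ∀ x y, R x y → R y x := by
      rintro x y ⟨h1, h2, h3⟩
      exact ⟨h2, h1, by rwa [Set.inter_comm]⟩
    have hstp : ∀ x y, R x y → ∃ α : Alf, stp α x = y := by
      rintro x y ⟨h1, h2, h3⟩
      exact hstep x h1 y h2 h3
    have hclosed : ∀ A : Finset Vx, IsClosed (⋃ x ∈ A, S x) := by
      intro A
      exact A.finite_toSet.isClosed_biUnion (fun x _ => isClosed_dsq2 _ _ _)
    -- a square which is not met touches a met one
    have hnot : ∀ x ∈ F, ¬ (D ∩ S x).Nonempty → ∃ y ∈ F0, (S y ∩ S x).Nonempty := by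
      intro x hx hno
      rcases (hFcases x).1 hx with ⟨q, hq, rfl⟩ | ⟨c, hc, rfl⟩
      · exact htouch q hq
      · exfalso
        apply hno
        exact hmeet _ ((hF0cases _).2 (Or.inr ⟨c, hc, rfl⟩))
    have hcut : ∀ A ⊆ F, A.Nonempty → A ≠ F → ∃ x ∈ A, ∃ y ∈ F \ A, R x y := by
      intro A hA hne hAF
      have hne' : (F \ A).Nonempty := by
        rw [Finset.sdiff_nonempty]
        intro h
        exact hAF (Finset.Subset.antisymm hA h)
      by_cases m1 : ∃ x ∈ A, (D ∩ S x).Nonempty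
      · by_cases m2 : ∃ x ∈ F \ A, (D ∩ S x).Nonempty
        · have hpre := isPreconnected_closed_iff.1 hDc.isPreconnected (⋃ x ∈ A, S x)
            (⋃ x ∈ F \ A, S x) (hclosed A) (hclosed (F \ A))
          have hsub : D ⊆ (⋃ x ∈ A, S x) ∪ ⋃ x ∈ F \ A, S x := by
            intro p hp
            obtain ⟨x, hx, hpx⟩ := hcovF p hp
            by_cases hxA : x ∈ A
            · exact Or.inl (Set.mem_iUnion₂.2 ⟨x, hxA, hpx⟩)
            · exact Or.inr (Set.mem_iUnion₂.2 ⟨x, Finset.mem_sdiff.2 ⟨hF0F hx, hxA⟩, hpx⟩)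
          have hm1 : (D ∩ ⋃ x ∈ A, S x).Nonempty := by
            obtain ⟨x, hx, p, hp1, hp2⟩ := m1
            exact ⟨p, hp1, Set.mem_iUnion₂.2 ⟨x, hx, hp2⟩⟩
          have hm2 : (D ∩ ⋃ x ∈ F \ A, S x).Nonempty := by
            obtain ⟨x, hx, p, hp1, hp2⟩ := m2
            exact ⟨p, hp1, Set.mem_iUnion₂.2 ⟨x, hx, hp2⟩⟩
          obtain ⟨p, hpD, hp1, hp2⟩ := hpre hsub hm1 hm2
          obtain ⟨x, hx, hpx⟩ := Set.mem_iUnion₂.1 hp1
          obtain ⟨y, hy, hpy⟩ := Set.mem_iUnion₂.1 hp2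
          exact ⟨x, hx, y, hy, hA hx, (Finset.mem_sdiff.1 hy).1, p, hpx, hpy⟩
        · push Not at m2
          obtain ⟨y, hy⟩ := hne'
          have hyF := (Finset.mem_sdiff.1 hy).1
          obtain ⟨x, hx, ht⟩ := hnot y hyF (by
            rw [Set.not_nonempty_iff_eq_empty]; exact m2 y hy)
          have hxA : x ∈ A := by
            by_contra hcon
            have h1 := m2 x (Finset.mem_sdiff.2 ⟨hF0F hx, hcon⟩)
            have h2 := hmeet x hx
            rw [h1] at h2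
            exact Set.not_nonempty_empty h2
          exact ⟨x, hxA, y, hy, hA hxA, hyF, ht⟩
      · push Not at m1
        obtain ⟨x, hx⟩ := hne
        obtain ⟨y, hy, ht⟩ := hnot x (hA hx) (by
          rw [Set.not_nonempty_iff_eq_empty]; exact m1 x hx)
        have hyA : y ∉ A := by
          intro hcon
          have h1 := m1 y hcon
          have h2 := hmeet y hy
          rw [h1] at h2
          exact Set.not_nonempty_empty h2
        exact ⟨x, hx, y, Finset.mem_sdiff.2 ⟨hF0F hy, hyA⟩, hA hx, hF0F hy,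
          by rwa [Set.inter_comm]⟩
    have hd0 : ((q0.1, q0.2.1, q0.2.2, true) : Vx) ∈ F :=
      (hFcases _).2 (Or.inl ⟨q0, hWWp hq0, rfl⟩)
    obtain ⟨w, hwl, hwF⟩ := exists_walk R hsym hstp F hcut _ hd0
    refine ⟨w, by omega, ?_⟩
    ext c
    simp only [Tst, famT, hwF, Finset.mem_biUnion]
    constructor
    · rintro ⟨x, hx, hc⟩
      rcases (hFcases x).1 hx with ⟨q, hq, rfl⟩ | ⟨c', hc', rfl⟩
      · exact ⟨q, hq, by simpa using hc⟩
      · simp at hc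
    · rintro ⟨q, hq, hc⟩
      exact ⟨(q.1, q.2.1, q.2.2, true), (hFcases _).2 (Or.inl ⟨q, hq, rfl⟩), by simpa using hc⟩

end Pool.Agent.BSs
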