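import Pool.Agent.BSs.Fine
import Pool.Agent.BSv.Fam

/-!
# Module SLICE: area of the 2/5-neighbourhood of a set of cells

`fat T`: the fine cells (side 1/5, indexed by `ℤ × ℤ`) of the closed 2/5-neighbourhoods (sup metric) of
the unit cells of `T`.  `Fat = ⋃_{d ∈ fat T} sq (d1/5) (d2/5) (1/5)` has area `|fat T|/25` and is the closed
2/5-neighbourhood of `cells T`.  `Th = thickening (1/4) (cells T)`.

For every `y` with nonempty slice `Th_y = {x | (x,y) ∈ Th}` (bounded, open): `Fat_y` contains the closed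
3/20-neighbourhood of `Th_y`, whose length is at least `|Th_y| + 3/10`
(it contains `Th_y`, `[inf - 3/20, inf]` and `[sup, sup + 3/20]`).  So
`vol Fat ≥ vol Th + (3/10) |pr_y Th|`, the same with `x`; `T.card = vol (cells T) ≤ |pr_x| |pr_y|`.
-/

open MeasureTheory Set Filter Topology Pool.Agent.BSv
open scoped ENNReal NNReal ContDiff

noncomputable section

namespace Pool.Agent.BSs

/-- fine cells of the 2/5-neighbourhood of a set of unit cells -/
def fat (T : Finset (ℤ × ℤ)) : Finset (ℤ × ℤ) :=
  T.biUnion fun c => Finset.Ico (5 * c.1 - 2) (5 * c.1 + 7) ×ˢ Finset.Ico (5 * c.2 - 2) (5 * c.2 + 7)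

theorem fat_mono {T T' : Finset (ℤ × ℤ)} (h : T ⊆ T') : fat T ⊆ fat T' := by
  unfold fat
  exact Finset.biUnion_subset_biUnion_of_subset_left _ h

theorem card_fat_le (T : Finset (ℤ × ℤ)) : (fat T).card ≤ 81 * T.card := by
  unfold fat
  rw [mul_comm]
  apply Finset.card_biUnion_le_card_mul
  intro c _
  rw [Finset.card_product, Int.card_Ico, Int.card_Ico]
  have h1 : (5 * c.1 + 7 - (5 * c.1 - 2)).toNat = 9 := by omega
  have h2 : (5 * c.2 + 7 - (5 * c.2 - 2)).toNat = 9 := by omega
  rw [h1, h2]

/-- one dimensional fact -/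
private theorem slice_one {S G : Set ℝ} (hS : MeasurableSet S) (hb : Bornology.IsBounded S)
    (hne : S.Nonempty) (h : ∀ x ∈ S, ∀ u, |u - x| ≤ 3 / 20 → u ∈ G) :
    volume S + ENNReal.ofReal (3 / 10) ≤ volume G := by
  have hba : BddAbove S := hb.bddAbove
  have hbb : BddBelow S := hb.bddBelow
  set s := sSup S with hs
  set i := sInf S with hi
  have h1 : Ioo s (s + 3 / 20) ⊆ G := by
    intro u hu
    obtain ⟨x, hx, hxu⟩ := exists_lt_of_lt_csSup hne (show u - 3 / 20 < sSup S by
      rw [← hs]; linarith [hu.2])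
    have hxs : x ≤ s := le_csSup hba hx
    apply h x hx
    rw [abs_le]
    constructor
    · linarith [hu.1]
    · linarith
  have h2 : Ioo (i - 3 / 20) i ⊆ G := by
    intro u hu
    obtain ⟨x, hx, hxu⟩ := exists_lt_of_csInf_lt hne (show sInf S < u + 3 / 20 by
      rw [← hi]; linarith [hu.1])
    have hxs : i ≤ x := csInf_le hbb hx
    apply h x hx
    rw [abs_le]
    constructor
    · linarith
    · linarith [hu.2]
  have h3 : S ⊆ G := fun x hx => h x hx x (by rw [sub_self, abs_zero]; norm_num)
  have his : i ≤ s := by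
    obtain ⟨x, hx⟩ := hne
    exact (csInf_le hbb hx).trans (le_csSup hba hx)
  have d1 : Disjoint S (Ioo s (s + 3 / 20)) := by
    rw [Set.disjoint_left]
    intro x hx hx2
    have := le_csSup hba hx
    linarith [hx2.1]
  have d2 : Disjoint (S ∪ Ioo s (s + 3 / 20)) (Ioo (i - 3 / 20) i) := by
    rw [Set.disjoint_left]
    rintro x (hx | hx) hx2
    · have := csInf_le hbb hx
      linarith [hx2.2]
    · linarith [hx2.2, hx.1]
  have h4 : volume (S ∪ Ioo s (s + 3 / 20) ∪ Ioo (i - 3 / 20) i) =
      volume S + ENNReal.ofReal (3 / 10) := by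
    rw [measure_union d2 measurableSet_Ioo, measure_union d1 measurableSet_Ioo, Real.volume_Ioo,
      Real.volume_Ioo, add_assoc, ← ENNReal.ofReal_add (by linarith) (by linarith)]
    congr 2
    ring
  rw [← h4]
  exact measure_mono (Set.union_subset (Set.union_subset h3 h1) h2)

/-- the union of the fine cells contains the closed `2/5`-neighbourhood -/
private theorem near_fat {T : Finset (ℤ × ℤ)} {p q : Pl} (hq : q ∈ cells T)
    (h : dist p q ≤ 2 / 5) : p ∈ ⋃ d ∈ fat T, fcell d := by
  unfold cells at hq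
  rw [Set.mem_iUnion₂] at hq
  obtain ⟨c, hc, hq⟩ := hq
  unfold cell Pool.Agent.BSv.sq at hq
  rw [Set.mem_prod, Set.mem_Icc, Set.mem_Icc] at hq
  rw [Prod.dist_eq, max_le_iff, Real.dist_eq, Real.dist_eq, abs_le, abs_le] at h
  have key : ∀ (x y : ℝ) (i : ℤ), (i : ℝ) ≤ y → y ≤ i + 1 → -(2 / 5) ≤ x - y → x - y ≤ 2 / 5 →
      ∃ d : ℤ, 5 * i - 2 ≤ d ∧ d < 5 * i + 7 ∧ (d : ℝ) / 5 ≤ x ∧ x ≤ (d : ℝ) / 5 + 1 / 5 := by
    intro x y i h1 h2 h3 h4
    by_cases h5 : x < i + 7 / 5
    · refine ⟨⌊5 * x⌋, ?_, ?_, ?_, ?_⟩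
      · rw [Int.le_floor]
        push_cast
        linarith
      · rw [Int.floor_lt]
        push_cast
        linarith
      · have := Int.floor_le (5 * x)
        linarith
      · have := Int.lt_floor_add_one (5 * x)
        linarith
    · push Not at h5
      refine ⟨5 * i + 6, by omega, by omega, ?_, ?_⟩
      · push_cast; linarith
      · push_cast; linarith
  obtain ⟨d1, a1, a2, a3, a4⟩ := key p.1 q.1 c.1 hq.1.1 hq.1.2 h.1.1 h.1.2
  obtain ⟨d2, b1, b2, b3, b4⟩ := key p.2 q.2 c.2 hq.2.1 hq.2.2 h.2.1 h.2.2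
  refine Set.mem_biUnion (x := (d1, d2)) ?_ (mem_fcell.mpr ⟨⟨a3, a4⟩, ⟨b3, b4⟩⟩)
  unfold fat
  rw [Finset.mem_coe, Finset.mem_biUnion]
  refine ⟨c, hc, ?_⟩
  rw [Finset.mem_product, Finset.mem_Ico, Finset.mem_Ico]
  exact ⟨⟨a1, a2⟩, ⟨b1, b2⟩⟩

private theorem bdd_thick (T : Finset (ℤ × ℤ)) :
    Bornology.IsBounded (Metric.thickening (1 / 4) (cells T)) := by
  apply Bornology.IsBounded.thickening
  unfold cells
  refine (Bornology.isBounded_biUnion T.finite_toSet).mpr ?_
  intro c _
  unfold cell Pool.Agent.BSv.sq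
  exact (isCompact_Icc.prod isCompact_Icc).isBounded

theorem slice (T : Finset (ℤ × ℤ)) :
    vol (Metric.thickening (1 / 4) (cells T)) + 3 / 10 * √(T.card) ≤ (fat T).card / 25 := by
  set A := Metric.thickening (1 / 4) (cells T) with hA
  set F : Set Pl := ⋃ d ∈ fat T, fcell d with hF
  have hAo : IsOpen A := Metric.isOpen_thickening
  have hAb : Bornology.IsBounded A := bdd_thick T
  have hAfin : volume A ≠ ⊤ := hAb.measure_lt_top.ne
  have hFc : IsClosed F := by
    rw [hF]
    apply (fat T).finite_toSet.isClosed_biUnion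
    intro d _
    unfold fcell Pool.Agent.BSv.sq
    exact isClosed_Icc.prod isClosed_Icc
  have hAF : ∀ p ∈ A, ∀ q : Pl, dist q p ≤ 3 / 20 → q ∈ F := by
    intro p hp q hq
    obtain ⟨z, hz, hzp⟩ := Metric.mem_thickening_iff.mp hp
    apply near_fat hz
    have := dist_triangle q p z
    linarith
  -- the two projections
  set A1 : Set ℝ := Prod.fst '' A with hA1
  set A2 : Set ℝ := Prod.snd '' A with hA2
  have hA1o : IsOpen A1 := isOpenMap_fst A hAo
  have hA2o : IsOpen A2 := isOpenMap_snd A hAo
  have hA1b : Bornology.IsBounded A1 := hAb.image_fst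
  have hA2b : Bornology.IsBounded A2 := hAb.image_snd
  -- slices in the second variable
  have hS1 : volume A + ENNReal.ofReal (3 / 10) * volume A1 ≤ volume F := by
    rw [Measure.volume_eq_prod, Measure.prod_apply hAo.measurableSet,
      Measure.prod_apply hFc.measurableSet]
    have e1 : ENNReal.ofReal (3 / 10) * volume A1 =
        ∫⁻ x, A1.indicator (fun _ => ENNReal.ofReal (3 / 10)) x := by
      rw [lintegral_indicator_const hA1o.measurableSet]
    rw [e1, ← lintegral_add_left (measurable_measure_prodMk_left hAo.measurableSet)]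
    apply lintegral_mono
    intro x
    show volume (Prod.mk x ⁻¹' A) + A1.indicator (fun _ => ENNReal.ofReal (3 / 10)) x ≤
      volume (Prod.mk x ⁻¹' F)
    by_cases hx : x ∈ A1
    · rw [Set.indicator_of_mem hx]
      obtain ⟨p, hp, hpx⟩ := hx
      apply slice_one (measurable_prodMk_left hAo.measurableSet)
      · refine hA2b.subset ?_
        intro y hy
        exact ⟨(x, y), hy, rfl⟩
      · refine ⟨p.2, ?_⟩
        show (x, p.2) ∈ A
        rw [← hpx]; exact hp
      · intro y hy u hu
        apply hAF (x, y) hy (x, u)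
        rw [Prod.dist_eq]
        apply max_le
        · simp only [dist_self]; norm_num
        · rw [Real.dist_eq]; exact hu
    · rw [Set.indicator_of_notMem hx, add_zero]
      apply measure_mono
      intro y hy
      exact hAF (x, y) hy (x, y) (by rw [dist_self]; norm_num)
  have hS2 : volume A + ENNReal.ofReal (3 / 10) * volume A2 ≤ volume F := by
    rw [Measure.volume_eq_prod, Measure.prod_apply_symm hAo.measurableSet,
      Measure.prod_apply_symm hFc.measurableSet]
    have e1 : ENNReal.ofReal (3 / 10) * volume A2 =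
        ∫⁻ x, A2.indicator (fun _ => ENNReal.ofReal (3 / 10)) x := by
      rw [lintegral_indicator_const hA2o.measurableSet]
    rw [e1, ← lintegral_add_left (measurable_measure_prodMk_right hAo.measurableSet)]
    apply lintegral_mono
    intro y
    show volume ((fun x => (x, y)) ⁻¹' A) + A2.indicator (fun _ => ENNReal.ofReal (3 / 10)) y ≤
      volume ((fun x => (x, y)) ⁻¹' F)
    by_cases hy : y ∈ A2
    · rw [Set.indicator_of_mem hy]
      obtain ⟨p, hp, hpy⟩ := hy
      apply slice_one (measurable_prodMk_right hAo.measurableSet)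
      · refine hA1b.subset ?_
        intro x hx
        exact ⟨(x, y), hx, rfl⟩
      · refine ⟨p.1, ?_⟩
        show (p.1, y) ∈ A
        rw [← hpy]; exact hp
      · intro x hx u hu
        apply hAF (x, y) hx (u, y)
        rw [Prod.dist_eq]
        apply max_le
        · rw [Real.dist_eq]; exact hu
        · simp only [dist_self]; norm_num
    · rw [Set.indicator_of_notMem hy, add_zero]
      apply measure_mono
      intro x hx
      exact hAF (x, y) hx (x, y) (by rw [dist_self]; norm_num)
  have hFv : volume F = ENNReal.ofReal ((fat T).card / 25) := vol_fcells (fat T)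
  have hv1 : volume A1 ≠ ⊤ := hA1b.measure_lt_top.ne
  have hv2 : volume A2 ≠ ⊤ := hA2b.measure_lt_top.ne
  have hr1 : vol A + 3 / 10 * (volume A1).toReal ≤ (fat T).card / 25 := by
    rw [hFv] at hS1
    have h1 := ENNReal.toReal_mono ENNReal.ofReal_ne_top hS1
    rw [ENNReal.toReal_add hAfin (ENNReal.mul_ne_top ENNReal.ofReal_ne_top hv1),
      ENNReal.toReal_mul, ENNReal.toReal_ofReal (by norm_num),
      ENNReal.toReal_ofReal (by positivity)] at h1
    exact h1
  have hr2 : vol A + 3 / 10 * (volume A2).toReal ≤ (fat T).card / 25 := by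
    rw [hFv] at hS2
    have h1 := ENNReal.toReal_mono ENNReal.ofReal_ne_top hS2
    rw [ENNReal.toReal_add hAfin (ENNReal.mul_ne_top ENNReal.ofReal_ne_top hv2),
      ENNReal.toReal_mul, ENNReal.toReal_ofReal (by norm_num),
      ENNReal.toReal_ofReal (by positivity)] at h1
    exact h1
  -- the area of the cells
  have hT : (T.card : ℝ) ≤ (volume A1).toReal * (volume A2).toReal := by
    have h1 : volume (cells T) ≤ volume (A1 ×ˢ A2) := by
      apply measure_mono
      intro p hp
      have : p ∈ A := Metric.self_subset_thickening (by norm_num) _ hp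
      exact ⟨⟨p, this, rfl⟩, ⟨p, this, rfl⟩⟩
    rw [Measure.volume_eq_prod, Measure.prod_prod] at h1
    have h2 := ENNReal.toReal_mono (ENNReal.mul_ne_top hv1 hv2) h1
    rw [ENNReal.toReal_mul] at h2
    have h3 := (vol_cells T).2
    unfold vol at h3
    rw [Measure.volume_eq_prod] at h3
    rwa [h3] at h2
  set x1 := (volume A1).toReal with hx1
  set x2 := (volume A2).toReal with hx2
  have hx10 : 0 ≤ x1 := ENNReal.toReal_nonneg
  have hx20 : 0 ≤ x2 := ENNReal.toReal_nonneg
  rcases le_total x1 x2 with h | h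
  · have h1 : √(T.card : ℝ) ≤ x2 := by
      rw [Real.sqrt_le_left hx20]
      nlinarith
    linarith
  · have h1 : √(T.card : ℝ) ≤ x1 := by
      rw [Real.sqrt_le_left hx10]
      nlinarith
    linarith

end Pool.Agent.BSs
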