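import Pool.Agent.BSs.PackE
import Pool.Agent.BSs.Fam2
import Pool.Agent.BSs.Slice
import Pool.Agent.BSv.Counts2

/-!
# The counting estimates with the area of the 2/5-neighbourhood (helper98)
-/

open MeasureTheory Set Filter Topology Pool.Agent.BSv
open scoped ENNReal NNReal ContDiff

noncomputable section

namespace Pool.Agent.BSs

theorem energy_count2 {a e s x C E l n : ℝ} {k : ℕ} (ha : 0 < a) (he : 0 < e)
    (hs : s = e / √a) (hx : 0 < x) (hC : 0 ≤ C)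
    (h : (x * s / 2) ^ 2 * n ≤ C * (1 + k) ^ 2 * E) (hE : E ≤ 40 * l * x * e) :
    n ≤ 160 * C * (1 + k) ^ 2 * (l * a / e) / x := by
  have hs2 : s ^ 2 = e ^ 2 / a := by
    rw [hs, div_pow, Real.sq_sqrt ha.le]
  have h1 : (x * s / 2) ^ 2 * n = (x ^ 2 * e ^ 2 / (4 * a)) * n := by
    have : (x * s / 2) ^ 2 = x ^ 2 * s ^ 2 / 4 := by ring
    rw [this, hs2]; field_simp
  have h2 : C * (1 + k) ^ 2 * E ≤ C * (1 + k) ^ 2 * (40 * l * x * e) := by gcongr
  have h3 : (x ^ 2 * e ^ 2 / (4 * a)) * n ≤ C * (1 + k) ^ 2 * (40 * l * x * e) := by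
    rw [← h1]; exact h.trans h2
  have h4 : C * (1 + k) ^ 2 * (40 * l * x * e) =
      (x ^ 2 * e ^ 2 / (4 * a)) * (160 * C * (1 + k) ^ 2 * (l * a / e) / x) := by
    field_simp; ring
  rw [h4] at h3
  exact le_of_mul_le_mul_left h3 (by positivity)

theorem counts3 : ∃ ε0 c1 C1 C2 : ℝ, 0 < ε0 ∧ 0 < c1 ∧ 0 < C1 ∧ 0 < C2 ∧
    ∀ ν : ℝ, 0 < ν → ∀ r : ℝ, 0 < r → ∀ ε : ℝ, 0 < ε → ε ≤ ε0 → ∀ V : Finset (ℤ × ℤ),
    V.Nonempty → lam (UV V) ≤ c1 / 160 →
    (∀ a : ℝ, 0 < a → c1 ≤ lam (UV V) * a → a ≤ 3 * V.card →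
      16 * C1 * lam (UV V) < ε * (lam (UV V) * a) ^ (-(1 / 4) : ℝ)) →
    ∃ (D : Set Pl) (a e : ℝ) (W : Finset (ℕ × ℤ × ℤ)) (B : Finset (ℤ × ℤ))
      (Wp : Finset (ℕ × ℤ × ℤ)) (k0 : ℕ) (i0 j0 : ℤ) (w : List Alf),
      0 < a ∧ c1 ≤ lam (UV V) * a ∧ a ≤ 3 * V.card ∧
      e = ε * (lam (UV V) * a) ^ (-(1 / 4) : ℝ) ∧ 0 < e ∧ a / 16 ≤ (fat (famT Wp)).card / 25 ∧
      W ⊆ Wp ∧ (∀ q ∈ Wp, wh V q.1 q.2.1 q.2.2) ∧
      Wp.card ≤ 97 * (W.card + B.card) ∧ w.length ≤ 2 * (Wp.card + B.card) ∧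
      Tst (wlk w (k0, i0, j0, true)) = famT Wp ∧ cellsOf k0 i0 j0 ⊆ V ∧
      (B.card : ℝ) ≤ C1 * (lam (UV V) * a / e) ∧
      3 / 10 * ν * √((famT Wp).card : ℝ) ≤
        r ^ 4 * lam (UV V) + ν * ((fat (famT Wp)).card / 25) - cst ν * r ^ 2 +
          250 * r ^ 4 * lam (UV V) * e ∧
      (∀ k : ℕ, 128 * 2 ^ k * e ≤ 1 → ((lev W k).card : ℝ) ≤
        C2 * (1 + k) ^ 2 / 2 ^ k * (lam (UV V) * a / e) +
        (4 / ν) * max (r ^ 4 * lam (UV V) + ν * ((fat (famT Wp)).card / 25) - cst ν * r ^ 2) 0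
          / 4 ^ k + (1000 / ν) * (r ^ 4 * lam (UV V) * e) / 2 ^ k) := by
  obtain ⟨ε0, c1, hε0, hc1, hpack⟩ := packE
  obtain ⟨Cc, hCc, hcross⟩ := cross_count
  obtain ⟨CB, hCB, hcapB⟩ := capB_count
  set C1 : ℝ := 160 * Cc with hC1
  set C2 : ℝ := 160 * CB with hC2
  refine ⟨ε0, c1, C1, C2, hε0, hc1, by positivity, by positivity, ?_⟩
  intro ν hν r hr0 ε hε hεε V hV hlam hsm
  obtain ⟨c0, hc0⟩ := hV
  have hUne : (UV V).Nonempty := by
    obtain ⟨p, hp⟩ : (cell c0).Nonempty := by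
      refine ⟨((c0.1 : ℝ), (c0.2 : ℝ)), ?_⟩
      simp [cell, Pool.Agent.BSv.sq]
    exact ⟨p, cells_subset_UV V (Set.mem_biUnion hc0 hp)⟩
  obtain ⟨f, D, a, e, s, hf, hea, hsa, ha, hca, haU, he, he1, hs, hDo, hDc, hDU, hDf, hvD, -, hv,
    hx⟩ := hpack (UV V) (isOpen_UV V) hUne (vol_UV V).1 ε hε hεε
  set l := lam (UV V) with hl
  have hlpos : 0 < l := lam_pos (isOpen_UV V) hUne (vol_UV V).1
  have ha160 : 160 ≤ a := by
    have h1 : l * a ≤ (c1 / 160) * a := by gcongr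
    have h2 : c1 * 160 ≤ c1 * a := by linarith
    exact le_of_mul_le_mul_left h2 hc1
  obtain ⟨W, B, hW, hB, hcov⟩ := exists_fam hDU
  have hUfin := (vol_UV V).1
  have hDfin : volume D ≠ ⊤ := ne_top_of_le_ne_top hUfin (measure_mono hDU)
  set X := l * a / e with hX
  have hXpos : 0 < X := by positivity
  have hobsB : ∀ c ∈ B, (D ∩ dsq 0 c.1 c.2).Nonempty ∧ obs V 0 c := by
    intro c hc
    obtain ⟨h1, h2⟩ := (hB c).mp hc
    refine ⟨by rw [dsq_zero]; exact h2, c, h1, ?_, ?_, ?_, ?_⟩ <;> simp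
  have hobsW : ∀ k c, (k, c) ∈ W → (D ∩ dsq k c.1 c.2).Nonempty ∧ obs V k c := by
    intro k c hc
    obtain ⟨h1, h2⟩ := (hW _).mp hc
    obtain ⟨c', g1, g2, g3, g4, g5⟩ := wh_far h1
    exact ⟨h2, c', g1, g2, g3, g4, g5⟩
  -- the function at level one
  obtain ⟨v1, hv1, hev1, -, hv1D, -⟩ := hv 1 le_rfl
  have hBcard : (B.card : ℝ) ≤ C1 * X := by
    have h1 := hcross V D hDo hDc v1 hv1 (1 * s / 2) (by positivity)
      (fun p hp => by rw [one_mul]; exact hv1D p hp) 0 B (by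
        rw [pow_zero]
        intro hcon
        linarith) hobsB
    have h2 := energy_count2 ha he hsa one_pos hCc.le h1 hev1
    simpa using h2
  -- W is nonempty
  have hWne : W.Nonempty := by
    by_contra hcon
    rw [Finset.not_nonempty_iff_eq_empty] at hcon
    have h1 : D ⊆ cells B := by
      have := hcov
      rw [hcon] at this
      simpa [cells] using this
    have h2 : vol D ≤ B.card := by
      rw [← (vol_cells B).2]
      exact vol_mono (vol_cells B).1 h1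
    have h3 := hsm a ha hca (haU.trans (vol_UV V).2)
    rw [← hea] at h3
    have h4 : a / 16 ≤ C1 * X := by linarith
    have h5 : C1 * X = (16 * C1 * l / e) * (a / 16) := by
      rw [hX]; field_simp
    have h6 : 16 * C1 * l / e < 1 := by
      rw [div_lt_one he]; exact h3
    have h7 : 0 < a / 16 := by positivity
    nlinarith
  obtain ⟨q0, hq0⟩ := hWne
  obtain ⟨Wp, hWWp, hWp, hDth, hWpc, w, hw1, hw2⟩ := exists_code2 hDc hDU hW hB hcov hq0
  set T := famT Wp with hT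
  have hWsub : ∀ q ∈ W, dsq q.1 q.2.1 q.2.2 ⊆ cells T := by
    intro q hq
    rw [hT, cells_famT]
    exact Set.subset_biUnion_of_mem (u := fun q : ℕ × ℤ × ℤ => dsq q.1 q.2.1 q.2.2) (hWWp hq)
  have hTfin := (vol_cells T).1
  set Th := Metric.thickening (1 / 4) (cells T) with hTh
  have hThfin : volume Th ≠ ⊤ := (vol_UV T).1
  have hTsub : cells T ⊆ Th := Metric.self_subset_thickening (by norm_num) _
  have hslice := slice T
  rw [← hTh] at hslice
  set Ft : ℝ := ((fat T).card : ℝ) / 25 with hFt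
  set G := r ^ 4 * l + ν * Ft - cst ν * r ^ 2 with hG
  have hgain : ∀ x : ℝ, 1 ≤ x → 128 * x * e ≤ 1 →
      ν * (vol (D \ (D ∩ {p | x * s / 2 < f p})) + vol (cells T \ D)) +
        3 / 10 * ν * √(T.card : ℝ) ≤ G + 250 * r ^ 4 * l * e * x := by
    intro x hx1 hxe
    obtain ⟨g1, g2, g3⟩ := hx x hx1 hxe
    set Dx := D ∩ {p | x * s / 2 < f p} with hDx
    have hDxD : Dx ⊆ D := inter_subset_left
    have hDxfin : volume Dx ≠ ⊤ := ne_top_of_le_ne_top hDfin (measure_mono hDxD)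
    have h1 := cst_le hν g1 g2 hDxfin (t := r ^ 4) (by positivity)
    have h2 : √(r ^ 4) = r ^ 2 := by
      rw [show r ^ 4 = (r ^ 2) ^ 2 by ring, Real.sqrt_sq (by positivity)]
    rw [h2] at h1
    have h3 : r ^ 4 * lam Dx ≤ r ^ 4 * (l * (1 + 250 * x * e)) := by gcongr
    have e1 : vol D = vol Dx + vol (D \ Dx) := by
      have := vol_split (A := D) (E := Dx) g1.measurableSet hDfin
      rwa [inter_eq_self_of_subset_right hDxD] at this
    have e2 : vol Th = vol D + vol (Th \ D) := by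
      have := vol_split (A := Th) (E := D) hDo.measurableSet hThfin
      rwa [inter_eq_self_of_subset_right hDth] at this
    have e3 : vol (cells T \ D) ≤ vol (Th \ D) :=
      vol_mono (ne_top_of_le_ne_top hThfin (measure_mono diff_subset))
        (diff_subset_diff_left hTsub)
    have e4 : vol Dx + vol (D \ Dx) + vol (cells T \ D) + 3 / 10 * √(T.card : ℝ) ≤ Ft := by
      linarith
    have e5 : ν * (vol Dx + vol (D \ Dx) + vol (cells T \ D) + 3 / 10 * √(T.card : ℝ)) ≤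
        ν * Ft := by gcongr
    have e6 : r ^ 4 * (l * (1 + 250 * x * e)) = r ^ 4 * l + 250 * r ^ 4 * l * e * x := by ring
    rw [e6] at h3
    rw [hG]
    have e7 : ν * (vol Dx + vol (D \ Dx) + vol (cells T \ D) + 3 / 10 * √(T.card : ℝ)) =
        ν * vol Dx + (ν * (vol (D \ Dx) + vol (cells T \ D)) + 3 / 10 * ν * √(T.card : ℝ)) := by
      ring
    rw [e7] at e5
    linarith
  have hvDF : a / 16 ≤ Ft := by
    have h1 : vol D ≤ vol Th := vol_mono hThfin hDth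
    have h2 : 0 ≤ 3 / 10 * √(T.card : ℝ) := by positivity
    linarith
  refine ⟨D, a, e, W, B, Wp, q0.1, q0.2.1, q0.2.2, w, ha, hca, haU.trans (vol_UV V).2, hea, he,
    hvDF, hWWp, hWp, hWpc, hw1, hw2, wh_sub ((hW q0).mp hq0).1, hBcard, ?_, ?_⟩
  · have h1 := hgain 1 le_rfl (by linarith)
    have h2 : 0 ≤ ν * (vol (D \ (D ∩ {p | 1 * s / 2 < f p})) + vol (cells T \ D)) := by
      have h3 := vol_nonneg (D \ (D ∩ {p | 1 * s / 2 < f p}))
      have h4 := vol_nonneg (cells T \ D)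
      positivity
    have h5 : 250 * r ^ 4 * l * e * 1 = 250 * r ^ 4 * l * e := mul_one _
    rw [h5] at h1
    have h6 : 3 / 10 * ν * √(T.card : ℝ) ≤ G + 250 * r ^ 4 * l * e := by linarith
    exact h6
  · intro k hk
    have hx1 : (1 : ℝ) ≤ 2 ^ k := one_le_pow₀ (by norm_num)
    obtain ⟨g1, -, -⟩ := hx (2 ^ k) hx1 hk
    obtain ⟨vx, hvx, hevx, -, -, hvxD⟩ := hv (2 ^ k) hx1
    have h1 := three_types (k := k) (W := W) hDo.measurableSet g1.measurableSet hDfin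
      inter_subset_left (T := T) hWsub (C2 * (1 + k) ^ 2 * X / 2 ^ k) (by
        intro S hS
        have h2 := hcapB V _ g1.measurableSet vx hvx (2 ^ k * s / 2) (by positivity)
          (fun p hp => hvxD p hp.1 hp.2) k S (fun c hc => ⟨(hS c hc).2, (hobsW k c (hS c hc).1).2⟩)
        exact energy_count2 ha he hsa (by positivity) hCB.le h2 hevx)
    have h2 := hgain (2 ^ k) hx1 hk
    have h20 : 0 ≤ 3 / 10 * ν * √(T.card : ℝ) := by positivity
    have h3 : vol (D \ (D ∩ {p | 2 ^ k * s / 2 < f p})) + vol (cells T \ D) ≤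
        max G 0 / ν + (250 * (r ^ 4 * l * e) * 2 ^ k) / ν := by
      rw [← add_div, le_div_iff₀ hν]
      have h6 : G ≤ max G 0 := le_max_left _ _
      linarith
    calc ((lev W k).card : ℝ) ≤ C2 * (1 + k) ^ 2 * X / 2 ^ k +
          4 / 4 ^ k * (vol (D \ (D ∩ {p | 2 ^ k * s / 2 < f p})) + vol (cells T \ D)) := h1
      _ ≤ C2 * (1 + k) ^ 2 * X / 2 ^ k +
          4 / 4 ^ k * (max G 0 / ν + (250 * (r ^ 4 * l * e) * 2 ^ k) / ν) := by gcongr
      _ = C2 * (1 + k) ^ 2 / 2 ^ k * X + (4 / ν) * max G 0 / 4 ^ k +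
          (1000 / ν) * (r ^ 4 * l * e) / 2 ^ k := by
        generalize max G 0 = M
        generalize r ^ 4 * l * e = M'
        generalize X = X'
        have h44 : (4 : ℝ) ^ k = 2 ^ k * 2 ^ k := by
          rw [← mul_pow]; norm_num
        rw [h44]
        field_simp
        ring

end Pool.Agent.BSs
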