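import Pool.Agent.BSv.Lam

/-!
# Module CUT: logarithmic cut-offs around the corners of the grid `a ℤ²`

By scaling take `a = 1` (`χ c p = χ1 c (p/a)`).  `n2 = (p.1-c.1)² + (p.2-c.2)²`,
`Λ = log (m²/4) - log 32 = log (m²/128) ≥ log m` (`m ≥ 200`), `S = Real.smoothTransition`,
`χ c p = S ((log (m²/4) - log n2)/Λ)`: it is `1` for `n2 ≤ 32`, `0` for `n2 ≥ m²/4`
(smooth also at the corner because it is constant there); sup distance `< 4` implies `n2 < 32`, sup
distance `≥ m/2` implies `n2 ≥ m²/4`.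
`gr2 (χ c) p ≤ M² · 4/(n2 Λ²)` for `32 ≤ n2 ≤ m²/4` and `0` otherwise, `M` a bound of `|S'|`.
Sum over the grid: at most `9 · 4^j` corners within sup distance `2^j ≥ 1` of `p`; dyadic shells:
`∑_{1 ≤ n2 ≤ m²} 1/n2 ≤ 36 (log2 m + 2) ≤ C log m`.  So `∑ gr2 (χ c) p ≤ C/(a² log m)`.
Number of `c` with `gr2 (χ c) p ≠ 0`: corners within sup distance `m a/2` of `p`, at most `(m+1)²`.

(The file uses `log (1 + n2)` in place of `log n2`.)
-/

open MeasureTheory Set Filter Topology Pool.Agent.BSv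
open scoped ENNReal NNReal ContDiff

noncomputable section

namespace Pool.Agent.BSs

/-! ### the smooth transition -/

private theorem Cut_S0 {x : ℝ} (hx : x < 0) : deriv Real.smoothTransition x = 0 := by
  have h1 : Real.smoothTransition =ᶠ[𝓝 x] fun _ => 0 := by
    filter_upwards [Iio_mem_nhds hx] with y hy
    exact Real.smoothTransition.zero_of_nonpos (le_of_lt hy)
  rw [h1.deriv_eq]
  simp

private theorem Cut_S1 {x : ℝ} (hx : 1 < x) : deriv Real.smoothTransition x = 0 := by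
  have h1 : Real.smoothTransition =ᶠ[𝓝 x] fun _ => 1 := by
    filter_upwards [Ioi_mem_nhds hx] with y hy
    exact Real.smoothTransition.one_of_one_le (le_of_lt hy)
  rw [h1.deriv_eq]
  simp

private theorem Cut_SM : ∃ M : ℝ, 0 < M ∧ ∀ x, |deriv Real.smoothTransition x| ≤ M := by
  have h1 : Continuous (deriv Real.smoothTransition) :=
    (Real.smoothTransition.contDiff (n := 1)).continuous_deriv le_rfl
  obtain ⟨M, hM⟩ := (isCompact_Icc (a := (0 : ℝ)) (b := 1)).exists_bound_of_continuousOn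
    h1.continuousOn
  refine ⟨|M| + 1, by positivity, fun x => ?_⟩
  rcases lt_or_ge x 0 with hx | hx
  · rw [Cut_S0 hx, abs_zero]
    positivity
  rcases lt_or_ge 1 x with hx' | hx'
  · rw [Cut_S1 hx', abs_zero]
    positivity
  have h2 := hM x ⟨hx, hx'⟩
  rw [Real.norm_eq_abs] at h2
  linarith [le_abs_self M]

/-! ### the grid sum -/

private theorem Cut_near {q : ℝ} {c : ℤ} {m : ℕ} (hm : 200 ≤ m) (h : (q - c) ^ 2 ≤ (m : ℝ) ^ 2 / 4) :
    (c - ⌊q⌋).natAbs < m := by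
  have hm' : (200 : ℝ) ≤ m := by exact_mod_cast hm
  have h1 : |q - c| ≤ m / 2 := by
    refine abs_le_of_sq_le_sq ?_ (by positivity)
    calc (q - c) ^ 2 ≤ (m : ℝ) ^ 2 / 4 := h
      _ = (m / 2 : ℝ) ^ 2 := by ring
  have h2 : ((c - ⌊q⌋).natAbs : ℝ) = |(c : ℝ) - ⌊q⌋| := by
    rw [Nat.cast_natAbs]
    push_cast
    rfl
  have h3 : |(c : ℝ) - ⌊q⌋| ≤ m / 2 + 1 := by
    have h4 := Int.floor_le q
    have h5 := Int.lt_floor_add_one q
    rw [abs_le] at h1 ⊢
    constructor <;> linarith [h1.1, h1.2]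
  have h6 : ((c - ⌊q⌋).natAbs : ℝ) < m := by
    rw [h2]
    linarith
  exact_mod_cast h6

private theorem Cut_far {q : ℝ} {c : ℤ} : ((c - ⌊q⌋).natAbs : ℝ) ^ 2 / 2 ≤ 1 + (q - c) ^ 2 := by
  obtain ⟨k, hk⟩ : ∃ k : ℕ, k = (c - ⌊q⌋).natAbs := ⟨_, rfl⟩
  have h2 : (k : ℝ) = |(c : ℝ) - ⌊q⌋| := by
    rw [hk, Nat.cast_natAbs]
    push_cast
    rfl
  rw [← hk]
  have h4 := Int.floor_le q
  have h5 := Int.lt_floor_add_one q
  have h3 : (k : ℝ) - 1 ≤ |q - c| := by
    rw [h2]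
    have h6 : |(c : ℝ) - ⌊q⌋| ≤ |q - c| + |q - ⌊q⌋| := by
      have := abs_sub_le (c : ℝ) q ⌊q⌋
      rw [abs_sub_comm (c : ℝ) q] at this
      exact this
    have h7 : |q - ⌊q⌋| ≤ 1 := by
      rw [abs_le]
      constructor <;> linarith
    linarith
  rcases Nat.eq_zero_or_pos k with h0 | h0
  · rw [h0]
    simp
    positivity
  · have h8 : (1 : ℝ) ≤ k := by exact_mod_cast h0
    have h9 : ((k : ℝ) - 1) ^ 2 ≤ (q - c) ^ 2 := by
      rw [← sq_abs (q - c)]
      exact pow_le_pow_left₀ (by linarith) h3 2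
    nlinarith [sq_nonneg ((k : ℝ) - 2)]

private def Cut_w (q : Pl) (c : ℤ × ℤ) : ℝ := (q.1 - c.1) ^ 2 + (q.2 - c.2) ^ 2

private def Cut_h (q : Pl) (c : ℤ × ℤ) : ℕ := max (c.1 - ⌊q.1⌋).natAbs (c.2 - ⌊q.2⌋).natAbs

private theorem Cut_hw (q : Pl) (c : ℤ × ℤ) : (Cut_h q c : ℝ) ^ 2 / 2 ≤ 1 + Cut_w q c := by
  unfold Cut_h Cut_w
  have h1 := Cut_far (q := q.1) (c := c.1)
  have h2 := Cut_far (q := q.2) (c := c.2)
  rcases le_total (c.1 - ⌊q.1⌋).natAbs (c.2 - ⌊q.2⌋).natAbs with h | h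
  · rw [max_eq_right h]
    linarith [sq_nonneg (q.1 - c.1)]
  · rw [max_eq_left h]
    linarith [sq_nonneg (q.2 - c.2)]

private theorem Cut_fib (q : Pl) (L : Finset (ℤ × ℤ)) (k : ℕ) :
    (L.filter fun c => Cut_h q c = k).card ≤ (Finset.box k : Finset (ℤ × ℤ)).card := by
  refine Finset.card_le_card_of_injOn (fun c => (c.1 - ⌊q.1⌋, c.2 - ⌊q.2⌋)) ?_ ?_
  · intro c hc
    have h1 := (Finset.mem_filter.1 (Finset.mem_coe.1 hc)).2
    exact Finset.mem_coe.2 (Int.mem_box.2 h1)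
  · intro c _ d _ h
    have h1 := congrArg Prod.fst h
    have h2 := congrArg Prod.snd h
    simp only at h1 h2
    ext
    · linarith
    · linarith

private theorem Cut_sum (q : Pl) {m : ℕ} (hm : 200 ≤ m) (L : Finset (ℤ × ℤ))
    (hL : ∀ c ∈ L, Cut_w q c ≤ (m : ℝ) ^ 2 / 4) :
    ∑ c ∈ L, 1 / (1 + Cut_w q c) ≤ 33 * Real.log m ∧ (L.card : ℝ) ≤ 4 * (m : ℝ) ^ 2 := by
  have hm' : (200 : ℝ) ≤ m := by exact_mod_cast hm
  have hw0 : ∀ c, 0 ≤ Cut_w q c := fun c => by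
    unfold Cut_w
    positivity
  have h1 : ∀ c ∈ L, (c.1 - ⌊q.1⌋).natAbs < m ∧ (c.2 - ⌊q.2⌋).natAbs < m := by
    intro c hc
    have h2 := hL c hc
    unfold Cut_w at h2
    exact ⟨Cut_near hm (by linarith [sq_nonneg (q.2 - c.2)]),
      Cut_near hm (by linarith [sq_nonneg (q.1 - c.1)])⟩
  constructor
  · have h3 : ∀ c ∈ L, Cut_h q c ∈ Finset.range m := by
      intro c hc
      rw [Finset.mem_range]
      exact max_lt (h1 c hc).1 (h1 c hc).2
    rw [← Finset.sum_fiberwise_of_maps_to h3]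
    obtain ⟨n, rfl⟩ : ∃ n, m = n + 1 := ⟨m - 1, by omega⟩
    rw [Finset.sum_range_succ']
    have h4 : ∑ c ∈ L.filter (fun c => Cut_h q c = 0), 1 / (1 + Cut_w q c) ≤ 1 := by
      refine (Finset.sum_le_card_nsmul _ _ 1 fun c _ => ?_).trans ?_
      · rw [div_le_one (by linarith [hw0 c])]
        linarith [hw0 c]
      · have h5 := Cut_fib q L 0
        rw [Finset.box_zero, Finset.card_singleton] at h5
        rw [nsmul_eq_mul, mul_one]
        exact_mod_cast h5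
    have h6 : ∀ k ∈ Finset.range n, ∑ c ∈ L.filter (fun c => Cut_h q c = k + 1),
        1 / (1 + Cut_w q c) ≤ 16 * ((k : ℝ) + 1)⁻¹ := by
      intro k _
      have hk : (0 : ℝ) < k + 1 := by positivity
      refine (Finset.sum_le_card_nsmul _ _ (2 / ((k : ℝ) + 1) ^ 2) fun c hc => ?_).trans ?_
      · have h7 := (Finset.mem_filter.1 hc).2
        have h8 := Cut_hw q c
        rw [h7] at h8
        push_cast at h8
        rw [div_le_div_iff₀ (by linarith [hw0 c]) (by positivity)]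
        linarith
      · have h5 := Cut_fib q L (k + 1)
        rw [Int.card_box (by omega)] at h5
        have h9 : ((L.filter fun c => Cut_h q c = k + 1).card : ℝ) ≤ 8 * (k + 1) := by
          exact_mod_cast h5
        rw [nsmul_eq_mul]
        calc ((L.filter fun c => Cut_h q c = k + 1).card : ℝ) * (2 / ((k : ℝ) + 1) ^ 2)
            ≤ 8 * (k + 1) * (2 / ((k : ℝ) + 1) ^ 2) :=
              mul_le_mul_of_nonneg_right h9 (by positivity)
          _ = 16 * ((k : ℝ) + 1)⁻¹ := by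
              field_simp
              ring
    have h10 : (∑ k ∈ Finset.range n, 16 * ((k : ℝ) + 1)⁻¹) ≤ 16 * (1 + Real.log n) := by
      rw [← Finset.mul_sum]
      have h11 := harmonic_le_one_add_log n
      unfold harmonic at h11
      push_cast at h11
      linarith
    have h12 : Real.log n ≤ Real.log ((n + 1 : ℕ) : ℝ) := by
      apply Real.log_le_log
      · have : (200 : ℝ) ≤ n + 1 := by exact_mod_cast hm
        linarith
      · push_cast
        linarith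
    have h13 : 1 ≤ Real.log ((n + 1 : ℕ) : ℝ) := by
      rw [Real.le_log_iff_exp_le (by positivity)]
      have := Real.exp_one_lt_d9
      linarith
    have h14 := Finset.sum_le_sum h6
    linarith
  · have h15 : L ⊆ Finset.Icc (⌊q.1⌋ - (m - 1)) (⌊q.1⌋ + (m - 1)) ×ˢ
        Finset.Icc (⌊q.2⌋ - (m - 1)) (⌊q.2⌋ + (m - 1)) := by
      intro c hc
      have h16 := h1 c hc
      rw [Finset.mem_product, Finset.mem_Icc, Finset.mem_Icc]
      omega
    have h17 := Finset.card_le_card h15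
    rw [Finset.card_product, Int.card_Icc, Int.card_Icc] at h17
    have h18 : (⌊q.1⌋ + ((m : ℤ) - 1) + 1 - (⌊q.1⌋ - (m - 1))).toNat = 2 * m - 1 := by omega
    have h19 : (⌊q.2⌋ + ((m : ℤ) - 1) + 1 - (⌊q.2⌋ - (m - 1))).toNat = 2 * m - 1 := by omega
    rw [h18, h19] at h17
    have h20 : (2 * m - 1) * (2 * m - 1) ≤ 4 * m ^ 2 := by
      calc (2 * m - 1) * (2 * m - 1) ≤ (2 * m) * (2 * m) :=
            Nat.mul_le_mul (Nat.sub_le _ _) (Nat.sub_le _ _)
        _ = 4 * m ^ 2 := by ring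
    exact_mod_cast h17.trans h20

open Classical in
theorem cut : ∃ C : ℝ, 0 < C ∧ ∀ (m : ℕ), 200 ≤ m → ∀ a : ℝ, 0 < a →
    ∃ χ : ℤ × ℤ → Pl → ℝ, (∀ c, ContDiff ℝ ∞ (χ c)) ∧ (∀ c p, 0 ≤ χ c p ∧ χ c p ≤ 1) ∧
      (∀ c p, dist p ((a * c.1, a * c.2) : Pl) < 4 * a → χ c p = 1) ∧
      (∀ c p, m * a / 2 ≤ dist p ((a * c.1, a * c.2) : Pl) → χ c p = 0) ∧
      (∀ p (L : Finset (ℤ × ℤ)), ∑ c ∈ L, gr2 (χ c) p ≤ C / (a ^ 2 * Real.log m)) ∧
      (∀ p (L : Finset (ℤ × ℤ)), ((L.filter fun c => gr2 (χ c) p ≠ 0).card : ℝ) ≤ 4 * m ^ 2) := by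
  obtain ⟨M, hM0, hM⟩ := Cut_SM
  refine ⟨132 * M ^ 2, by positivity, ?_⟩
  intro m hm a ha
  have hm' : (200 : ℝ) ≤ m := by exact_mod_cast hm
  obtain ⟨A, hA⟩ : ∃ A : ℝ, A = Real.log (1 + (m : ℝ) ^ 2 / 4) := ⟨_, rfl⟩
  obtain ⟨Λ, hΛ⟩ : ∃ Λ : ℝ, Λ = A - Real.log 33 := ⟨_, rfl⟩
  have hlog1 : 1 ≤ Real.log m := by
    rw [Real.le_log_iff_exp_le (by linarith)]
    have := Real.exp_one_lt_d9
    linarith
  have hΛm : Real.log m ≤ Λ := by
    rw [hΛ, hA, ← Real.log_div (by positivity) (by norm_num)]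
    apply Real.log_le_log (by linarith)
    rw [le_div_iff₀ (by norm_num)]
    nlinarith
  have hΛ0 : 0 < Λ := by linarith
  obtain ⟨v, hv⟩ : ∃ v : ℤ × ℤ → Pl → ℝ, v = fun c p =>
      ((p.1 - a * c.1) ^ 2 + (p.2 - a * c.2) ^ 2) / a ^ 2 := ⟨_, rfl⟩
  have hv0 : ∀ c p, 0 ≤ v c p := fun c p => by
    rw [hv]
    positivity
  have hvs : ∀ c, ContDiff ℝ ∞ (v c) := by
    intro c
    rw [hv]
    fun_prop
  obtain ⟨χ, hχ⟩ : ∃ χ : ℤ × ℤ → Pl → ℝ, χ = fun c p =>
      Real.smoothTransition ((A - Real.log (1 + v c p)) / Λ) := ⟨_, rfl⟩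
  have hvd : ∀ (c : ℤ × ℤ) (p : Pl), |p.1 - a * c.1| ≤ dist p ((a * c.1, a * c.2) : Pl) ∧
      |p.2 - a * c.2| ≤ dist p ((a * c.1, a * c.2) : Pl) := by
    intro c p
    rw [Prod.dist_eq, Real.dist_eq, Real.dist_eq]
    exact ⟨le_max_left _ _, le_max_right _ _⟩
  -- the gradient
  obtain ⟨s, hs⟩ : ∃ s : ℤ × ℤ → Pl → ℝ, s = fun c p =>
      deriv Real.smoothTransition ((A - Real.log (1 + v c p)) / Λ) := ⟨_, rfl⟩
  have hgr : ∀ c p, gr2 (χ c) p = s c p ^ 2 * (4 * v c p) / (a ^ 2 * Λ ^ 2 * (1 + v c p) ^ 2) := by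
    intro c p
    have e1 : HasFDerivAt (fun p : Pl => p.1) (ContinuousLinearMap.fst ℝ ℝ ℝ) p := hasFDerivAt_fst
    have e2 : HasFDerivAt (fun p : Pl => p.2) (ContinuousLinearMap.snd ℝ ℝ ℝ) p := hasFDerivAt_snd
    have e3 := ((e1.sub_const (a * c.1)).pow 2).add ((e2.sub_const (a * c.2)).pow 2)
    have e4 := (e3.mul_const (1 / a ^ 2))
    obtain ⟨v', hv'⟩ : ∃ v' : Pl →L[ℝ] ℝ, v' = (1 / a ^ 2) •
      ((2 • (p.1 - a * ↑c.1) ^ (2 - 1)) • ContinuousLinearMap.fst ℝ ℝ ℝ +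
        (2 • (p.2 - a * ↑c.2) ^ (2 - 1)) • ContinuousLinearMap.snd ℝ ℝ ℝ) := ⟨_, rfl⟩
    rw [← hv'] at e4
    have hvc : v c = fun y => ((y.1 - a * c.1) ^ 2 + (y.2 - a * c.2) ^ 2) * (1 / a ^ 2) := by
      rw [hv]
      funext y
      simp only
      ring
    have e5 : HasFDerivAt (v c) v' p := by
      rw [hvc]
      exact e4
    have hpos : (1 + v c p) ≠ 0 := by linarith [hv0 c p]
    have e6 := (e5.const_add 1).log hpos
    have e7 := (e6.const_sub A).mul_const (1 / Λ)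
    have e8 : HasDerivAt Real.smoothTransition (s c p) ((A - Real.log (1 + v c p)) * (1 / Λ)) := by
      rw [hs, mul_one_div]
      exact ((Real.smoothTransition.contDiff (n := 1)).differentiable
        (by norm_num)).differentiableAt.hasDerivAt
    have e9 := e8.comp_hasFDerivAt p e7
    have hχc : χ c = Real.smoothTransition ∘ fun y => (A - Real.log (1 + v c y)) * (1 / Λ) := by
      rw [hχ]
      funext y
      simp only [Function.comp_apply]
      rw [mul_one_div]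
    have e10 : fderiv ℝ (χ c) p = s c p • (1 / Λ) • -((1 + v c p)⁻¹ • v') := by
      rw [hχc]
      exact e9.fderiv
    unfold gr2 dx dy
    rw [e10, hv']
    have e11 : v c p * a ^ 2 = (p.1 - a * c.1) ^ 2 + (p.2 - a * c.2) ^ 2 := by
      rw [hv]
      field_simp
    simp
    field_simp
    rw [← e11]
    ring
  have hgr1 : ∀ c p, gr2 (χ c) p ≤ 4 * M ^ 2 / (a ^ 2 * Λ ^ 2) * (1 / (1 + v c p)) := by
    intro c p
    rw [hgr]
    have hpos : 0 < (1 + v c p) := by linarith [hv0 c p]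
    have h1 : s c p ^ 2 ≤ M ^ 2 := by
      rw [← sq_abs]
      apply pow_le_pow_left₀ (abs_nonneg _)
      rw [hs]
      exact hM _
    rw [div_mul_div_comm, div_le_div_iff₀ (by positivity) (by positivity)]
    have h2 : s c p ^ 2 * v c p ≤ M ^ 2 * (1 + v c p) := by
      apply mul_le_mul h1 (by linarith) (hv0 c p) (by positivity)
    have h3 : 0 ≤ 4 * (a ^ 2 * Λ ^ 2 * (1 + v c p)) := by positivity
    calc s c p ^ 2 * (4 * v c p) * (a ^ 2 * Λ ^ 2 * (1 + v c p))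
        = s c p ^ 2 * v c p * (4 * (a ^ 2 * Λ ^ 2 * (1 + v c p))) := by ring
      _ ≤ M ^ 2 * (1 + v c p) * (4 * (a ^ 2 * Λ ^ 2 * (1 + v c p))) :=
          mul_le_mul_of_nonneg_right h2 h3
      _ = 4 * M ^ 2 * 1 * (a ^ 2 * Λ ^ 2 * (1 + v c p) ^ 2) := by ring
  have hgr2 : ∀ c p, gr2 (χ c) p ≠ 0 → v c p ≤ (m : ℝ) ^ 2 / 4 := by
    intro c p h
    by_contra h1
    push Not at h1
    apply h
    rw [hgr]
    have h2 : s c p = 0 := by
      rw [hs]
      apply Cut_S0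
      apply div_neg_of_neg_of_pos _ hΛ0
      rw [sub_neg, hA]
      apply Real.log_lt_log (by positivity)
      linarith
    rw [h2]
    simp
  have hvw : ∀ c p, v c p = Cut_w (p.1 / a, p.2 / a) c := by
    intro c p
    rw [hv]
    unfold Cut_w
    field_simp
  refine ⟨χ, ?_, ?_, ?_, ?_, ?_, ?_⟩
  · intro c
    rw [hχ]
    refine Real.smoothTransition.contDiff.comp ?_
    refine (contDiff_const.sub ?_).div_const _
    exact (contDiff_const.add (hvs c)).log fun p => by linarith [hv0 c p]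
  · intro c p
    rw [hχ]
    exact ⟨Real.smoothTransition.nonneg _, Real.smoothTransition.le_one _⟩
  · intro c p h
    rw [hχ]
    apply Real.smoothTransition.one_of_one_le
    rw [le_div_iff₀ hΛ0, one_mul, hΛ]
    have h1 : v c p ≤ 32 := by
      rw [hv]
      simp only
      rw [div_le_iff₀ (by positivity)]
      have h2 := (hvd c p).1.trans h.le
      have h3 := (hvd c p).2.trans h.le
      have h4 : (p.1 - a * c.1) ^ 2 ≤ (4 * a) ^ 2 := by
        rw [← sq_abs]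
        exact pow_le_pow_left₀ (abs_nonneg _) h2 2
      have h5 : (p.2 - a * c.2) ^ 2 ≤ (4 * a) ^ 2 := by
        rw [← sq_abs]
        exact pow_le_pow_left₀ (abs_nonneg _) h3 2
      linarith
    have h6 : Real.log (1 + v c p) ≤ Real.log 33 :=
      Real.log_le_log (by linarith [hv0 c p]) (by linarith)
    linarith
  · intro c p h
    rw [hχ]
    apply Real.smoothTransition.zero_of_nonpos
    apply div_nonpos_of_nonpos_of_nonneg _ hΛ0.le
    rw [sub_nonpos, hA]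
    apply Real.log_le_log (by positivity)
    have h1 : (m : ℝ) ^ 2 / 4 ≤ v c p := by
      rw [hv]
      simp only
      rw [le_div_iff₀ (by positivity)]
      rw [Prod.dist_eq, Real.dist_eq, Real.dist_eq] at h
      rcases le_max_iff.1 h with h2 | h2
      · have h3 : (m * a / 2) ^ 2 ≤ |p.1 - a * c.1| ^ 2 := pow_le_pow_left₀ (by positivity) h2 2
        rw [sq_abs] at h3
        linarith [sq_nonneg (p.2 - a * c.2)]
      · have h3 : (m * a / 2) ^ 2 ≤ |p.2 - a * c.2| ^ 2 := pow_le_pow_left₀ (by positivity) h2 2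
        rw [sq_abs] at h3
        linarith [sq_nonneg (p.1 - a * c.1)]
    linarith
  · intro p L
    have h1 : ∑ c ∈ L, gr2 (χ c) p = ∑ c ∈ L.filter (fun c => gr2 (χ c) p ≠ 0), gr2 (χ c) p :=
      (Finset.sum_filter_ne_zero L).symm
    rw [h1]
    have h2 := (Cut_sum (p.1 / a, p.2 / a) hm (L.filter fun c => gr2 (χ c) p ≠ 0) (by
      intro c hc
      rw [← hvw]
      exact hgr2 c p (Finset.mem_filter.1 hc).2)).1
    calc ∑ c ∈ L.filter (fun c => gr2 (χ c) p ≠ 0), gr2 (χ c) p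
        ≤ ∑ c ∈ L.filter (fun c => gr2 (χ c) p ≠ 0),
          4 * M ^ 2 / (a ^ 2 * Λ ^ 2) * (1 / (1 + Cut_w (p.1 / a, p.2 / a) c)) := by
          refine Finset.sum_le_sum fun c _ => ?_
          rw [← hvw]
          exact hgr1 c p
      _ = 4 * M ^ 2 / (a ^ 2 * Λ ^ 2) * ∑ c ∈ L.filter (fun c => gr2 (χ c) p ≠ 0),
          (1 / (1 + Cut_w (p.1 / a, p.2 / a) c)) := by rw [Finset.mul_sum]
      _ ≤ 4 * M ^ 2 / (a ^ 2 * Λ ^ 2) * (33 * Real.log m) :=
          mul_le_mul_of_nonneg_left h2 (by positivity)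
      _ ≤ 132 * M ^ 2 / (a ^ 2 * Real.log m) := by
          rw [div_mul_eq_mul_div, div_le_div_iff₀ (by positivity) (by positivity)]
          have h3 : Real.log m ^ 2 ≤ Λ ^ 2 := pow_le_pow_left₀ (by linarith) hΛm 2
          have h4 : 0 ≤ 132 * M ^ 2 * a ^ 2 := by positivity
          calc 4 * M ^ 2 * (33 * Real.log m) * (a ^ 2 * Real.log m)
              = 132 * M ^ 2 * a ^ 2 * Real.log m ^ 2 := by ring
            _ ≤ 132 * M ^ 2 * a ^ 2 * Λ ^ 2 := mul_le_mul_of_nonneg_left h3 h4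
            _ = 132 * M ^ 2 * (a ^ 2 * Λ ^ 2) := by ring
  · intro p L
    exact (Cut_sum (p.1 / a, p.2 / a) hm (L.filter fun c => gr2 (χ c) p ≠ 0) (by
      intro c hc
      rw [← hvw]
      exact hgr2 c p (Finset.mem_filter.1 hc).2)).2

end Pool.Agent.BSs
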