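import Pool.Agent.BSv.Lam

/-!
# Module DIL: dilations

`dil μ f p = μ f (μ p)` keeps the mass, multiplies the energy by `μ²`.  Change of variables
(`MeasureTheory.Measure.integral_comp_smul`, dimension two), chain rule for `dx`, `dy`.
`lam_pre`: the two sets of energies are in bijection (`dil μ`, `dil μ⁻¹`), `sInf` of a multiple.
-/

open MeasureTheory Set Filter Topology Pool.Agent.BSv
open scoped ENNReal NNReal ContDiff

noncomputable section

namespace Pool.Agent.BSs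

/-- dilation -/
def dil (μ : ℝ) (f : Pl → ℝ) : Pl → ℝ := fun p => μ * f (μ • p)

private theorem Dil_int {μ : ℝ} (hμ : 0 < μ) (g : Pl → ℝ) :
    ∫ p : Pl, g (μ • p) = (μ ^ 2)⁻¹ * ∫ p : Pl, g p := by
  rw [Measure.integral_comp_smul]
  have h : Module.finrank ℝ Pl = 2 := by simp [Pl]
  rw [h, abs_of_pos (by positivity), smul_eq_mul]

theorem dil_ms {μ : ℝ} (hμ : 0 < μ) (f : Pl → ℝ) : ms (dil μ f) = ms f := by
  unfold ms
  have h1 : ∀ p : Pl, dil μ f p ^ 2 = μ ^ 2 * (fun q : Pl => f q ^ 2) (μ • p) := by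
    intro p
    unfold dil
    ring
  rw [integral_congr_ae (Eventually.of_forall h1), integral_const_mul,
    Dil_int hμ (fun q : Pl => f q ^ 2), ← mul_assoc, mul_inv_cancel₀ (by positivity), one_mul]

theorem dil_en {μ : ℝ} (hμ : 0 < μ) {f : Pl → ℝ} (hf : ContDiff ℝ ∞ f) :
    en (dil μ f) = μ ^ 2 * en f := by
  have h : ∀ p, gr2 (dil μ f) p = μ ^ 4 * gr2 f (μ • p) := by
    intro p
    have h2 : DifferentiableAt ℝ f (μ • p) := (hf.differentiable (by simp)).differentiableAt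
    have h3 : HasFDerivAt (fun q : Pl => μ • q) (μ • ContinuousLinearMap.id ℝ Pl) p :=
      (hasFDerivAt_id p).const_smul μ
    have h4 : HasFDerivAt (fun q : Pl => μ * f (μ • q))
        (μ • ((fderiv ℝ f (μ • p)).comp (μ • ContinuousLinearMap.id ℝ Pl))) p :=
      (h2.hasFDerivAt.comp p h3).const_mul μ
    have h1 : fderiv ℝ (dil μ f) p =
        μ • ((fderiv ℝ f (μ • p)).comp (μ • ContinuousLinearMap.id ℝ Pl)) := h4.fderiv
    unfold gr2 dx dy
    rw [h1]
    simp only [smul_apply, ContinuousLinearMap.comp_apply, ContinuousLinearMap.id_apply, map_smul,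
      smul_eq_mul]
    ring
  unfold en
  rw [integral_congr_ae (Eventually.of_forall h), integral_const_mul, Dil_int hμ (gr2 f)]
  have hμ' : μ ≠ 0 := hμ.ne'
  field_simp

theorem dil_cc {μ : ℝ} (hμ : 0 < μ) {U : Set Pl} {f : Pl → ℝ} (hf : CC U f) :
    CC ((fun p : Pl => μ • p) ⁻¹' U) (dil μ f) := by
  have hμ' : μ ≠ 0 := hμ.ne'
  have hs : Function.support (dil μ f) = (fun p : Pl => μ • p) ⁻¹' Function.support f := by
    ext p
    simp [dil, hμ']
  let e : Pl ≃ₜ Pl := Homeomorph.smulOfNeZero μ hμ'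
  have ht : tsupport (dil μ f) = (fun p : Pl => μ • p) ⁻¹' tsupport f := by
    unfold tsupport
    rw [hs]
    exact (e.preimage_closure _).symm
  refine ⟨contDiff_const.mul (hf.smooth.comp (contDiff_const_smul μ)), ?_, ?_⟩
  · unfold HasCompactSupport
    rw [ht]
    exact e.isCompact_preimage.2 hf.cpt
  · rw [ht]
    exact preimage_mono hf.sub

theorem volume_pre {μ : ℝ} (hμ : 0 < μ) (U : Set Pl) :
    volume ((fun p : Pl => μ • p) ⁻¹' U) = ENNReal.ofReal ((μ ^ 2)⁻¹) * volume U := by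
  have h := Measure.addHaar_preimage_smul (volume : Measure Pl) hμ.ne' U
  have h2 : Module.finrank ℝ Pl = 2 := by simp [Pl]
  rw [h2, abs_of_pos (by positivity)] at h
  exact h

theorem vol_pre {μ : ℝ} (hμ : 0 < μ) (U : Set Pl) :
    vol ((fun p : Pl => μ • p) ⁻¹' U) = (μ ^ 2)⁻¹ * vol U := by
  unfold vol
  rw [volume_pre hμ, ENNReal.toReal_mul, ENNReal.toReal_ofReal (by positivity)]

open scoped Pointwise in
theorem lam_pre {μ : ℝ} (hμ : 0 < μ) (U : Set Pl) :
    lam ((fun p : Pl => μ • p) ⁻¹' U) = μ ^ 2 * lam U := by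
  have hμ' : μ ≠ 0 := hμ.ne'
  unfold lam
  have hset : {e | ∃ f, CC ((fun p : Pl => μ • p) ⁻¹' U) f ∧ ms f = 1 ∧ e = en f} =
      (μ ^ 2) • {e | ∃ f, CC U f ∧ ms f = 1 ∧ e = en f} := by
    ext e
    constructor
    · rintro ⟨f, hf, hm, rfl⟩
      have hi : 0 < μ⁻¹ := inv_pos.2 hμ
      refine ⟨en (dil μ⁻¹ f), ⟨dil μ⁻¹ f, ?_, by rw [dil_ms hi, hm], rfl⟩, ?_⟩
      · have h1 := dil_cc hi hf
        have h2 : (fun p : Pl => μ⁻¹ • p) ⁻¹' ((fun p : Pl => μ • p) ⁻¹' U) = U := by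
          ext p
          simp [smul_smul, hμ']
        rwa [h2] at h1
      · show μ ^ 2 • en (dil μ⁻¹ f) = en f
        rw [dil_en hi hf.smooth, smul_eq_mul]
        field_simp
    · rintro ⟨_, ⟨f, hf, hm, rfl⟩, rfl⟩
      exact ⟨dil μ f, dil_cc hμ hf, by rw [dil_ms hμ, hm], by
        show μ ^ 2 • en f = _
        rw [dil_en hμ hf.smooth, smul_eq_mul]⟩
  rw [hset, Real.sInf_smul_of_nonneg (by positivity), smul_eq_mul]

end Pool.Agent.BSs
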