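import Pool.Agent.BSs.DropAux

/-!
# Module DROP: lower bound for the survival probability by a droplet with random obstacles in the
boundary layer (helper98)

`ρ = m a`, `16 ρ² ≤ 1`, `N = cthickening (4ρ) D`, `λ = lam D`, `p' = 1 - exp (-a²) ≤ a²`.
The obstacles in the `ρ`-squares meeting `A` need not be cleared.
-/

open MeasureTheory Set Filter Topology ProbabilityTheory Pool.Agent.BSv
open scoped ENNReal NNReal ContDiff

noncomputable section

namespace Pool.Agent.BSs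

theorem lintegral_sum_ge {α : Type*} [MeasurableSpace α] {μ : Measure α} {ι : Type*}
    (s : Finset ι) (f : ι → α → ℝ≥0∞) :
    ∑ i ∈ s, ∫⁻ x, f i x ∂μ ≤ ∫⁻ x, ∑ i ∈ s, f i x ∂μ := by
  classical
  induction s using Finset.induction_on with
  | empty => simp
  | insert i s hi ih =>
    rw [Finset.sum_insert hi]
    calc ∫⁻ x, f i x ∂μ + ∑ i ∈ s, ∫⁻ x, f i x ∂μ ≤
        ∫⁻ x, f i x ∂μ + ∫⁻ x, ∑ i ∈ s, f i x ∂μ := by gcongr
      _ ≤ ∫⁻ x, (f i x + ∑ i ∈ s, f i x) ∂μ := le_lintegral_add _ _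
      _ = _ := by
        congr 1
        funext x
        rw [Finset.sum_insert hi]

/-- Jensen's inequality for the exponential function -/
theorem jensen_exp {ι : Type*} (s : Finset ι) (w x : ι → ℝ) (h0 : ∀ i ∈ s, 0 ≤ w i)
    (h1 : ∑ i ∈ s, w i = 1) :
    Real.exp (-∑ i ∈ s, w i * x i) ≤ ∑ i ∈ s, w i * Real.exp (-x i) := by
  have h := convexOn_exp.map_sum_le (t := s) (w := w) (p := fun i => -x i) h0 h1
    (fun i _ => Set.mem_univ _)
  simp only [smul_eq_mul, mul_neg, Finset.sum_neg_distrib] at h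
  exact h

/-- integration of the bound of module PATHO -/
theorem path_int {Ω : Type*} [MeasurableSpace Ω] {P : Measure Ω} {X Y : ℝ≥0 → Ω → ℝ}
    (h : PBM P X Y) {a : ℝ} (ha : 0 < a) (t : ℝ≥0) (ht : 0 < t) {D N : Set Pl}
    (hD : volume D ≠ ⊤)
    (hNm : MeasurableSet N) (hN : volume N ≠ ⊤)
    (hDN : ∀ p ∈ D, ∀ q : Pl, (q.1 - p.1) ^ 2 + (q.2 - p.2) ^ 2 ≤ a ^ 2 → q ∈ N)
    {L : Finset (ℤ × ℤ)} (hL : ∀ c ∈ L, ac a c ⊆ N) {f : Finset (ℤ × ℤ) → Pl → ℝ}
    (hf : ∀ O ⊆ L, CC D (f O)) (hf1 : ∀ O ⊆ L, ms (f O) = 1)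
    (hF : ∀ O ⊆ L, ∀ p ∈ tsupport (f O), ∀ c ∈ O, ∀ q ∈ ac a c,
      a ^ 2 < (q.1 - p.1) ^ 2 + (q.2 - p.2) ^ 2) :
    Real.exp (-(vol N - a ^ 2 * L.card)) *
      ∑ O ∈ L.powerset, wt (1 - Real.exp (-a ^ 2)) L O * Real.exp (-(((t : ℝ) + 2) * en (f O))) ≤
      vol D * surv P X Y 1 a t := by
  classical
  set p0 : ℝ := 1 - Real.exp (-a ^ 2) with hp0
  have hp00 : 0 ≤ p0 := by
    have : Real.exp (-a ^ 2) ≤ 1 := Real.exp_le_one_iff.mpr (by nlinarith)
    linarith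
  have hp01 : p0 ≤ 1 := by
    have := Real.exp_pos (-a ^ 2)
    linarith
  have hpt := path_o h ha t hNm hN hDN hL (F := fun O => tsupport (f O))
    (fun O _ => isClosed_tsupport _) (fun O hO => (hf O hO).sub) hF
  set E := Real.exp (-(vol N - a ^ 2 * L.card)) with hE
  have hE0 : 0 < E := Real.exp_pos _
  have hspos := surv_pos h one_pos ha t
  -- lower bound for the integral
  have h1 : ∀ O ∈ L.powerset, ENNReal.ofReal (Real.exp (-(((t : ℝ) + 2) * en (f O)))) ≤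
      ∫⁻ p in D, P {o | ∀ s ≤ t, pos X Y p s o ∈ tsupport (f O)} := by
    intro O hO
    have hO' := Finset.mem_powerset.mp hO
    have h2 := surv_low2 h (F := tsupport (f O)) (hf O hO').cpt ((hf O hO').mono (subset_univ _))
      subset_rfl (hf1 O hO') ht
    have h3 : -((t : ℝ) + 2) * en (f O) = -(((t : ℝ) + 2) * en (f O)) := by ring
    rw [h3] at h2
    refine h2.trans ?_
    exact lintegral_mono_set (hf O hO').sub
  have h2 : ENNReal.ofReal E * ∑ O ∈ L.powerset, ENNReal.ofReal (wt p0 L O) *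
      ENNReal.ofReal (Real.exp (-(((t : ℝ) + 2) * en (f O)))) ≤
      ENNReal.ofReal (surv P X Y 1 a t) * volume D := by
    calc ENNReal.ofReal E * ∑ O ∈ L.powerset, ENNReal.ofReal (wt p0 L O) *
        ENNReal.ofReal (Real.exp (-(((t : ℝ) + 2) * en (f O)))) ≤
        ENNReal.ofReal E * ∑ O ∈ L.powerset, ENNReal.ofReal (wt p0 L O) *
          ∫⁻ p in D, P {o | ∀ s ≤ t, pos X Y p s o ∈ tsupport (f O)} := by
          gcongr with O hO
          exact h1 O hO
      _ ≤ ENNReal.ofReal E * ∑ O ∈ L.powerset, 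
          ∫⁻ p in D, ENNReal.ofReal (wt p0 L O) *
            P {o | ∀ s ≤ t, pos X Y p s o ∈ tsupport (f O)} := by
          gcongr with O hO
          exact lintegral_const_mul_le _ _
      _ ≤ ENNReal.ofReal E * ∫⁻ p in D, ∑ O ∈ L.powerset, ENNReal.ofReal (wt p0 L O) *
            P {o | ∀ s ≤ t, pos X Y p s o ∈ tsupport (f O)} := by
          gcongr
          exact lintegral_sum_ge _ _
      _ ≤ ∫⁻ p in D, ENNReal.ofReal E * ∑ O ∈ L.powerset, ENNReal.ofReal (wt p0 L O) *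
            P {o | ∀ s ≤ t, pos X Y p s o ∈ tsupport (f O)} := lintegral_const_mul_le _ _
      _ ≤ ∫⁻ _p in D, ENNReal.ofReal (surv P X Y 1 a t) := lintegral_mono fun p => hpt p
      _ = _ := by rw [setLIntegral_const]
  have h3 : volume D = ENNReal.ofReal (vol D) := (ENNReal.ofReal_toReal hD).symm
  have h4 : ENNReal.ofReal (E * ∑ O ∈ L.powerset, wt p0 L O *
      Real.exp (-(((t : ℝ) + 2) * en (f O)))) ≤ ENNReal.ofReal (vol D * surv P X Y 1 a t) := by
    rw [ENNReal.ofReal_mul hE0.le, ENNReal.ofReal_sum_of_nonneg]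
    · rw [mul_comm (vol D), ENNReal.ofReal_mul hspos.le, ← h3]
      refine le_trans (le_of_eq ?_) h2
      congr 1
      apply Finset.sum_congr rfl
      intro O _
      rw [ENNReal.ofReal_mul (wt_nonneg hp00 hp01 _ _)]
    · intro O _
      have := wt_nonneg hp00 hp01 L O
      positivity
  have hvD0 : 0 ≤ vol D := ENNReal.toReal_nonneg
  exact (ENNReal.ofReal_le_ofReal_iff (by positivity)).mp h4

theorem drop_cc {D : Set Pl} {g : Pl → ℝ} (hg : CC D g) {φ : Pl → ℝ}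
    (hφ : ContDiff ℝ ∞ φ) : CC D (fun p => g p * φ p) := by
  have h1 : Function.support (fun p => g p * φ p) ⊆ Function.support g := by
    intro p hp hp2
    apply hp
    show g p * φ p = 0
    rw [hp2, zero_mul]
  exact ⟨hg.smooth.mul hφ, hg.cpt.mono h1, (closure_mono h1).trans hg.sub⟩

theorem gr2_cont {φ : Pl → ℝ} (hφ : ContDiff ℝ ∞ φ) : Continuous (gr2 φ) := by
  have h1 : Continuous (fderiv ℝ φ) := hφ.continuous_fderiv (by simp)
  unfold gr2 dx dy
  exact ((h1.clm_apply continuous_const).pow 2).add ((h1.clm_apply continuous_const).pow 2)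

theorem int_gg {D : Set Pl} {g : Pl → ℝ} (hg : CC D g) {φ : Pl → ℝ} (hφ : ContDiff ℝ ∞ φ) :
    Integrable (fun p => g p ^ 2 * gr2 φ p) := by
  have h1 : Continuous (fun p => g p ^ 2 * gr2 φ p) :=
    (hg.smooth.continuous.pow 2).mul (gr2_cont hφ)
  refine h1.integrable_of_hasCompactSupport ?_
  refine hg.cpt.mono ?_
  intro p hp hp2
  apply hp
  show g p ^ 2 * gr2 φ p = 0
  rw [hp2]
  ring

/-- the normalised product of a nearly optimal function and a cut-off -/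
theorem one_conf {D : Set Pl} {g : Pl → ℝ} (hg : CC D g) (hg1 : ms g = 1) {φ : Pl → ℝ}
    (hφ : ContDiff ℝ ∞ φ) (hφ01 : ∀ p, 0 ≤ φ p ∧ φ p ≤ 1) {M η : ℝ} (hM : ∀ p, gr2 φ p ≤ M)
    (hη : 0 ≤ η) (hη1 : η ≤ 1) (hge : en g ≤ lam D + η)
    (hhalf : 1 / 2 ≤ ms (fun p => g p * φ p)) :
    ∃ f : Pl → ℝ, CC D f ∧ ms f = 1 ∧ tsupport f ⊆ tsupport (fun p => g p * φ p) ∧
      en f ≤ lam D + (∫ p, g p ^ 2 * gr2 φ p) + 2 * √(η * (2 * (lam D + 1) + 4 * M)) := by
  set μ := ms (fun p => g p * φ p) with hμ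
  have hμ0 : 0 < μ := by linarith
  have hcc := drop_cc hg hφ
  have hM0 : 0 ≤ M := by
    have h1 := hM 0
    have h2 : 0 ≤ gr2 φ 0 := by unfold gr2; positivity
    linarith
  have hlam := lam_nonneg D
  refine ⟨fun p => (√μ)⁻¹ * (g p * φ p), hcc.smul _, ?_, ?_, ?_⟩
  · rw [ms_smul, ← hμ, inv_pow, Real.sq_sqrt hμ0.le]
    field_simp
  · apply closure_mono
    intro p hp h
    apply hp
    show (√μ)⁻¹ * (g p * φ p) = 0
    have : g p * φ p = 0 := h
    rw [this, mul_zero]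
  · rw [en_smul _ hcc.smooth, inv_pow, Real.sq_sqrt hμ0.le]
    have h1 := en_mul_le hg hφ (M := M)
      (fun p => by rw [abs_of_nonneg (hφ01 p).1]; exact (hφ01 p).2) (fun p _ => hM p)
    have h2 : en (fun p => g p * φ p ^ 2) ≤ 2 * (lam D + 1) + 4 * M := by
      rw [hg1] at h1
      linarith
    have h3 := ground hg hφ (η := η) (κ := 2 * (lam D + 1) + 4 * M)
      (by rw [hg1, mul_one]; exact hge) h2
    rw [← hμ] at h3
    set I := ∫ p, g p ^ 2 * gr2 φ p with hI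
    set S := √(η * (2 * (lam D + 1) + 4 * M)) with hS
    have hS0 : 0 ≤ S := Real.sqrt_nonneg _
    have hI0 : 0 ≤ I := by
      rw [hI]
      apply integral_nonneg
      intro p
      show 0 ≤ g p ^ 2 * gr2 φ p
      unfold gr2
      positivity
    rw [inv_mul_le_iff₀ hμ0]
    have h4 : 1 / 2 * I ≤ μ * I := by gcongr
    have h5 : S ≤ μ * (2 * S) := by nlinarith
    calc en (fun p => g p * φ p) ≤ lam D * μ + 1 / 2 * I + S := h3
      _ ≤ lam D * μ + μ * I + μ * (2 * S) := by linarith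
      _ = _ := by ring

/-- the mass left by the cut-off -/
theorem mass_left {D : Set Pl} {g : Pl → ℝ} (hg : CC D g) (hg1 : ms g = 1) {φ : Pl → ℝ}
    (hφ : ContDiff ℝ ∞ φ) {Z : Set Pl} (hZ : MeasurableSet Z) (hφZ : ∀ p ∉ Z, φ p = 1)
    (hh : ∫ p in Z, g p ^ 2 ≤ 1 / 2) : 1 / 2 ≤ ms (fun p => g p * φ p) := by
  have hcc := drop_cc hg hφ
  have h1 : ∫ p in Zᶜ, g p ^ 2 ≤ ms (fun p => g p * φ p) := by
    have h2 : ∫ p in Zᶜ, g p ^ 2 = ∫ p in Zᶜ, (g p * φ p) ^ 2 := by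
      apply setIntegral_congr_fun hZ.compl
      intro p hp
      show g p ^ 2 = (g p * φ p) ^ 2
      rw [hφZ p hp, mul_one]
    rw [h2]
    unfold ms
    exact setIntegral_le_integral hcc.integrable_sq (Eventually.of_forall fun p => sq_nonneg _)
  have h3 : (∫ p in Z, g p ^ 2) + ∫ p in Zᶜ, g p ^ 2 = 1 := by
    have := integral_add_compl hZ hg.integrable_sq
    rw [← hg1]
    exact this
  linarith

open Classical in
/-- the expected gradient energy of the random product of cut-offs -/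
theorem exp_energy {D : Set Pl} {g : Pl → ℝ} (hg : CC D g) {χ : ℤ × ℤ → Pl → ℝ}
    (h : ∀ c, ContDiff ℝ ∞ (χ c)) (h1 : ∀ c p, 0 ≤ χ c p ∧ χ c p ≤ 1) {L : Finset (ℤ × ℤ)}
    {Z : Set Pl} (hZ : IsClosed Z) (hχZ : ∀ c ∈ L, ∀ p ∉ Z, χ c p = 0) {p0 B n : ℝ}
    (h0 : 0 ≤ p0) (h2 : p0 ≤ 1) (hn0 : 0 ≤ n) (hB : ∀ p, ∑ c ∈ L, gr2 (χ c) p ≤ B)
    (hn : ∀ p, ((L.filter fun c => gr2 (χ c) p ≠ 0).card : ℝ) ≤ n) :
    ∑ O ∈ L.powerset, wt p0 L O * ∫ p, g p ^ 2 * gr2 (phi χ O) p ≤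
      (p0 + p0 ^ 2 * n) * B * ∫ p in Z, g p ^ 2 := by
  have hφ : ∀ O, ContDiff ℝ ∞ (phi χ O) := fun O => phi_smooth h O
  have e1 : ∑ O ∈ L.powerset, wt p0 L O * ∫ p, g p ^ 2 * gr2 (phi χ O) p =
      ∫ p, ∑ O ∈ L.powerset, wt p0 L O * (g p ^ 2 * gr2 (phi χ O) p) := by
    rw [integral_finset_sum]
    · apply Finset.sum_congr rfl
      intro O _
      rw [integral_const_mul]
    · intro O _
      exact (int_gg hg (hφ O)).const_mul _
  have hint : Integrable (fun p => ∑ O ∈ L.powerset, wt p0 L O * (g p ^ 2 * gr2 (phi χ O) p)) :=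
    integrable_finset_sum _ fun O _ => (int_gg hg (hφ O)).const_mul _
  have hoff : ∀ p ∉ Z, ∑ O ∈ L.powerset, wt p0 L O * (g p ^ 2 * gr2 (phi χ O) p) = 0 := by
    intro p hp
    apply Finset.sum_eq_zero
    intro O hO
    rw [(phi_off (Finset.mem_powerset.mp hO) hZ hχZ hp).2]
    ring
  rw [e1, ← setIntegral_eq_integral_of_forall_compl_eq_zero hoff, ← integral_const_mul]
  apply setIntegral_mono_on hint.integrableOn (hg.integrable_sq.const_mul _).integrableOn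
    hZ.measurableSet
  intro p _
  have h3 := exp_phi h h1 h0 h2 L p (hn p)
  have h4 : ∑ O ∈ L.powerset, wt p0 L O * (g p ^ 2 * gr2 (phi χ O) p) =
      g p ^ 2 * ∑ O ∈ L.powerset, wt p0 L O * gr2 (phi χ O) p := by
    rw [Finset.mul_sum]
    apply Finset.sum_congr rfl
    intro O _
    ring
  rw [h4]
  calc g p ^ 2 * ∑ O ∈ L.powerset, wt p0 L O * gr2 (phi χ O) p ≤
      g p ^ 2 * ((p0 + p0 ^ 2 * n) * ∑ c ∈ L, gr2 (χ c) p) := by gcongr
    _ ≤ g p ^ 2 * ((p0 + p0 ^ 2 * n) * B) := by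
        gcongr
        exact hB p
    _ = _ := by ring

theorem drop : ∃ C : ℝ, 0 < C ∧ ∀ (m : ℕ) (a : ℝ), 200 ≤ m → 0 < a → 16 * (m * a) ^ 2 ≤ 1 →
    ∀ D : Set Pl, IsOpen D → D.Nonempty → Bornology.IsBounded D → ∀ t : ℝ≥0, 1 ≤ t →
    ∃ η : ℝ, 0 < η ∧ ∀ g : Pl → ℝ, CC D g → ms g = 1 → en g ≤ lam D + η →
    ∀ κ : ℝ, 0 < κ → κ * vol (Metric.cthickening (4 * (m * a)) D) ≤ 1 / 2 →
    C * ((t : ℝ) + 2) * κ ≤ Real.log m / 2 →
    ∀ A ⊆ D, MeasurableSet A →
    (∀ p ∈ A, ∫ q in Metric.closedBall p (2 * (m * a)), g q ^ 2 ≤ κ * (m * a) ^ 2) →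
    ∀ (Ω : Type) [MeasurableSpace Ω] (P : Measure Ω) (X Y : ℝ≥0 → Ω → ℝ), PBM P X Y →
    Real.exp (-vol (Metric.cthickening (4 * (m * a)) D) - ((t : ℝ) + 2) * lam D + vol A / 2 - 1) ≤
      vol D * surv P X Y 1 a t := by
  classical
  obtain ⟨C, hC, hcut⟩ := cut
  refine ⟨2 * C, by positivity, ?_⟩
  intro m a hm ha h16 D hDo hDne hDb t ht
  have hmR : (200 : ℝ) ≤ m := by exact_mod_cast hm
  have hm0 : (0 : ℝ) < m := by linarith
  have hlogm : 0 < Real.log m := Real.log_pos (by linarith)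
  obtain ⟨χ, hχs, hχ01, hχ1, hχ0, hχB, hχn⟩ := hcut m hm a ha
  set ρ : ℝ := m * a with hρ
  have hρ0 : 0 < ρ := by positivity
  have haρ : 200 * a ≤ ρ := by rw [hρ]; gcongr
  set N := Metric.cthickening (4 * ρ) D with hN
  have hNb : Bornology.IsBounded N := hDb.cthickening
  have hNfin : volume N ≠ ⊤ := hNb.measure_lt_top.ne
  have hDfin : volume D ≠ ⊤ := hDb.measure_lt_top.ne
  have hNm : MeasurableSet N := Metric.isClosed_cthickening.measurableSet
  have hvN0 : 0 ≤ vol N := ENNReal.toReal_nonneg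
  have hlam := lam_nonneg D
  have ht1 : (1 : ℝ) ≤ (t : ℝ) := by exact_mod_cast ht
  have ht0 : 0 < t := lt_of_lt_of_le one_pos ht
  set B : ℝ := C / (a ^ 2 * Real.log m) with hB
  have hB0 : 0 < B := by positivity
  set M : ℝ := vol N / a ^ 2 * B with hM
  have hM0 : 0 ≤ M := by positivity
  set κ' : ℝ := 2 * (lam D + 1) + 4 * M with hκ'
  have hκ'0 : 0 < κ' := by positivity
  set η : ℝ := min 1 (1 / (4 * ((t : ℝ) + 2) ^ 2 * κ')) with hη
  have hη0 : 0 < η := lt_min one_pos (by positivity)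
  have hη1 : η ≤ 1 := min_le_left _ _
  have hηκ : ((t : ℝ) + 2) * (2 * √(η * κ')) ≤ 1 := by
    have h1 : η * κ' ≤ (1 / (2 * ((t : ℝ) + 2))) ^ 2 := by
      have h2 : η ≤ 1 / (4 * ((t : ℝ) + 2) ^ 2 * κ') := min_le_right _ _
      calc η * κ' ≤ 1 / (4 * ((t : ℝ) + 2) ^ 2 * κ') * κ' := by gcongr
        _ = _ := by field_simp; norm_num
    have h2 : √(η * κ') ≤ 1 / (2 * ((t : ℝ) + 2)) := by
      rw [← Real.sqrt_sq (show 0 ≤ 1 / (2 * ((t : ℝ) + 2)) by positivity)]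
      exact Real.sqrt_le_sqrt h1
    calc ((t : ℝ) + 2) * (2 * √(η * κ')) ≤ ((t : ℝ) + 2) * (2 * (1 / (2 * ((t : ℝ) + 2)))) := by
          gcongr
      _ = 1 := by field_simp
  refine ⟨η, hη0, ?_⟩
  intro g hg hg1 hge κ hκ hκN hκt A hAD hAm hA Ω _ P X Y hP
  have hAb : Bornology.IsBounded A := hDb.subset hAD
  obtain ⟨I, hI1, hI2⟩ := exists_squares hρ0 hAb
  set L : Finset (ℤ × ℤ) := I.biUnion (blk m) with hL
  set Z : Set Pl := ⋃ j ∈ I, rsq3 ρ j with hZ
  have hZc : IsClosed Z := I.finite_toSet.isClosed_biUnion fun j _ => isClosed_rsq3 ρ j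
  have hLc : (L.card : ℝ) = m ^ 2 * I.card := by
    rw [hL, card_blks]; push_cast; ring
  have hR : a ^ 2 * (L.card : ℝ) = ρ ^ 2 * I.card := by
    rw [hLc, hρ]; ring
  -- the cells are contained in `N`
  have hLN : ∀ c ∈ L, ac a c ⊆ N := by
    intro c hc q hq
    obtain ⟨j, hj, hcj⟩ := Finset.mem_biUnion.mp hc
    obtain ⟨p, hpA, hpj⟩ := hI1 j hj
    have h1 : dist q p ≤ ρ := rsq_dist hpj (ac_sub_rsq ha hcj hq)
    exact Metric.mem_cthickening_of_dist_le _ p _ _ (hAD hpA) (by linarith)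
  have hRN : a ^ 2 * (L.card : ℝ) ≤ vol N := by
    have h1 : volume (⋃ c ∈ L, ac a c) ≤ volume N :=
      measure_mono (Set.iUnion₂_subset hLN)
    rw [vol_acs ha] at h1
    exact (ENNReal.ofReal_le_iff_le_toReal hNfin).mp h1
  have hRA : vol A ≤ a ^ 2 * (L.card : ℝ) := by
    have h1 : A ⊆ ⋃ c ∈ L, ac a c := by
      intro p hp
      obtain ⟨j, hj, hpj⟩ := Set.mem_iUnion₂.mp (hI2 hp)
      obtain ⟨c, hc, hpc⟩ := Set.mem_iUnion₂.mp (rsq_sub_ac (by omega) ha j hpj)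
      exact Set.mem_biUnion (Finset.mem_biUnion.mpr ⟨j, hj, hc⟩) hpc
    have h2 : volume A ≤ ENNReal.ofReal (a ^ 2 * L.card) := by
      rw [← vol_acs ha]; exact measure_mono h1
    exact ENNReal.toReal_le_of_le_ofReal (by positivity) h2
  -- the cut-offs vanish off `Z`
  have hχZ : ∀ c ∈ L, ∀ p ∉ Z, χ c p = 0 := by
    intro c hc p hp
    obtain ⟨j, hj, hcj⟩ := Finset.mem_biUnion.mp hc
    apply hχ0
    by_contra hcon
    push Not at hcon
    exact hp (Set.mem_biUnion hj (near_rsq3 ha hcj hcon))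
  -- the mass in `Z`
  have hgZ : ∫ p in Z, g p ^ 2 ≤ κ * (a ^ 2 * L.card) := by
    have hgi := hg.integrable_sq
    have h1 : ∀ J : Finset (ℤ × ℤ), J ⊆ I →
        ∫ p in ⋃ j ∈ J, rsq3 ρ j, g p ^ 2 ≤ J.card * (κ * ρ ^ 2) := by
      intro J
      induction J using Finset.induction_on with
      | empty => intro _; simp
      | insert j J hj ih =>
        intro hJ
        have hJ' : J ⊆ I := (Finset.subset_insert j J).trans hJ
        have hjI : j ∈ I := hJ (Finset.mem_insert_self j J)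
        rw [Finset.set_biUnion_insert, Finset.card_insert_of_notMem hj]
        have h2 : ∫ p in rsq3 ρ j ∪ ⋃ i ∈ J, rsq3 ρ i, g p ^ 2 ≤
            (∫ p in rsq3 ρ j, g p ^ 2) + ∫ p in ⋃ i ∈ J, rsq3 ρ i, g p ^ 2 := by
          have hm1 : MeasurableSet (rsq3 ρ j) := (isClosed_rsq3 ρ j).measurableSet
          have hm2 : MeasurableSet (⋃ i ∈ J, rsq3 ρ i) :=
            J.measurableSet_biUnion fun i _ => (isClosed_rsq3 ρ i).measurableSet
          have e1 := setIntegral_union (μ := volume) (f := fun p => g p ^ 2)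
            (s := rsq3 ρ j) (t := (⋃ i ∈ J, rsq3 ρ i) \ rsq3 ρ j) disjoint_sdiff_right
            (hm2.diff hm1) hgi.integrableOn hgi.integrableOn
          rw [Set.union_diff_self] at e1
          have e2 : ∫ p in (⋃ i ∈ J, rsq3 ρ i) \ rsq3 ρ j, g p ^ 2 ≤
              ∫ p in ⋃ i ∈ J, rsq3 ρ i, g p ^ 2 :=
            setIntegral_mono_set hgi.integrableOn
              (Eventually.of_forall fun p => sq_nonneg _) (Eventually.of_forall diff_subset)
          rw [e1]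
          linarith
        have h3 : ∫ p in rsq3 ρ j, g p ^ 2 ≤ κ * ρ ^ 2 := by
          obtain ⟨p, hpA, hpj⟩ := hI1 j hjI
          refine le_trans ?_ (hA p hpA)
          exact setIntegral_mono_set hgi.integrableOn
            (Eventually.of_forall fun p => sq_nonneg _)
            (Eventually.of_forall (rsq3_sub_ball hpj))
        have h4 := ih hJ'
        push_cast
        linarith
    have h2 := h1 I subset_rfl
    rw [← hZ] at h2
    refine h2.trans (le_of_eq ?_)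
    rw [hR]; ring
  have hgZ2 : ∫ p in Z, g p ^ 2 ≤ 1 / 2 := by
    have h1 : κ * (a ^ 2 * L.card) ≤ κ * vol N := by gcongr
    linarith
  -- the functions
  have hBL : ∀ p (L' : Finset (ℤ × ℤ)), ∑ c ∈ L', gr2 (χ c) p ≤ B := hχB
  have hφM : ∀ O ⊆ L, ∀ p, gr2 (phi χ O) p ≤ M := by
    intro O hO p
    refine (gr2_phi_le hχs hχ01 hO hBL p).trans ?_
    rw [hM]
    gcongr
    rw [le_div_iff₀ (by positivity)]
    linarith
  have hconf : ∀ O ⊆ L, ∃ f : Pl → ℝ, CC D f ∧ ms f = 1 ∧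
      tsupport f ⊆ tsupport (fun p => g p * phi χ O p) ∧
      en f ≤ lam D + (∫ p, g p ^ 2 * gr2 (phi χ O) p) + 2 * √(η * κ') := by
    intro O hO
    exact one_conf hg hg1 (phi_smooth hχs O) (phi_mem hχ01 O) (hφM O hO) hη0.le hη1 hge
      (mass_left hg hg1 (phi_smooth hχs O) hZc.measurableSet
        (fun p hp => (phi_off hO hZc hχZ hp).1) hgZ2)
  choose! f hfD hf1 hfs hfe using hconf
  set p0 : ℝ := 1 - Real.exp (-a ^ 2) with hp0
  have hp00 : 0 ≤ p0 := by
    have : Real.exp (-a ^ 2) ≤ 1 := Real.exp_le_one_iff.mpr (by nlinarith)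
    linarith
  have hp01 : p0 ≤ 1 := by
    have := Real.exp_pos (-a ^ 2)
    linarith
  have hp0a : p0 ≤ a ^ 2 := by
    have := Real.add_one_le_exp (-a ^ 2)
    linarith
  have hint := path_int hP ha t ht0 hDfin hNm hNfin (L := L) (f := f) (by
    intro p hp q hq
    refine Metric.mem_cthickening_of_dist_le _ p _ _ hp ?_
    have h1 : |q.1 - p.1| ≤ a := by
      apply abs_le_of_sq_le_sq _ ha.le
      nlinarith [sq_nonneg (q.2 - p.2)]
    have h2 : |q.2 - p.2| ≤ a := by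
      apply abs_le_of_sq_le_sq _ ha.le
      nlinarith [sq_nonneg (q.1 - p.1)]
    rw [Prod.dist_eq]
    apply max_le
    · rw [Real.dist_eq]; linarith
    · rw [Real.dist_eq]; linarith) hLN hfD hf1 (by
    intro O hO p hp c hc q hq
    have hcor : 4 * a ≤ dist p ((a * c.1, a * c.2) : Pl) := by
      have h1 : tsupport (fun p => g p * phi χ O p) ⊆
          {p | 4 * a ≤ dist p ((a * c.1, a * c.2) : Pl)} := by
        apply closure_minimal
        · intro x hx
          show 4 * a ≤ dist x ((a * c.1, a * c.2) : Pl)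
          by_contra hcon
          push Not at hcon
          apply hx
          show g x * phi χ O x = 0
          have : phi χ O x = 0 := by
            unfold phi
            apply Finset.prod_eq_zero hc
            rw [hχ1 c x hcon, sub_self]
          rw [this, mul_zero]
        · exact isClosed_le continuous_const (continuous_id.dist continuous_const)
      exact h1 (hfs O hO hp)
    unfold ac at hq
    rw [mem_sq] at hq
    obtain ⟨⟨q1, q2⟩, ⟨q3, q4⟩⟩ := hq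
    rw [Prod.dist_eq, le_max_iff, Real.dist_eq, Real.dist_eq, le_abs, le_abs] at hcor
    simp only at hcor
    have s1 := sq_nonneg (q.1 - p.1)
    have s2 := sq_nonneg (q.2 - p.2)
    rcases hcor with (h1 | h1) | (h1 | h1)
    · have : 3 * a ≤ p.1 - q.1 := by linarith
      nlinarith
    · have : 3 * a ≤ q.1 - p.1 := by linarith
      nlinarith
    · have : 3 * a ≤ p.2 - q.2 := by linarith
      nlinarith
    · have : 3 * a ≤ q.2 - p.2 := by linarith
      nlinarith)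
  rw [← hp0] at hint
  -- Jensen
  have hwt1 := sum_wt_one p0 L
  have hJ := jensen_exp L.powerset (fun O => wt p0 L O) (fun O => ((t : ℝ) + 2) * en (f O))
    (fun O _ => wt_nonneg hp00 hp01 L O) hwt1
  have hE := exp_energy hg hχs hχ01 hZc hχZ hp00 hp01 (n := 4 * (m : ℝ) ^ 2) (B := B)
    (by positivity) (fun p => hBL p L) (fun p => hχn p L)
  -- the expected energy
  have hgZ0 : 0 ≤ ∫ p in Z, g p ^ 2 := setIntegral_nonneg hZc.measurableSet
    fun p _ => sq_nonneg _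
  have hE2 : (p0 + p0 ^ 2 * (4 * (m : ℝ) ^ 2)) * B * ∫ p in Z, g p ^ 2 ≤
      2 * C / Real.log m * (κ * (a ^ 2 * L.card)) := by
    have h1 : p0 + p0 ^ 2 * (4 * (m : ℝ) ^ 2) ≤ 2 * a ^ 2 := by
      have h2 : p0 ^ 2 * (4 * (m : ℝ) ^ 2) ≤ p0 * (4 * (m * a) ^ 2) := by
        calc p0 ^ 2 * (4 * (m : ℝ) ^ 2) = p0 * p0 * (4 * (m : ℝ) ^ 2) := by ring
          _ ≤ p0 * a ^ 2 * (4 * (m : ℝ) ^ 2) := by gcongr
          _ = _ := by ring
      have h3 : p0 * (4 * (m * a) ^ 2) ≤ p0 * 1 := by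
        have h4 : 4 * (m * a) ^ 2 ≤ 1 := by linarith
        gcongr
      linarith
    calc (p0 + p0 ^ 2 * (4 * (m : ℝ) ^ 2)) * B * ∫ p in Z, g p ^ 2 ≤
        (2 * a ^ 2) * B * (κ * (a ^ 2 * L.card)) := by gcongr
      _ = _ := by rw [hB]; field_simp
  have hsum : ∑ O ∈ L.powerset, wt p0 L O * (((t : ℝ) + 2) * en (f O)) ≤
      ((t : ℝ) + 2) * lam D + a ^ 2 * L.card / 2 + 1 := by
    have h1 : ∑ O ∈ L.powerset, wt p0 L O * (((t : ℝ) + 2) * en (f O)) ≤
        ∑ O ∈ L.powerset, wt p0 L O * (((t : ℝ) + 2) *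
          (lam D + (∫ p, g p ^ 2 * gr2 (phi χ O) p) + 2 * √(η * κ'))) := by
      apply Finset.sum_le_sum
      intro O hO
      have := wt_nonneg hp00 hp01 L O
      have h2 := hfe O (Finset.mem_powerset.mp hO)
      gcongr
    have h2 : ∑ O ∈ L.powerset, wt p0 L O * (((t : ℝ) + 2) *
          (lam D + (∫ p, g p ^ 2 * gr2 (phi χ O) p) + 2 * √(η * κ'))) =
        ((t : ℝ) + 2) * (lam D + 2 * √(η * κ')) * ∑ O ∈ L.powerset, wt p0 L O +
        ((t : ℝ) + 2) * ∑ O ∈ L.powerset, wt p0 L O * ∫ p, g p ^ 2 * gr2 (phi χ O) p := by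
      rw [Finset.mul_sum, Finset.mul_sum, ← Finset.sum_add_distrib]
      apply Finset.sum_congr rfl
      intro O _
      ring
    rw [h2, hwt1, mul_one] at h1
    have h3 : ((t : ℝ) + 2) * ∑ O ∈ L.powerset, wt p0 L O * ∫ p, g p ^ 2 * gr2 (phi χ O) p ≤
        a ^ 2 * L.card / 2 := by
      have h4 := hE.trans hE2
      calc ((t : ℝ) + 2) * ∑ O ∈ L.powerset, wt p0 L O * ∫ p, g p ^ 2 * gr2 (phi χ O) p ≤
          ((t : ℝ) + 2) * (2 * C / Real.log m * (κ * (a ^ 2 * L.card))) := by gcongr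
        _ = (2 * C * ((t : ℝ) + 2) * κ) / Real.log m * (a ^ 2 * L.card) := by ring
        _ ≤ (Real.log m / 2) / Real.log m * (a ^ 2 * L.card) := by gcongr
        _ = _ := by field_simp
    have h5 : ((t : ℝ) + 2) * (lam D + 2 * √(η * κ')) =
        ((t : ℝ) + 2) * lam D + ((t : ℝ) + 2) * (2 * √(η * κ')) := by ring
    rw [h5] at h1
    linarith
  calc Real.exp (-vol N - ((t : ℝ) + 2) * lam D + vol A / 2 - 1) ≤
      Real.exp (-(vol N - a ^ 2 * L.card)) *
        Real.exp (-∑ O ∈ L.powerset, wt p0 L O * (((t : ℝ) + 2) * en (f O))) := by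
        rw [← Real.exp_add]
        apply Real.exp_le_exp.mpr
        linarith
    _ ≤ Real.exp (-(vol N - a ^ 2 * L.card)) *
        ∑ O ∈ L.powerset, wt p0 L O * Real.exp (-(((t : ℝ) + 2) * en (f O))) := by
        gcongr
    _ ≤ _ := hint

end Pool.Agent.BSs
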