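import Pool.Agent.BSv.Lam

/-!
# Module GROUND: ground state representation for near minimisers

`E(g,h) = (1/2) ∫ (dx g dx h + dy g dy h)`.  Pointwise
`gr2 (g φ) = (dx g dx (g φ²) + dy g dy (g φ²)) + g² gr2 φ`, so
`en (g φ) = E(g, g φ²) + (1/2) ∫ g² gr2 φ`.
On `CC D` the quadratic form `Q h = en h - lam D · ms h` is nonnegative (`lam_mul_le`); its bilinear
form is `E(g,h) - lam D ∫ g h`; Cauchy-Schwarz (discriminant of `t ↦ Q (g + t h)`):
`|E(g,h) - lam D ∫ g h| ≤ √(Q g) √(Q h)`, with `h = g φ²`: `Q g ≤ η`, `Q h ≤ en h ≤ κ`, and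
`∫ g h = ms (g φ)`.
-/

open MeasureTheory Set Filter Topology Pool.Agent.BSv
open scoped ENNReal NNReal ContDiff

noncomputable section

namespace Pool.Agent.BSs

private theorem Ground_fd {f g : Pl → ℝ} (hf : ContDiff ℝ ∞ f) (hg : ContDiff ℝ ∞ g) (p v : Pl) :
    fderiv ℝ (fun x => f x * g x) p v = f p * fderiv ℝ g p v + g p * fderiv ℝ f p v := by
  have hfd : DifferentiableAt ℝ f p := (hf.differentiable (by simp)).differentiableAt
  have hgd : DifferentiableAt ℝ g p := (hg.differentiable (by simp)).differentiableAt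
  have h3 : fderiv ℝ (fun x => f x * g x) p = f p • fderiv ℝ g p + g p • fderiv ℝ f p :=
    fderiv_fun_mul hfd hgd
  rw [h3]
  simp

private theorem Ground_sq {φ : Pl → ℝ} (hφ : ContDiff ℝ ∞ φ) (p v : Pl) :
    fderiv ℝ (fun x => φ x ^ 2) p v = 2 * φ p * fderiv ℝ φ p v := by
  have h : (fun x => φ x ^ 2) = fun x => φ x * φ x := by
    funext x
    ring
  rw [h, Ground_fd hφ hφ]
  ring

private theorem Ground_fd2 {g φ : Pl → ℝ} (hg : ContDiff ℝ ∞ g) (hφ : ContDiff ℝ ∞ φ) (p v : Pl) :
    fderiv ℝ (fun x => g x * φ x ^ 2) p v =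
      2 * g p * φ p * fderiv ℝ φ p v + φ p ^ 2 * fderiv ℝ g p v := by
  rw [Ground_fd hg (hφ.pow 2), Ground_sq hφ]
  ring

private theorem Ground_cc {D : Set Pl} {g : Pl → ℝ} (hg : CC D g) {φ : Pl → ℝ}
    (hφ : ContDiff ℝ ∞ φ) : CC D (fun p => g p * φ p) := by
  have h1 : Function.support (fun p => g p * φ p) ⊆ Function.support g := by
    intro p hp hp2
    apply hp
    show g p * φ p = 0
    rw [hp2, zero_mul]
  exact ⟨hg.smooth.mul hφ, hg.cpt.mono h1, (closure_mono h1).trans hg.sub⟩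

private theorem Ground_cont {f : Pl → ℝ} (hf : ContDiff ℝ ∞ f) (v : Pl) :
    Continuous (fun p => fderiv ℝ f p v) :=
  (hf.continuous_fderiv (by simp)).clm_apply continuous_const

private theorem Ground_fsupp {f : Pl → ℝ} (hc : HasCompactSupport f) (v : Pl) :
    HasCompactSupport (fun p => fderiv ℝ f p v) := by
  refine (hc.fderiv ℝ).mono ?_
  intro p hp h
  apply hp
  show fderiv ℝ f p v = 0
  rw [h]
  rfl

/-- the bilinear form -/
private def Bil (f g : Pl → ℝ) (p : Pl) : ℝ := dx f p * dx g p + dy f p * dy g p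

private theorem Bil_int {D : Set Pl} {f g : Pl → ℝ} (hf : CC D f) (hg : CC D g) :
    Integrable (Bil f g) := by
  have h1 : Continuous (Bil f g) := by
    unfold Bil dx dy
    exact ((Ground_cont hf.smooth _).mul (Ground_cont hg.smooth _)).add
      ((Ground_cont hf.smooth _).mul (Ground_cont hg.smooth _))
  refine h1.integrable_of_hasCompactSupport ?_
  exact ((Ground_fsupp hf.cpt (1, 0)).mul_right).add ((Ground_fsupp hf.cpt (0, 1)).mul_right)

private theorem mul_int {D : Set Pl} {f g : Pl → ℝ} (hf : CC D f) (hg : CC D g) :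
    Integrable (fun p => f p * g p) :=
  (hf.smooth.continuous.mul hg.smooth.continuous).integrable_of_hasCompactSupport hf.cpt.mul_right

private theorem Ground_add {D : Set Pl} {f g : Pl → ℝ} (hf : CC D f) (hg : CC D g) (t : ℝ) :
    CC D (fun p => f p + t * g p) := by
  have h1 : Function.support (fun p => f p + t * g p) ⊆ Function.support f ∪ Function.support g := by
    intro p hp
    by_contra h
    rw [Set.mem_union, not_or, Function.notMem_support, Function.notMem_support] at h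
    apply hp
    show f p + t * g p = 0
    rw [h.1, h.2, mul_zero, add_zero]
  have h2 : tsupport (fun p => f p + t * g p) ⊆ tsupport f ∪ tsupport g := by
    refine (closure_mono h1).trans ?_
    rw [closure_union]
    rfl
  refine ⟨hf.smooth.add (contDiff_const.mul hg.smooth), ?_, h2.trans (Set.union_subset hf.sub hg.sub)⟩
  exact (IsCompact.union hf.cpt hg.cpt).of_isClosed_subset isClosed_closure h2

private theorem Ground_en {D : Set Pl} {f g : Pl → ℝ} (hf : CC D f) (hg : CC D g) (t : ℝ) :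
    en (fun p => f p + t * g p) = en f + t * (∫ p, Bil f g p) + t ^ 2 * en g := by
  have h1 : ∀ p v, fderiv ℝ (fun p => f p + t * g p) p v = fderiv ℝ f p v + t * fderiv ℝ g p v := by
    intro p v
    have hfd : DifferentiableAt ℝ f p := (hf.smooth.differentiable (by simp)).differentiableAt
    have hgd : DifferentiableAt ℝ g p := (hg.smooth.differentiable (by simp)).differentiableAt
    have h3 : fderiv ℝ (fun p => f p + t * g p) p = fderiv ℝ f p + fderiv ℝ (fun p => t * g p) p :=
      fderiv_fun_add hfd (hgd.const_mul t)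
    rw [h3, fderiv_const_mul hgd]
    simp
  have h2 : ∀ p, gr2 (fun p => f p + t * g p) p = gr2 f p + (2 * t * Bil f g p + t ^ 2 * gr2 g p) := by
    intro p
    unfold gr2 Bil dx dy
    rw [h1, h1]
    ring
  have i1 : Integrable (fun p => 2 * t * Bil f g p) := (Bil_int hf hg).const_mul _
  have i2 : Integrable (fun p => t ^ 2 * gr2 g p) := hg.integrable_gr2.const_mul _
  have i3 : Integrable (fun p => 2 * t * Bil f g p + t ^ 2 * gr2 g p) := i1.add i2
  unfold en
  simp_rw [h2]
  rw [integral_add hf.integrable_gr2 i3, integral_add i1 i2,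
    integral_const_mul, integral_const_mul]
  ring

private theorem Ground_ms {D : Set Pl} {f g : Pl → ℝ} (hf : CC D f) (hg : CC D g) (t : ℝ) :
    ms (fun p => f p + t * g p) = ms f + 2 * t * (∫ p, f p * g p) + t ^ 2 * ms g := by
  have h2 : ∀ p, (f p + t * g p) ^ 2 = f p ^ 2 + (2 * t * (f p * g p) + t ^ 2 * g p ^ 2) := by
    intro p
    ring
  have i1 : Integrable (fun p => 2 * t * (f p * g p)) := (mul_int hf hg).const_mul _
  have i2 : Integrable (fun p => t ^ 2 * g p ^ 2) := hg.integrable_sq.const_mul _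
  have i3 : Integrable (fun p => 2 * t * (f p * g p) + t ^ 2 * g p ^ 2) := i1.add i2
  unfold ms
  simp_rw [h2]
  rw [integral_add hf.integrable_sq i3, integral_add i1 i2,
    integral_const_mul, integral_const_mul]
  ring

theorem ground {D : Set Pl} {g : Pl → ℝ} (hg : CC D g) {φ : Pl → ℝ} (hφ : ContDiff ℝ ∞ φ)
    {η κ : ℝ} (hη : en g ≤ lam D * ms g + η) (hκ : en (fun p => g p * φ p ^ 2) ≤ κ) :
    en (fun p => g p * φ p) ≤ lam D * ms (fun p => g p * φ p) +
      (1 / 2) * (∫ p, g p ^ 2 * gr2 φ p) + √(η * κ) := by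
  set h : Pl → ℝ := fun p => g p * φ p ^ 2 with hh
  have hcc : CC D h := Ground_cc hg (hφ.pow 2)
  obtain ⟨β, hβ⟩ : ∃ β : ℝ, β = (1 / 2) * (∫ p, Bil g h p) - lam D * ∫ p, g p * h p := ⟨_, rfl⟩
  have hQ : ∀ f : Pl → ℝ, CC D f → 0 ≤ en f - lam D * ms f := fun f hf => by
    linarith [lam_mul_le hf]
  have hdis : discrim (en h - lam D * ms h) (2 * β) (en g - lam D * ms g) ≤ 0 := by
    apply discrim_le_zero
    intro t
    have h1 := hQ _ (Ground_add hg hcc t)
    rw [Ground_en hg hcc, Ground_ms hg hcc] at h1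
    rw [hβ]
    linarith
  have hQg := hQ g hg
  have hQh := hQ h hcc
  have hβ2 : β ^ 2 ≤ (en g - lam D * ms g) * (en h - lam D * ms h) := by
    unfold discrim at hdis
    nlinarith
  have h3 : en g - lam D * ms g ≤ η := by linarith
  have h4 : en h - lam D * ms h ≤ κ := by
    have := mul_nonneg (lam_nonneg D) (ms_nonneg h)
    linarith
  have hβ3 : β ≤ √(η * κ) := by
    apply Real.le_sqrt_of_sq_le
    refine hβ2.trans ?_
    exact mul_le_mul h3 h4 hQh (hQg.trans h3)
  have h5 : ∫ p, g p * h p = ms (fun p => g p * φ p) := by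
    unfold ms
    refine integral_congr_ae (Eventually.of_forall fun p => ?_)
    show g p * (g p * φ p ^ 2) = (g p * φ p) ^ 2
    ring
  have h6 : en (fun p => g p * φ p) = (1 / 2) * (∫ p, Bil g h p) +
      (1 / 2) * ∫ p, g p ^ 2 * gr2 φ p := by
    have h7 : ∀ p, gr2 (fun p => g p * φ p) p = Bil g h p + g p ^ 2 * gr2 φ p := by
      intro p
      unfold gr2 Bil dx dy
      rw [Ground_fd hg.smooth hφ, Ground_fd hg.smooth hφ, hh, Ground_fd2 hg.smooth hφ,
        Ground_fd2 hg.smooth hφ]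
      ring
    have h8 : Integrable (fun p => g p ^ 2 * gr2 φ p) := by
      have c1 : Continuous (fun p => g p ^ 2 * gr2 φ p) := by
        unfold gr2 dx dy
        exact (hg.smooth.continuous.pow 2).mul (((Ground_cont hφ _).pow 2).add ((Ground_cont hφ _).pow 2))
      refine c1.integrable_of_hasCompactSupport ?_
      refine hg.cpt.mono ?_
      intro p hp h0
      apply hp
      show g p ^ 2 * gr2 φ p = 0
      rw [h0]
      ring
    unfold en
    simp_rw [h7]
    rw [integral_add (Bil_int hg hcc) h8]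
    ring
  rw [h6]
  have h9 : (1 / 2) * (∫ p, Bil g h p) = β + lam D * ms (fun p => g p * φ p) := by
    rw [hβ, h5]
    ring
  rw [h9]
  linarith only [hβ3]

theorem en_mul_le {D : Set Pl} {g : Pl → ℝ} (hg : CC D g) {φ : Pl → ℝ} (hφ : ContDiff ℝ ∞ φ)
    {M : ℝ} (h1 : ∀ p, |φ p| ≤ 1) (h2 : ∀ p ∈ tsupport g, gr2 φ p ≤ M) :
    en (fun p => g p * φ p ^ 2) ≤ 2 * en g + 4 * M * ms g := by
  have hcc : CC D (fun p => g p * φ p ^ 2) := Ground_cc hg (hφ.pow 2)
  have hpt : ∀ p, gr2 (fun p => g p * φ p ^ 2) p ≤ 2 * gr2 g p + 8 * M * g p ^ 2 := by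
    intro p
    have e1 : φ p ^ 2 ≤ 1 := by
      have := h1 p
      rw [← sq_abs]
      have h0 := abs_nonneg (φ p)
      nlinarith
    have e0 : 0 ≤ φ p ^ 2 := sq_nonneg _
    have e2 : gr2 (fun p => g p * φ p ^ 2) p ≤
        2 * (φ p ^ 2) ^ 2 * gr2 g p + 8 * g p ^ 2 * φ p ^ 2 * gr2 φ p := by
      unfold gr2 dx dy
      rw [Ground_fd2 hg.smooth hφ, Ground_fd2 hg.smooth hφ]
      nlinarith [sq_nonneg (2 * g p * φ p * fderiv ℝ φ p (1, 0) - φ p ^ 2 * fderiv ℝ g p (1, 0)),
        sq_nonneg (2 * g p * φ p * fderiv ℝ φ p (0, 1) - φ p ^ 2 * fderiv ℝ g p (0, 1))]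
    have e3 : 0 ≤ gr2 g p := by
      unfold gr2
      positivity
    have e4 : 0 ≤ gr2 φ p := by
      unfold gr2
      positivity
    have e5 : 2 * (φ p ^ 2) ^ 2 * gr2 g p ≤ 2 * gr2 g p := by
      have : (φ p ^ 2) ^ 2 ≤ 1 := pow_le_one₀ e0 e1
      nlinarith
    have e6 : 8 * g p ^ 2 * φ p ^ 2 * gr2 φ p ≤ 8 * M * g p ^ 2 := by
      by_cases hp : p ∈ tsupport g
      · have h3 := h2 p hp
        have e7 : φ p ^ 2 * gr2 φ p ≤ M := by nlinarith
        nlinarith [sq_nonneg (g p)]
      · have : g p = 0 := image_eq_zero_of_notMem_tsupport hp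
        rw [this]
        simp
    linarith
  unfold en ms
  have h3 : ∫ p, gr2 (fun p => g p * φ p ^ 2) p ≤ ∫ p, (2 * gr2 g p + 8 * M * g p ^ 2) :=
    integral_mono hcc.integrable_gr2
      ((hg.integrable_gr2.const_mul _).add (hg.integrable_sq.const_mul _)) hpt
  rw [integral_add (hg.integrable_gr2.const_mul _) (hg.integrable_sq.const_mul _),
    integral_const_mul, integral_const_mul] at h3
  linarith

theorem cc_mul {D : Set Pl} {g : Pl → ℝ} (hg : CC D g) {φ : Pl → ℝ} (hφ : ContDiff ℝ ∞ φ) :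
    CC D (fun p => g p * φ p) := Ground_cc hg hφ

end Pool.Agent.BSs
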