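import Pool.Agent.BSv.Meas
import Pool.Agent.BSv.Union
import Pool.Agent.BSv.Trans

/-!
# Module PATHO: the sausage and random occupied cells

`ac a c` the cell of side `a` with corner `a c`.  `p' = 1 - exp (-a²)`.

For (almost) every `o` (continuous paths), `W` = sausage of radius `a` of the path started at `p`
(a translate of `sausage X Y a t o`, same area; compare `vol_sausage_le` in Pool/Agent/BSv/Lower.lean
for the passage from `E2` to `Pl`):
`∑_{O ⊆ L} wt p' L O 1{the path stays in F O} ≤ exp (vol N - a² |L|) exp (-|W|)`.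
If no `O` occurs the left side is `0`.  Otherwise the path stays in `D`, so `W ⊆ N`, and the sets
`O` which occur are contained in `L' = {c ∈ L | W ∩ ac a c = ∅}` (the path stays in `F O`, whose points
have distance `> a` from the cells of `O`); `∑_{O ⊆ L'} wt p' L O = (1-p')^(|L|-|L'|) =
exp (-a² (|L|-|L'|))` (binomial identity) and
`|W| ≤ |W \ ⋃_{L} ac| + |W ∩ ⋃_{L \ L'} ac| ≤ (vol N - a² |L|) + a² (|L| - |L'|)`
(the cells of `L` are essentially disjoint and contained in `N`).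
Integrate: the events are null measurable (`F O` closed, continuous paths, countable dense set of
times; or as in SurvLow.lean), `ofReal_surv`.
-/

open MeasureTheory Set Filter Topology ProbabilityTheory Pool.Agent.BSv
open scoped ENNReal NNReal ContDiff

noncomputable section

namespace Pool.Agent.BSs

/-- cell of side `a` -/
def ac (a : ℝ) (c : ℤ × ℤ) : Set Pl := sq (a * c.1) (a * c.2) a

variable {Ω : Type*} [MeasurableSpace Ω] {P : Measure Ω} {X Y : ℝ≥0 → Ω → ℝ}

/-! ### the sausage in `Pl` -/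

private def PO_W (X Y : ℝ≥0 → Ω → ℝ) (a : ℝ) (p : Pl) (t : ℝ≥0) (o : Ω) : Set Pl :=
  {q | ∃ s ≤ t, (q.1 - (pos X Y p s o).1) ^ 2 + (q.2 - (pos X Y p s o).2) ^ 2 ≤ a ^ 2}

omit [MeasurableSpace Ω] in
private theorem PO_cont {o : Ω} (hX : Continuous (X · o)) (hY : Continuous (Y · o)) (p : Pl) :
    Continuous fun s : ℝ≥0 => pos X Y p s o :=
  (continuous_const.add hX).prodMk (continuous_const.add hY)

omit [MeasurableSpace Ω] in
private theorem PO_cpt {o : Ω} (hX : Continuous (X · o)) (hY : Continuous (Y · o)) {a : ℝ}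
    (ha : 0 < a) (p : Pl) (t : ℝ≥0) : IsCompact (PO_W X Y a p t o) := by
  have h1 : IsCompact {v : Pl | v.1 ^ 2 + v.2 ^ 2 ≤ a ^ 2} := by
    apply Metric.isCompact_of_isClosed_isBounded
    · exact isClosed_le (by fun_prop) continuous_const
    · refine (Metric.isBounded_closedBall (x := (0 : Pl)) (r := a)).subset ?_
      intro v hv
      rw [mem_closedBall_zero_iff, Prod.norm_def]
      have hv' : v.1 ^ 2 + v.2 ^ 2 ≤ a ^ 2 := hv
      apply max_le
      · exact abs_le_of_sq_le_sq (by nlinarith [sq_nonneg v.2]) ha.le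
      · exact abs_le_of_sq_le_sq (by nlinarith [sq_nonneg v.1]) ha.le
  have h2 : IsCompact (Set.Iic t) := by
    rw [← Set.Icc_bot]
    exact isCompact_Icc
  have h3 : PO_W X Y a p t o = (fun z : ℝ≥0 × Pl => pos X Y p z.1 o + z.2) ''
      (Set.Iic t ×ˢ {v : Pl | v.1 ^ 2 + v.2 ^ 2 ≤ a ^ 2}) := by
    ext q
    constructor
    · rintro ⟨s, hs, hq⟩
      refine ⟨(s, q - pos X Y p s o), ⟨hs, hq⟩, ?_⟩
      simp
    · rintro ⟨⟨s, v⟩, ⟨hs, hv⟩, rfl⟩
      refine ⟨s, hs, ?_⟩
      simpa using hv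
  rw [h3]
  refine (h2.prod h1).image ?_
  exact ((PO_cont hX hY p).comp continuous_fst).add continuous_snd

omit [MeasurableSpace Ω] in
private theorem PO_vol {o : Ω} (hX : Continuous (X · o)) (hY : Continuous (Y · o)) {a : ℝ}
    (ha : 0 < a) (p : Pl) (t : ℝ≥0) :
    volume (sausage X Y a t o) = volume (PO_W X Y a p t o) := by
  have h1 : sausage X Y a t o = toPl ⁻¹' ((fun x : Pl => x + p) ⁻¹' PO_W X Y a p t o) := by
    ext x
    unfold sausage
    simp only [Set.mem_iUnion, Metric.mem_closedBall, Set.mem_preimage, Set.mem_Iic]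
    constructor
    · rintro ⟨s, hs, hx⟩
      refine ⟨s, hs, ?_⟩
      rw [EuclideanSpace.dist_eq, Fin.sum_univ_two] at hx
      have h2 := (Real.sqrt_le_left ha.le).mp hx
      rw [Real.dist_eq, Real.dist_eq, sq_abs, sq_abs] at h2
      have e1 : (toPl x + p).1 - (pos X Y p s o).1 = x 0 - X s o := by
        show x 0 + p.1 - (p.1 + X s o) = _
        ring
      have e2 : (toPl x + p).2 - (pos X Y p s o).2 = x 1 - Y s o := by
        show x 1 + p.2 - (p.2 + Y s o) = _
        ring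
      rw [e1, e2]
      simpa using h2
    · rintro ⟨s, hs, hx⟩
      refine ⟨s, hs, ?_⟩
      have e1 : (toPl x + p).1 - (pos X Y p s o).1 = x 0 - X s o := by
        show x 0 + p.1 - (p.1 + X s o) = _
        ring
      have e2 : (toPl x + p).2 - (pos X Y p s o).2 = x 1 - Y s o := by
        show x 1 + p.2 - (p.2 + Y s o) = _
        ring
      rw [e1, e2] at hx
      rw [EuclideanSpace.dist_eq, Fin.sum_univ_two]
      apply (Real.sqrt_le_left ha.le).mpr
      rw [Real.dist_eq, Real.dist_eq, sq_abs, sq_abs]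
      simpa using hx
  have hm : MeasurableSet ((fun x : Pl => x + p) ⁻¹' PO_W X Y a p t o) :=
    (measurable_id.add_const p) (PO_cpt hX hY ha p t).measurableSet
  rw [h1, toPl_mp.measure_preimage hm.nullMeasurableSet, measure_preimage_add_right]

/-! ### cells -/

private def PO_h (a : ℝ) (c : ℤ × ℤ) : Set Pl :=
  Ico (a * c.1) (a * c.1 + a) ×ˢ Ico (a * c.2) (a * c.2 + a)

private theorem PO_h_vol {a : ℝ} (ha : 0 < a) (c : ℤ × ℤ) :
    volume (PO_h a c) = ENNReal.ofReal (a ^ 2) := by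
  unfold PO_h
  rw [Measure.volume_eq_prod, Measure.prod_prod, Real.volume_Ico, Real.volume_Ico,
    ← ENNReal.ofReal_mul (by linarith)]
  congr 1
  ring

private theorem PO_h_meas (a : ℝ) (c : ℤ × ℤ) : MeasurableSet (PO_h a c) :=
  measurableSet_Ico.prod measurableSet_Ico

private theorem PO_h_sub {a : ℝ} (c : ℤ × ℤ) : PO_h a c ⊆ ac a c := by
  unfold PO_h ac BSv.sq
  exact Set.prod_mono Ico_subset_Icc_self Ico_subset_Icc_self

private theorem PO_floor {a : ℝ} (ha : 0 < a) {c : ℤ} {x : ℝ} (h : x ∈ Ico (a * c) (a * c + a)) :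
    c = ⌊x / a⌋ := by
  symm
  rw [Int.floor_eq_iff]
  constructor
  · rw [le_div_iff₀ ha]
    linarith [h.1]
  · rw [div_lt_iff₀ ha]
    linarith [h.2]

private theorem PO_h_disj {a : ℝ} (ha : 0 < a) {c d : ℤ × ℤ} (h : c ≠ d) :
    Disjoint (PO_h a c) (PO_h a d) := by
  rw [Set.disjoint_left]
  intro q hc hd
  apply h
  ext
  · rw [PO_floor ha hc.1, PO_floor ha hd.1]
  · rw [PO_floor ha hc.2, PO_floor ha hd.2]

private theorem PO_union {a : ℝ} (ha : 0 < a) (L : Finset (ℤ × ℤ)) :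
    volume (⋃ c ∈ L, PO_h a c) = ENNReal.ofReal (a ^ 2 * L.card) := by
  rw [measure_biUnion_finset (fun c _ d _ h => PO_h_disj ha h) fun c _ => PO_h_meas a c,
    Finset.sum_congr rfl fun c _ => PO_h_vol ha c, Finset.sum_const, nsmul_eq_mul,
    ENNReal.ofReal_mul (by positivity), ENNReal.ofReal_natCast, mul_comm]

/-! ### weights -/

private theorem PO_wt {b : ℝ} (L L' : Finset (ℤ × ℤ)) (h : L' ⊆ L) :
    ∑ O ∈ L'.powerset, wt (1 - b) L O = b ^ (L.card - L'.card) := by
  have h1 : ∀ O ∈ L'.powerset, wt (1 - b) L O =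
      b ^ (L.card - L'.card) * ((1 - b) ^ O.card * b ^ (L'.card - O.card)) := by
    intro O hO
    have h2 := Finset.card_le_card (Finset.mem_powerset.1 hO)
    have h3 := Finset.card_le_card h
    unfold wt
    rw [sub_sub_cancel, show L.card - O.card = (L.card - L'.card) + (L'.card - O.card) by omega,
      pow_add]
    ring
  rw [Finset.sum_congr rfl h1, ← Finset.mul_sum, Finset.sum_pow_mul_eq_add_pow]
  simp

/-! ### measurability -/

private theorem PO_null (h : PBM P X Y) (p : Pl) (t : ℝ≥0) {F : Set Pl} (hF : IsClosed F) :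
    NullMeasurableSet {o | ∀ s ≤ t, pos X Y p s o ∈ F} P := by
  have hne : Nonempty (Set.Iic t) := ⟨⟨t, le_refl t⟩⟩
  obtain ⟨u, hu⟩ : ∃ u : ℕ → Set.Iic t, DenseRange u :=
    ⟨TopologicalSpace.denseSeq (Set.Iic t), TopologicalSpace.denseRange_denseSeq _⟩
  have hpm : ∀ s, AEMeasurable (fun o => pos X Y p s o) P := fun s =>
    ((h.fst.aemeasurable s).const_add _).prodMk ((h.snd.aemeasurable s).const_add _)
  have h1 : NullMeasurableSet (⋂ q : ℕ, (fun o => pos X Y p (u q) o) ⁻¹' F) P :=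
    NullMeasurableSet.iInter fun q => (hpm _).nullMeasurable hF.measurableSet
  refine h1.congr ?_
  filter_upwards [h.fst.cont, h.snd.cont] with o hX hY
  apply propext
  show o ∈ (⋂ q : ℕ, (fun o => pos X Y p (u q) o) ⁻¹' F) ↔ ∀ s ≤ t, pos X Y p s o ∈ F
  rw [Set.mem_iInter]
  constructor
  · intro h2 s hs
    have hc : Continuous fun s : Set.Iic t => pos X Y p s o :=
      (PO_cont hX hY p).comp continuous_subtype_val
    exact hu.induction_on (p := fun s : Set.Iic t => pos X Y p s o ∈ F) ⟨s, hs⟩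
      (hF.preimage hc) h2
  · intro h2 q
    exact h2 _ (u q).2

theorem path_o (h : PBM P X Y) {a : ℝ} (ha : 0 < a) (t : ℝ≥0) {D N : Set Pl}
    (hNm : MeasurableSet N) (hN : volume N ≠ ⊤)
    (hDN : ∀ p ∈ D, ∀ q : Pl, (q.1 - p.1) ^ 2 + (q.2 - p.2) ^ 2 ≤ a ^ 2 → q ∈ N)
    {L : Finset (ℤ × ℤ)} (hL : ∀ c ∈ L, ac a c ⊆ N) {F : Finset (ℤ × ℤ) → Set Pl}
    (hFc : ∀ O ⊆ L, IsClosed (F O)) (hFD : ∀ O ⊆ L, F O ⊆ D)
    (hF : ∀ O ⊆ L, ∀ p ∈ F O, ∀ c ∈ O, ∀ q ∈ ac a c, a ^ 2 < (q.1 - p.1) ^ 2 + (q.2 - p.2) ^ 2)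
    (p : Pl) :
    ENNReal.ofReal (Real.exp (-(vol N - a ^ 2 * L.card))) *
      ∑ O ∈ L.powerset, ENNReal.ofReal (wt (1 - Real.exp (-a ^ 2)) L O) *
        P {o | ∀ s ≤ t, pos X Y p s o ∈ F O} ≤
      ENNReal.ofReal (surv P X Y 1 a t) := by
  classical
  rw [ofReal_surv h one_pos ha t]
  obtain ⟨A, hA⟩ : ∃ A : Finset (ℤ × ℤ) → Set Ω, A = fun O =>
    {o | ∀ s ≤ t, pos X Y p s o ∈ F O} := ⟨_, rfl⟩
  have hAn : ∀ O ∈ L.powerset, NullMeasurableSet (A O) P := by
    intro O hO
    rw [hA]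
    exact PO_null h p t (hFc O (Finset.mem_powerset.1 hO))
  obtain ⟨K, hK⟩ : ∃ K : ℝ≥0∞, K = ENNReal.ofReal (Real.exp (-(vol N - a ^ 2 * L.card))) :=
    ⟨_, rfl⟩
  obtain ⟨w, hw⟩ : ∃ w : Finset (ℤ × ℤ) → ℝ≥0∞, w = fun O =>
    ENNReal.ofReal (wt (1 - Real.exp (-a ^ 2)) L O) := ⟨_, rfl⟩
  have hb1 : Real.exp (-a ^ 2) ≤ 1 := Real.exp_le_one_iff.2 (by linarith [sq_nonneg a])
  have hb0 : 0 < Real.exp (-a ^ 2) := Real.exp_pos _
  have hwt0 : ∀ O, 0 ≤ wt (1 - Real.exp (-a ^ 2)) L O := fun O =>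
    wt_nonneg (by linarith) (by linarith) L O
  have h1 : K * ∑ O ∈ L.powerset, w O * P (A O) =
      ∫⁻ o, K * ∑ O ∈ L.powerset, w O * (A O).indicator 1 o ∂P := by
    rw [lintegral_const_mul']
    · congr 1
      rw [lintegral_finsetSum']
      · refine Finset.sum_congr rfl fun O hO => ?_
        rw [lintegral_const_mul' _ _ (by rw [hw]; exact ENNReal.ofReal_ne_top),
          lintegral_indicator_one₀ (hAn O hO)]
      · intro O hO
        have e1 : AEMeasurable ((A O).indicator (1 : Ω → ℝ≥0∞)) P :=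
          aemeasurable_const.indicator₀ (hAn O hO)
        exact e1.const_mul _
    · rw [hK]
      exact ENNReal.ofReal_ne_top
  have h2 : ENNReal.ofReal (Real.exp (-(vol N - a ^ 2 * L.card))) *
      ∑ O ∈ L.powerset, ENNReal.ofReal (wt (1 - Real.exp (-a ^ 2)) L O) *
        P {o | ∀ s ≤ t, pos X Y p s o ∈ F O} = K * ∑ O ∈ L.powerset, w O * P (A O) := by
    rw [hK, hw, hA]
  rw [h2, h1]
  refine lintegral_mono_ae ?_
  filter_upwards [h.fst.cont, h.snd.cont] with o hX hY
  by_cases hex : ∃ O ∈ L.powerset, o ∈ A O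
  swap
  · have h3 : ∑ O ∈ L.powerset, w O * (A O).indicator 1 o = 0 := by
      refine Finset.sum_eq_zero fun O hO => ?_
      rw [indicator_of_notMem (fun h4 => hex ⟨O, hO, h4⟩), mul_zero]
    rw [h3, mul_zero]
    exact zero_le
  obtain ⟨O₁, hO₁, ho₁⟩ := hex
  rw [Finset.mem_powerset] at hO₁
  rw [hA] at ho₁
  have hW := PO_vol hX hY ha p t
  have hWc := PO_cpt hX hY ha p t
  obtain ⟨W, hWd⟩ : ∃ W, W = PO_W X Y a p t o := ⟨_, rfl⟩
  rw [← hWd] at hW hWc
  have hWN : W ⊆ N := by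
    intro q hq
    rw [hWd] at hq
    obtain ⟨s, hs, hq⟩ := hq
    exact hDN _ (hFD O₁ hO₁ (ho₁ s hs)) q hq
  obtain ⟨L', hL'⟩ : ∃ L', L' = L.filter fun c => Disjoint (ac a c) W := ⟨_, rfl⟩
  have hL'L : L' ⊆ L := by
    rw [hL']
    exact Finset.filter_subset _ _
  have hOL : ∀ O ∈ L.powerset, o ∈ A O → O ⊆ L' := by
    intro O hO ho c hc
    rw [Finset.mem_powerset] at hO
    rw [hL', Finset.mem_filter]
    refine ⟨hO hc, ?_⟩
    rw [Set.disjoint_left]
    intro q hq hqW
    rw [hWd] at hqW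
    obtain ⟨s, hs, hq'⟩ := hqW
    rw [hA] at ho
    have h4 := hF O hO _ (ho s hs) c hc q hq
    linarith
  have hsum : ∑ O ∈ L.powerset, w O * (A O).indicator 1 o ≤
      ENNReal.ofReal (Real.exp (-a ^ 2) ^ (L.card - L'.card)) := by
    calc ∑ O ∈ L.powerset, w O * (A O).indicator 1 o
        ≤ ∑ O ∈ L.powerset, if O ⊆ L' then w O else 0 := by
          refine Finset.sum_le_sum fun O hO => ?_
          by_cases ho : o ∈ A O
          · rw [indicator_of_mem ho, if_pos (hOL O hO ho), Pi.one_apply, mul_one]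
          · rw [indicator_of_notMem ho, mul_zero]
            exact zero_le
      _ = ∑ O ∈ L'.powerset, w O := by
          rw [← Finset.sum_filter]
          congr 1
          ext O
          rw [Finset.mem_filter, Finset.mem_powerset, Finset.mem_powerset]
          exact ⟨fun h5 => h5.2, fun h5 => ⟨h5.trans hL'L, h5⟩⟩
      _ = ENNReal.ofReal (Real.exp (-a ^ 2) ^ (L.card - L'.card)) := by
          rw [hw, ← ENNReal.ofReal_sum_of_nonneg fun O _ => hwt0 O, PO_wt L L' hL'L]
  have hvol : (volume W).toReal + a ^ 2 * L'.card ≤ vol N := by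
    have h5 : W ∪ (⋃ c ∈ L', PO_h a c) ⊆ N := by
      refine Set.union_subset hWN (Set.iUnion₂_subset fun c hc => ?_)
      exact (PO_h_sub c).trans (hL c (hL'L hc))
    have h6 : Disjoint W (⋃ c ∈ L', PO_h a c) := by
      rw [Set.disjoint_iUnion₂_right]
      intro c hc
      rw [hL', Finset.mem_filter] at hc
      exact (hc.2.mono_left (PO_h_sub c)).symm
    have h7 : MeasurableSet (⋃ c ∈ L', PO_h a c) :=
      Finset.measurableSet_biUnion _ fun c _ => PO_h_meas a c
    have h8 := measure_union h6 h7 (μ := volume)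
    rw [PO_union ha] at h8
    have h9 := measure_mono h5 (μ := volume)
    rw [h8] at h9
    have h10 := ENNReal.toReal_mono hN h9
    rw [ENNReal.toReal_add hWc.measure_lt_top.ne ENNReal.ofReal_ne_top,
      ENNReal.toReal_ofReal (by positivity)] at h10
    exact h10
  calc K * ∑ O ∈ L.powerset, w O * (A O).indicator 1 o
      ≤ K * ENNReal.ofReal (Real.exp (-a ^ 2) ^ (L.card - L'.card)) := by gcongr
    _ = ENNReal.ofReal (Real.exp (-(vol N - a ^ 2 * L.card)) *
          Real.exp (-a ^ 2) ^ (L.card - L'.card)) := by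
        rw [hK, ENNReal.ofReal_mul (Real.exp_pos _).le]
    _ ≤ ENNReal.ofReal (Real.exp (-1 * (volume (sausage X Y a t o)).toReal)) := by
        apply ENNReal.ofReal_le_ofReal
        rw [← Real.exp_nat_mul, ← Real.exp_add, hW]
        apply Real.exp_le_exp.2
        have h11 := Finset.card_le_card hL'L
        rw [Nat.cast_sub h11]
        nlinarith

end Pool.Agent.BSs
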