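import Pool.Agent.BSv.Union

/-!
# Module PROD: products of cut-offs over a random set

`gr2_phi`: product rule, all factors in `[0,1]`, triangle inequality for the Euclidean norm of
the gradient.
`exp_phi`: `wt p0 L O = p0^|O| (1-p0)^(|L|-|O|)` is the law of a random subset `O` (each element
with probability `p0`, independent).  With `b c = √(gr2 (χ c) x)`:
`∑_O wt (∑_{c ∈ O} b c)² = p0 ∑ b² + p0² ∑_{c ≠ c'} b c b c' ≤ p0 ∑ b² + p0² (∑ b)²` and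
`(∑ b)² ≤ n ∑ b²` (Cauchy-Schwarz over the indices with `b ≠ 0`).
(`∑_{O ∋ c} wt = p0`, `∑_{O ∋ c, c'} wt = p0²`: `sum_weights`; `∑_O wt = 1`.)
-/

open MeasureTheory Set Filter Topology Pool.Agent.BSv
open scoped ENNReal NNReal ContDiff

noncomputable section

namespace Pool.Agent.BSs

/-- product of `1 - χ c` over `c ∈ O` -/
def phi (χ : ℤ × ℤ → Pl → ℝ) (O : Finset (ℤ × ℤ)) (p : Pl) : ℝ := ∏ c ∈ O, (1 - χ c p)

theorem phi_smooth {χ : ℤ × ℤ → Pl → ℝ} (h : ∀ c, ContDiff ℝ ∞ (χ c)) (O : Finset (ℤ × ℤ)) :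
    ContDiff ℝ ∞ (phi χ O) := by
  unfold phi
  exact contDiff_prod fun c _ => contDiff_const.sub (h c)

theorem phi_mem {χ : ℤ × ℤ → Pl → ℝ} (h : ∀ c p, 0 ≤ χ c p ∧ χ c p ≤ 1) (O : Finset (ℤ × ℤ))
    (p : Pl) : 0 ≤ phi χ O p ∧ phi χ O p ≤ 1 := by
  unfold phi
  exact ⟨Finset.prod_nonneg fun c _ => by linarith [(h c p).2],
    Finset.prod_le_one (fun c _ => by linarith [(h c p).2]) fun c _ => by linarith [(h c p).1]⟩

theorem sum_wt_one (p0 : ℝ) (L : Finset (ℤ × ℤ)) : ∑ O ∈ L.powerset, wt p0 L O = 1 := by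
  unfold wt
  rw [Finset.sum_pow_mul_eq_add_pow]
  rw [add_sub_cancel, one_pow]

private theorem Prod_sqrt (f : Pl → ℝ) (p : Pl) : √(gr2 f p) = ‖(⟨dx f p, dy f p⟩ : ℂ)‖ := by
  rw [Complex.norm_def, Complex.normSq_mk]
  unfold gr2
  congr 1
  ring

private theorem Prod_mul {f g : Pl → ℝ} (hf : ContDiff ℝ ∞ f) (hg : ContDiff ℝ ∞ g) (p : Pl)
    (h1 : |f p| ≤ 1) (h2 : |g p| ≤ 1) :
    √(gr2 (fun x => f x * g x) p) ≤ √(gr2 f p) + √(gr2 g p) := by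
  have hfd : DifferentiableAt ℝ f p := (hf.differentiable (by simp)).differentiableAt
  have hgd : DifferentiableAt ℝ g p := (hg.differentiable (by simp)).differentiableAt
  have h3 : fderiv ℝ (fun x => f x * g x) p = f p • fderiv ℝ g p + g p • fderiv ℝ f p :=
    fderiv_fun_mul hfd hgd
  rw [Prod_sqrt, Prod_sqrt, Prod_sqrt]
  have h4 : (⟨dx (fun x => f x * g x) p, dy (fun x => f x * g x) p⟩ : ℂ) =
      (f p : ℂ) * ⟨dx g p, dy g p⟩ + (g p : ℂ) * ⟨dx f p, dy f p⟩ := by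
    unfold dx dy
    rw [h3]
    apply Complex.ext <;> simp
  rw [h4]
  calc ‖(f p : ℂ) * ⟨dx g p, dy g p⟩ + (g p : ℂ) * ⟨dx f p, dy f p⟩‖
      ≤ ‖(f p : ℂ) * ⟨dx g p, dy g p⟩‖ + ‖(g p : ℂ) * ⟨dx f p, dy f p⟩‖ := norm_add_le _ _
    _ = |f p| * ‖(⟨dx g p, dy g p⟩ : ℂ)‖ + |g p| * ‖(⟨dx f p, dy f p⟩ : ℂ)‖ := by
        rw [norm_mul, norm_mul, Complex.norm_real, Complex.norm_real, Real.norm_eq_abs,
          Real.norm_eq_abs]
    _ ≤ 1 * ‖(⟨dx g p, dy g p⟩ : ℂ)‖ + 1 * ‖(⟨dx f p, dy f p⟩ : ℂ)‖ := by gcongr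
    _ = ‖(⟨dx f p, dy f p⟩ : ℂ)‖ + ‖(⟨dx g p, dy g p⟩ : ℂ)‖ := by ring

private theorem Prod_one_sub {f : Pl → ℝ} (p : Pl) : gr2 (fun x => 1 - f x) p = gr2 f p := by
  unfold gr2 dx dy
  rw [fderiv_const_sub]
  simp

private theorem Prod_phi {χ : ℤ × ℤ → Pl → ℝ} (h : ∀ c, ContDiff ℝ ∞ (χ c))
    (h1 : ∀ c p, 0 ≤ χ c p ∧ χ c p ≤ 1) (O : Finset (ℤ × ℤ)) (p : Pl) :
    √(gr2 (phi χ O) p) ≤ ∑ c ∈ O, √(gr2 (χ c) p) := by
  classical
  induction O using Finset.induction_on with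
  | empty =>
    have : gr2 (phi χ ∅) p = 0 := by
      unfold gr2 dx dy phi
      simp
    rw [this, Real.sqrt_zero, Finset.sum_empty]
  | insert c O hc ih =>
    rw [Finset.sum_insert hc]
    have h3 : phi χ (insert c O) = fun x => (1 - χ c x) * phi χ O x := by
      funext x
      unfold phi
      rw [Finset.prod_insert hc]
    rw [h3]
    refine (Prod_mul (contDiff_const.sub (h c)) (phi_smooth h O) p ?_ ?_).trans ?_
    · rw [abs_le]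
      constructor <;> linarith [(h1 c p).1, (h1 c p).2]
    · rw [abs_le]
      constructor <;> linarith [(phi_mem h1 O p).1, (phi_mem h1 O p).2]
    · have : gr2 (fun x => (fun _ => (1 : ℝ)) x - χ c x) p = gr2 (χ c) p := Prod_one_sub p
      have h5 : √(gr2 (fun x => 1 - χ c x) p) = √(gr2 (χ c) p) := by rw [Prod_one_sub]
      linarith

theorem gr2_phi {χ : ℤ × ℤ → Pl → ℝ} (h : ∀ c, ContDiff ℝ ∞ (χ c))
    (h1 : ∀ c p, 0 ≤ χ c p ∧ χ c p ≤ 1) (O : Finset (ℤ × ℤ)) (p : Pl) :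
    gr2 (phi χ O) p ≤ (∑ c ∈ O, √(gr2 (χ c) p)) ^ 2 := by
  have h2 : 0 ≤ gr2 (phi χ O) p := by
    unfold gr2
    positivity
  calc gr2 (phi χ O) p = √(gr2 (phi χ O) p) ^ 2 := (Real.sq_sqrt h2).symm
    _ ≤ (∑ c ∈ O, √(gr2 (χ c) p)) ^ 2 := by
        gcongr
        exact Prod_phi h h1 O p

private theorem Prod_exp {p0 : ℝ} (h0 : 0 ≤ p0) (L : Finset (ℤ × ℤ)) (b : ℤ × ℤ → ℝ)
    (hb : ∀ c, 0 ≤ b c) : ∑ O ∈ L.powerset, wt p0 L O * (∑ c ∈ O, b c) ^ 2 ≤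
      p0 * ∑ c ∈ L, b c ^ 2 + p0 ^ 2 * (∑ c ∈ L, b c) ^ 2 := by
  classical
  have e1 : ∀ O ∈ L.powerset, wt p0 L O * (∑ c ∈ O, b c) ^ 2 =
      ∑ c ∈ L, ∑ c' ∈ L, (if ({c, c'} : Finset (ℤ × ℤ)) ⊆ O then wt p0 L O else 0) * (b c * b c') := by
    intro O hO
    rw [Finset.mem_powerset] at hO
    rw [_root_.sq, Finset.sum_mul_sum, Finset.mul_sum]
    have a1 : ∀ c c' : ℤ × ℤ, ({c, c'} : Finset (ℤ × ℤ)) ⊆ O ↔ c ∈ O ∧ c' ∈ O := by
      intro c c'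
      rw [Finset.insert_subset_iff, Finset.singleton_subset_iff]
    simp only [a1]
    rw [← Finset.sum_subset hO]
    · refine Finset.sum_congr rfl fun c hc => ?_
      rw [Finset.mul_sum, ← Finset.sum_subset hO]
      · refine Finset.sum_congr rfl fun c' hc' => ?_
        rw [if_pos ⟨hc, hc'⟩]
      · intro c' _ hc'
        rw [if_neg (fun h => hc' h.2), zero_mul]
    · intro c _ hc
      refine Finset.sum_eq_zero fun c' _ => ?_
      rw [if_neg (fun h => hc h.1), zero_mul]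
  rw [Finset.sum_congr rfl e1, Finset.sum_comm]
  have e2 : ∀ c ∈ L, ∑ O ∈ L.powerset, ∑ c' ∈ L,
      (if ({c, c'} : Finset (ℤ × ℤ)) ⊆ O then wt p0 L O else 0) * (b c * b c') ≤
      p0 * b c ^ 2 + ∑ c' ∈ L, p0 ^ 2 * (b c * b c') := by
    intro c hc
    rw [Finset.sum_comm]
    have e3 : ∀ c' ∈ L, ∑ O ∈ L.powerset,
        (if ({c, c'} : Finset (ℤ × ℤ)) ⊆ O then wt p0 L O else 0) * (b c * b c') =
        p0 ^ ({c, c'} : Finset (ℤ × ℤ)).card * (b c * b c') := by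
      intro c' hc'
      rw [← Finset.sum_mul, ← Finset.sum_filter]
      congr 1
      unfold wt
      refine sum_weights ?_ p0
      rw [Finset.insert_subset_iff, Finset.singleton_subset_iff]
      exact ⟨hc, hc'⟩
    rw [Finset.sum_congr rfl e3, ← Finset.add_sum_erase L _ hc, ← Finset.add_sum_erase L
      (fun c' => p0 ^ 2 * (b c * b c')) hc]
    have e4 : ∑ c' ∈ L.erase c, p0 ^ ({c, c'} : Finset (ℤ × ℤ)).card * (b c * b c') =
        ∑ c' ∈ L.erase c, p0 ^ 2 * (b c * b c') := by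
      refine Finset.sum_congr rfl fun c' hc' => ?_
      rw [Finset.card_pair (Finset.ne_of_mem_erase hc').symm]
    rw [e4]
    have e5 : p0 ^ ({c, c} : Finset (ℤ × ℤ)).card * (b c * b c) = p0 * b c ^ 2 := by
      rw [Finset.pair_eq_singleton, Finset.card_singleton, pow_one, _root_.sq]
    rw [e5]
    have e6 : 0 ≤ p0 ^ 2 * (b c * b c) := by
      have := hb c
      positivity
    linarith
  refine (Finset.sum_le_sum e2).trans (le_of_eq ?_)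
  rw [Finset.sum_add_distrib, ← Finset.mul_sum]
  congr 1
  rw [_root_.sq (∑ c ∈ L, b c), Finset.sum_mul_sum, Finset.mul_sum]
  refine Finset.sum_congr rfl fun c _ => ?_
  rw [Finset.mul_sum]

open Classical in
theorem exp_phi {χ : ℤ × ℤ → Pl → ℝ} (h : ∀ c, ContDiff ℝ ∞ (χ c))
    (h1 : ∀ c p, 0 ≤ χ c p ∧ χ c p ≤ 1) {p0 : ℝ} (h0 : 0 ≤ p0) (h2 : p0 ≤ 1)
    (L : Finset (ℤ × ℤ)) (x : Pl) {n : ℝ}
    (hn : ((L.filter fun c => gr2 (χ c) x ≠ 0).card : ℝ) ≤ n) :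
    ∑ O ∈ L.powerset, wt p0 L O * gr2 (phi χ O) x ≤
      (p0 + p0 ^ 2 * n) * ∑ c ∈ L, gr2 (χ c) x := by
  have hg : ∀ c, 0 ≤ gr2 (χ c) x := by
    intro c
    unfold gr2
    positivity
  have hsq : ∀ c, √(gr2 (χ c) x) ^ 2 = gr2 (χ c) x := fun c => Real.sq_sqrt (hg c)
  have a1 : ∑ O ∈ L.powerset, wt p0 L O * gr2 (phi χ O) x ≤
      ∑ O ∈ L.powerset, wt p0 L O * (∑ c ∈ O, √(gr2 (χ c) x)) ^ 2 := by
    refine Finset.sum_le_sum fun O _ => ?_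
    exact mul_le_mul_of_nonneg_left (gr2_phi h h1 O x) (wt_nonneg h0 h2 L O)
  have a2 := Prod_exp h0 L (fun c => √(gr2 (χ c) x)) fun c => Real.sqrt_nonneg _
  have a3 : (∑ c ∈ L, √(gr2 (χ c) x)) ^ 2 ≤ n * ∑ c ∈ L, gr2 (χ c) x := by
    have b1 : ∑ c ∈ L, √(gr2 (χ c) x) = ∑ c ∈ L.filter (fun c => gr2 (χ c) x ≠ 0), √(gr2 (χ c) x) := by
      rw [Finset.sum_filter]
      refine Finset.sum_congr rfl fun c _ => ?_
      by_cases hc : gr2 (χ c) x ≠ 0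
      · rw [if_pos hc]
      · rw [if_neg hc]
        push Not at hc
        rw [hc, Real.sqrt_zero]
    rw [b1]
    have b2 := sq_sum_le_card_mul_sum_sq (s := L.filter (fun c => gr2 (χ c) x ≠ 0))
      (f := fun c => √(gr2 (χ c) x))
    refine b2.trans ?_
    have b3 : ∑ c ∈ L.filter (fun c => gr2 (χ c) x ≠ 0), √(gr2 (χ c) x) ^ 2 ≤
        ∑ c ∈ L, gr2 (χ c) x := by
      refine (Finset.sum_le_sum_of_subset_of_nonneg (Finset.filter_subset _ _)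
        fun c _ _ => sq_nonneg _).trans (le_of_eq ?_)
      exact Finset.sum_congr rfl fun c _ => hsq c
    have b4 : 0 ≤ ∑ c ∈ L, gr2 (χ c) x := Finset.sum_nonneg fun c _ => hg c
    calc _ ≤ ((L.filter fun c => gr2 (χ c) x ≠ 0).card : ℝ) * ∑ c ∈ L, gr2 (χ c) x :=
          mul_le_mul_of_nonneg_left b3 (Nat.cast_nonneg _)
      _ ≤ n * ∑ c ∈ L, gr2 (χ c) x := mul_le_mul_of_nonneg_right hn b4
  have a4 : ∑ c ∈ L, √(gr2 (χ c) x) ^ 2 = ∑ c ∈ L, gr2 (χ c) x :=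
    Finset.sum_congr rfl fun c _ => hsq c
  have a5 : p0 ^ 2 * (∑ c ∈ L, √(gr2 (χ c) x)) ^ 2 ≤ p0 ^ 2 * (n * ∑ c ∈ L, gr2 (χ c) x) :=
    mul_le_mul_of_nonneg_left a3 (sq_nonneg _)
  calc _ ≤ _ := a1
    _ ≤ p0 * ∑ c ∈ L, √(gr2 (χ c) x) ^ 2 + p0 ^ 2 * (∑ c ∈ L, √(gr2 (χ c) x)) ^ 2 := a2
    _ ≤ p0 * ∑ c ∈ L, gr2 (χ c) x + p0 ^ 2 * (n * ∑ c ∈ L, gr2 (χ c) x) := by
        rw [a4]
        linarith
    _ = (p0 + p0 ^ 2 * n) * ∑ c ∈ L, gr2 (χ c) x := by ring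

end Pool.Agent.BSs
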