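import Pool.Agent.BSv.SurvLow

/-!
# Module SURVLOW2: lower bound for the probability to stay in a compact set, no sup norm

As `surv_low`, but the constant `B` is avoided by two units of time.  `K g = 1_F Pt δ (1_F g)`,
`δ = t/2^k`, `m` with `m δ ≥ 1`, `(m - 1) δ < 1`: `|K^m f| ≤ (Pt δ)^m |f| = Pt (m δ) |f| ≤ 1`, because
`(Pt τ |f|) p ≤ ‖hk τ‖_2 ‖f‖_2 = (4 π τ)^(-1/2) ≤ 1` for `τ ≥ 1`.  So (K symmetric)
`⟨f, K^(n+2m) f⟩ = ⟨K^m f, K^n K^m f⟩ ≤ ∫_F kf δ F n` and, as in `kf_low`,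
`⟨f, K^(n+2m) f⟩ ≥ (1 - δ en f)^(n+2m)`.  `n = 2^k`, `k → ∞`: `(n + 2 m) δ → t + 2`; the rest is as in
module SURVLOW.
-/

open MeasureTheory Set Filter Topology ProbabilityTheory Pool.Agent.BSv
open scoped ENNReal NNReal ContDiff

noncomputable section

namespace Pool.Agent.BSs


/-! ### copies of private lemmas of `BSv/Kf.lean` and `BSv/Ker.lean` -/

private def kfK (δ : ℝ) (F : Set Pl) (g : Pl → ℝ) : Pl → ℝ := F.indicator (Pt δ g)

private theorem kf_eq (δ : ℝ) (F : Set Pl) (n : ℕ) :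
    kf δ F n = (kfK δ F)^[n] (F.indicator 1) := by
  induction n with
  | zero => rfl
  | succ n ih =>
    rw [Function.iterate_succ_apply', ← ih]
    rfl

private theorem kfK_BF {δ : ℝ} (hδ : 0 < δ) {F : Set Pl} (hF : MeasurableSet F)
    (hv : volume F ≠ ⊤) {g : Pl → ℝ} (hg : BF F g) : BF F (kfK δ F g) := by
  obtain ⟨B, hB⟩ := hg.bdd
  refine ⟨(ker_cont hv hg hδ).measurable.indicator hF, ⟨B, fun p => ?_⟩, fun p hp => ?_⟩
  · by_cases hp : p ∈ F
    · rw [kfK, Set.indicator_of_mem hp]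
      exact ker_bdd hg.meas hB hδ p
    · rw [kfK, Set.indicator_of_notMem hp, abs_zero]
      exact (abs_nonneg _).trans (hB p)
  · rw [kfK, Set.indicator_of_notMem hp]

private theorem kfK_iter_BF {δ : ℝ} (hδ : 0 < δ) {F : Set Pl} (hF : MeasurableSet F)
    (hv : volume F ≠ ⊤) {g : Pl → ℝ} (hg : BF F g) (n : ℕ) : BF F ((kfK δ F)^[n] g) := by
  induction n with
  | zero => exact hg
  | succ n ih =>
    rw [Function.iterate_succ_apply']
    exact kfK_BF hδ hF hv ih

private theorem ind_BF {F : Set Pl} (hF : MeasurableSet F) : BF F (F.indicator (1 : Pl → ℝ)) := by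
  refine ⟨measurable_one.indicator hF, ⟨1, fun p => ?_⟩, fun p hp => ?_⟩
  · by_cases hp : p ∈ F
    · simp [hp]
    · simp [hp]
  · simp [hp]

private theorem BF_int_mul {F : Set Pl} (hv : volume F ≠ ⊤) {g h : Pl → ℝ} (hg : BF F g)
    (hh : BF F h) : Integrable (fun p => g p * h p) := by
  obtain ⟨A, hA⟩ := hg.bdd
  obtain ⟨B, hB⟩ := hh.bdd
  have h1 : IntegrableOn (fun p => g p * h p) F volume := by
    refine Measure.integrableOn_of_bounded (M := A * B) hv
      (hg.meas.mul hh.meas).aestronglyMeasurable (Filter.Eventually.of_forall fun p => ?_)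
    rw [Real.norm_eq_abs, abs_mul]
    exact mul_le_mul (hA p) (hB p) (abs_nonneg _) ((abs_nonneg _).trans (hA p))
  refine (integrableOn_iff_integrable_of_support_subset ?_).1 h1
  intro p hp
  by_contra hpF
  apply hp
  simp [hg.zero p hpF]

private theorem BF_add_smul {F : Set Pl} {g h : Pl → ℝ} (hg : BF F g) (hh : BF F h) (t : ℝ) :
    BF F (fun p => g p + t * h p) := by
  obtain ⟨A, hA⟩ := hg.bdd
  obtain ⟨B, hB⟩ := hh.bdd
  refine ⟨hg.meas.add (hh.meas.const_mul t), ⟨A + |t| * B, fun p => ?_⟩, fun p hp => ?_⟩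
  · refine (abs_add_le _ _).trans (add_le_add (hA p) ?_)
    rw [abs_mul]
    exact mul_le_mul_of_nonneg_left (hB p) (abs_nonneg t)
  · rw [hg.zero p hp, hh.zero p hp]; simp

private theorem hk_mul_int {δ : ℝ} (hδ : 0 < δ) {g : Pl → ℝ} (hg : Measurable g) {B : ℝ}
    (hB : ∀ p, |g p| ≤ B) (p : Pl) : Integrable (fun q => hk δ (p - q) * g q) := by
  have h1 : Integrable (fun q => hk δ (p - q)) := (hk_integrable hδ).comp_sub_left p
  refine h1.mul_bdd (c := B) hg.aestronglyMeasurable (Filter.Eventually.of_forall fun q => ?_)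
  exact hB q

private theorem kfK_add_smul {δ : ℝ} (hδ : 0 < δ) {F : Set Pl} {g h : Pl → ℝ} (hg : BF F g)
    (hh : BF F h) (t : ℝ) (p : Pl) :
    kfK δ F (fun p => g p + t * h p) p = kfK δ F g p + t * kfK δ F h p := by
  obtain ⟨A, hA⟩ := hg.bdd
  obtain ⟨B, hB⟩ := hh.bdd
  by_cases hp : p ∈ F
  · simp only [kfK, Set.indicator_of_mem hp, Pt]
    rw [← integral_const_mul, ← integral_add (hk_mul_int hδ hg.meas hA p)
      ((hk_mul_int hδ hh.meas hB p).const_mul t)]
    refine integral_congr_ae (Filter.Eventually.of_forall fun q => ?_)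
    show _ = _
    ring
  · simp [kfK, Set.indicator_of_notMem hp]

private theorem kfK_form {δ : ℝ} {F : Set Pl} {g : Pl → ℝ} (hg : BF F g) (h : Pl → ℝ) :
    ∫ p, g p * kfK δ F h p = ∫ p, g p * Pt δ h p := by
  refine integral_congr_ae (Filter.Eventually.of_forall fun p => ?_)
  show g p * kfK δ F h p = g p * Pt δ h p
  by_cases hp : p ∈ F
  · rw [kfK, Set.indicator_of_mem hp]
  · rw [hg.zero p hp, zero_mul, zero_mul]

private theorem kfK_symm {δ : ℝ} (hδ : 0 < δ) {F : Set Pl} (hv : volume F ≠ ⊤) {g h : Pl → ℝ}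
    (hg : BF F g) (hh : BF F h) :
    ∫ p, g p * kfK δ F h p = ∫ p, kfK δ F g p * h p := by
  have e : ∀ p, kfK δ F g p * h p = h p * kfK δ F g p := fun p => mul_comm _ _
  simp only [e]
  rw [kfK_form hg, kfK_form hh]
  exact ker_symm hv hv hg hh hδ

/-- Cauchy-Schwarz from a nonnegative quadratic polynomial -/
private theorem cs_of_nonneg {a b c : ℝ} (h : ∀ t : ℝ, 0 ≤ a + 2 * t * b + t ^ 2 * c) :
    b ^ 2 ≤ a * c := by
  have h1 : discrim c (2 * b) a ≤ 0 := by
    refine discrim_le_zero fun t => ?_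
    have := h t
    nlinarith [this]
  rw [discrim] at h1
  nlinarith [h1]

private theorem int_lin {u v w z : Pl → ℝ} (hu : Integrable u) (hv : Integrable v)
    (hw : Integrable w) (hz : Integrable z) (a b c : ℝ) :
    ∫ p, (u p + a * v p + b * w p + c * z p) =
      (∫ p, u p) + a * (∫ p, v p) + b * (∫ p, w p) + c * ∫ p, z p := by
  have h1 : Integrable (fun p => u p + a * v p) := hu.add (hv.const_mul a)
  have h2 : Integrable (fun p => u p + a * v p + b * w p) := h1.add (hw.const_mul b)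
  rw [integral_add h2 (hz.const_mul c), integral_add h1 (hw.const_mul b),
    integral_add hu (hv.const_mul a), integral_const_mul, integral_const_mul, integral_const_mul]

private theorem cs_L2 {g h : Pl → ℝ} (h1 : Integrable (fun p => g p * g p))
    (h2 : Integrable (fun p => g p * h p)) (h3 : Integrable (fun p => h p * h p)) :
    (∫ p, g p * h p) ^ 2 ≤ (∫ p, g p * g p) * ∫ p, h p * h p := by
  refine cs_of_nonneg fun t => ?_
  have e : (∫ p, (g p + t * h p) ^ 2) = (∫ p, g p * g p) + 2 * t * (∫ p, g p * h p) +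
      t ^ 2 * ∫ p, h p * h p := by
    have e0 : ∀ p, (g p + t * h p) ^ 2 =
        g p * g p + t * (g p * h p) + t * (g p * h p) + t ^ 2 * (h p * h p) := fun p => by ring
    simp only [e0]
    rw [int_lin h1 h2 h2 h3]
    ring
  rw [← e]
  exact integral_nonneg fun p => sq_nonneg _

private theorem cs_K {δ : ℝ} (hδ : 0 < δ) {F : Set Pl} (hF : MeasurableSet F)
    (hv : volume F ≠ ⊤) {g h : Pl → ℝ} (hg : BF F g) (hh : BF F h) :
    (∫ p, g p * kfK δ F h p) ^ 2 ≤ (∫ p, g p * kfK δ F g p) * ∫ p, h p * kfK δ F h p := by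
  refine cs_of_nonneg fun t => ?_
  have hKg := kfK_BF hδ hF hv hg
  have hKh := kfK_BF hδ hF hv hh
  have hgh := BF_add_smul hg hh t
  have e : (∫ p, (g p + t * h p) * kfK δ F (fun p => g p + t * h p) p) =
      (∫ p, g p * kfK δ F g p) + 2 * t * (∫ p, g p * kfK δ F h p) +
      t ^ 2 * ∫ p, h p * kfK δ F h p := by
    have i1 := BF_int_mul hv hg hKg
    have i2 := BF_int_mul hv hg hKh
    have i3 := BF_int_mul hv hKg hh
    have i4 := BF_int_mul hv hh hKh
    have e1 : ∀ p, (g p + t * h p) * kfK δ F (fun p => g p + t * h p) p =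
        g p * kfK δ F g p + t * (g p * kfK δ F h p) + t * (kfK δ F g p * h p) +
          t ^ 2 * (h p * kfK δ F h p) := by
      intro p
      rw [kfK_add_smul hδ hg hh t p]
      ring
    simp only [e1]
    rw [int_lin i1 i2 i3 i4, ← kfK_symm hδ hv hg hh]
    ring
  rw [← e, kfK_form hgh]
  exact ker_pos hv hgh hδ

/-- the moments `⟨g, K^n g⟩` -/
private def mo (δ : ℝ) (F : Set Pl) (g : Pl → ℝ) (n : ℕ) : ℝ :=
  ∫ p, g p * (kfK δ F)^[n] g p

private theorem mo_split {δ : ℝ} (hδ : 0 < δ) {F : Set Pl} (hF : MeasurableSet F)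
    (hv : volume F ≠ ⊤) {g : Pl → ℝ} (hg : BF F g) (i : ℕ) : ∀ j : ℕ,
    ∫ p, (kfK δ F)^[i] g p * (kfK δ F)^[j] g p = mo δ F g (i + j) := by
  induction i with
  | zero =>
    intro j
    rw [zero_add]
    rfl
  | succ i ih =>
    intro j
    have h1 := kfK_iter_BF hδ hF hv hg i
    have h2 := kfK_iter_BF hδ hF hv hg j
    have h3 := kfK_symm hδ hv h1 h2
    rw [Function.iterate_succ_apply', ← h3, ← Function.iterate_succ_apply' (kfK δ F) j g, ih (j + 1)]
    congr 1
    omega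

private theorem mo_even {δ : ℝ} (hδ : 0 < δ) {F : Set Pl} (hF : MeasurableSet F)
    (hv : volume F ≠ ⊤) {g : Pl → ℝ} (hg : BF F g) (i : ℕ) :
    mo δ F g (2 * i) = ms ((kfK δ F)^[i] g) := by
  rw [two_mul, ← mo_split hδ hF hv hg i i, ms]
  refine integral_congr_ae (Filter.Eventually.of_forall fun q => ?_)
  show _ = _
  ring

private theorem mo_odd {δ : ℝ} (hδ : 0 < δ) {F : Set Pl} (hF : MeasurableSet F)
    (hv : volume F ≠ ⊤) {g : Pl → ℝ} (hg : BF F g) (i : ℕ) :
    mo δ F g (2 * i + 1) = ∫ p, (kfK δ F)^[i] g p * Pt δ ((kfK δ F)^[i] g) p := by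
  rw [two_mul, add_assoc, ← mo_split hδ hF hv hg i (i + 1), Function.iterate_succ_apply',
    kfK_form (kfK_iter_BF hδ hF hv hg i)]

private theorem mo_nonneg {δ : ℝ} (hδ : 0 < δ) {F : Set Pl} (hF : MeasurableSet F)
    (hv : volume F ≠ ⊤) {g : Pl → ℝ} (hg : BF F g) (n : ℕ) : 0 ≤ mo δ F g n := by
  rcases Nat.even_or_odd' n with ⟨i, h | h⟩
  · rw [h, mo_even hδ hF hv hg]
    exact integral_nonneg fun p => sq_nonneg _
  · rw [h, mo_odd hδ hF hv hg]
    exact ker_pos hv (kfK_iter_BF hδ hF hv hg i) hδ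

private theorem mo_logconv {δ : ℝ} (hδ : 0 < δ) {F : Set Pl} (hF : MeasurableSet F)
    (hv : volume F ≠ ⊤) {g : Pl → ℝ} (hg : BF F g) (n : ℕ) :
    mo δ F g (n + 1) ^ 2 ≤ mo δ F g n * mo δ F g (n + 2) := by
  rcases Nat.even_or_odd' n with ⟨i, h | h⟩
  · have e0 : mo δ F g n = ∫ p, (kfK δ F)^[i] g p * (kfK δ F)^[i] g p := by
      rw [mo_split hδ hF hv hg i i]; congr 1; omega
    have e1 : mo δ F g (n + 1) = ∫ p, (kfK δ F)^[i] g p * (kfK δ F)^[i + 1] g p := by
      rw [mo_split hδ hF hv hg i (i + 1)]; congr 1; omega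
    have e2 : mo δ F g (n + 2) = ∫ p, (kfK δ F)^[i + 1] g p * (kfK δ F)^[i + 1] g p := by
      rw [mo_split hδ hF hv hg (i + 1) (i + 1)]; congr 1; omega
    rw [e0, e1, e2]
    have b1 := kfK_iter_BF hδ hF hv hg i
    have b2 := kfK_iter_BF hδ hF hv hg (i + 1)
    exact cs_L2 (BF_int_mul hv b1 b1) (BF_int_mul hv b1 b2) (BF_int_mul hv b2 b2)
  · have e0 : mo δ F g n = ∫ p, (kfK δ F)^[i] g p * kfK δ F ((kfK δ F)^[i] g) p := by
      rw [← Function.iterate_succ_apply' (kfK δ F) i g, mo_split hδ hF hv hg i (i + 1)]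
      congr 1; omega
    have e1 : mo δ F g (n + 1) = ∫ p, (kfK δ F)^[i] g p * kfK δ F ((kfK δ F)^[i + 1] g) p := by
      rw [← Function.iterate_succ_apply' (kfK δ F) (i + 1) g, mo_split hδ hF hv hg i (i + 1 + 1)]
      congr 1; omega
    have e2 : mo δ F g (n + 2) =
        ∫ p, (kfK δ F)^[i + 1] g p * kfK δ F ((kfK δ F)^[i + 1] g) p := by
      rw [← Function.iterate_succ_apply' (kfK δ F) (i + 1) g,
        mo_split hδ hF hv hg (i + 1) (i + 1 + 1)]
      congr 1; omega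
    rw [e0, e1, e2]
    exact cs_K hδ hF hv (kfK_iter_BF hδ hF hv hg i) (kfK_iter_BF hδ hF hv hg (i + 1))

private theorem Ker_BF_int {F : Set Pl} (hF : volume F ≠ ⊤) {g : Pl → ℝ} (hg : BF F g) :
    Integrable g := by
  obtain ⟨B, hB⟩ := hg.bdd
  have hm : MeasurableSet {p | g p ≠ 0} := hg.meas (measurableSet_singleton 0).compl
  have hsub : {p | g p ≠ 0} ⊆ F := by
    intro p hp
    by_contra h
    exact hp (hg.zero p h)
  have hfin : volume {p | g p ≠ 0} < ⊤ := (measure_mono hsub).trans_lt (lt_top_iff_ne_top.2 hF)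
  have h1 : Integrable ({p | g p ≠ 0}.indicator fun _ => B) :=
    (integrable_indicator_iff hm).2 (integrableOn_const hfin.ne)
  refine h1.mono' hg.meas.aestronglyMeasurable (Eventually.of_forall fun p => ?_)
  by_cases hp : g p = 0
  · rw [hp, norm_zero]
    exact indicator_nonneg (fun x _ => (abs_nonneg _).trans (hB x)) p
  · rw [indicator_of_mem (show p ∈ {p | g p ≠ 0} from hp)]
    exact hB p

private theorem Ker_semi {g : Pl → ℝ} (hg : Integrable g) {σ τ : ℝ} (hσ : 0 < σ) (hτ : 0 < τ)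
    (p : Pl) : Pt σ (Pt τ g) p = Pt (σ + τ) g p := by
  have hi : Integrable (fun q => hk σ (p - q)) := (hk_integrable hσ).comp_sub_left p
  have h1 : Integrable (fun z : Pl × Pl => hk σ (p - z.1) * g z.2) (volume.prod volume) :=
    hi.mul_prod hg
  have hc : Continuous fun z : Pl × Pl => hk τ (z.1 - z.2) :=
    (hk_cont hτ).comp (continuous_fst.sub continuous_snd)
  have h2 : Integrable (fun z : Pl × Pl => hk τ (z.1 - z.2) * (hk σ (p - z.1) * g z.2))
      (volume.prod volume) := by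
    refine h1.bdd_mul hc.aestronglyMeasurable (c := 1 / (2 * Real.pi * τ))
      (Eventually.of_forall fun z => ?_)
    rw [Real.norm_eq_abs, abs_of_pos (hk_pos hτ _)]
    exact hk_le hτ _
  calc Pt σ (Pt τ g) p = ∫ q, ∫ z, hk τ (q - z) * (hk σ (p - q) * g z) := by
        unfold Pt
        congr 1
        funext q
        rw [← integral_const_mul]
        congr 1
        funext z
        ring
    _ = ∫ z, ∫ q, hk τ (q - z) * (hk σ (p - q) * g z) := integral_integral_swap h2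
    _ = Pt (σ + τ) g p := by
        unfold Pt
        congr 1
        funext z
        rw [← hk_semi hσ hτ, ← integral_mul_const]
        congr 1
        funext q
        ring


private theorem S2_sq {τ : ℝ} (hτ : 1 ≤ τ) (p : Pl) {f : Pl → ℝ} (hf : Integrable fun q => f q ^ 2)
    (hfi : Integrable f) (h1 : ms f = 1) : Pt τ (fun q => |f q|) p ≤ 1 := by
  have hτ0 : 0 < τ := by linarith
  have hi : Integrable (fun q => hk τ (p - q)) := (hk_integrable hτ0).comp_sub_left p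
  have hc : Continuous fun q => hk τ (p - q) :=
    (hk_cont hτ0).comp (continuous_const.sub continuous_id)
  have hle : ∀ q, hk τ (p - q) ≤ 1 := by
    intro q
    refine (hk_le hτ0 _).trans ?_
    rw [div_le_one (by positivity)]
    have := Real.pi_gt_three
    nlinarith
  have hb : ∀ q, ‖hk τ (p - q)‖ ≤ 1 := by
    intro q
    rw [Real.norm_eq_abs, abs_of_pos (hk_pos hτ0 _)]
    exact hle q
  have i1 : Integrable (fun q => hk τ (p - q) * hk τ (p - q)) :=
    hi.bdd_mul hc.aestronglyMeasurable (Filter.Eventually.of_forall hb)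
  have i2 : Integrable (fun q => hk τ (p - q) * |f q|) :=
    hfi.abs.bdd_mul hc.aestronglyMeasurable (Filter.Eventually.of_forall hb)
  have i3 : Integrable (fun q => |f q| * |f q|) := by
    refine hf.congr (Filter.Eventually.of_forall fun q => ?_)
    show f q ^ 2 = |f q| * |f q|
    rw [abs_mul_abs_self, pow_two]
  have hcs := cs_L2 i1 i2 i3
  have e3 : ∫ q, |f q| * |f q| = 1 := by
    rw [← h1, ms]
    congr 1
    funext q
    rw [abs_mul_abs_self, pow_two]
  have e1 : ∫ q, hk τ (p - q) * hk τ (p - q) ≤ 1 := by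
    have e4 : ∫ q, hk τ (p - q) = 1 := by
      rw [integral_sub_left_eq_self (hk τ) volume p, hk_int hτ0]
    rw [← e4]
    refine integral_mono i1 hi fun q => ?_
    exact mul_le_of_le_one_left (hk_pos hτ0 _).le (hle q)
  rw [e3, mul_one] at hcs
  have h2 : (∫ q, hk τ (p - q) * |f q|) ^ 2 ≤ 1 := hcs.trans e1
  show ∫ q, hk τ (p - q) * |f q| ≤ 1
  nlinarith

private theorem S2_Pt_abs {δ : ℝ} (hδ : 0 < δ) {g h : Pl → ℝ} (hh : Measurable h) {B : ℝ}
    (hB : ∀ p, |h p| ≤ B) (hgh : ∀ p, |g p| ≤ h p) (p : Pl) : |Pt δ g p| ≤ Pt δ h p := by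
  rw [← Real.norm_eq_abs]
  unfold Pt
  refine norm_integral_le_of_norm_le (hk_mul_int hδ hh hB p)
    (Filter.Eventually.of_forall fun q => ?_)
  rw [Real.norm_eq_abs, abs_mul, abs_of_pos (hk_pos hδ _)]
  exact mul_le_mul_of_nonneg_left (hgh q) (hk_pos hδ _).le

private theorem S2_iter {δ : ℝ} (hδ : 0 < δ) {F : Set Pl}
    (hv : volume F ≠ ⊤) {f : Pl → ℝ} (hf : BF F f) (m : ℕ) (p : Pl) :
    |(kfK δ F)^[m + 1] f p| ≤ Pt ((m + 1) * δ) (fun q => |f q|) p := by
  have hfa : BF F fun q => |f q| := by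
    obtain ⟨B, hB⟩ := hf.bdd
    exact ⟨hf.meas.abs, ⟨B, fun q => by rw [abs_abs]; exact hB q⟩, fun q hq => by
      rw [hf.zero q hq, abs_zero]⟩
  obtain ⟨B, hB⟩ := hfa.bdd
  have hPt0 : ∀ (τ : ℝ), 0 < τ → ∀ p, 0 ≤ Pt τ (fun q => |f q|) p := fun τ hτ p =>
    integral_nonneg fun z => mul_nonneg (hk_pos hτ _).le (abs_nonneg _)
  induction m generalizing p with
  | zero =>
    rw [zero_add, Function.iterate_one]
    simp only [Nat.cast_zero, zero_add, one_mul]
    by_cases hp : p ∈ F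
    · rw [kfK, Set.indicator_of_mem hp]
      exact S2_Pt_abs hδ hfa.meas hB (fun q => le_rfl) p
    · rw [kfK, Set.indicator_of_notMem hp, abs_zero]
      exact hPt0 δ hδ p
  | succ m ih =>
    have hm : 0 < ((m : ℝ) + 1) * δ := by positivity
    have hm2 : 0 < (((m + 1 : ℕ) : ℝ) + 1) * δ := by positivity
    rw [Function.iterate_succ_apply']
    by_cases hp : p ∈ F
    · rw [kfK, Set.indicator_of_mem hp]
      have h1 := S2_Pt_abs hδ (g := (kfK δ F)^[m + 1] f)
        (h := Pt ((m + 1) * δ) (fun q => |f q|)) (ker_cont hv hfa hm).measurable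
        (ker_bdd hfa.meas hB hm) ih p
      refine h1.trans (le_of_eq ?_)
      rw [Ker_semi (Ker_BF_int hv hfa) hδ hm]
      congr 1
      push_cast
      ring
    · rw [kfK, Set.indicator_of_notMem hp, abs_zero]
      exact hPt0 _ hm2 p

theorem kf_low2 {δ : ℝ} (hδ : 0 < δ) {F : Set Pl} (hF : MeasurableSet F) (hv : volume F ≠ ⊤)
    {f : Pl → ℝ} (hf : CC univ f) (hs : tsupport f ⊆ F) (h1 : ms f = 1) (hδf : δ * en f ≤ 1)
    (n m : ℕ) (hm : 1 ≤ m * δ) :
    (1 - δ * en f) ^ (n + 2 * m) ≤ ∫ p in F, kf δ F n p := by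
  have hfc := hf.smooth.continuous
  obtain ⟨B, hB⟩ := hf.cpt.exists_bound_of_continuous hfc
  have hfBF : BF F f := by
    refine ⟨hfc.measurable, ⟨B, hB⟩, fun p hp => ?_⟩
    exact image_eq_zero_of_notMem_tsupport fun h => hp (hs h)
  obtain ⟨ρ, hρ⟩ : ∃ ρ : ℝ, ρ = 1 - δ * en f := ⟨_, rfl⟩
  rw [← hρ]
  have hρ0 : 0 ≤ ρ := by rw [hρ]; linarith
  have m0 : mo δ F f 0 = 1 := by
    have := mo_even hδ hF hv hfBF 0
    simpa [h1] using this
  have m1 : ρ ≤ mo δ F f 1 := by
    have e := mo_odd hδ hF hv hfBF 0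
    have e2 : mo δ F f 1 = ∫ p, f p * Pt δ f p := by simpa using e
    rw [e2, hρ, ← h1]
    exact ker_low hf hδ
  have hstep : ∀ n, ρ * mo δ F f n ≤ mo δ F f (n + 1) := by
    intro n
    induction n with
    | zero => rw [m0]; simpa using m1
    | succ n ih =>
      have hlc := mo_logconv hδ hF hv hfBF n
      have p0 := mo_nonneg hδ hF hv hfBF n
      have p1 := mo_nonneg hδ hF hv hfBF (n + 1)
      have p2 := mo_nonneg hδ hF hv hfBF (n + 2)
      rcases p0.eq_or_lt with h0 | h0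
      · rw [← h0, zero_mul] at hlc
        have : mo δ F f (n + 1) = 0 := by
          have := sq_nonneg (mo δ F f (n + 1))
          exact pow_eq_zero_iff (two_ne_zero) |>.1 (le_antisymm hlc this)
        rw [this, mul_zero]
        exact p2
      · show ρ * mo δ F f (n + 1) ≤ mo δ F f (n + 2)
        refine le_of_mul_le_mul_left ?_ h0
        calc mo δ F f n * (ρ * mo δ F f (n + 1)) = (ρ * mo δ F f n) * mo δ F f (n + 1) := by ring
          _ ≤ mo δ F f (n + 1) * mo δ F f (n + 1) := mul_le_mul_of_nonneg_right ih p1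
          _ = mo δ F f (n + 1) ^ 2 := by ring
          _ ≤ mo δ F f n * mo δ F f (n + 2) := hlc
  have hpow : ∀ n, ρ ^ n ≤ mo δ F f n := by
    intro n
    induction n with
    | zero => rw [m0, pow_zero]
    | succ n ih =>
      calc ρ ^ (n + 1) = ρ * ρ ^ n := by ring
        _ ≤ ρ * mo δ F f n := mul_le_mul_of_nonneg_left ih hρ0
        _ ≤ mo δ F f (n + 1) := hstep n
  refine (hpow (n + 2 * m)).trans ?_
  obtain ⟨g, hg⟩ : ∃ g : Pl → ℝ, g = (kfK δ F)^[m] f := ⟨_, rfl⟩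
  have hgBF : BF F g := by
    rw [hg]
    exact kfK_iter_BF hδ hF hv hfBF m
  have hm1 : 1 ≤ m := by
    rcases Nat.eq_zero_or_pos m with h0 | h0
    · rw [h0] at hm
      norm_num at hm
    · exact h0
  have hg1 : ∀ p, |g p| ≤ 1 := by
    intro p
    obtain ⟨k, rfl⟩ : ∃ k, m = k + 1 := ⟨m - 1, by omega⟩
    rw [hg]
    refine (S2_iter hδ hv hfBF k p).trans ?_
    apply S2_sq _ p hf.integrable_sq hf.integrable h1
    exact_mod_cast hm
  have e0 : mo δ F f (n + 2 * m) = ∫ p, g p * (kfK δ F)^[n] g p := by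
    have e1 := mo_split hδ hF hv hfBF m (n + m)
    rw [show n + 2 * m = m + (n + m) by ring, ← e1, hg, Function.iterate_add_apply]
  rw [e0]
  have hdom : ∀ n p, |(kfK δ F)^[n] g p| ≤ kf δ F n p := by
    intro n
    induction n with
    | zero =>
      intro p
      by_cases hp : p ∈ F
      · simpa [kf, hp] using hg1 p
      · simp [kf, hp, hgBF.zero p hp]
    | succ n ih =>
      intro p
      rw [Function.iterate_succ_apply', kf]
      by_cases hp : p ∈ F
      · rw [kfK, Set.indicator_of_mem hp, Set.indicator_of_mem hp]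
        have hb := kf_BF hδ hF hv n
        obtain ⟨C, hC⟩ := hb.bdd
        exact S2_Pt_abs hδ hb.meas hC ih p
      · rw [kfK, Set.indicator_of_notMem hp, Set.indicator_of_notMem hp]
        simp
  have hb := kf_BF hδ hF hv n
  have hset : ∫ p in F, kf δ F n p = ∫ p, kf δ F n p :=
    setIntegral_eq_integral_of_forall_compl_eq_zero fun p hp => hb.zero p hp
  have hint : Integrable (kf δ F n) := Ker_BF_int hv hb
  rw [hset]
  refine integral_mono (BF_int_mul hv hgBF (kfK_iter_BF hδ hF hv hgBF n)) hint ?_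
  intro p
  show g p * (kfK δ F)^[n] g p ≤ kf δ F n p
  calc g p * (kfK δ F)^[n] g p ≤ |g p * (kfK δ F)^[n] g p| := le_abs_self _
    _ = |g p| * |(kfK δ F)^[n] g p| := abs_mul _ _
    _ ≤ 1 * kf δ F n p := mul_le_mul (hg1 p) (hdom n p) (abs_nonneg _) zero_le_one
    _ = kf δ F n p := one_mul _

variable {Ω : Type*} [MeasurableSpace Ω] {P : Measure Ω} {X Y : ℝ≥0 → Ω → ℝ}

/-- dyadic times -/
private theorem SurvLow_dense {t : ℝ≥0} (ht : 0 < t) {s : ℝ≥0} (hs : s ≤ t) :
    ∃ k : ℕ → ℕ, (∀ m, k m ≤ 2 ^ m) ∧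
      Tendsto (fun m => (k m : ℝ≥0) * (t / 2 ^ m)) atTop (𝓝 s) := by
  refine ⟨fun m => ⌊(s / t : ℝ≥0) * 2 ^ m⌋₊, fun m => ?_, ?_⟩
  · have h1 : s / t * 2 ^ m ≤ ((2 ^ m : ℕ) : ℝ≥0) := by
      push_cast
      calc s / t * 2 ^ m ≤ 1 * 2 ^ m := by
            gcongr
            exact (div_le_one ht).2 hs
        _ = 2 ^ m := one_mul _
    exact Nat.floor_le_of_le h1
  · rw [← NNReal.tendsto_coe]
    have ht' : (0 : ℝ) < t := by exact_mod_cast ht
    have hle : ∀ m : ℕ, ((⌊(s / t : ℝ≥0) * 2 ^ m⌋₊ : ℝ≥0) * (t / 2 ^ m) : ℝ≥0) ≤ s := by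
      intro m
      have h1 : ((⌊(s / t : ℝ≥0) * 2 ^ m⌋₊ : ℕ) : ℝ≥0) ≤ s / t * 2 ^ m := Nat.floor_le (by positivity)
      calc ((⌊(s / t : ℝ≥0) * 2 ^ m⌋₊ : ℝ≥0) * (t / 2 ^ m) : ℝ≥0) ≤ s / t * 2 ^ m * (t / 2 ^ m) := by
            gcongr
        _ = s := by
          field_simp
    have hge : ∀ m : ℕ, (s : ℝ) - t / 2 ^ m ≤
        (((⌊(s / t : ℝ≥0) * 2 ^ m⌋₊ : ℝ≥0) * (t / 2 ^ m) : ℝ≥0) : ℝ) := by
      intro m
      have h1 : ((s / t * 2 ^ m : ℝ≥0) : ℝ) < (⌊(s / t : ℝ≥0) * 2 ^ m⌋₊ : ℝ) + 1 := by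
        exact_mod_cast Nat.lt_floor_add_one ((s / t : ℝ≥0) * 2 ^ m)
      push_cast at h1 ⊢
      have h2 : (s : ℝ) / t * 2 ^ m * (t / 2 ^ m) ≤
          ((⌊(s / t : ℝ≥0) * 2 ^ m⌋₊ : ℝ) + 1) * (t / 2 ^ m) :=
        mul_le_mul_of_nonneg_right h1.le (by positivity)
      have h3 : (s : ℝ) / t * 2 ^ m * (t / 2 ^ m) = s := by
        field_simp
      rw [h3] at h2
      linarith
    refine tendsto_of_tendsto_of_tendsto_of_le_of_le (g := fun m : ℕ => (s : ℝ) - t / 2 ^ m)
      (h := fun _ => (s : ℝ)) ?_ tendsto_const_nhds hge fun m => by exact_mod_cast hle m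
    have h1 : Tendsto (fun m : ℕ => (t : ℝ) * (1 / 2) ^ m) atTop (𝓝 (t * 0)) :=
      (tendsto_pow_atTop_nhds_zero_of_lt_one (by norm_num) (by norm_num)).const_mul _
    rw [mul_zero] at h1
    have h2 := h1.const_sub (s : ℝ)
    rw [sub_zero] at h2
    refine h2.congr fun m => ?_
    rw [one_div, inv_pow, div_eq_mul_inv]

theorem surv_low2 (h : PBM P X Y) {F : Set Pl} (hF : IsCompact F) {f : Pl → ℝ} (hf : CC univ f)
    (hs : tsupport f ⊆ F) (h1 : ms f = 1) {t : ℝ≥0} (ht : 0 < t) :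
    ENNReal.ofReal (Real.exp (-((t : ℝ) + 2) * en f)) ≤
      ∫⁻ p in F, P {o | ∀ s ≤ t, pos X Y p s o ∈ F} := by
  have hFm : MeasurableSet F := hF.measurableSet
  have hv : volume F ≠ ⊤ := hF.measure_lt_top.ne
  have hP := h.isProb
  let E : Pl → ℕ → Set Ω := fun p m =>
    {o | ∀ k : ℕ, k ≤ 2 ^ m → pos X Y p ((k : ℝ≥0) * (t / 2 ^ m)) o ∈ F}
  have hδ : ∀ m : ℕ, (0 : ℝ≥0) < t / 2 ^ m := fun m => by positivity
  have hE : ∀ p m, P (E p m) = ENNReal.ofReal (kf ((t / 2 ^ m : ℝ≥0) : ℝ) F (2 ^ m) p) := fun p m =>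
    fdd h (hδ m) hFm (2 ^ m) p
  have hanti : ∀ p, Antitone (E p) := by
    intro p
    refine antitone_nat_of_succ_le fun m o ho k hk => ?_
    have h2 := ho (2 * k) (by rw [pow_succ]; omega)
    have h3 : ((2 * k : ℕ) : ℝ≥0) * (t / 2 ^ (m + 1)) = k * (t / 2 ^ m) := by
      push_cast
      rw [pow_succ]
      field_simp
    rwa [h3] at h2
  have hpm : ∀ p s, AEMeasurable (fun o => pos X Y p s o) P := fun p s =>
    ((h.fst.aemeasurable s).const_add _).prodMk ((h.snd.aemeasurable s).const_add _)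
  have hEm : ∀ p m, NullMeasurableSet (E p m) P := by
    intro p m
    have h2 : E p m = ⋂ k : Fin (2 ^ m + 1),
        (fun o => pos X Y p (((k : ℕ) : ℝ≥0) * (t / 2 ^ m)) o) ⁻¹' F := by
      ext o
      simp only [E, Set.mem_ofPred_eq, Set.mem_iInter, Set.mem_preimage]
      constructor
      · intro ho k
        exact ho k (by have := k.2; omega)
      · intro ho k hk
        exact ho ⟨k, by omega⟩
    rw [h2]
    exact NullMeasurableSet.iInter fun k => (hpm p _).nullMeasurable hFm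
  have hlimE : ∀ p, Tendsto (fun m => P (E p m)) atTop (𝓝 (P (⋂ m, E p m))) := fun p =>
    tendsto_measure_iInter_atTop (hEm p) (hanti p) ⟨0, measure_ne_top _ _⟩
  have hmono : ∀ p, P (⋂ m, E p m) ≤ P {o | ∀ s ≤ t, pos X Y p s o ∈ F} := by
    intro p
    refine measure_mono_ae ?_
    filter_upwards [h.fst.cont, h.snd.cont] with o hX hY ho s hs'
    have ho' : ∀ m, o ∈ E p m := Set.mem_iInter.1 ho
    obtain ⟨k, hk, hklim⟩ := SurvLow_dense ht hs'
    have hc : Continuous fun s : ℝ≥0 => pos X Y p s o :=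
      (continuous_const.add hX).prodMk (continuous_const.add hY)
    exact hF.isClosed.mem_of_tendsto ((hc.tendsto s).comp hklim)
      (Eventually.of_forall fun m => ho' m (k m) (hk m))
  -- the limit of the integrals
  have hint : Tendsto (fun m => ∫⁻ p in F, P (E p m)) atTop (𝓝 (∫⁻ p in F, P (⋂ m, E p m))) := by
    refine tendsto_lintegral_of_dominated_convergence (fun _ => 1) (fun m => ?_) (fun m => ?_) ?_ ?_
    · have h2 : (fun p => P (E p m)) =
          fun p => ENNReal.ofReal (kf ((t / 2 ^ m : ℝ≥0) : ℝ) F (2 ^ m) p) := funext fun p => hE p m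
      rw [h2]
      exact (kf_BF (by exact_mod_cast hδ m) hFm hv (2 ^ m)).meas.ennreal_ofReal
    · exact Eventually.of_forall fun p => prob_le_one
    · rw [setLIntegral_const, one_mul]
      exact hv
    · exact Eventually.of_forall hlimE
  obtain ⟨e, he⟩ : ∃ e, e = en f := ⟨_, rfl⟩
  have he0 : 0 ≤ e := by
    rw [he]
    exact en_nonneg f
  have hδ0 : Tendsto (fun m : ℕ => ((t / 2 ^ m : ℝ≥0) : ℝ)) atTop (𝓝 0) := by
    have h3 : Tendsto (fun m : ℕ => (t : ℝ) * (1 / 2) ^ m) atTop (𝓝 (t * 0)) :=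
      (tendsto_pow_atTop_nhds_zero_of_lt_one (by norm_num) (by norm_num)).const_mul _
    rw [mul_zero] at h3
    refine h3.congr fun m => ?_
    push_cast
    rw [one_div, inv_pow, div_eq_mul_inv]
  have hL : Tendsto (fun m : ℕ => ENNReal.ofReal (Real.exp
      (-((t : ℝ) + 2 + 2 * ((t / 2 ^ m : ℝ≥0) : ℝ)) * e / (1 - ((t / 2 ^ m : ℝ≥0) : ℝ) * e))))
      atTop (𝓝 (ENNReal.ofReal (Real.exp (-((t : ℝ) + 2) * e)))) := by
    refine (ENNReal.continuous_ofReal.tendsto _).comp ?_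
    refine (Real.continuous_exp.tendsto _).comp ?_
    have h3 : Tendsto (fun x : ℝ => -((t : ℝ) + 2 + 2 * x) * e / (1 - x * e)) (𝓝 0)
        (𝓝 (-((t : ℝ) + 2 + 2 * 0) * e / (1 - 0 * e))) := by
      apply ContinuousAt.tendsto
      apply ContinuousAt.div
      · fun_prop
      · fun_prop
      · simp
    have h4 := h3.comp hδ0
    simp only [mul_zero, add_zero, zero_mul, sub_zero, div_one] at h4
    exact h4
  rw [← he]
  refine (le_of_tendsto_of_tendsto hL hint ?_).trans (lintegral_mono fun p => hmono p)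
  have h2 : Tendsto (fun m : ℕ => ((t / 2 ^ m : ℝ≥0) : ℝ) * e) atTop (𝓝 (0 * e)) :=
    hδ0.mul_const _
  rw [zero_mul] at h2
  filter_upwards [h2.eventually (gt_mem_nhds zero_lt_one)] with m hm
  have hδm : (0 : ℝ) < ((t / 2 ^ m : ℝ≥0) : ℝ) := by exact_mod_cast hδ m
  obtain ⟨d, hd⟩ : ∃ d, d = ((t / 2 ^ m : ℝ≥0) : ℝ) := ⟨_, rfl⟩
  have hdt : d * 2 ^ m = t := by
    rw [hd]
    push_cast
    field_simp
  rw [← hd] at hm hδm ⊢
  obtain ⟨j, hj⟩ : ∃ j : ℕ, j = ⌈1 / d⌉₊ := ⟨_, rfl⟩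
  have hj1 : 1 ≤ j * d := by
    have h5 : 1 / d ≤ j := by
      rw [hj]
      exact Nat.le_ceil _
    rwa [div_le_iff₀ hδm] at h5
  have hj2 : j * d ≤ 1 + d := by
    have h5 : (j : ℝ) < 1 / d + 1 := by
      rw [hj]
      exact Nat.ceil_lt_add_one (by positivity)
    have h6 := mul_le_mul_of_nonneg_right h5.le hδm.le
    have h7 : (1 / d + 1) * d = 1 + d := by
      field_simp
    linarith
  have hkf := kf_low2 hδm hFm hv hf hs h1 (by rw [← he]; exact hm.le) (2 ^ m) j hj1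
  rw [← he] at hkf
  have hx0 : 0 < 1 - d * e := by linarith
  have h8 : Real.exp (-(d * e / (1 - d * e))) ≤ 1 - d * e := by
    have h9 := Real.add_one_le_exp (d * e / (1 - d * e))
    have h10 : d * e / (1 - d * e) + 1 = (1 - d * e)⁻¹ := by
      field_simp
      ring
    rw [h10] at h9
    rw [Real.exp_neg]
    exact inv_le_of_inv_le₀ hx0 h9
  have h11 : Real.exp (-((t : ℝ) + 2 + 2 * d) * e / (1 - d * e)) ≤
      (1 - d * e) ^ (2 ^ m + 2 * j) := by
    calc Real.exp (-((t : ℝ) + 2 + 2 * d) * e / (1 - d * e))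
        ≤ Real.exp (-(d * e / (1 - d * e))) ^ (2 ^ m + 2 * j) := by
          rw [← Real.exp_nat_mul, Real.exp_le_exp]
          rw [mul_neg, neg_mul, neg_div, neg_le_neg_iff, ← mul_div_assoc]
          apply div_le_div_of_nonneg_right _ hx0.le
          push_cast
          have h12 : (2 ^ m + 2 * (j : ℝ)) * (d * e) = (d * 2 ^ m + 2 * (j * d)) * e := by ring
          rw [h12, hdt]
          apply mul_le_mul_of_nonneg_right _ he0
          linarith
      _ ≤ (1 - d * e) ^ (2 ^ m + 2 * j) := pow_le_pow_left₀ (Real.exp_pos _).le h8 _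
  refine (ENNReal.ofReal_le_ofReal (h11.trans hkf)).trans (le_of_eq ?_)
  have hbf := kf_BF hδm hFm hv (2 ^ m)
  rw [ofReal_integral_eq_lintegral_ofReal]
  · exact lintegral_congr fun p => by rw [hE p m, hd]
  · refine Integrable.mono' (g := fun _ => (1 : ℝ)) ?_ hbf.meas.aestronglyMeasurable ?_
    · exact integrableOn_const hv
    · refine Eventually.of_forall fun p => ?_
      rw [Real.norm_of_nonneg (kf_nonneg hδm F _ p)]
      exact kf_le_one hδm hFm _ p
  · exact Eventually.of_forall fun p => kf_nonneg hδm F _ p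

end Pool.Agent.BSs
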