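import Pool.Agent.BSs.Dil
import Pool.Agent.BSs.Cut
import Pool.Agent.BSs.Ground
import Pool.Agent.BSs.Prod
import Pool.Agent.BSs.SurvLow2
import Pool.Agent.BSs.PathO
import Pool.Agent.BSv.Fam

/-!
# Geometric lemmas for module DROP (helper98)
-/

open MeasureTheory Set Filter Topology ProbabilityTheory Pool.Agent.BSv
open scoped ENNReal NNReal ContDiff

noncomputable section

namespace Pool.Agent.BSs

/-- the `a`-cells in the `m a`-square with index `j` -/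
def blk (m : ℕ) (j : ℤ × ℤ) : Finset (ℤ × ℤ) :=
  Finset.Ico (m * j.1) (m * j.1 + m) ×ˢ Finset.Ico (m * j.2) (m * j.2 + m)

theorem mem_blk {m : ℕ} {j c : ℤ × ℤ} : c ∈ blk m j ↔
    (m * j.1 ≤ c.1 ∧ c.1 < m * j.1 + m) ∧ (m * j.2 ≤ c.2 ∧ c.2 < m * j.2 + m) := by
  unfold blk
  rw [Finset.mem_product, Finset.mem_Ico, Finset.mem_Ico]

theorem card_blk (m : ℕ) (j : ℤ × ℤ) : (blk m j).card = m ^ 2 := by
  unfold blk
  rw [Finset.card_product, Int.card_Ico, Int.card_Ico]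
  simp only [add_sub_cancel_left, Int.toNat_natCast]
  ring

theorem blk_aux {m : ℕ} {i i' c : ℤ} (h1 : m * i ≤ c) (h2 : c < m * i + m)
    (h3 : m * i' ≤ c) : i' ≤ i := by
  by_contra hcon
  push Not at hcon
  have h4 : i + 1 ≤ i' := hcon
  have h5 : (m : ℤ) * (i + 1) ≤ m * i' := mul_le_mul_of_nonneg_left h4 (by positivity)
  have h6 : (m : ℤ) * (i + 1) = m * i + m := by ring
  omega

theorem blk_disj {m : ℕ} {j j' : ℤ × ℤ} (h : j ≠ j') : Disjoint (blk m j) (blk m j') := by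
  rw [Finset.disjoint_left]
  intro c hc hc'
  obtain ⟨⟨a1, a2⟩, ⟨a3, a4⟩⟩ := mem_blk.mp hc
  obtain ⟨⟨b1, b2⟩, ⟨b3, b4⟩⟩ := mem_blk.mp hc'
  apply h
  have h1 := blk_aux a1 a2 b1
  have h2 := blk_aux b1 b2 a1
  have h3 := blk_aux a3 a4 b3
  have h4 := blk_aux b3 b4 a3
  exact Prod.ext (le_antisymm h2 h1) (le_antisymm h4 h3)

theorem card_blks (m : ℕ) (I : Finset (ℤ × ℤ)) : (I.biUnion (blk m)).card = m ^ 2 * I.card := by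
  rw [Finset.card_biUnion]
  · simp_rw [card_blk]
    rw [Finset.sum_const, smul_eq_mul, mul_comm]
  · intro j _ j' _ h
    exact blk_disj h

/-- the `m a`-square with index `j` -/
def rsq (ρ : ℝ) (j : ℤ × ℤ) : Set Pl := Pool.Agent.BSv.sq (ρ * j.1) (ρ * j.2) ρ

/-- the `3 m a`-square around it -/
def rsq3 (ρ : ℝ) (j : ℤ × ℤ) : Set Pl :=
  Pool.Agent.BSv.sq (ρ * ((j.1 : ℝ) - 1)) (ρ * ((j.2 : ℝ) - 1)) (3 * ρ)

theorem mem_sq {x y L : ℝ} {p : Pl} : p ∈ Pool.Agent.BSv.sq x y L ↔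
    (x ≤ p.1 ∧ p.1 ≤ x + L) ∧ (y ≤ p.2 ∧ p.2 ≤ y + L) := by
  unfold Pool.Agent.BSv.sq
  rw [Set.mem_prod, Set.mem_Icc, Set.mem_Icc]

theorem isClosed_rsq3 (ρ : ℝ) (j : ℤ × ℤ) : IsClosed (rsq3 ρ j) := by
  unfold rsq3 Pool.Agent.BSv.sq
  exact isClosed_Icc.prod isClosed_Icc

theorem ac_sub_rsq {m : ℕ} {a : ℝ} (ha : 0 < a) {j c : ℤ × ℤ} (hc : c ∈ blk m j) :
    ac a c ⊆ rsq (m * a) j := by
  intro p hp
  unfold ac at hp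
  unfold rsq
  rw [mem_sq] at hp ⊢
  obtain ⟨⟨a1, a2⟩, ⟨a3, a4⟩⟩ := mem_blk.mp hc
  have b1 : (m : ℝ) * j.1 ≤ c.1 := by exact_mod_cast a1
  have b2 : (c.1 : ℝ) + 1 ≤ m * j.1 + m := by exact_mod_cast a2
  have b3 : (m : ℝ) * j.2 ≤ c.2 := by exact_mod_cast a3
  have b4 : (c.2 : ℝ) + 1 ≤ m * j.2 + m := by exact_mod_cast a4
  obtain ⟨⟨p1, p2⟩, ⟨p3, p4⟩⟩ := hp
  refine ⟨⟨?_, ?_⟩, ⟨?_, ?_⟩⟩ <;> nlinarith

theorem rsq3_sub_ball {ρ : ℝ} {j : ℤ × ℤ} {p : Pl} (hp : p ∈ rsq ρ j) :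
    rsq3 ρ j ⊆ Metric.closedBall p (2 * ρ) := by
  intro q hq
  unfold rsq at hp
  unfold rsq3 at hq
  rw [mem_sq] at hp hq
  rw [Metric.mem_closedBall, Prod.dist_eq]
  obtain ⟨⟨p1, p2⟩, ⟨p3, p4⟩⟩ := hp
  obtain ⟨⟨q1, q2⟩, ⟨q3, q4⟩⟩ := hq
  apply max_le <;> rw [Real.dist_eq, abs_le] <;> constructor <;> nlinarith

theorem rsq_dist {ρ : ℝ} {j : ℤ × ℤ} {p q : Pl} (hp : p ∈ rsq ρ j) (hq : q ∈ rsq ρ j) :
    dist q p ≤ ρ := by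
  unfold rsq at hp hq
  rw [mem_sq] at hp hq
  obtain ⟨⟨p1, p2⟩, ⟨p3, p4⟩⟩ := hp
  obtain ⟨⟨q1, q2⟩, ⟨q3, q4⟩⟩ := hq
  rw [Prod.dist_eq]
  apply max_le <;> rw [Real.dist_eq, abs_le] <;> constructor <;> linarith

theorem near_rsq3 {m : ℕ} {a : ℝ} (ha : 0 < a) {j c : ℤ × ℤ} (hc : c ∈ blk m j) {p : Pl}
    (hp : dist p ((a * c.1, a * c.2) : Pl) < m * a / 2) : p ∈ rsq3 (m * a) j := by
  have hcor : ((a * c.1, a * c.2) : Pl) ∈ rsq (m * a) j := by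
    apply ac_sub_rsq ha hc
    unfold ac
    rw [mem_sq]
    refine ⟨⟨le_rfl, ?_⟩, ⟨le_rfl, ?_⟩⟩ <;> linarith
  unfold rsq at hcor
  unfold rsq3
  rw [mem_sq] at hcor ⊢
  rw [Prod.dist_eq, max_lt_iff, Real.dist_eq, Real.dist_eq, abs_lt, abs_lt] at hp
  obtain ⟨⟨p1, p2⟩, ⟨p3, p4⟩⟩ := hp
  obtain ⟨⟨q1, q2⟩, ⟨q3, q4⟩⟩ := hcor
  have hma : (0 : ℝ) ≤ m * a := by positivity
  simp only at p1 p2 p3 p4 q1 q2 q3 q4
  refine ⟨⟨?_, ?_⟩, ⟨?_, ?_⟩⟩ <;> nlinarith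

theorem exists_squares {ρ : ℝ} (hρ : 0 < ρ) {A : Set Pl} (hA : Bornology.IsBounded A) :
    ∃ I : Finset (ℤ × ℤ), (∀ j ∈ I, (A ∩ rsq ρ j).Nonempty) ∧ A ⊆ ⋃ j ∈ I, rsq ρ j := by
  classical
  obtain ⟨R, hR⟩ := hA.subset_closedBall (0 : Pl)
  set K : ℤ := ⌈R / ρ⌉ + 1 with hK
  refine ⟨(Finset.Icc (-K) K ×ˢ Finset.Icc (-K) K).filter fun j => (A ∩ rsq ρ j).Nonempty,
    fun j hj => (Finset.mem_filter.mp hj).2, ?_⟩
  intro p hp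
  have h1 := hR hp
  rw [Metric.mem_closedBall, dist_zero_right, Prod.norm_def, max_le_iff, Real.norm_eq_abs,
    Real.norm_eq_abs, abs_le, abs_le] at h1
  have hRK : R / ρ ≤ (⌈R / ρ⌉ : ℝ) := Int.le_ceil _
  have key : ∀ x : ℝ, -R ≤ x → x ≤ R → ⌊x / ρ⌋ ∈ Finset.Icc (-K) K ∧ ρ * (⌊x / ρ⌋ : ℝ) ≤ x ∧
      x ≤ ρ * (⌊x / ρ⌋ : ℝ) + ρ := by
    intro x hx1 hx2
    have h3 : (⌊x / ρ⌋ : ℝ) ≤ x / ρ := Int.floor_le _
    have h4 : x / ρ < ⌊x / ρ⌋ + 1 := Int.lt_floor_add_one _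
    have h5 : x / ρ ≤ R / ρ := by gcongr
    have h6 : -(R / ρ) ≤ x / ρ := by rw [← neg_div]; gcongr
    refine ⟨?_, ?_, ?_⟩
    · rw [Finset.mem_Icc]
      constructor
      · have : ((-K : ℤ) : ℝ) < ⌊x / ρ⌋ + 1 := by
          rw [hK]; push_cast; linarith
        have h7 : (-K : ℤ) < ⌊x / ρ⌋ + 1 := by exact_mod_cast this
        omega
      · have : ((⌊x / ρ⌋ : ℤ) : ℝ) ≤ ((K : ℤ) : ℝ) := by
          rw [hK]; push_cast; linarith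
        exact_mod_cast this
    · rw [le_div_iff₀ hρ] at h3; linarith
    · rw [div_lt_iff₀ hρ] at h4; nlinarith
  obtain ⟨k1, k2, k3⟩ := key p.1 h1.1.1 h1.1.2
  obtain ⟨l1, l2, l3⟩ := key p.2 h1.2.1 h1.2.2
  have hmem : p ∈ rsq ρ (⌊p.1 / ρ⌋, ⌊p.2 / ρ⌋) := by
    unfold rsq
    rw [mem_sq]
    exact ⟨⟨k2, k3⟩, ⟨l2, l3⟩⟩
  exact Set.mem_biUnion (Finset.mem_filter.mpr ⟨Finset.mem_product.mpr ⟨k1, l1⟩, ⟨p, hp, hmem⟩⟩)
    hmem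

theorem rsq_sub_ac {m : ℕ} (hm : 0 < m) {a : ℝ} (ha : 0 < a) (j : ℤ × ℤ) :
    rsq (m * a) j ⊆ ⋃ c ∈ blk m j, ac a c := by
  intro p hp
  unfold rsq at hp
  rw [mem_sq] at hp
  obtain ⟨⟨p1, p2⟩, ⟨p3, p4⟩⟩ := hp
  have hmR : (0 : ℝ) < m := by exact_mod_cast hm
  have key : ∀ (x : ℝ) (i : ℤ), m * a * i ≤ x → x ≤ m * a * i + m * a →
      ∃ c : ℤ, m * i ≤ c ∧ c < m * i + m ∧ a * c ≤ x ∧ x ≤ a * c + a := by
    intro x i h1 h2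
    by_cases h3 : x < m * a * i + m * a
    · refine ⟨⌊x / a⌋, ?_, ?_, ?_, ?_⟩
      · rw [Int.le_floor, le_div_iff₀ ha]
        push_cast
        linarith
      · rw [Int.floor_lt, div_lt_iff₀ ha]
        push_cast
        linarith
      · have := Int.floor_le (x / a)
        rw [le_div_iff₀ ha] at this
        linarith
      · have := Int.lt_floor_add_one (x / a)
        rw [div_lt_iff₀ ha] at this
        nlinarith
    · push Not at h3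
      have h4 : x = m * a * i + m * a := le_antisymm h2 h3
      refine ⟨m * i + m - 1, by omega, by omega, ?_, ?_⟩
      · rw [h4]; push_cast; nlinarith
      · rw [h4]; push_cast; linarith
  obtain ⟨c1, a1, a2, a3, a4⟩ := key p.1 j.1 p1 p2
  obtain ⟨c2, b1, b2, b3, b4⟩ := key p.2 j.2 p3 p4
  refine Set.mem_biUnion (x := (c1, c2)) (mem_blk.mpr ⟨⟨a1, a2⟩, ⟨b1, b2⟩⟩) ?_
  unfold ac
  rw [mem_sq]
  exact ⟨⟨a3, a4⟩, ⟨b3, b4⟩⟩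

theorem vol_acs {a : ℝ} (ha : 0 < a) (L : Finset (ℤ × ℤ)) :
    volume (⋃ c ∈ L, ac a c) = ENNReal.ofReal (a ^ 2 * L.card) := by
  have h1 : (⋃ c ∈ L, ac a c) = (fun p : Pl => a⁻¹ • p) ⁻¹' cells L := by
    ext p
    unfold cells
    rw [Set.mem_preimage, Set.mem_iUnion₂, Set.mem_iUnion₂]
    have h2 : ∀ c : ℤ × ℤ, p ∈ ac a c ↔ a⁻¹ • p ∈ cell c := by
      intro c
      unfold ac cell
      rw [mem_sq, mem_sq]
      have e1 : (a⁻¹ • p).1 = p.1 / a := by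
        show a⁻¹ * p.1 = p.1 / a
        rw [div_eq_inv_mul]
      have e2 : (a⁻¹ • p).2 = p.2 / a := by
        show a⁻¹ * p.2 = p.2 / a
        rw [div_eq_inv_mul]
      rw [e1, e2, le_div_iff₀ ha, div_le_iff₀ ha, le_div_iff₀ ha, div_le_iff₀ ha]
      constructor
      · rintro ⟨⟨h1, h2⟩, ⟨h3, h4⟩⟩
        refine ⟨⟨?_, ?_⟩, ⟨?_, ?_⟩⟩ <;> linarith
      · rintro ⟨⟨h1, h2⟩, ⟨h3, h4⟩⟩
        refine ⟨⟨?_, ?_⟩, ⟨?_, ?_⟩⟩ <;> linarith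
    constructor
    · rintro ⟨c, hc, hp⟩
      exact ⟨c, hc, (h2 c).mp hp⟩
    · rintro ⟨c, hc, hp⟩
      exact ⟨c, hc, (h2 c).mpr hp⟩
  rw [h1, volume_pre (by positivity)]
  have h3 : volume (cells L) = ENNReal.ofReal L.card := by
    rw [← (vol_cells L).2]
    exact (ENNReal.ofReal_toReal (vol_cells L).1).symm
  rw [h3, ← ENNReal.ofReal_mul (by positivity)]
  congr 1
  field_simp

/-- off `Z` the product of the cut-offs is one and flat -/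
theorem phi_off {χ : ℤ × ℤ → Pl → ℝ} {L O : Finset (ℤ × ℤ)} (hO : O ⊆ L) {Z : Set Pl}
    (hZ : IsClosed Z) (h : ∀ c ∈ L, ∀ p ∉ Z, χ c p = 0) {p : Pl} (hp : p ∉ Z) :
    phi χ O p = 1 ∧ gr2 (phi χ O) p = 0 := by
  have h1 : ∀ q ∉ Z, phi χ O q = 1 := by
    intro q hq
    unfold phi
    apply Finset.prod_eq_one
    intro c hc
    rw [h c (hO hc) q hq, sub_zero]
  have h2 : phi χ O =ᶠ[𝓝 p] fun _ => (1 : ℝ) := by
    filter_upwards [hZ.isOpen_compl.mem_nhds hp] with q hq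
    exact h1 q hq
  refine ⟨h1 p hp, ?_⟩
  have h3 : fderiv ℝ (phi χ O) p = 0 := by
    rw [h2.fderiv_eq]
    simp
  unfold gr2 dx dy
  rw [h3]
  simp

/-- a uniform bound of the gradient -/
theorem gr2_phi_le {χ : ℤ × ℤ → Pl → ℝ} (h : ∀ c, ContDiff ℝ ∞ (χ c))
    (h1 : ∀ c p, 0 ≤ χ c p ∧ χ c p ≤ 1) {L O : Finset (ℤ × ℤ)} (hO : O ⊆ L) {B : ℝ}
    (hB : ∀ p (L : Finset (ℤ × ℤ)), ∑ c ∈ L, gr2 (χ c) p ≤ B) (p : Pl) :
    gr2 (phi χ O) p ≤ L.card * B := by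
  have hg : ∀ c, 0 ≤ gr2 (χ c) p := by
    intro c; unfold gr2; positivity
  have hB0 : 0 ≤ B := by
    have := hB p ∅
    simpa using this
  calc gr2 (phi χ O) p ≤ (∑ c ∈ O, √(gr2 (χ c) p)) ^ 2 := gr2_phi h h1 O p
    _ ≤ O.card * ∑ c ∈ O, √(gr2 (χ c) p) ^ 2 := sq_sum_le_card_mul_sum_sq
    _ = O.card * ∑ c ∈ O, gr2 (χ c) p := by
        congr 1
        exact Finset.sum_congr rfl fun c _ => Real.sq_sqrt (hg c)
    _ ≤ L.card * B := by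
        have h2 : (O.card : ℝ) ≤ L.card := by exact_mod_cast Finset.card_le_card hO
        have h3 := hB p O
        have h4 : 0 ≤ ∑ c ∈ O, gr2 (χ c) p := Finset.sum_nonneg fun c _ => hg c
        gcongr

end Pool.Agent.BSs
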