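import Pool.Agent.BSs.LowE
import Pool.Agent.BSs.SurvLow2
import Pool.Agent.BSv.Lower

/-!
# Lower bound with explicit dependence on the intensity, radius 2 (helper98)
-/

open MeasureTheory Set Filter Topology ProbabilityTheory Pool.Agent.BSv
open scoped ENNReal NNReal ContDiff

noncomputable section

namespace Pool.Agent.BSs

variable {Ω : Type*} [MeasurableSpace Ω] {P : Measure Ω} {X Y : ℝ≥0 → Ω → ℝ}

theorem surv_ge_exp (h : PBM P X Y) {ν : ℝ} (hν : 0 < ν) {D : Set Pl} (hD : Bornology.IsBounded D)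
    {g : Pl → ℝ} (hg : CC D g) (h1 : ms g = 1) {t : ℝ≥0} (ht : 0 < t) :
    Real.exp (-((t : ℝ) + 2) * en g - ν * vol (Metric.cthickening 2 D)) ≤
      vol D * surv P X Y ν 2 t := by
  set F := tsupport g with hF
  have hFc : IsCompact F := hg.cpt
  have hFD : F ⊆ D := hg.sub
  have hs := surv_low2 h hFc (hg.mono (subset_univ _)) subset_rfl h1 ht
  set v := vol (Metric.cthickening 2 D) with hv
  have hpt : ∀ p : Pl, P {o | ∀ s ≤ t, pos X Y p s o ∈ F} ≤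
      ENNReal.ofReal (Real.exp (ν * v)) * ENNReal.ofReal (surv P X Y ν 2 t) := by
    intro p
    have h1 := surv_ge h hν hD hFD p t
    rw [← hv] at h1
    calc P {o | ∀ s ≤ t, pos X Y p s o ∈ F} =
        ENNReal.ofReal (Real.exp (ν * v)) * (ENNReal.ofReal (Real.exp (-ν * v)) *
          P {o | ∀ s ≤ t, pos X Y p s o ∈ F}) := by
          rw [← mul_assoc, ← ENNReal.ofReal_mul (Real.exp_pos _).le, ← Real.exp_add]
          simp
      _ ≤ _ := by gcongr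
  have hint : ∫⁻ p in F, P {o | ∀ s ≤ t, pos X Y p s o ∈ F} ≤
      ENNReal.ofReal (Real.exp (ν * v)) * ENNReal.ofReal (surv P X Y ν 2 t) * volume F := by
    calc ∫⁻ p in F, P {o | ∀ s ≤ t, pos X Y p s o ∈ F} ≤
        ∫⁻ _p in F, ENNReal.ofReal (Real.exp (ν * v)) * ENNReal.ofReal (surv P X Y ν 2 t) :=
          lintegral_mono fun p => hpt p
      _ = _ := by rw [setLIntegral_const]
  have hDfin : volume D ≠ ⊤ := hD.measure_lt_top.ne
  have hFU : volume F ≤ ENNReal.ofReal (vol D) := by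
    have h1 : volume F ≤ volume D := measure_mono hFD
    have h2 : volume D = ENNReal.ofReal (vol D) := (ENNReal.ofReal_toReal hDfin).symm
    rwa [h2] at h1
  have hspos := surv_pos h hν (a := 2) (by norm_num) t
  have hvD0 : 0 ≤ vol D := ENNReal.toReal_nonneg
  have hreal : Real.exp (-((t : ℝ) + 2) * en g) ≤
      Real.exp (ν * v) * surv P X Y ν 2 t * vol D := by
    have h1 : ENNReal.ofReal (Real.exp (-((t : ℝ) + 2) * en g)) ≤ ENNReal.ofReal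
        (Real.exp (ν * v) * surv P X Y ν 2 t * vol D) := by
      refine (hs.trans hint).trans ?_
      rw [ENNReal.ofReal_mul (by positivity), ENNReal.ofReal_mul (by positivity)]
      gcongr
    exact (ENNReal.ofReal_le_ofReal_iff (by positivity)).mp h1
  have h2 : Real.exp (-((t : ℝ) + 2) * en g - ν * v) =
      Real.exp (-(ν * v)) * Real.exp (-((t : ℝ) + 2) * en g) := by
    rw [← Real.exp_add]; congr 1; ring
  rw [h2]
  calc Real.exp (-(ν * v)) * Real.exp (-((t : ℝ) + 2) * en g) ≤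
      Real.exp (-(ν * v)) * (Real.exp (ν * v) * surv P X Y ν 2 t * vol D) := by gcongr
    _ = (Real.exp (-(ν * v)) * Real.exp (ν * v)) * (vol D * surv P X Y ν 2 t) := by ring
    _ = _ := by rw [← Real.exp_add]; simp

/-- numerical consequences of near optimality -/
theorem near_facts {c0 m r l v : ℝ} (hc0 : 0 < c0) (hm : 1 ≤ m) (hr : 1 ≤ r) (hl : 0 ≤ l)
    (hv : 0 ≤ v) (h : r ^ 4 * l + m ^ 8 * v ≤ m ^ 4 * c0 * r ^ 2 + 1) :
    l ≤ m ^ 4 * (c0 + 1) / r ^ 2 ∧ v ≤ (c0 + 1) * r ^ 2 / m ^ 4 ∧ l * v ≤ (c0 + 1) ^ 2 := by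
  have hm0 : 0 < m := by linarith
  have hr0 : 0 < r := by linarith
  have h1 : m ^ 4 * c0 * r ^ 2 + 1 ≤ m ^ 4 * (c0 + 1) * r ^ 2 := by
    have a1 : (1 : ℝ) ≤ m ^ 4 := one_le_pow₀ hm
    have a2 : (1 : ℝ) ≤ r ^ 2 := one_le_pow₀ hr
    have a3 : (1 : ℝ) ≤ m ^ 4 * r ^ 2 := by nlinarith
    have a4 : m ^ 4 * (c0 + 1) * r ^ 2 = m ^ 4 * c0 * r ^ 2 + m ^ 4 * r ^ 2 := by ring
    linarith
  have h2 : l ≤ m ^ 4 * (c0 + 1) / r ^ 2 := by
    rw [le_div_iff₀ (by positivity)]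
    have a1 : 0 ≤ m ^ 8 * v := by positivity
    have a2 : r ^ 2 * (l * r ^ 2) ≤ r ^ 2 * (m ^ 4 * (c0 + 1)) := by
      have : r ^ 2 * (l * r ^ 2) = r ^ 4 * l := by ring
      linarith
    exact le_of_mul_le_mul_left a2 (by positivity)
  have h3 : v ≤ (c0 + 1) * r ^ 2 / m ^ 4 := by
    rw [le_div_iff₀ (by positivity)]
    have a1 : 0 ≤ r ^ 4 * l := by positivity
    have a2 : m ^ 4 * (v * m ^ 4) ≤ m ^ 4 * ((c0 + 1) * r ^ 2) := by
      have : m ^ 4 * (v * m ^ 4) = m ^ 8 * v := by ring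
      linarith
    exact le_of_mul_le_mul_left a2 (by positivity)
  refine ⟨h2, h3, ?_⟩
  calc l * v ≤ (m ^ 4 * (c0 + 1) / r ^ 2) * ((c0 + 1) * r ^ 2 / m ^ 4) := by gcongr
    _ = (c0 + 1) ^ 2 := by field_simp

theorem lower2 : ∃ C : ℝ, 0 < C ∧ ∀ m : ℝ, 1 ≤ m → ∃ r1 : ℝ, 1 ≤ r1 ∧
    ∀ (Ω : Type) [MeasurableSpace Ω] (P : Measure Ω)
    (X Y : ℝ≥0 → Ω → ℝ), PBM P X Y → ∀ t : ℝ≥0, 1 ≤ t → r1 ≤ (t : ℝ) ^ (1 / 4 : ℝ) →
    Real.exp (-(cst (m ^ 8)) * √t - C * m ^ 6 * (t : ℝ) ^ (1 / 4 : ℝ)) ≤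
      surv P X Y (m ^ 8) 2 t := by
  obtain ⟨ε0, c1, CL, hε0, hc1, hCL, hlow⟩ := lowE
  have hc0 : 0 < cst 1 := cst_pos one_pos
  set c0 := cst 1 with hc0def
  set K1 : ℝ := ((c0 + 1) ^ 2) ^ (5 / 4 : ℝ) with hK1
  have hK10 : 0 < K1 := by positivity
  refine ⟨1 + CL * (c0 + 1) + 4 * CL * K1 + 2 * (c0 + 1) * (1 + CL * ε0) + (c0 + 1) + 2,
    by positivity, ?_⟩
  intro m hm
  have hm0 : 0 < m := by linarith
  have hν : (0 : ℝ) < m ^ 8 := by positivity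
  have hcst : cst (m ^ 8) = m ^ 4 * c0 := by
    have := cst_scale (ν := 1) (h := m ^ 4) one_pos (by positivity)
    rw [← this]
    congr 1
    ring
  rw [hcst]
  refine ⟨max 1 (max (m ^ 2 / ε0) (4 * (m ^ 4 * (c0 + 1)) / c1)), le_max_left _ _, ?_⟩
  intro Ω _ P X Y h t ht htr
  have ht1 : (1 : ℝ) ≤ (t : ℝ) := by exact_mod_cast ht
  obtain ⟨hr1, hrsq, hr4⟩ := quarter' ht1
  set r : ℝ := (t : ℝ) ^ (1 / 4 : ℝ) with hr
  rw [← hrsq]
  have hrpos : 0 < r := by linarith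
  have hr' := (le_max_right _ _).trans htr
  have hrε : m ^ 2 / ε0 ≤ r := (le_max_left _ _).trans hr'
  have hrc : 4 * (m ^ 4 * (c0 + 1)) / c1 ≤ r := (le_max_right _ _).trans hr'
  have hrr : r ≤ r ^ 2 := by nlinarith
  have htpos : (0 : ℝ) < (t : ℝ) := by linarith
  have ht0 : 0 < t := by exact_mod_cast htpos
  obtain ⟨U, hU, hUne, hUv, hUle⟩ := near_cst hν htpos one_pos
  rw [← hrsq, ← hr4, hcst] at hUle
  obtain ⟨f1, f2, f3⟩ := near_facts hc0 hm hr1 (lam_nonneg U) ENNReal.toReal_nonneg hUle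
  have hvol0 : 0 ≤ vol U := ENNReal.toReal_nonneg
  have hlam0 := lam_nonneg U
  have hε1 : m ^ 2 / r ≤ ε0 := by
    rw [div_le_iff₀ hε0] at hrε
    rw [div_le_iff₀ hrpos]
    linarith
  obtain ⟨D, g, hDo, hDne, hDU, hDb, hgD, hg1, hge, hvD⟩ := hlow U hU hUne hUv (m ^ 2 / r)
    (by positivity) hε1 2 (by norm_num) (by
      have h1 : 2 ^ 2 * lam U ≤ 2 ^ 2 * (m ^ 4 * (c0 + 1) / r ^ 2) := by gcongr
      have h2 : 2 ^ 2 * (m ^ 4 * (c0 + 1) / r ^ 2) ≤ c1 := by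
        rw [div_le_iff₀ hc1] at hrc
        rw [← mul_div_assoc, div_le_iff₀ (by positivity)]
        nlinarith
      linarith)
  have hs := surv_ge_exp h hν hDb hgD hg1 ht0
  have hspos := surv_pos h hν (a := 2) (by norm_num) t
  have hpow : (lam U * vol U) ^ (5 / 4 : ℝ) ≤ K1 :=
    Real.rpow_le_rpow (by positivity) f3 (by norm_num)
  -- the three pieces
  have e0 : 0 ≤ CL * (m ^ 2 / r) := by positivity
  have e1 : r ^ 4 * en g ≤ r ^ 4 * lam U + CL * (c0 + 1) * (m ^ 6 * r) := by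
    have h1 : r ^ 4 * (lam U * (CL * (m ^ 2 / r))) ≤
        r ^ 4 * ((m ^ 4 * (c0 + 1) / r ^ 2) * (CL * (m ^ 2 / r))) := by gcongr
    have h2 : r ^ 4 * ((m ^ 4 * (c0 + 1) / r ^ 2) * (CL * (m ^ 2 / r))) =
        CL * (c0 + 1) * (m ^ 6 * r) := by
      field_simp
    calc r ^ 4 * en g ≤ r ^ 4 * (lam U * (1 + CL * (m ^ 2 / r))) := by gcongr
      _ = r ^ 4 * lam U + r ^ 4 * (lam U * (CL * (m ^ 2 / r))) := by ring
      _ ≤ _ := by linarith
  have hm6 : (1 : ℝ) ≤ m ^ 6 * r := by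
    have : (1 : ℝ) ≤ m ^ 6 := one_le_pow₀ hm
    nlinarith
  have e2 : 2 * en g ≤ 2 * (c0 + 1) * (1 + CL * ε0) * (m ^ 6 * r) := by
    have h1 : en g ≤ (m ^ 4 * (c0 + 1) / r ^ 2) * (1 + CL * ε0) := by
      refine hge.trans ?_
      gcongr
    have h2 : m ^ 4 * (c0 + 1) / r ^ 2 ≤ (c0 + 1) * (m ^ 6 * r) := by
      rw [div_le_iff₀ (by positivity)]
      have h3 : m ^ 4 ≤ m ^ 6 := pow_le_pow_right₀ hm (by norm_num)
      have h4 : (1 : ℝ) ≤ r * r ^ 2 := by nlinarith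
      calc m ^ 4 * (c0 + 1) = m ^ 4 * (c0 + 1) * 1 := by ring
        _ ≤ m ^ 6 * (c0 + 1) * (r * r ^ 2) := by gcongr
        _ = _ := by ring
    calc 2 * en g ≤ 2 * ((m ^ 4 * (c0 + 1) / r ^ 2) * (1 + CL * ε0)) := by gcongr
      _ ≤ 2 * (((c0 + 1) * (m ^ 6 * r)) * (1 + CL * ε0)) := by gcongr
      _ = _ := by ring
  have e3 : m ^ 8 * vol (Metric.cthickening 2 D) ≤ m ^ 8 * vol U + 4 * CL * K1 * (m ^ 6 * r) := by
    have h1 : vol (Metric.cthickening 2 D) ≤ vol U + CL * 2 ^ 2 * K1 / (m ^ 2 / r) := by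
      refine hvD.trans ?_
      gcongr
    calc m ^ 8 * vol (Metric.cthickening 2 D) ≤
        m ^ 8 * (vol U + CL * 2 ^ 2 * K1 / (m ^ 2 / r)) := by gcongr
      _ = _ := by field_simp; ring
  have e4 : vol D ≤ Real.exp ((c0 + 1) + 2 * r) := by
    have h1 : vol D ≤ vol U := ENNReal.toReal_mono hUv (measure_mono hDU)
    have h2 : (c0 + 1) * r ^ 2 / m ^ 4 ≤ (c0 + 1) * r ^ 2 :=
      div_le_self (by positivity) (one_le_pow₀ hm)
    have h3 : c0 + 1 ≤ Real.exp (c0 + 1) := by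
      have := Real.add_one_le_exp (c0 + 1)
      linarith
    have h4 := sq_le_exp hrpos.le
    rw [Real.exp_add]
    calc vol D ≤ (c0 + 1) * r ^ 2 := h1.trans (f2.trans h2)
      _ ≤ _ := by gcongr
  have hfin : Real.exp (-((t : ℝ) + 2) * en g - m ^ 8 * vol (Metric.cthickening 2 D) -
      ((c0 + 1) + 2 * r)) ≤ surv P X Y (m ^ 8) 2 t := by
    rw [Real.exp_sub, div_le_iff₀ (Real.exp_pos _), mul_comm (surv P X Y (m ^ 8) 2 t)]
    exact hs.trans (by gcongr)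
  refine le_trans (Real.exp_le_exp.mpr ?_) hfin
  rw [← hr4]
  have g1 : (1 : ℝ) ≤ 1 * (m ^ 6 * r) := by linarith
  have g2 : c0 + 1 ≤ (c0 + 1) * (m ^ 6 * r) := by nlinarith
  have g3 : 2 * r ≤ 2 * (m ^ 6 * r) := by
    have : (1 : ℝ) ≤ m ^ 6 := one_le_pow₀ hm
    nlinarith
  have g4 : (1 + CL * (c0 + 1) + 4 * CL * K1 + 2 * (c0 + 1) * (1 + CL * ε0) + (c0 + 1) + 2) *
      m ^ 6 * r = 1 * (m ^ 6 * r) + CL * (c0 + 1) * (m ^ 6 * r) + 4 * CL * K1 * (m ^ 6 * r) +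
      2 * (c0 + 1) * (1 + CL * ε0) * (m ^ 6 * r) + (c0 + 1) * (m ^ 6 * r) + 2 * (m ^ 6 * r) := by
    ring
  rw [g4]
  have g5 : -(r ^ 4 + 2) * en g = -(r ^ 4 * en g) - 2 * en g := by ring
  rw [g5]
  linarith only [e1, e2, e3, g1, g2, g3, hUle]

end Pool.Agent.BSs
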