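import Pool.Agent.BSv.Gns

/-!
# Module GNSG: Gagliardo-Nirenberg with the area of the set where the gradient does not vanish

`‖f‖_2 ≤ C ‖D f‖_1` (as in module Gns), `‖D f‖_1 ≤ √(2 vol {gr2 f ≠ 0}) √(∫ gr2 f)`
(the set is bounded, contained in the support, so it has finite area).
-/

open MeasureTheory Set Filter Topology Pool.Agent.BSv
open scoped ENNReal NNReal ContDiff

noncomputable section

namespace Pool.Agent.BSs

private theorem GnsG_norm (f : Pl → ℝ) (p : Pl) : ‖fderiv ℝ f p‖ ≤ |dx f p| + |dy f p| := by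
  refine ContinuousLinearMap.opNorm_le_bound _ (by positivity) fun v => ?_
  have h1 : fderiv ℝ f p v = v.1 * dx f p + v.2 * dy f p := by
    have h2 : v = v.1 • ((1 : ℝ), (0 : ℝ)) + v.2 • ((0 : ℝ), (1 : ℝ)) := by
      ext <;> simp
    conv_lhs => rw [h2]
    rw [map_add, map_smul, map_smul]
    rfl
  have h3 : |v.1| ≤ ‖v‖ := norm_fst_le v
  have h4 : |v.2| ≤ ‖v‖ := norm_snd_le v
  rw [h1, Real.norm_eq_abs]
  calc |v.1 * dx f p + v.2 * dy f p| ≤ |v.1 * dx f p| + |v.2 * dy f p| := abs_add_le _ _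
    _ = |v.1| * |dx f p| + |v.2| * |dy f p| := by rw [abs_mul, abs_mul]
    _ ≤ ‖v‖ * |dx f p| + ‖v‖ * |dy f p| := by
        gcongr
    _ = (|dx f p| + |dy f p|) * ‖v‖ := by ring

private theorem GnsG_norm2 (f : Pl → ℝ) (p : Pl) : ‖fderiv ℝ f p‖ ^ 2 ≤ 2 * gr2 f p := by
  have h1 := GnsG_norm f p
  have h2 : ‖fderiv ℝ f p‖ ^ 2 ≤ (|dx f p| + |dy f p|) ^ 2 :=
    pow_le_pow_left₀ (norm_nonneg _) h1 2
  have h3 : (|dx f p| + |dy f p|) ^ 2 ≤ 2 * gr2 f p := by
    unfold gr2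
    nlinarith [sq_nonneg (|dx f p| - |dy f p|), sq_abs (dx f p), sq_abs (dy f p)]
  exact h2.trans h3

private theorem GnsG_gr2_int {f : Pl → ℝ} (hf : ContDiff ℝ ∞ f) (hc : HasCompactSupport f) :
    Integrable (gr2 f) := by
  have h1 : Continuous (fderiv ℝ f) := hf.continuous_fderiv (by simp)
  have h2 : HasCompactSupport (fderiv ℝ f) := hc.fderiv ℝ
  have h3 : Continuous (gr2 f) := by
    unfold gr2 dx dy
    exact ((h1.clm_apply continuous_const).pow 2).add ((h1.clm_apply continuous_const).pow 2)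
  refine h3.integrable_of_hasCompactSupport ?_
  refine h2.mono' ?_
  intro p hp
  by_contra h4
  have h5 : fderiv ℝ f p = 0 := by
    have : p ∉ Function.support (fderiv ℝ f) := fun h => h4 (subset_tsupport _ h)
    simpa using this
  apply hp
  unfold gr2 dx dy
  rw [h5]
  simp

/-- the constant of the inequality in `L^1` -/
private def GnsG_c : ℝ≥0 := lintegralPowLePowLIntegralFDerivConst (volume : Measure Pl) 2

private theorem GnsG_trunc {f : Pl → ℝ} (hf : ContDiff ℝ ∞ f) (hc : HasCompactSupport f) :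
    ms f ≤ GnsG_c * vol {p | gr2 f p ≠ 0} * (4 * en f) := by
  obtain ⟨A, hA⟩ : ∃ A : Set Pl, A = {p | gr2 f p ≠ 0} := ⟨_, rfl⟩
  rw [← hA]
  have hcont : Continuous (gr2 f) := by
    have h1 : Continuous (fderiv ℝ f) := hf.continuous_fderiv (by simp)
    unfold gr2 dx dy
    exact ((h1.clm_apply continuous_const).pow 2).add ((h1.clm_apply continuous_const).pow 2)
  have hAo : IsOpen A := by
    rw [hA]
    exact isOpen_ne_fun hcont continuous_const
  have hAv : volume A ≠ ⊤ := by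
    have h1 : A ⊆ tsupport f := by
      rw [hA]
      intro p hp
      by_contra h2
      apply hp
      have h3 : fderiv ℝ f p = 0 := by
        have h4 : p ∉ tsupport (fderiv ℝ f) := fun h => h2 (tsupport_fderiv_subset ℝ h)
        exact image_eq_zero_of_notMem_tsupport h4
      unfold gr2 dx dy
      rw [h3]
      simp
    exact ((measure_mono h1).trans_lt hc.isCompact.measure_lt_top).ne
  have hDg0 : ∀ p, p ∉ A → fderiv ℝ f p = 0 := by
    intro p hp
    have h1 : gr2 f p = 0 := by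
      by_contra h2
      apply hp
      rw [hA]
      exact h2
    have h2 := GnsG_norm2 f p
    rw [h1, mul_zero] at h2
    have h3 : ‖fderiv ℝ f p‖ ^ 2 = 0 := le_antisymm h2 (sq_nonneg _)
    have h4 : ‖fderiv ℝ f p‖ = 0 := by
      rcases pow_eq_zero_iff (n := 2) (by norm_num) |>.1 h3 with h
      exact h
    exact norm_eq_zero.1 h4
  have hDgn : ∀ p, ‖fderiv ℝ f p‖ ^ 2 ≤ 2 * gr2 f p := GnsG_norm2 f
  have hconj : Real.HolderConjugate (Module.finrank ℝ Pl : ℝ) 2 := by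
    have h1 : Module.finrank ℝ Pl = 2 := by simp [Pl]
    rw [h1]
    norm_num
    exact Real.HolderConjugate.two_two
  have key := lintegral_pow_le_pow_lintegral_fderiv (volume : Measure Pl)
    (hf.of_le (by exact_mod_cast le_top)) hc hconj
  -- Cauchy-Schwarz
  have hcs : (∫⁻ p, ‖fderiv ℝ f p‖ₑ) ^ (2 : ℝ) ≤
      volume A * ∫⁻ p, ‖fderiv ℝ f p‖ₑ ^ (2 : ℝ) := by
    have h1 : ∫⁻ p, ‖fderiv ℝ f p‖ₑ =
        ∫⁻ p, ((A.indicator (fun _ => (1 : ℝ≥0∞))) * (fun p => ‖fderiv ℝ f p‖ₑ)) p := by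
      refine lintegral_congr fun p => ?_
      by_cases hp : p ∈ A
      · rw [Pi.mul_apply, Set.indicator_of_mem hp, one_mul]
      · have h5 : ‖fderiv ℝ f p‖ₑ = 0 := by
          rw [← ofReal_norm, hDg0 p hp, norm_zero, ENNReal.ofReal_zero]
        rw [Pi.mul_apply, h5, mul_zero]
    have hmeas : Measurable fun p => ‖fderiv ℝ f p‖ₑ :=
      (hf.continuous_fderiv (by simp)).measurable.enorm
    have h2 := ENNReal.lintegral_mul_le_Lp_mul_Lq (volume : Measure Pl)
      Real.HolderConjugate.two_two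
      (f := A.indicator (fun _ => (1 : ℝ≥0∞))) (g := fun p => ‖fderiv ℝ f p‖ₑ)
      ((measurable_const.indicator hAo.measurableSet).aemeasurable) hmeas.aemeasurable
    have h3 : ∫⁻ p, (A.indicator (fun _ => (1 : ℝ≥0∞)) p) ^ (2 : ℝ) = volume A := by
      have h4 : ∀ p, (A.indicator (fun _ => (1 : ℝ≥0∞)) p) ^ (2 : ℝ) =
          A.indicator (fun _ => (1 : ℝ≥0∞)) p := by
        intro p
        by_cases hp : p ∈ A
        · simp [hp]
        · simp [hp]
      rw [lintegral_congr h4, lintegral_indicator hAo.measurableSet]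
      simp
    rw [← h1, h3] at h2
    calc (∫⁻ p, ‖fderiv ℝ f p‖ₑ) ^ (2 : ℝ) ≤
        (volume A ^ (1 / (2 : ℝ)) * (∫⁻ p, ‖fderiv ℝ f p‖ₑ ^ (2 : ℝ)) ^ (1 / (2 : ℝ))) ^ (2 : ℝ) :=
          ENNReal.rpow_le_rpow h2 (by norm_num)
      _ = volume A * ∫⁻ p, ‖fderiv ℝ f p‖ₑ ^ (2 : ℝ) := by
          rw [ENNReal.mul_rpow_of_nonneg _ _ (by norm_num : (0 : ℝ) ≤ 2), ← ENNReal.rpow_mul,
            ← ENNReal.rpow_mul]
          norm_num
  have hen : ∫⁻ p, ‖fderiv ℝ f p‖ₑ ^ (2 : ℝ) ≤ ENNReal.ofReal (4 * en f) := by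
    have h1 : 4 * en f = ∫ p, 2 * gr2 f p := by
      unfold en
      rw [integral_const_mul]
      ring
    rw [h1, ofReal_integral_eq_lintegral_ofReal ((GnsG_gr2_int hf hc).const_mul 2)
      (Eventually.of_forall fun p => by
        show 0 ≤ 2 * gr2 f p
        unfold gr2
        positivity)]
    refine lintegral_mono fun p => ?_
    have h2 : ‖fderiv ℝ f p‖ₑ ^ (2 : ℝ) = ENNReal.ofReal (‖fderiv ℝ f p‖ ^ 2) := by
      rw [← ofReal_norm, ENNReal.ofReal_rpow_of_nonneg (norm_nonneg _) (by norm_num)]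
      norm_num
    rw [h2]
    exact ENNReal.ofReal_le_ofReal (hDgn p)
  have hfin : ∫⁻ p, ‖f p‖ₑ ^ (2 : ℝ) ≤
      (GnsG_c : ℝ≥0∞) * (volume A * ENNReal.ofReal (4 * en f)) := by
    refine key.trans ?_
    unfold GnsG_c
    gcongr
    exact hcs.trans (by gcongr)
  have hms : ms f = (∫⁻ p, ‖f p‖ₑ ^ (2 : ℝ)).toReal := by
    unfold ms
    rw [integral_eq_lintegral_of_nonneg_ae (Eventually.of_forall fun p => sq_nonneg (f p))
      ((hf.continuous.pow 2).aestronglyMeasurable)]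
    congr 1
    refine lintegral_congr fun p => ?_
    rw [← ofReal_norm, ENNReal.ofReal_rpow_of_nonneg (norm_nonneg _) (by norm_num)]
    norm_num
  have hen0 : 0 ≤ en f := by
    unfold en
    refine mul_nonneg (by norm_num) (integral_nonneg fun p => ?_)
    show 0 ≤ gr2 f p
    unfold gr2
    positivity
  have hfin2 : (GnsG_c : ℝ≥0∞) * (volume A * ENNReal.ofReal (4 * en f)) ≠ ⊤ :=
    ENNReal.mul_ne_top ENNReal.coe_ne_top (ENNReal.mul_ne_top hAv ENNReal.ofReal_ne_top)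
  rw [hms]
  refine (ENNReal.toReal_mono hfin2 hfin).trans (le_of_eq ?_)
  rw [ENNReal.toReal_mul, ENNReal.toReal_mul, ENNReal.toReal_ofReal (by positivity),
    ENNReal.coe_toReal]
  unfold vol
  ring

theorem gnsG : ∃ C0 : ℝ, 0 < C0 ∧ ∀ f : Pl → ℝ, ContDiff ℝ ∞ f → HasCompactSupport f →
    ms f ≤ C0 * vol {p | gr2 f p ≠ 0} * en f := by
  refine ⟨4 * GnsG_c + 1, by positivity, fun f hf hc => ?_⟩
  have hen0 : 0 ≤ en f := by
    unfold en
    refine mul_nonneg (by norm_num) (integral_nonneg fun p => ?_)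
    show 0 ≤ gr2 f p
    unfold gr2
    positivity
  have hv0 : 0 ≤ vol {p | gr2 f p ≠ 0} := ENNReal.toReal_nonneg
  refine (GnsG_trunc hf hc).trans ?_
  have h3 : 0 ≤ vol {p | gr2 f p ≠ 0} * en f := mul_nonneg hv0 hen0
  nlinarith [h3]

end Pool.Agent.BSs
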