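import Pool.Agent.BSs.Smoo
import Pool.Agent.BSs.GnsG
import Pool.Agent.BSv.Ten
import Pool.Agent.BSv.Scale

/-!
# Module LAYER: the boundary layer of a nearly optimal domain is not thin

Let `c = cst 1`, `N = cthickening (4ρ) D`, `U' = thickening (4ρ) D ⊆ N` (finite area: `D` bounded),
`λ = lam D`, `λ' = lam U'`, `s = σ/r²`, `δ0 ≤ 1`.
* `cst_le` for `U'` and the hypothesis: `r⁴ (λ - λ') ≤ δ0 r`; `cst_le` for `D`: `vol N - vol D ≤ δ0 r`;
  `r⁴ λ ≤ (c+1) r²`, `vol N ≤ (c+1) r²` (`r ≥ 1`), `λ' ≤ λ`.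
* `u` from `smoo` (`ζ` so small that `ζ ≤ s/4` and, together with `η`,
  `ũ = u/√(ms u)` satisfies `en ũ ≤ (λ + η)/(1 - 2 ζ √(vol N)) ≤ λ + r^(-3)`), so
  `en ũ - λ' ≤ 2 r^(-3)`.
* `w = Th s ∘ ũ`: `ms w ≥ 1 - 4 s √(vol U') ≥ 1/2` for large `r`, `en w ≤ en ũ ≤ (c+2) r^(-2)`,
  `{w ≠ 0} ⊆ {ũ ≥ s}`, `gns`: `vol {ũ ≥ s} ≥ r²/(2 C0 (c+2))`.
* `v = Ta s ∘ ũ`: `en v ≤ 2 λ' · 2 s √(vol U') + 2 r^(-3) ≤ C5 σ r^(-3)` (`en_Ta_le`,
  `int_mul_Ta_le`), `ms v ≥ s² vol {ũ ≥ s} ≥ σ² r^(-2)/(2 C0 (c+2))` (`Ta s y ≥ min y s`).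
* `gnsG`: `vol {gr2 v ≠ 0} ≥ ms v/(C0' en v) ≥ c8 σ r`.  If `gr2 v p ≠ 0` then `p ∈ tsupport ũ ⊆ U'` and
  `ũ p ≤ 2 s` (for `ũ p > 2 s` the factor `1 - zt (ũ p/s)` vanishes).
* So `vol {p ∈ U' | ũ p ≤ 2 s} ≥ c8 σ r` and `vol (U' \ D) ≤ δ0 r ≤ (c8/2) σ r`.  For `p ∈ D` with
  `ũ p ≤ 2 s`: `u p ≤ 2 s` and `u² + 2 ζ u ≤ 4 s² + 4 ζ s ≤ 5 s²`, so
  `∫_{closedBall p (2ρ)} g² ≤ 180 ρ² σ²/r⁴`.
`c7 = c8/2`, `δ0 = min 1 (c8/2)`.
-/

open MeasureTheory Set Filter Topology Pool.Agent.BSv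
open scoped ENNReal NNReal ContDiff

noncomputable section

namespace Pool.Agent.BSs

private theorem Layer_zeta {s V lm e : ℝ} (hs : 0 < s) (hl : 0 ≤ lm) (he : 0 < e) :
    ∃ ζ : ℝ, 0 < ζ ∧ ζ ≤ s / 4 ∧ ∀ m E : ℝ, 1 - 2 * ζ * √V ≤ m → E ≤ lm + e / 2 →
      0 < m ∧ E ≤ (lm + e) * m := by
  have hV := Real.sqrt_nonneg V
  have hle : 0 < lm + e := by linarith
  refine ⟨min (s / 4) (e / (4 * (lm + e) * (√V + 1))), ?_, min_le_left _ _, ?_⟩
  · exact lt_min (by positivity) (by positivity)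
  · intro m E hm hE
    obtain ⟨ζ, hζ⟩ : ∃ ζ, ζ = min (s / 4) (e / (4 * (lm + e) * (√V + 1))) := ⟨_, rfl⟩
    rw [← hζ] at hm
    have h1 : ζ ≤ e / (4 * (lm + e) * (√V + 1)) := by
      rw [hζ]
      exact min_le_right _ _
    have h0 : 0 < ζ := by
      rw [hζ]
      exact lt_min (by positivity) (by positivity)
    rw [le_div_iff₀ (by positivity)] at h1
    have h2 : 2 * ζ * √V * (lm + e) ≤ e / 2 := by
      have h3 : 0 ≤ ζ * (lm + e) := by positivity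
      nlinarith
    have h4 : 2 * ζ * √V ≤ 1 / 2 := by
      by_contra h5
      push Not at h5
      have h6 := mul_lt_mul_of_pos_right h5 hle
      linarith
    refine ⟨by linarith, ?_⟩
    have h7 := mul_le_mul_of_nonneg_left hm hle.le
    nlinarith

private theorem Layer_zt {y s : ℝ} (hs : 0 < s) (h : 2 * s < y) : 1 - zt (y / s) = 0 := by
  unfold zt
  have h1 : 2 < y / s := by
    rw [lt_div_iff₀ hs]
    exact h
  rw [abs_of_pos (by linarith), Real.smoothTransition.one_of_one_le (by linarith), sub_self]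

private theorem Layer_gr2 {f : Pl → ℝ} (hf : ContDiff ℝ ∞ f) {s : ℝ} (hs : 0 < s) {p : Pl}
    (h : gr2 (fun p => Ta s (f p)) p ≠ 0) : f p ≤ 2 * s ∧ p ∈ tsupport f := by
  have h1 : DifferentiableAt ℝ f p := (hf.differentiable (by simp)) p
  have h2 : fderiv ℝ (fun p => Ta s (f p)) p = (1 - zt (f p / s)) • fderiv ℝ f p :=
    ((Ta_hasDerivAt hs (f p)).comp_hasFDerivAt p h1.hasFDerivAt).fderiv
  constructor
  · by_contra h3
    push Not at h3
    apply h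
    unfold gr2 dx dy
    rw [h2, Layer_zt hs h3]
    simp
  · by_contra h3
    apply h
    unfold gr2 dx dy
    have h4 : fderiv ℝ f p = 0 := by
      by_contra h5
      exact h3 (support_fderiv_subset ℝ h5)
    rw [h2, h4]
    simp

theorem layer : ∃ c7 δ0 : ℝ, 0 < c7 ∧ 0 < δ0 ∧ ∀ σ : ℝ, 1 ≤ σ → ∃ r0 : ℝ, 1 ≤ r0 ∧
    ∀ r : ℝ, r0 ≤ r → ∀ ρ : ℝ, 0 < ρ → ∀ D : Set Pl, IsOpen D → D.Nonempty →
    Bornology.IsBounded D →
    r ^ 4 * lam D + vol (Metric.cthickening (4 * ρ) D) ≤ cst 1 * r ^ 2 + δ0 * r →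
    ∃ η : ℝ, 0 < η ∧ ∀ g : Pl → ℝ, CC D g → ms g = 1 → en g ≤ lam D + η →
      c7 * σ * r ≤ vol {p | p ∈ D ∧
        ∫ q in Metric.closedBall p (2 * ρ), g q ^ 2 ≤ 180 * σ ^ 2 / r ^ 4 * ρ ^ 2} := by
  obtain ⟨C0, hC0, hgns⟩ := gns
  obtain ⟨C1, hC1, hgnsG⟩ := gnsG
  obtain ⟨c, hc⟩ : ∃ c, c = cst 1 := ⟨_, rfl⟩
  have hc0 : 0 < c := by
    rw [hc]
    exact cst_pos one_pos
  rw [← hc]
  obtain ⟨K, hK⟩ : ∃ K, K = √(c + 1) := ⟨_, rfl⟩
  have hK0 : 0 < K := by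
    rw [hK]
    exact Real.sqrt_pos.2 (by linarith)
  have hK2 : K ^ 2 = c + 1 := by
    rw [hK]
    exact Real.sq_sqrt (by linarith)
  obtain ⟨C5, hC5⟩ : ∃ C5, C5 = 4 * (c + 1) * K + 2 := ⟨_, rfl⟩
  have hC50 : 0 < C5 := by
    rw [hC5]
    positivity
  obtain ⟨c8, hc8⟩ : ∃ c8, c8 = 1 / (2 * C0 * (c + 2) * (C1 * C5)) := ⟨_, rfl⟩
  have hc80 : 0 < c8 := by
    rw [hc8]
    positivity
  obtain ⟨δ, hδ⟩ : ∃ δ, δ = min 1 (c8 / 2) := ⟨_, rfl⟩
  have hδ0 : 0 < δ := by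
    rw [hδ]
    exact lt_min one_pos (by positivity)
  have hδ1 : δ ≤ 1 := by
    rw [hδ]
    exact min_le_left _ _
  have hδ8 : δ ≤ c8 / 2 := by
    rw [hδ]
    exact min_le_right _ _
  refine ⟨c8 / 2, δ, by positivity, hδ0, ?_⟩
  intro σ hσ
  refine ⟨max 1 (8 * σ * K), le_max_left _ _, ?_⟩
  intro r hr ρ hρ D hDo hDne hDb hH
  have hr1 : 1 ≤ r := (le_max_left _ _).trans hr
  have hr8 : 8 * σ * K ≤ r := (le_max_right _ _).trans hr
  have hr0 : 0 < r := by linarith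
  obtain ⟨i, hi⟩ : ∃ i, i = r⁻¹ := ⟨_, rfl⟩
  have hi0 : 0 < i := by
    rw [hi]
    positivity
  have hri : r * i = 1 := by
    rw [hi]
    exact mul_inv_cancel₀ hr0.ne'
  obtain ⟨U, hU⟩ : ∃ U, U = Metric.thickening (4 * ρ) D := ⟨_, rfl⟩
  obtain ⟨N, hN⟩ : ∃ N, N = Metric.cthickening (4 * ρ) D := ⟨_, rfl⟩
  rw [← hN] at hH
  have hUo : IsOpen U := by
    rw [hU]
    exact Metric.isOpen_thickening
  have hDU : D ⊆ U := by
    rw [hU]
    exact Metric.self_subset_thickening (by positivity) _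
  have hUN : U ⊆ N := by
    rw [hU, hN]
    exact Metric.thickening_subset_cthickening _ _
  have hNv : volume N ≠ ⊤ := by
    rw [hN]
    exact (hDb.cthickening).measure_lt_top.ne
  have hUv : volume U ≠ ⊤ := ne_top_of_le_ne_top hNv (measure_mono hUN)
  have hDv : volume D ≠ ⊤ := ne_top_of_le_ne_top hUv (measure_mono hDU)
  have hUne : U.Nonempty := hDne.mono hDU
  have hvUN : vol U ≤ vol N := ENNReal.toReal_mono hNv (measure_mono hUN)
  have hvDN : vol D ≤ vol N := ENNReal.toReal_mono hNv (measure_mono (hDU.trans hUN))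
  have hvD0 : 0 ≤ vol D := ENNReal.toReal_nonneg
  have hvU0 : 0 ≤ vol U := ENNReal.toReal_nonneg
  have hsq : √(r ^ 4) = r ^ 2 := by
    rw [show r ^ 4 = (r ^ 2) ^ 2 by ring]
    exact Real.sqrt_sq (by positivity)
  have hcU := cst_le one_pos hUo hUne hUv (t := r ^ 4) (by positivity)
  have hcD := cst_le one_pos hDo hDne hDv (t := r ^ 4) (by positivity)
  rw [hsq, ← hc, one_mul] at hcU hcD
  have hll : lam U ≤ lam D := lam_anti hDo hDne hDU
  have hlU0 := lam_nonneg U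
  have hlD0 := lam_nonneg D
  have hr4 : r ^ 4 * i ^ 4 = 1 := by
    rw [← mul_pow, hri, one_pow]
  have hr2 : r ^ 2 * i ^ 2 = 1 := by
    rw [← mul_pow, hri, one_pow]
  -- F1
  have F1 : lam D - lam U ≤ δ * i ^ 3 := by
    have h1 : r ^ 4 * (lam D - lam U) ≤ δ * r := by linarith
    have h2 := mul_le_mul_of_nonneg_left h1 (by positivity : 0 ≤ i ^ 4)
    have h3 : i ^ 4 * (r ^ 4 * (lam D - lam U)) = lam D - lam U := by
      rw [← mul_assoc, mul_comm (i ^ 4), hr4, one_mul]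
    have h4 : i ^ 4 * (δ * r) = δ * i ^ 3 := by
      calc i ^ 4 * (δ * r) = δ * i ^ 3 * (r * i) := by ring
        _ = δ * i ^ 3 := by rw [hri, mul_one]
    rw [h3, h4] at h2
    exact h2
  have F0 : c * r ^ 2 + δ * r ≤ (c + 1) * r ^ 2 := by
    have h1 : δ * r ≤ 1 * r := mul_le_mul_of_nonneg_right hδ1 hr0.le
    nlinarith
  have F2 : lam D ≤ (c + 1) * i ^ 2 := by
    have h1 : r ^ 4 * lam D ≤ (c + 1) * r ^ 2 := by linarith
    have h2 := mul_le_mul_of_nonneg_left h1 (by positivity : 0 ≤ i ^ 4)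
    have h3 : i ^ 4 * (r ^ 4 * lam D) = lam D := by
      rw [← mul_assoc, mul_comm (i ^ 4), hr4, one_mul]
    have h4 : i ^ 4 * ((c + 1) * r ^ 2) = (c + 1) * i ^ 2 := by
      calc i ^ 4 * ((c + 1) * r ^ 2) = (c + 1) * i ^ 2 * (r ^ 2 * i ^ 2) := by ring
        _ = (c + 1) * i ^ 2 := by rw [hr2, mul_one]
    rw [h3, h4] at h2
    exact h2
  have F3 : √(vol U) ≤ K * r := by
    apply Real.sqrt_le_iff.2 ⟨by positivity, ?_⟩
    rw [mul_pow, hK2]
    have h1 : 0 ≤ r ^ 4 * lam D := by positivity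
    linarith
  obtain ⟨s, hs⟩ : ∃ s, s = σ * i ^ 2 := ⟨_, rfl⟩
  have hs0 : 0 < s := by
    rw [hs]
    positivity
  have F4 : 2 * s * √(vol U) ≤ 1 / 4 := by
    have h1 : s * √(vol U) ≤ σ * i ^ 2 * (K * r) := by
      rw [hs]
      exact mul_le_mul_of_nonneg_left F3 (by positivity)
    have h2 : σ * i ^ 2 * (K * r) = σ * K * i := by
      calc σ * i ^ 2 * (K * r) = σ * K * i * (r * i) := by ring
        _ = σ * K * i := by rw [hri, mul_one]
    have h3 : 8 * (σ * K * i) ≤ 1 := by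
      calc 8 * (σ * K * i) = 8 * σ * K * i := by ring
        _ ≤ r * i := mul_le_mul_of_nonneg_right hr8 hi0.le
        _ = 1 := hri
    linarith
  obtain ⟨ζ, hζ0, hζs, hζ⟩ := Layer_zeta (V := vol U) hs0 hlD0 (show 0 < i ^ 3 by positivity)
  refine ⟨i ^ 3 / 2, by positivity, ?_⟩
  intro g hg hgm hge
  obtain ⟨u, hucc, hu0, hue, hum, hum1, hul⟩ := smoo hρ hζ0 hDb hg
  rw [← hU] at hucc hum
  rw [hgm, Real.sqrt_one, mul_one] at hum
  rw [hgm] at hum1
  obtain ⟨hm0, hme⟩ := hζ (ms u) (en u) hum (hue.trans hge)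
  obtain ⟨κ, hκ⟩ : ∃ κ, κ = 1 / √(ms u) := ⟨_, rfl⟩
  have hκ1 : 1 ≤ κ := by
    rw [hκ, le_div_iff₀ (Real.sqrt_pos.2 hm0), one_mul]
    exact Real.sqrt_le_one.2 hum1
  have hκ2 : κ ^ 2 = 1 / ms u := by
    rw [hκ, div_pow, one_pow, Real.sq_sqrt hm0.le]
  obtain ⟨f, hf⟩ : ∃ f : Pl → ℝ, f = fun p => κ * u p := ⟨_, rfl⟩
  have hfcc : CC U f := by
    rw [hf]
    exact hucc.smul κ
  have hfm : ms f = 1 := by
    rw [hf, ms_smul, hκ2]
    field_simp
  have hf0 : ∀ p, 0 ≤ f p := by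
    intro p
    rw [hf]
    have := hu0 p
    positivity
  have hfe : en f ≤ lam D + i ^ 3 := by
    rw [hf, en_smul κ hucc.smooth, hκ2, one_div, inv_mul_le_iff₀ hm0]
    linarith
  have hfu : ∀ p, u p ≤ f p := by
    intro p
    rw [hf]
    have := mul_le_mul_of_nonneg_right hκ1 (hu0 p)
    simp only
    linarith
  -- the mass of the overlap with `Ta`
  have G1 : ∫ p, f p * Ta s (f p) ≤ 2 * s * √(vol U) := by
    have h1 := int_mul_Ta_le hfcc hs0
    rw [hfm, Real.sqrt_one, mul_one] at h1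
    refine h1.trans ?_
    have h2 : vol {p | f p ≠ 0} ≤ vol U := by
      apply ENNReal.toReal_mono hUv
      apply measure_mono
      intro p hp
      exact hfcc.sub (subset_tsupport f hp)
    exact mul_le_mul_of_nonneg_left (Real.sqrt_le_sqrt h2) (by positivity)
  -- `w = Th s ∘ f`
  have G2 := ms_Th_ge hfcc hfm hs0
  have G3 := en_Th_add_en_Ta hfcc hs0
  have G4 := hgns _ (cc_Th' hfcc hs0).smooth (cc_Th' hfcc hs0).cpt
  obtain ⟨E, hE⟩ : ∃ E : Set Pl, E = {p | Th s (f p) ≠ 0} := ⟨_, rfl⟩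
  rw [← hE] at G4
  have hEv : volume E ≠ ⊤ := by
    refine ne_top_of_le_ne_top hUv (measure_mono ?_)
    rw [hE]
    intro p hp
    exact (cc_Th' hfcc hs0).sub (subset_tsupport _ hp)
  have hE0 : 0 ≤ vol E := ENNReal.toReal_nonneg
  have G5 : 1 ≤ 2 * C0 * (c + 2) * i ^ 2 * vol E := by
    have h1 : en (fun p => Th s (f p)) ≤ (c + 2) * i ^ 2 := by
      have h2 := en_nonneg (fun p => Ta s (f p))
      have h3 : i ^ 3 ≤ i ^ 2 := by
        have h4 : i ≤ 1 := by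
          rw [hi]
          exact inv_le_one_of_one_le₀ hr1
        calc i ^ 3 = i ^ 2 * i := by ring
          _ ≤ i ^ 2 * 1 := mul_le_mul_of_nonneg_left h4 (by positivity)
          _ = i ^ 2 := mul_one _
      linarith
    have h5 : C0 * vol E * en (fun p => Th s (f p)) ≤ C0 * vol E * ((c + 2) * i ^ 2) :=
      mul_le_mul_of_nonneg_left h1 (by positivity)
    have h6 : 2 * C0 * (c + 2) * i ^ 2 * vol E = 2 * (C0 * vol E * ((c + 2) * i ^ 2)) := by ring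
    rw [h6]
    linarith
  -- `v = Ta s ∘ f`
  have G6 : s ^ 2 * vol E ≤ ms (fun p => Ta s (f p)) := by
    have h1 : MeasurableSet E := by
      rw [hE]
      exact (isOpen_ne_fun (cc_Th' hfcc hs0).smooth.continuous continuous_const).measurableSet
    have h2 : ∫ p, E.indicator (fun _ => s ^ 2) p = s ^ 2 * vol E := by
      rw [integral_indicator h1, setIntegral_const, smul_eq_mul, mul_comm]
      rfl
    rw [← h2]
    refine integral_mono ?_ (cc_Ta hfcc hs0).integrable_sq fun p => ?_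
    · have e1 : IntegrableOn (fun _ : Pl => s ^ 2) E := integrableOn_const hEv
      exact (integrable_indicator_iff h1).2 e1
    · simp only
      by_cases hp : p ∈ E
      · rw [indicator_of_mem hp]
        have h3 : s < f p := by
          by_contra h4
          push Not at h4
          rw [hE] at hp
          apply hp
          apply Th_eq_zero hs0
          rw [abs_of_nonneg (hf0 p)]
          exact h4
        have h5 := Ta_ge hs0 (hf0 p)
        rw [min_eq_right h3.le] at h5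
        exact pow_le_pow_left₀ hs0.le h5 2
      · rw [indicator_of_notMem hp]
        positivity
  have G7 : en (fun p => Ta s (f p)) ≤ C5 * σ * i ^ 3 := by
    have h1 := en_Ta_le hfcc hfm hs0
    have h2 : en f - lam U ≤ 2 * i ^ 3 := by
      have h3 : δ * i ^ 3 ≤ 1 * i ^ 3 := mul_le_mul_of_nonneg_right hδ1 (by positivity)
      linarith
    have h4 : 2 * s * √(vol U) ≤ 2 * (σ * K * i) := by
      have h5 : s * √(vol U) ≤ σ * i ^ 2 * (K * r) := by
        rw [hs]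
        exact mul_le_mul_of_nonneg_left F3 (by positivity)
      have h6 : σ * i ^ 2 * (K * r) = σ * K * i := by
        calc σ * i ^ 2 * (K * r) = σ * K * i * (r * i) := by ring
          _ = σ * K * i := by rw [hri, mul_one]
      linarith
    have h7 : 2 * lam U * (∫ p, f p * Ta s (f p)) ≤
        2 * ((c + 1) * i ^ 2) * (2 * (σ * K * i)) := by
      calc 2 * lam U * (∫ p, f p * Ta s (f p)) ≤ 2 * lam U * (2 * (σ * K * i)) :=
            mul_le_mul_of_nonneg_left (G1.trans h4) (by positivity)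
        _ ≤ 2 * ((c + 1) * i ^ 2) * (2 * (σ * K * i)) := by
            apply mul_le_mul_of_nonneg_right _ (by positivity)
            linarith
    have h8 : 2 * i ^ 3 ≤ 2 * σ * i ^ 3 := by
      have : 0 < i ^ 3 := by positivity
      nlinarith
    have h9 : C5 * σ * i ^ 3 = 2 * ((c + 1) * i ^ 2) * (2 * (σ * K * i)) + 2 * σ * i ^ 3 := by
      rw [hC5]
      ring
    rw [h9]
    linarith
  obtain ⟨B, hB⟩ : ∃ B : Set Pl, B = {p | gr2 (fun p => Ta s (f p)) p ≠ 0} := ⟨_, rfl⟩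
  have G8 := hgnsG _ (cc_Ta hfcc hs0).smooth (cc_Ta hfcc hs0).cpt
  rw [← hB] at G8
  have hB0 : 0 ≤ vol B := ENNReal.toReal_nonneg
  have G9 : c8 * σ * r ≤ vol B := by
    have h1 : s ^ 2 * vol E ≤ C1 * vol B * (C5 * σ * i ^ 3) := by
      refine G6.trans (G8.trans ?_)
      exact mul_le_mul_of_nonneg_left G7 (by positivity)
    -- multiply by 2 C0 (c+2) i^2 and use G5
    have h2 : s ^ 2 ≤ 2 * C0 * (c + 2) * i ^ 2 * (C1 * vol B * (C5 * σ * i ^ 3)) := by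
      calc s ^ 2 = s ^ 2 * 1 := (mul_one _).symm
        _ ≤ s ^ 2 * (2 * C0 * (c + 2) * i ^ 2 * vol E) :=
            mul_le_mul_of_nonneg_left G5 (by positivity)
        _ = 2 * C0 * (c + 2) * i ^ 2 * (s ^ 2 * vol E) := by ring
        _ ≤ 2 * C0 * (c + 2) * i ^ 2 * (C1 * vol B * (C5 * σ * i ^ 3)) :=
            mul_le_mul_of_nonneg_left h1 (by positivity)
    have h3 : s ^ 2 = (σ * i ^ 4) * σ := by
      rw [hs]
      ring
    have h4 : 2 * C0 * (c + 2) * i ^ 2 * (C1 * vol B * (C5 * σ * i ^ 3)) =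
        (σ * i ^ 4) * (2 * C0 * (c + 2) * (C1 * C5) * vol B * i) := by ring
    rw [h3, h4] at h2
    have h5 := le_of_mul_le_mul_left h2 (by positivity)
    have h6 : σ * r ≤ 2 * C0 * (c + 2) * (C1 * C5) * vol B := by
      calc σ * r ≤ 2 * C0 * (c + 2) * (C1 * C5) * vol B * i * r :=
            mul_le_mul_of_nonneg_right h5 hr0.le
        _ = 2 * C0 * (c + 2) * (C1 * C5) * vol B * (r * i) := by ring
        _ = 2 * C0 * (c + 2) * (C1 * C5) * vol B := by rw [hri, mul_one]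
    rw [hc8, mul_assoc, one_div, inv_mul_le_iff₀ (by positivity)]
    exact h6
  obtain ⟨A, hA⟩ : ∃ A : Set Pl, A = {p | p ∈ D ∧
        ∫ q in Metric.closedBall p (2 * ρ), g q ^ 2 ≤ 180 * σ ^ 2 / r ^ 4 * ρ ^ 2} := ⟨_, rfl⟩
  rw [← hA]
  have hBA : B ⊆ A ∪ (N \ D) := by
    intro p hp
    rw [hB] at hp
    obtain ⟨h1, h2⟩ := Layer_gr2 hfcc.smooth hs0 hp
    by_cases hpD : p ∈ D
    · left
      rw [hA]
      refine ⟨hpD, (hul p).trans ?_⟩
      have h3 : u p ≤ 2 * s := (hfu p).trans h1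
      have h4 : u p ^ 2 ≤ (2 * s) ^ 2 := pow_le_pow_left₀ (hu0 p) h3 2
      have h5 : ζ * u p ≤ s / 4 * (2 * s) := mul_le_mul hζs h3 (hu0 p) (by positivity)
      have h6 : u p ^ 2 + 2 * ζ * u p ≤ 5 * s ^ 2 := by linarith
      have h7 : 180 * σ ^ 2 / r ^ 4 * ρ ^ 2 = 36 * ρ ^ 2 * (5 * s ^ 2) := by
        rw [hs, hi]
        field_simp
        ring
      rw [h7]
      exact mul_le_mul_of_nonneg_left h6 (by positivity)
    · right
      exact ⟨hUN (hfcc.sub h2), hpD⟩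
  have hAv : volume A ≠ ⊤ := by
    refine ne_top_of_le_ne_top hDv (measure_mono ?_)
    rw [hA]
    exact fun p hp => hp.1
  have hNDv : volume (N \ D) ≠ ⊤ := ne_top_of_le_ne_top hNv (measure_mono sdiff_subset)
  have hBle : vol B ≤ vol A + vol (N \ D) := by
    unfold vol
    rw [← ENNReal.toReal_add hAv hNDv]
    exact ENNReal.toReal_mono (ENNReal.add_ne_top.2 ⟨hAv, hNDv⟩)
      ((measure_mono hBA).trans (measure_union_le _ _))
  have hND : vol (N \ D) = vol N - vol D := by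
    unfold vol
    rw [measure_sdiff (hDU.trans hUN) hDo.measurableSet.nullMeasurableSet hDv,
      ENNReal.toReal_sub_of_le (measure_mono (hDU.trans hUN)) hNv]
  have hNDle : vol (N \ D) ≤ δ * r := by
    rw [hND]
    linarith
  have hfin : δ * r ≤ c8 / 2 * σ * r := by
    have h1 : δ ≤ c8 / 2 * σ := by nlinarith
    exact mul_le_mul_of_nonneg_right h1 hr0.le
  linarith

end Pool.Agent.BSs
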