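import Pool.Agent.BSs.LowE
import Pool.Agent.BSs.Layer
import Pool.Agent.BSs.Drop
import Pool.Agent.BSs.Lower2

/-!
# Lower bound with a positive surface term for small radius (helper98)
-/

open MeasureTheory Set Filter Topology ProbabilityTheory Pool.Agent.BSv
open scoped ENNReal NNReal ContDiff

noncomputable section

namespace Pool.Agent.BSs

theorem measurable_local {g : Pl → ℝ} (hg : Continuous g) (R : ℝ) :
    Measurable fun p : Pl => ∫ q in Metric.closedBall p R, g q ^ 2 := by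
  let S : Set (Pl × Pl) := {z | dist z.2 z.1 ≤ R}
  have hS : MeasurableSet S :=
    (isClosed_le (continuous_snd.dist continuous_fst) continuous_const).measurableSet
  have h1 : Measurable (fun z : Pl × Pl => S.indicator (fun z => g z.2 ^ 2) z) :=
    ((hg.comp continuous_snd).pow 2).measurable.indicator hS
  have h2 : (fun p : Pl => ∫ q in Metric.closedBall p R, g q ^ 2) =
      fun p : Pl => ∫ q, S.indicator (fun z => g z.2 ^ 2) (p, q) := by
    funext p
    rw [← integral_indicator Metric.isClosed_closedBall.measurableSet]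
    congr 1
  rw [h2]
  exact (h1.stronglyMeasurable.integral_prod_right).measurable

theorem measurable_layer {g : Pl → ℝ} (hg : Continuous g) {D : Set Pl} (hD : IsOpen D) (R K : ℝ) :
    MeasurableSet {p | p ∈ D ∧ ∫ q in Metric.closedBall p R, g q ^ 2 ≤ K} :=
  hD.measurableSet.inter (measurableSet_le (measurable_local hg R) measurable_const)

theorem small : ∃ a0 c' : ℝ, 0 < a0 ∧ a0 ≤ 1 / 2 ∧ 0 < c' ∧ ∀ a : ℝ, 0 < a → a ≤ a0 →
    ∃ r1 : ℝ, 1 ≤ r1 ∧ ∀ (Ω : Type) [MeasurableSpace Ω] (P : Measure Ω)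
    (X Y : ℝ≥0 → Ω → ℝ), PBM P X Y → ∀ t : ℝ≥0, 1 ≤ t → r1 ≤ (t : ℝ) ^ (1 / 4 : ℝ) →
    Real.exp (-(cst 1) * √t + c' * √(Real.log (1 / a)) * (t : ℝ) ^ (1 / 4 : ℝ)) ≤
      surv P X Y 1 a t := by
  obtain ⟨c7, δ0, hc7, hδ0, hlayer⟩ := layer
  obtain ⟨ε0, c1, CL, hε0, hc1, hCL, hlow⟩ := lowE
  obtain ⟨CD, hCD, hdrop⟩ := drop
  have hc0 : 0 < cst 1 := cst_pos one_pos
  set c0 := cst 1 with hc0def
  set K1 : ℝ := ((c0 + 1) ^ 2) ^ (5 / 4 : ℝ) with hK1
  have hK10 : 0 < K1 := by positivity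
  set δ1 : ℝ := min (min δ0 (c7 / 8)) 1 with hδ1
  have hδ10 : 0 < δ1 := lt_min (lt_min hδ0 (by positivity)) one_pos
  have hδ1a : δ1 ≤ δ0 := (min_le_left _ _).trans (min_le_left _ _)
  have hδ1b : δ1 ≤ c7 / 8 := (min_le_left _ _).trans (min_le_right _ _)
  have hδ1c : δ1 ≤ 1 := min_le_right _ _
  set θ : ℝ := δ1 / (4 * (c0 + 1) * CL) with hθ
  have hθ0 : 0 < θ := by positivity
  set ρ0 : ℝ := min (1 / 4) √(θ * δ1 / (64 * CL * K1)) with hρ0
  have hρ00 : 0 < ρ0 := lt_min (by norm_num) (Real.sqrt_pos.mpr (by positivity))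
  have hρ0a : 16 * ρ0 ^ 2 ≤ 1 := by
    have h1 : ρ0 ≤ 1 / 4 := min_le_left _ _
    nlinarith
  have hρ0b : ρ0 ^ 2 ≤ θ * δ1 / (64 * CL * K1) := by
    have h1 : ρ0 ≤ √(θ * δ1 / (64 * CL * K1)) := min_le_right _ _
    calc ρ0 ^ 2 ≤ √(θ * δ1 / (64 * CL * K1)) ^ 2 := by gcongr
      _ = _ := Real.sq_sqrt (by positivity)
  set M0 : ℝ := 201 + Real.exp (1080 * CD) with hM0
  have hM00 : 0 < M0 := by positivity
  set ζ : ℝ := c7 / 32 with hζ
  have hζ0 : 0 < ζ := by positivity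
  set K2 : ℝ := 3 * (c0 + 1) + 1 + (1 / ζ) ^ 2 with hK2
  have hK20 : 0 < K2 := by positivity
  refine ⟨min (min ((ρ0 / 2) ^ 2) (ρ0 / M0)) (1 / 2), c7 / 4 * √(1 / (2160 * CD)),
    lt_min (lt_min (by positivity) (by positivity)) (by norm_num), min_le_right _ _,
    by positivity, ?_⟩
  intro a ha haa
  have haa1 : a ≤ (ρ0 / 2) ^ 2 := haa.trans ((min_le_left _ _).trans (min_le_left _ _))
  have haa2 : a ≤ ρ0 / M0 := haa.trans ((min_le_left _ _).trans (min_le_right _ _))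
  have haa3 : a ≤ 1 / 2 := haa.trans (min_le_right _ _)
  set m : ℕ := ⌊ρ0 / a⌋₊ with hm
  have hm1 : (m : ℝ) ≤ ρ0 / a := Nat.floor_le (by positivity)
  have hm2 : ρ0 / a < m + 1 := Nat.lt_floor_add_one _
  have hMa : M0 ≤ ρ0 / a := by
    rw [le_div_iff₀ hM00] at haa2
    rw [le_div_iff₀ ha]
    linarith
  have hmM : 200 + Real.exp (1080 * CD) ≤ (m : ℝ) := by
    have : M0 = 201 + Real.exp (1080 * CD) := hM0
    linarith
  have hexp0 : 0 < Real.exp (1080 * CD) := Real.exp_pos _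
  have hm200 : 200 ≤ m := by
    have : (200 : ℝ) ≤ (m : ℝ) := by linarith
    exact_mod_cast this
  have hmpos : (0 : ℝ) < m := by linarith
  have hlogm : 1080 * CD ≤ Real.log m := by
    rw [Real.le_log_iff_exp_le hmpos]
    linarith
  have hma : (m : ℝ) * a ≤ ρ0 := by
    rw [le_div_iff₀ ha] at hm1
    exact hm1
  have hma0 : 0 < (m : ℝ) * a := by positivity
  -- `log m ≥ (1/2) log (1/a)`
  have hsa : √a ≤ ρ0 / 2 := by
    rw [Real.sqrt_le_left (by positivity)]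
    exact haa1
  have hsa0 : 0 < √a := Real.sqrt_pos.mpr ha
  have hmsa : 1 / √a ≤ (m : ℝ) := by
    have h1 : 1 / √a ≤ ρ0 / (2 * a) := by
      rw [div_le_div_iff₀ hsa0 (by positivity)]
      have h2 : √a * √a = a := Real.mul_self_sqrt ha.le
      nlinarith
    have h2 : ρ0 / (2 * a) = (ρ0 / a) / 2 := by field_simp
    have h3 : 2 ≤ ρ0 / a := by linarith
    rw [h2] at h1
    linarith
  have hlog2 : 1 / 2 * Real.log (1 / a) ≤ Real.log m := by
    have h1 : Real.log (1 / √a) ≤ Real.log m := Real.log_le_log (by positivity) hmsa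
    have h2 : Real.log (1 / √a) = 1 / 2 * Real.log (1 / a) := by
      rw [Real.log_div one_ne_zero hsa0.ne', Real.log_div one_ne_zero ha.ne', Real.log_one,
        Real.log_sqrt ha.le]
      ring
    linarith
  set σ : ℝ := √(Real.log m / (1080 * CD)) with hσ
  have hσ1 : 1 ≤ σ := by
    rw [hσ]
    apply Real.one_le_sqrt.mpr
    rw [le_div_iff₀ (by positivity)]
    linarith
  have hσ0 : 0 < σ := by linarith
  have hlogm0 : 0 < Real.log m := lt_of_lt_of_le (by positivity) hlogm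
  have hσ2 : σ ^ 2 = Real.log m / (1080 * CD) := Real.sq_sqrt (by positivity)
  have hσa : √(1 / (2160 * CD)) * √(Real.log (1 / a)) ≤ σ := by
    rw [← Real.sqrt_mul (by positivity), hσ]
    apply Real.sqrt_le_sqrt
    rw [div_mul_eq_mul_div, one_mul, div_le_div_iff₀ (by positivity) (by positivity)]
    nlinarith
  obtain ⟨r0, hr01, hlay⟩ := hlayer σ hσ1
  refine ⟨max r0 (max (θ / ε0) (max ((c0 + 1) / c1) (max (4 / δ1) (max (360 * σ ^ 2 * (c0 + 2))
    (16 * K2 / c7))))), hr01.trans (le_max_left _ _), ?_⟩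
  intro Ω _ P X Y h t ht htr
  have ht1 : (1 : ℝ) ≤ (t : ℝ) := by exact_mod_cast ht
  obtain ⟨hr1, hrsq, hr4⟩ := quarter' ht1
  set r : ℝ := (t : ℝ) ^ (1 / 4 : ℝ) with hr
  rw [← hrsq]
  have hrpos : 0 < r := by linarith
  have hrr0 : r0 ≤ r := (le_max_left _ _).trans htr
  have k1 := (le_max_right _ _).trans htr
  have hrε : θ / ε0 ≤ r := (le_max_left _ _).trans k1
  have k2 := (le_max_right _ _).trans k1
  have hrc : (c0 + 1) / c1 ≤ r := (le_max_left _ _).trans k2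
  have k3 := (le_max_right _ _).trans k2
  have hrδ : 4 / δ1 ≤ r := (le_max_left _ _).trans k3
  have k4 := (le_max_right _ _).trans k3
  have hrσ : 360 * σ ^ 2 * (c0 + 2) ≤ r := (le_max_left _ _).trans k4
  have hrK : 16 * K2 / c7 ≤ r := (le_max_right _ _).trans k4
  have hrr : r ≤ r ^ 2 := by nlinarith
  have hr21 : (1 : ℝ) ≤ r ^ 2 := one_le_pow₀ hr1
  have htpos : (0 : ℝ) < (t : ℝ) := by linarith
  obtain ⟨U, hU, hUne, hUv, hUle⟩ := near_cst one_pos htpos one_pos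
  rw [← hrsq, ← hr4] at hUle
  have hvol0 : 0 ≤ vol U := ENNReal.toReal_nonneg
  have hlam0 := lam_nonneg U
  obtain ⟨f1, f2, f3⟩ := near_facts (m := 1) hc0 le_rfl hr1 hlam0 hvol0 (by
    rw [one_pow, one_pow, one_mul, one_mul] at *
    exact hUle)
  rw [one_pow, one_mul] at f1
  rw [one_pow, div_one] at f2
  have hε1 : θ / r ≤ ε0 := by
    rw [div_le_iff₀ hε0] at hrε
    rw [div_le_iff₀ hrpos]
    linarith
  have hpow : (lam U * vol U) ^ (5 / 4 : ℝ) ≤ K1 :=
    Real.rpow_le_rpow (by positivity) f3 (by norm_num)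
  have hma2 : ((m : ℝ) * a) ^ 2 ≤ ρ0 ^ 2 := by gcongr
  have h16 : 16 * ((m : ℝ) * a) ^ 2 ≤ 1 := by linarith
  obtain ⟨D, g0, hDo, hDne, hDU, hDb, hgD0, hg10, hge0, hvD⟩ := hlow U hU hUne hUv (θ / r)
    (by positivity) hε1 (4 * (m * a)) (by positivity) (by
      have h1 : (4 * ((m : ℝ) * a)) ^ 2 * lam U ≤ 1 * ((c0 + 1) / r ^ 2) := by
        have : (4 * ((m : ℝ) * a)) ^ 2 ≤ 1 := by
          calc (4 * ((m : ℝ) * a)) ^ 2 = 16 * ((m : ℝ) * a) ^ 2 := by ring
            _ ≤ 1 := h16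
        gcongr
      have h2 : (c0 + 1) / r ^ 2 ≤ c1 := by
        rw [div_le_iff₀ hc1] at hrc
        rw [div_le_iff₀ (by positivity)]
        nlinarith
      linarith)
  have hlamD : lam D ≤ lam U * (1 + CL * (θ / r)) := by
    have h1 := lam_mul_le hgD0
    rw [hg10, mul_one] at h1
    linarith
  have hlamD0 := lam_nonneg D
  set vN := vol (Metric.cthickening (4 * (m * a)) D) with hvN
  have hvN0 : 0 ≤ vN := ENNReal.toReal_nonneg
  -- near optimality of `D`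
  have hmain : r ^ 4 * lam D + vN ≤ c0 * r ^ 2 + δ1 * r := by
    have e1 : r ^ 4 * lam D ≤ r ^ 4 * lam U + δ1 / 4 * r := by
      have h1 : r ^ 4 * (lam U * (CL * (θ / r))) ≤
          r ^ 4 * ((c0 + 1) / r ^ 2 * (CL * (θ / r))) := by gcongr
      have h2 : r ^ 4 * ((c0 + 1) / r ^ 2 * (CL * (θ / r))) = δ1 / 4 * r := by
        rw [hθ]; field_simp
      calc r ^ 4 * lam D ≤ r ^ 4 * (lam U * (1 + CL * (θ / r))) := by gcongr
        _ = r ^ 4 * lam U + r ^ 4 * (lam U * (CL * (θ / r))) := by ring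
        _ ≤ _ := by linarith
    have e2 : vN ≤ vol U + δ1 / 4 * r := by
      have h1 : CL * (4 * ((m : ℝ) * a)) ^ 2 * (lam U * vol U) ^ (5 / 4 : ℝ) / (θ / r) ≤
          CL * (16 * (θ * δ1 / (64 * CL * K1))) * K1 / (θ / r) := by
        have h3 : (4 * ((m : ℝ) * a)) ^ 2 ≤ 16 * (θ * δ1 / (64 * CL * K1)) := by
          calc (4 * ((m : ℝ) * a)) ^ 2 = 16 * ((m : ℝ) * a) ^ 2 := by ring
            _ ≤ _ := by linarith
        gcongr
      have h2 : CL * (16 * (θ * δ1 / (64 * CL * K1))) * K1 / (θ / r) = δ1 / 4 * r := by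
        field_simp; norm_num
      linarith
    have e3 : (1 : ℝ) ≤ δ1 / 4 * r := by
      rw [div_le_iff₀ hδ10] at hrδ
      linarith
    linarith only [e1, e2, e3, hUle, hδ10, hrpos, mul_pos hδ10 hrpos]
  obtain ⟨η1, hη1, hlay'⟩ := hlay r hrr0 (m * a) hma0 D hDo hDne hDb (by
    refine hmain.trans ?_
    gcongr)
  obtain ⟨η2, hη2, hdrop'⟩ := hdrop m a hm200 ha h16 D hDo hDne hDb t ht
  obtain ⟨g, hgD, hg1, hge⟩ := exists_near hDo hDne (lt_min hη1 hη2)
  have hge1 : en g ≤ lam D + η1 := by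
    have := min_le_left η1 η2
    linarith
  have hge2 : en g ≤ lam D + η2 := by
    have := min_le_right η1 η2
    linarith
  have hA := hlay' g hgD hg1 hge1
  set A : Set Pl := {p | p ∈ D ∧
    ∫ q in Metric.closedBall p (2 * (m * a)), g q ^ 2 ≤ 180 * σ ^ 2 / r ^ 4 * (m * a) ^ 2} with hAdef
  have hvN2 : vN ≤ (c0 + 1) * r ^ 2 := by
    have h1 : 0 ≤ r ^ 4 * lam D := by positivity
    have h2 : δ1 * r ≤ 1 * r ^ 2 := by gcongr
    linarith only [h1, h2, hmain]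
  have hfinal := hdrop' g hgD hg1 hge2 (180 * σ ^ 2 / r ^ 4) (by positivity) (by
      rw [← hvN]
      calc 180 * σ ^ 2 / r ^ 4 * vN ≤ 180 * σ ^ 2 / r ^ 4 * ((c0 + 1) * r ^ 2) := by gcongr
        _ = 180 * σ ^ 2 * (c0 + 1) / r ^ 2 := by field_simp
        _ ≤ 1 / 2 := by
          rw [div_le_iff₀ (by positivity)]
          have : 0 < σ ^ 2 := by positivity
          nlinarith) (by
      rw [← hr4]
      have h1 : r ^ 4 + 2 ≤ 3 * r ^ 4 := by
        have : (1 : ℝ) ≤ r ^ 4 := one_le_pow₀ hr1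
        linarith
      calc CD * (r ^ 4 + 2) * (180 * σ ^ 2 / r ^ 4) ≤
          CD * (3 * r ^ 4) * (180 * σ ^ 2 / r ^ 4) := by gcongr
        _ = 540 * CD * σ ^ 2 := by field_simp; ring
        _ = Real.log m / 2 := by rw [hσ2]; field_simp; ring
        _ ≤ _ := le_rfl) A (fun p hp => hp.1)
      (measurable_layer hgD.smooth.continuous hDo _ _) (fun p hp => hp.2) Ω P X Y h
  rw [← hvN, ← hr4] at hfinal
  have hspos := surv_pos h one_pos ha t
  -- the factor `vol D`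
  have hvD1 : vol D ≤ Real.exp ((c0 + 1) + (1 / ζ) ^ 2 + c7 / 16 * r) := by
    have hDN : vol D ≤ vN := ENNReal.toReal_mono (hDb.cthickening).measure_lt_top.ne
      (measure_mono (Metric.self_subset_cthickening _))
    have h3 : c0 + 1 ≤ Real.exp (c0 + 1) := by
      have := Real.add_one_le_exp (c0 + 1)
      linarith
    have h4 := sq_le_exp (r := ζ * r) (by positivity)
    have h5 : (1 / ζ) ^ 2 ≤ Real.exp ((1 / ζ) ^ 2) := by
      have := Real.add_one_le_exp ((1 / ζ) ^ 2)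
      linarith
    have h6 : r ^ 2 = (1 / ζ) ^ 2 * (ζ * r) ^ 2 := by field_simp
    have h7 : Real.exp ((c0 + 1) + (1 / ζ) ^ 2 + c7 / 16 * r) =
        Real.exp (c0 + 1) * (Real.exp ((1 / ζ) ^ 2) * Real.exp (2 * (ζ * r))) := by
      rw [← Real.exp_add, ← Real.exp_add]
      congr 1
      rw [hζ]
      ring
    rw [h7]
    calc vol D ≤ (c0 + 1) * r ^ 2 := hDN.trans hvN2
      _ = (c0 + 1) * ((1 / ζ) ^ 2 * (ζ * r) ^ 2) := by rw [← h6]
      _ ≤ _ := by gcongr
  have hfin : Real.exp (-vN - (r ^ 4 + 2) * lam D + vol A / 2 - 1 -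
      ((c0 + 1) + (1 / ζ) ^ 2 + c7 / 16 * r)) ≤ surv P X Y 1 a t := by
    rw [Real.exp_sub, div_le_iff₀ (Real.exp_pos _), mul_comm (surv P X Y 1 a t)]
    exact hfinal.trans (by gcongr)
  refine le_trans (Real.exp_le_exp.mpr ?_) hfin
  have g1 : lam D ≤ c0 + 1 := by
    have h1 : r ^ 4 * lam D ≤ r ^ 4 * (c0 + 1) := by
      have h2 : δ1 * r ≤ 1 * r ^ 2 := by gcongr
      have h3 : r ^ 2 ≤ r ^ 4 := pow_le_pow_right₀ hr1 (by norm_num)
      have h4 : (c0 + 1) * r ^ 2 ≤ (c0 + 1) * r ^ 4 := by gcongr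
      linarith only [hmain, h2, h4, hvN0]
    exact le_of_mul_le_mul_left h1 (by positivity)
  have g2 : δ1 * r ≤ c7 / 8 * (σ * r) := by
    calc δ1 * r ≤ c7 / 8 * r := by gcongr
      _ = c7 / 8 * (1 * r) := by ring
      _ ≤ _ := by gcongr
  have g3 : c7 / 16 * r ≤ c7 / 16 * (σ * r) := by
    calc c7 / 16 * r = c7 / 16 * (1 * r) := by ring
      _ ≤ _ := by gcongr
  have g4 : K2 ≤ c7 / 16 * (σ * r) := by
    rw [div_le_iff₀ hc7] at hrK
    have : K2 ≤ c7 / 16 * r := by linarith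
    linarith
  have g5 : c7 / 4 * √(1 / (2160 * CD)) * √(Real.log (1 / a)) * r ≤ c7 / 4 * (σ * r) := by
    calc c7 / 4 * √(1 / (2160 * CD)) * √(Real.log (1 / a)) * r =
        c7 / 4 * ((√(1 / (2160 * CD)) * √(Real.log (1 / a))) * r) := by ring
      _ ≤ _ := by gcongr
  have g6 : (r ^ 4 + 2) * lam D = r ^ 4 * lam D + 2 * lam D := by ring
  have g7 : c7 * σ * r = c7 * (σ * r) := by ring
  rw [g7] at hA
  rw [g6]
  linarith only [hmain, g1, g2, g3, g4, g5, hA, hK2]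

end Pool.Agent.BSs
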