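import Pool.Agent.BSs.Upper2
import Pool.Agent.BSs.Lower2
import Pool.Agent.BSs.Small
import Pool.Agent.BSv.Main

/-!
# Size and sign of the surface term (helper98)
-/

open MeasureTheory Set Filter Topology ProbabilityTheory Pool.Agent.BSv
open scoped ENNReal NNReal ContDiff

noncomputable section

namespace Pool.Agent.BSs

/-- scaling: the quantities for `(ν, b h)` at time `t` are those for `(ν h², b)` at time `t / h²` -/
theorem scaling {ν b : ℝ} (hν : 0 < ν) {h : ℝ≥0} (hh : 0 < h) {Ω : Type}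
    [MeasurableSpace Ω] {P : Measure Ω} {X Y : ℝ≥0 → Ω → ℝ} (hP : PBM P X Y) (t : ℝ≥0) :
    ∃ X' Y' : ℝ≥0 → Ω → ℝ, PBM P X' Y' ∧
      surv P X' Y' (ν * (h : ℝ) ^ 2) b (t / h ^ 2) = surv P X Y ν (b * h) t ∧
      cst (ν * (h : ℝ) ^ 2) * √((t / h ^ 2 : ℝ≥0) : ℝ) = cst ν * √(t : ℝ) := by
  have hposR : (0 : ℝ) < h := by exact_mod_cast hh
  refine ⟨_, _, hP.scale hh, ?_, ?_⟩
  · have heq : h ^ 2 * (t / h ^ 2) = t := by field_simp
    have := surv_scale (P := P) X Y hh ν b (t / h ^ 2)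
    rw [heq] at this
    exact this
  · have hcoe : ((t / h ^ 2 : ℝ≥0) : ℝ) = (t : ℝ) * ((h : ℝ) ^ 2)⁻¹ := by
      push_cast; rw [div_eq_mul_inv]
    rw [cst_scale hν hposR, hcoe, Real.sqrt_mul (by positivity), Real.sqrt_inv,
      Real.sqrt_sq hposR.le]
    field_simp

/-- the surface quantity after scaling -/
theorem surface_scale {ν a m x : ℝ} (hν : 0 < ν) (ha : 0 < a) (hm : 0 < m) (hx : 0 ≤ x)
    (h : m ^ 8 = ν * (a / 2) ^ 2) :
    m ^ 6 * (x / (a / 2) ^ 2) ^ (1 / 4 : ℝ) = 1 / 2 * (√(ν * a ^ 2) * (ν * x) ^ (1 / 4 : ℝ)) := by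
  have h4 : ∀ y : ℝ, 0 ≤ y → (y ^ (1 / 4 : ℝ)) ^ 4 = y := by
    intro y hy
    rw [← Real.rpow_natCast, ← Real.rpow_mul hy]
    norm_num
  have e1 : (m ^ 6 * (x / (a / 2) ^ 2) ^ (1 / 4 : ℝ)) ^ 4 =
      (1 / 2 * (√(ν * a ^ 2) * (ν * x) ^ (1 / 4 : ℝ))) ^ 4 := by
    rw [mul_pow, mul_pow, mul_pow, h4 _ (by positivity), h4 _ (by positivity)]
    have e2 : √(ν * a ^ 2) ^ 4 = (ν * a ^ 2) ^ 2 := by
      rw [show (4 : ℕ) = 2 * 2 by norm_num, pow_mul, Real.sq_sqrt (by positivity)]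
    have e3 : (m ^ 6) ^ 4 = (m ^ 8) ^ 3 := by ring
    rw [e2, e3, h]
    field_simp
  exact (pow_left_inj₀ (by positivity) (by positivity) (by norm_num)).mp e1

/-- the three estimates in terms of the survival probability -/
theorem main2 : ∃ c C K : ℝ, 0 < c ∧ 0 < C ∧ 1 ≤ K ∧ ∀ ν a : ℝ, 0 < ν → 0 < a →
    ∃ t0 : ℝ≥0, ∀ (Ω : Type) [MeasurableSpace Ω] (P : Measure Ω) (X Y : ℝ≥0 → Ω → ℝ),
      PBM P X Y → ∀ t : ℝ≥0, t0 ≤ t →
      (K ≤ ν * a ^ 2 →
        -(C * √(ν * a ^ 2) * (ν * t) ^ (1 / 4 : ℝ)) ≤ Real.log (surv P X Y ν a t) + cst ν * √t ∧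
        Real.log (surv P X Y ν a t) + cst ν * √t ≤ -(c * √(ν * a ^ 2) * (ν * t) ^ (1 / 4 : ℝ))) ∧
      (ν * a ^ 2 ≤ 1 / K →
        c * √(Real.log (1 / (ν * a ^ 2))) * (ν * t) ^ (1 / 4 : ℝ) ≤
          Real.log (surv P X Y ν a t) + cst ν * √t) := by
  obtain ⟨m0, c2, hm01, hc2, hup⟩ := upper2
  obtain ⟨C2, hC2, hlo⟩ := lower2
  obtain ⟨a0, c', ha0, ha01, hc', hsm⟩ := small
  set c : ℝ := min (c2 / 2) (c' * √(1 / 2)) with hc
  have hc0 : 0 < c := lt_min (by positivity) (by positivity)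
  set K : ℝ := max (4 * m0 ^ 8) (1 / a0 ^ 2) with hK
  have hK1 : 1 ≤ K := by
    have h1 : (1 : ℝ) ≤ m0 ^ 8 := one_le_pow₀ hm01
    have h2 : 4 * m0 ^ 8 ≤ K := le_max_left _ _
    linarith
  have hK0 : 0 < K := by linarith
  refine ⟨c, C2 / 2, K, hc0, by positivity, hK1, ?_⟩
  intro ν a hν ha
  have hκ : 0 < ν * a ^ 2 := by positivity
  by_cases hcase : K ≤ ν * a ^ 2
  · -- large
    set h : ℝ≥0 := ⟨a / 2, by positivity⟩ with hh
    have hval : (h : ℝ) = a / 2 := rfl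
    have hposR : (0 : ℝ) < h := by rw [hval]; positivity
    have hpos : 0 < h := by exact_mod_cast hposR
    set m : ℝ := (ν * (a / 2) ^ 2) ^ (1 / 8 : ℝ) with hm
    have hm0 : 0 < m := by positivity
    have hm8 : m ^ 8 = ν * (a / 2) ^ 2 := by
      rw [hm, ← Real.rpow_natCast, ← Real.rpow_mul (by positivity)]
      norm_num
    have hmm : m0 ≤ m := by
      have h1 : m0 ^ 8 ≤ m ^ 8 := by
        have h2 : 4 * m0 ^ 8 ≤ K := le_max_left _ _
        rw [hm8]
        nlinarith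
      exact (pow_le_pow_iff_left₀ (by linarith) hm0.le (by norm_num)).mp h1
    obtain ⟨r1, hr1, hup'⟩ := hup m hmm
    obtain ⟨r2, hr2, hlo'⟩ := hlo m (hm01.trans hmm)
    set R : ℝ := max r1 r2 with hR
    have hR1 : 1 ≤ R := hr1.trans (le_max_left _ _)
    set Rn : ℝ≥0 := ⟨R, by linarith⟩ with hRn
    have hRnv : (Rn : ℝ) = R := rfl
    have hRn1 : 1 ≤ Rn := by
      rw [← NNReal.coe_le_coe, hRnv]; exact_mod_cast hR1
    refine ⟨h ^ 2 * Rn ^ 4, ?_⟩
    intro Ω _ P X Y hP t ht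
    obtain ⟨X', Y', hP', hs, hcs⟩ := scaling (b := 2) hν hpos hP t
    have h2h : (2 : ℝ) * h = a := by rw [hval]; ring
    rw [h2h] at hs
    have hνh : ν * (h : ℝ) ^ 2 = m ^ 8 := by rw [hm8, hval]
    rw [hνh] at hs hcs
    have ht' : Rn ^ 4 ≤ t / h ^ 2 := by
      rw [le_div_iff₀ (by positivity), mul_comm]
      exact ht
    have ht'1 : 1 ≤ t / h ^ 2 := (one_le_pow₀ hRn1).trans ht'
    have ht'R : R ≤ ((t / h ^ 2 : ℝ≥0) : ℝ) ^ (1 / 4 : ℝ) := by
      have h1 : R ^ 4 ≤ ((t / h ^ 2 : ℝ≥0) : ℝ) := by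
        have := NNReal.coe_le_coe.mpr ht'
        rw [NNReal.coe_pow, hRnv] at this
        exact this
      have h2 : (R ^ 4) ^ (1 / 4 : ℝ) = R := by
        rw [← Real.rpow_natCast, ← Real.rpow_mul (by linarith)]
        norm_num
      rw [← h2]
      exact Real.rpow_le_rpow (by positivity) h1 (by norm_num)
    have hU := hup' Ω P X' Y' hP' (t / h ^ 2) ht'1 ((le_max_left _ _).trans ht'R)
    have hL := hlo' Ω P X' Y' hP' (t / h ^ 2) ht'1 ((le_max_right _ _).trans ht'R)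
    rw [hs] at hU hL
    have hcoe : ((t / h ^ 2 : ℝ≥0) : ℝ) = (t : ℝ) / (a / 2) ^ 2 := by
      push_cast; rw [hval]
    have hsc := surface_scale (x := (t : ℝ)) hν ha hm0 t.2 hm8
    rw [← hcoe] at hsc
    set Q : ℝ := √(ν * a ^ 2) * (ν * t) ^ (1 / 4 : ℝ) with hQ
    have hQ0 : 0 ≤ Q := by positivity
    have hspos := surv_pos hP hν ha t
    rw [neg_mul, hcs, mul_assoc, hsc] at hU hL
    have hU' := (Real.log_le_log hspos hU).trans_eq (Real.log_exp _)
    have hL' := (Real.log_exp _).symm.trans_le (Real.log_le_log (Real.exp_pos _) hL)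
    have hcQ : c * Q ≤ c2 / 2 * Q := by
      gcongr
      exact min_le_left _ _
    refine ⟨fun _ => ⟨?_, ?_⟩, ?_⟩
    · have : C2 / 2 * √(ν * a ^ 2) * (ν * t) ^ (1 / 4 : ℝ) = C2 * (1 / 2 * Q) := by
        rw [hQ]; ring
      rw [this]
      linarith
    · have : c * √(ν * a ^ 2) * (ν * t) ^ (1 / 4 : ℝ) = c * Q := by
        rw [hQ]; ring
      rw [this]
      linarith
    · intro hsmall
      have h1 : 1 / K ≤ K := by
        rw [div_le_iff₀ hK0]
        nlinarith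
      -- `ν a² = K = 1`, the left side is zero; impossible since `K ≥ 4`
      exfalso
      have h2 : 4 ≤ K := by
        have h1 : (1 : ℝ) ≤ m0 ^ 8 := one_le_pow₀ hm01
        have h2 : 4 * m0 ^ 8 ≤ K := le_max_left _ _
        linarith
      have h3 : 1 / K ≤ 1 / 4 := by
        apply one_div_le_one_div_of_le (by norm_num) h2
      linarith
  · by_cases hcase2 : ν * a ^ 2 ≤ 1 / K
    · -- small
      set h : ℝ≥0 := ⟨(√ν)⁻¹, by positivity⟩ with hh
      have hval : (h : ℝ) = (√ν)⁻¹ := rfl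
      have hposR : (0 : ℝ) < h := by rw [hval]; positivity
      have hpos : 0 < h := by exact_mod_cast hposR
      have hνh : ν * (h : ℝ) ^ 2 = 1 := by
        rw [hval, inv_pow, Real.sq_sqrt hν.le]
        field_simp
      set b : ℝ := a * √ν with hb
      have hb0 : 0 < b := by positivity
      have hbh : b * h = a := by
        rw [hval, hb]
        have : √ν ≠ 0 := (Real.sqrt_pos.mpr hν).ne'
        field_simp
      have hb2 : b ^ 2 = ν * a ^ 2 := by
        rw [hb, mul_pow, Real.sq_sqrt hν.le]; ring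
      have hba : b ≤ a0 := by
        have h1 : b ^ 2 ≤ a0 ^ 2 := by
          rw [hb2]
          refine hcase2.trans ?_
          have h2 : 1 / a0 ^ 2 ≤ K := le_max_right _ _
          rw [div_le_iff₀ hK0]
          rw [div_le_iff₀ (by positivity)] at h2
          linarith
        exact (pow_le_pow_iff_left₀ hb0.le ha0.le (by norm_num)).mp h1
      obtain ⟨r1, hr1, hsm'⟩ := hsm b hb0 hba
      set Rn : ℝ≥0 := ⟨r1, by linarith⟩ with hRn
      have hRnv : (Rn : ℝ) = r1 := rfl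
      have hRn1 : 1 ≤ Rn := by
        rw [← NNReal.coe_le_coe, hRnv]; exact_mod_cast hr1
      refine ⟨h ^ 2 * Rn ^ 4, ?_⟩
      intro Ω _ P X Y hP t ht
      refine ⟨fun h => absurd h hcase, fun _ => ?_⟩
      obtain ⟨X', Y', hP', hs, hcs⟩ := scaling (b := b) hν hpos hP t
      rw [hbh, hνh] at hs
      rw [hνh] at hcs
      have ht' : Rn ^ 4 ≤ t / h ^ 2 := by
        rw [le_div_iff₀ (by positivity), mul_comm]
        exact ht
      have ht'1 : 1 ≤ t / h ^ 2 := (one_le_pow₀ hRn1).trans ht'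
      have ht'R : r1 ≤ ((t / h ^ 2 : ℝ≥0) : ℝ) ^ (1 / 4 : ℝ) := by
        have h1 : r1 ^ 4 ≤ ((t / h ^ 2 : ℝ≥0) : ℝ) := by
          have := NNReal.coe_le_coe.mpr ht'
          rw [NNReal.coe_pow, hRnv] at this
          exact this
        have h2 : (r1 ^ 4) ^ (1 / 4 : ℝ) = r1 := by
          rw [← Real.rpow_natCast, ← Real.rpow_mul (by linarith)]
          norm_num
        rw [← h2]
        exact Real.rpow_le_rpow (by positivity) h1 (by norm_num)
      have hL := hsm' Ω P X' Y' hP' (t / h ^ 2) ht'1 ht'R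
      rw [hs] at hL
      have hcoe : ((t / h ^ 2 : ℝ≥0) : ℝ) = ν * t := by
        push_cast
        rw [hval, inv_pow, Real.sq_sqrt hν.le]
        field_simp
      rw [neg_mul, hcs, hcoe] at hL
      have hL' := (Real.log_exp _).symm.trans_le (Real.log_le_log (Real.exp_pos _) hL)
      have hlog : Real.log (1 / b) = 1 / 2 * Real.log (1 / (ν * a ^ 2)) := by
        have h9 : (1 : ℝ) / b ^ 2 = (1 / b) ^ 2 := by
          rw [div_pow, one_pow]
        rw [← hb2, h9, Real.log_pow]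
        push_cast
        ring
      rw [hlog, Real.sqrt_mul (by norm_num)] at hL'
      have hcc : c * √(Real.log (1 / (ν * a ^ 2))) * (ν * t) ^ (1 / 4 : ℝ) ≤
          c' * (√(1 / 2) * √(Real.log (1 / (ν * a ^ 2)))) * (ν * t) ^ (1 / 4 : ℝ) := by
        have h1 : c ≤ c' * √(1 / 2) := min_le_right _ _
        calc c * √(Real.log (1 / (ν * a ^ 2))) * (ν * t) ^ (1 / 4 : ℝ) ≤
            (c' * √(1 / 2)) * √(Real.log (1 / (ν * a ^ 2))) * (ν * t) ^ (1 / 4 : ℝ) := by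
              gcongr
          _ = _ := by ring
      linarith
    · exact ⟨0, fun Ω _ P X Y hP t ht => ⟨fun h => absurd h hcase, fun h => absurd h hcase2⟩⟩

end Pool.Agent.BSs
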