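import Pool.Agent.BSs.Dil
import Pool.Agent.BSv.Fam

/-!
# Fine cells of side 1/5 (helper98)
-/

open MeasureTheory Set Filter Topology Pool.Agent.BSv
open scoped ENNReal NNReal ContDiff

noncomputable section

namespace Pool.Agent.BSs

/-- the fine cell with index `d` -/
def fcell (d : ℤ × ℤ) : Set Pl := Pool.Agent.BSv.sq ((d.1 : ℝ) / 5) ((d.2 : ℝ) / 5) (1 / 5)

theorem mem_fcell {d : ℤ × ℤ} {p : Pl} : p ∈ fcell d ↔
    ((d.1 : ℝ) / 5 ≤ p.1 ∧ p.1 ≤ (d.1 : ℝ) / 5 + 1 / 5) ∧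
      ((d.2 : ℝ) / 5 ≤ p.2 ∧ p.2 ≤ (d.2 : ℝ) / 5 + 1 / 5) := by
  unfold fcell Pool.Agent.BSv.sq
  rw [Set.mem_prod, Set.mem_Icc, Set.mem_Icc]

theorem vol_fcells (F : Finset (ℤ × ℤ)) :
    volume (⋃ d ∈ F, fcell d) = ENNReal.ofReal ((F.card : ℝ) / 25) := by
  have h1 : (⋃ d ∈ F, fcell d) = (fun p : Pl => (5 : ℝ) • p) ⁻¹' cells F := by
    ext p
    unfold cells
    rw [Set.mem_preimage, Set.mem_iUnion₂, Set.mem_iUnion₂]
    have h2 : ∀ c : ℤ × ℤ, p ∈ fcell c ↔ (5 : ℝ) • p ∈ cell c := by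
      intro c
      rw [mem_fcell]
      unfold cell Pool.Agent.BSv.sq
      rw [Set.mem_prod, Set.mem_Icc, Set.mem_Icc]
      have e1 : ((5 : ℝ) • p).1 = 5 * p.1 := rfl
      have e2 : ((5 : ℝ) • p).2 = 5 * p.2 := rfl
      rw [e1, e2]
      constructor
      · rintro ⟨⟨h1, h2⟩, ⟨h3, h4⟩⟩
        refine ⟨⟨?_, ?_⟩, ⟨?_, ?_⟩⟩ <;> linarith
      · rintro ⟨⟨h1, h2⟩, ⟨h3, h4⟩⟩
        refine ⟨⟨?_, ?_⟩, ⟨?_, ?_⟩⟩ <;> linarith
    constructor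
    · rintro ⟨c, hc, hp⟩
      exact ⟨c, hc, (h2 c).mp hp⟩
    · rintro ⟨c, hc, hp⟩
      exact ⟨c, hc, (h2 c).mpr hp⟩
  rw [h1, volume_pre (by norm_num)]
  have h3 : volume (cells F) = ENNReal.ofReal F.card := by
    rw [← (vol_cells F).2]
    exact (ENNReal.ofReal_toReal (vol_cells F).1).symm
  rw [h3, ← ENNReal.ofReal_mul (by positivity)]
  congr 1
  norm_num
  ring

end Pool.Agent.BSs
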