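import Pool.Agent.BSs.Slice
import Pool.Agent.BSs.Fine
import Pool.Agent.BSv.Hit

/-!
# Module HIT2: fine cells covered by the sausage, and the union bound

As module Hit (file Pool/Agent/BSv/Hit.lean, helper74), with fine cells `sq (d1/5) (d2/5) (1/5)`.
`H` = unit cells hit by the path up to `t` (finite).  For `c ∈ H`, `z s ∈ cell c`: the square
`[c1 - 2/5, c1 + 7/5] × [c2 - 2/5, c2 + 7/5]` is contained in the closed Euclidean disc of radius `2` about
`z s` (sup distance at most `7/5`, `7/5 · √2 < 2`).  So the fine cells of `fat H` are contained in the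
sausage: `volume (swp z 2 t) ≥ |fat H|/25 ≥ |H|`.  If `|H| > N` the first term suffices.  If `|H| ≤ N`
then `H ⊆ box N` (as in module Hit), `fat H ⊆ fat (box N)`, with `q = exp (-ν/25)`:
`exp (-ν |W|) ≤ q^|fat H| = ∑_{fat H ⊆ Vh ⊆ fat (box N)} q^|Vh| (1-q)^(…)` (`sum_weights`), and `fat H ⊆ Vh`
implies `H ⊆ core Vh`, so the path stays in `cells (core Vh)`.
-/

open MeasureTheory Set Filter Topology Pool.Agent.BSv
open scoped ENNReal NNReal ContDiff

noncomputable section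

namespace Pool.Agent.BSs

/-- unit cells whose 2/5-neighbourhood is contained in the fine cells of `Vh` -/
def core (Vh : Finset (ℤ × ℤ)) : Finset (ℤ × ℤ) :=
  (Vh.image fun d => (d.1 / 5, d.2 / 5)).filter fun c => fat {c} ⊆ Vh

theorem mem_core {Vh : Finset (ℤ × ℤ)} {c : ℤ × ℤ} : c ∈ core Vh ↔ fat {c} ⊆ Vh := by
  unfold core
  rw [Finset.mem_filter]
  refine ⟨fun h => h.2, fun h => ⟨?_, h⟩⟩
  rw [Finset.mem_image]
  refine ⟨(5 * c.1, 5 * c.2), h ?_, ?_⟩
  · unfold fat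
    rw [Finset.mem_biUnion]
    refine ⟨c, Finset.mem_singleton_self c, ?_⟩
    rw [Finset.mem_product, Finset.mem_Ico, Finset.mem_Ico]
    refine ⟨⟨?_, ?_⟩, ⟨?_, ?_⟩⟩ <;> simp only <;> omega
  · apply Prod.ext
    · simp only; omega
    · simp only; omega

theorem fat_subset {Vh T : Finset (ℤ × ℤ)} : fat T ⊆ Vh ↔ T ⊆ core Vh := by
  constructor
  · intro h c hc
    rw [mem_core]
    exact (fat_mono (Finset.singleton_subset_iff.mpr hc)).trans h
  · intro h d hd
    unfold fat at hd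
    rw [Finset.mem_biUnion] at hd
    obtain ⟨c, hc, hd⟩ := hd
    have h1 := mem_core.mp (h hc)
    apply h1
    unfold fat
    rw [Finset.mem_biUnion]
    exact ⟨c, Finset.mem_singleton_self c, hd⟩

theorem card_core_le (Vh : Finset (ℤ × ℤ)) : (core Vh).card ≤ Vh.card := by
  unfold core
  exact (Finset.card_filter_le _ _).trans Finset.card_image_le

theorem card_fat_box (N : ℕ) : ((fat (box N)).card : ℝ) ≤ (10 * (N : ℝ) + 20) ^ 2 := by
  have h1 : fat (box N) ⊆ Finset.Icc (-(5 * N : ℤ) - 7) (5 * N + 12) ×ˢ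
      Finset.Icc (-(5 * N : ℤ) - 7) (5 * N + 12) := by
    intro d hd
    unfold fat box at hd
    rw [Finset.mem_biUnion] at hd
    obtain ⟨c, hc, hd⟩ := hd
    rw [Finset.mem_product, Finset.mem_Icc, Finset.mem_Icc] at hc
    rw [Finset.mem_product, Finset.mem_Ico, Finset.mem_Ico] at hd
    rw [Finset.mem_product, Finset.mem_Icc, Finset.mem_Icc]
    refine ⟨⟨?_, ?_⟩, ⟨?_, ?_⟩⟩ <;> omega
  have h2 := Finset.card_le_card h1
  rw [Finset.card_product, Int.card_Icc] at h2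
  have h3 : ((5 * N : ℤ) + 12 + 1 - (-(5 * N : ℤ) - 7)).toNat = 10 * N + 20 := by omega
  rw [h3] at h2
  have h4 : ((fat (box N)).card : ℝ) ≤ ((10 * N + 20) * (10 * N + 20) : ℕ) := by exact_mod_cast h2
  refine h4.trans (le_of_eq ?_)
  push_cast
  ring

private lemma hit2_mem_cell {c : ℤ × ℤ} {p : Pl} :
    p ∈ cell c ↔ ((c.1 : ℝ) ≤ p.1 ∧ p.1 ≤ (c.1 : ℝ) + 1) ∧
      ((c.2 : ℝ) ≤ p.2 ∧ p.2 ≤ (c.2 : ℝ) + 1) := by
  unfold cell Pool.Agent.BSv.sq
  rw [Set.mem_prod, Set.mem_Icc, Set.mem_Icc]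

/-- volume of a set in the plane which is contained in the sausage -/
private lemma hit2_volume {S : Set E2} {A : Set Pl}
    (h : ∀ x : E2, ((x 0, x 1) : Pl) ∈ A → x ∈ S) : volume A ≤ volume S := by
  obtain ⟨e, he⟩ : ∃ e : E2 ≃ᵐ Pl,
      e = (MeasurableEquiv.toLp 2 (Fin 2 → ℝ)).symm.trans MeasurableEquiv.finTwoArrow := ⟨_, rfl⟩
  have hmp : MeasurePreserving e volume volume := by
    rw [he]
    exact (EuclideanSpace.volume_preserving_symm_measurableEquiv_toLp (Fin 2)).trans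
      (volume_preserving_finTwoArrow ℝ)
  rw [← hmp.measure_preimage_equiv A]
  apply measure_mono
  intro x hx
  apply h
  rw [he] at hx
  exact hx

private lemma hit2_count {H : Finset (ℤ × ℤ)} (pr : ℤ × ℤ → ℤ) {N : ℕ} (hN : H.card ≤ N)
    (f : ℕ → ℤ) (hf : Function.Injective f) (h : ∀ m ≤ N, ∃ c ∈ H, pr c = f m) : False := by
  classical
  have h1 : (Finset.range (N + 1)).image f ⊆ H.image pr := by
    intro y hy
    rw [Finset.mem_image] at hy ⊢
    obtain ⟨m, hm, rfl⟩ := hy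
    rw [Finset.mem_range] at hm
    obtain ⟨c, hc, hcm⟩ := h m (by omega)
    exact ⟨c, hc, hcm⟩
  have h2 := Finset.card_le_card h1
  rw [Finset.card_image_of_injective _ hf, Finset.card_range] at h2
  have h3 := Finset.card_image_le (s := H) (f := pr)
  omega

private lemma hit2_ivt {φ : ℝ≥0 → ℝ} (hφ : Continuous φ) (h0 : φ 0 = 0) {s : ℝ≥0} {y : ℝ}
    (hy : y ∈ uIcc 0 (φ s)) : ∃ s' ≤ s, φ s' = y := by
  have h1 := intermediate_value_uIcc (f := φ) (a := 0) (b := s) hφ.continuousOn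
  rw [h0] at h1
  obtain ⟨s', hs', h2⟩ := h1 hy
  rw [uIcc_of_le (show (0 : ℝ≥0) ≤ s from bot_le)] at hs'
  exact ⟨s', hs'.2, h2⟩

private lemma hit2_bound {φ : ℝ≥0 → ℝ} (hφ : Continuous φ) (h0 : φ 0 = 0) {t : ℝ≥0}
    {H : Finset (ℤ × ℤ)} (pr : ℤ × ℤ → ℤ) {N : ℕ} (hN : H.card ≤ N)
    (h : ∀ s ≤ t, ∃ c ∈ H, pr c = ⌊φ s⌋) {s : ℝ≥0} (hs : s ≤ t) :
    -((N : ℝ) + 1) < φ s ∧ φ s < (N : ℝ) + 1 := by
  constructor
  · by_contra hlt
    rw [not_lt] at hlt
    apply hit2_count pr hN (fun m : ℕ => -(m : ℤ) - 1) (by intro a b hab; simp only at hab; omega)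
    intro m hm
    have hm' : (m : ℝ) ≤ N := by exact_mod_cast hm
    obtain ⟨s', hs', h1⟩ := hit2_ivt hφ h0 (s := s) (y := -(m : ℝ) - 1 / 2) (by
      rw [Set.uIcc_of_ge (by linarith)]
      constructor
      · linarith
      · have : (0 : ℝ) ≤ m := Nat.cast_nonneg m
        linarith)
    obtain ⟨c, hc, hc2⟩ := h s' (hs'.trans hs)
    refine ⟨c, hc, ?_⟩
    rw [hc2, h1, Int.floor_eq_iff]
    push_cast
    constructor <;> linarith
  · by_contra hlt
    rw [not_lt] at hlt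
    apply hit2_count pr hN (fun m : ℕ => (m : ℤ)) (by intro a b hab; simp only at hab; omega)
    intro m hm
    have hm' : (m : ℝ) ≤ N := by exact_mod_cast hm
    obtain ⟨s', hs', h1⟩ := hit2_ivt hφ h0 (s := s) (y := (m : ℝ) + 1 / 2) (by
      rw [Set.uIcc_of_le (by linarith)]
      constructor
      · have : (0 : ℝ) ≤ m := Nat.cast_nonneg m
        linarith
      · linarith)
    obtain ⟨c, hc, hc2⟩ := h s' (hs'.trans hs)
    refine ⟨c, hc, ?_⟩
    rw [hc2, h1, Int.floor_eq_iff]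
    push_cast
    constructor <;> linarith

open Classical in
theorem hit2 {z : ℝ≥0 → Pl} (hz : Continuous z) (h0 : z 0 = 0) {ν : ℝ} (hν : 0 < ν) (t : ℝ≥0)
    (N : ℕ) :
    Real.exp (-ν * (volume (swp z 2 t)).toReal) ≤ Real.exp (-ν * N) +
      ∑ Vh ∈ (fat (box N)).powerset, if ∀ s ≤ t, z s ∈ cells (core Vh) then
        Real.exp (-(ν / 25)) ^ Vh.card *
          (1 - Real.exp (-(ν / 25))) ^ ((fat (box N)).card - Vh.card) else 0 := by
  -- the path is bounded
  have hK : IsCompact (Set.Iic t) := by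
    rw [← Set.Icc_bot]
    exact isCompact_Icc
  obtain ⟨M, hM⟩ : ∃ M : ℝ, ∀ s ≤ t, |(z s).1| ≤ M ∧ |(z s).2| ≤ M := by
    obtain ⟨M, hM⟩ := hK.exists_bound_of_continuousOn hz.continuousOn
    refine ⟨M, fun s hs => ?_⟩
    have h1 := hM s hs
    rw [Prod.norm_def, max_le_iff, Real.norm_eq_abs, Real.norm_eq_abs] at h1
    exact h1
  -- the cells hit by the path
  have hHf : {c : ℤ × ℤ | ∃ s ≤ t, z s ∈ cell c}.Finite := by
    apply Set.Finite.subset (Finset.Icc (⌊-M⌋ - 1) ⌊M⌋ ×ˢ Finset.Icc (⌊-M⌋ - 1) ⌊M⌋).finite_toSet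
    rintro c ⟨s, hs, hc⟩
    obtain ⟨h1, h2⟩ := hM s hs
    rw [abs_le] at h1 h2
    rw [hit2_mem_cell] at hc
    have key : ∀ (a : ℤ) (x : ℝ), -M ≤ x → x ≤ M → (a : ℝ) ≤ x → x ≤ (a : ℝ) + 1 →
        ⌊-M⌋ - 1 ≤ a ∧ a ≤ ⌊M⌋ := by
      intro a x x1 x2 x3 x4
      constructor
      · have : ⌊-M⌋ ≤ a + 1 := by
          have h5 : ((⌊-M⌋ : ℤ) : ℝ) ≤ (a : ℝ) + 1 := (Int.floor_le _).trans (x1.trans x4)
          exact_mod_cast h5
        omega
      · rw [Int.le_floor]
        exact x3.trans x2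
    rw [Finset.mem_coe, Finset.mem_product, Finset.mem_Icc, Finset.mem_Icc]
    exact ⟨key _ _ h1.1 h1.2 hc.1.1 hc.1.2, key _ _ h2.1 h2.2 hc.2.1 hc.2.2⟩
  obtain ⟨H, hH⟩ : ∃ H : Finset (ℤ × ℤ), ∀ c, c ∈ H ↔ ∃ s ≤ t, z s ∈ cell c := by
    refine ⟨hHf.toFinset, fun c => ?_⟩
    rw [Set.Finite.mem_toFinset]
    rfl
  have hfl : ∀ s ≤ t, ((⌊(z s).1⌋, ⌊(z s).2⌋) : ℤ × ℤ) ∈ H := by
    intro s hs
    rw [hH]
    refine ⟨s, hs, ?_⟩
    rw [hit2_mem_cell]
    exact ⟨⟨Int.floor_le _, (Int.lt_floor_add_one _).le⟩, Int.floor_le _,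
      (Int.lt_floor_add_one _).le⟩
  -- the volume of the sausage
  have hfin : volume (swp z 2 t) ≠ ⊤ := by
    have hsub : swp z 2 t ⊆ Metric.closedBall (0 : E2) (2 * M + 2) := by
      intro x hx
      unfold swp at hx
      rw [Set.mem_iUnion₂] at hx
      obtain ⟨s, hs, hx⟩ := hx
      rw [Metric.mem_closedBall] at hx ⊢
      have h1 : dist (!₂[(z s).1, (z s).2] : E2) 0 ≤ 2 * M := by
        obtain ⟨h1, h2⟩ := hM s hs
        have hM0 : 0 ≤ M := (abs_nonneg _).trans h1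
        rw [dist_zero_right, EuclideanSpace.norm_eq]
        apply Real.sqrt_le_iff.2
        refine ⟨by linarith, ?_⟩
        rw [Fin.sum_univ_two]
        simp only [Real.norm_eq_abs, sq_abs]
        have h3 : (z s).1 ^ 2 ≤ M ^ 2 := by
          rw [← sq_abs (z s).1]
          exact pow_le_pow_left₀ (abs_nonneg _) h1 2
        have h4 : (z s).2 ^ 2 ≤ M ^ 2 := by
          rw [← sq_abs (z s).2]
          exact pow_le_pow_left₀ (abs_nonneg _) h2 2
        simp
        nlinarith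
      calc dist x 0 ≤ dist x (!₂[(z s).1, (z s).2] : E2) + dist (!₂[(z s).1, (z s).2] : E2) 0 :=
            dist_triangle _ _ _
        _ ≤ 2 * M + 2 := by linarith
    exact ne_top_of_le_ne_top measure_closedBall_lt_top.ne (measure_mono hsub)
  have hvolF : ((fat H).card : ℝ) / 25 ≤ (volume (swp z 2 t)).toReal := by
    have h1 : volume (⋃ d ∈ fat H, fcell d) ≤ volume (swp z 2 t) := by
      apply hit2_volume
      intro x hx
      rw [Set.mem_iUnion₂] at hx
      obtain ⟨d, hd, hx⟩ := hx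
      unfold fat at hd
      rw [Finset.mem_biUnion] at hd
      obtain ⟨c, hc, hd⟩ := hd
      rw [Finset.mem_product, Finset.mem_Ico, Finset.mem_Ico] at hd
      obtain ⟨s, hs, hsc⟩ := (hH c).1 hc
      unfold swp
      rw [Set.mem_iUnion₂]
      refine ⟨s, hs, ?_⟩
      rw [hit2_mem_cell] at hsc
      rw [mem_fcell] at hx
      rw [Metric.mem_closedBall, EuclideanSpace.dist_eq]
      apply Real.sqrt_le_iff.2
      refine ⟨by norm_num, ?_⟩
      rw [Fin.sum_univ_two]
      simp only [Real.dist_eq, sq_abs]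
      obtain ⟨⟨a1, a2⟩, a3, a4⟩ := hx
      obtain ⟨⟨b1, b2⟩, b3, b4⟩ := hsc
      obtain ⟨⟨c1, c2⟩, c3, c4⟩ := hd
      have c1' : (5 : ℝ) * c.1 - 2 ≤ d.1 := by exact_mod_cast c1
      have c2' : (d.1 : ℝ) + 1 ≤ 5 * c.1 + 7 := by exact_mod_cast c2
      have c3' : (5 : ℝ) * c.2 - 2 ≤ d.2 := by exact_mod_cast c3
      have c4' : (d.2 : ℝ) + 1 ≤ 5 * c.2 + 7 := by exact_mod_cast c4
      simp only at a1 a2 a3 a4
      have h5 : (x 0 - (z s).1) ^ 2 ≤ (7 / 5) ^ 2 := by
        apply sq_le_sq'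
        · linarith
        · linarith
      have h6 : (x 1 - (z s).2) ^ 2 ≤ (7 / 5) ^ 2 := by
        apply sq_le_sq'
        · linarith
        · linarith
      simp
      linarith
    rw [vol_fcells] at h1
    exact (ENNReal.ofReal_le_iff_le_toReal hfin).mp h1
  have hvol : (H.card : ℝ) ≤ (volume (swp z 2 t)).toReal := by
    have h1 : volume (cells H) ≤ volume (swp z 2 t) := by
      apply hit2_volume
      intro x hx
      unfold cells at hx
      rw [Set.mem_iUnion₂] at hx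
      obtain ⟨c, hc, hx⟩ := hx
      obtain ⟨s, hs, hsc⟩ := (hH c).1 hc
      unfold swp
      rw [Set.mem_iUnion₂]
      refine ⟨s, hs, ?_⟩
      rw [hit2_mem_cell] at hx hsc
      rw [Metric.mem_closedBall, EuclideanSpace.dist_eq]
      apply Real.sqrt_le_iff.2
      refine ⟨by norm_num, ?_⟩
      rw [Fin.sum_univ_two]
      simp only [Real.dist_eq, sq_abs]
      obtain ⟨⟨a1, a2⟩, a3, a4⟩ := hx
      obtain ⟨⟨b1, b2⟩, b3, b4⟩ := hsc
      have h5 : (x 0 - (z s).1) ^ 2 ≤ 1 := by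
        rw [sq_le_one_iff_abs_le_one, abs_le]
        constructor <;> linarith
      have h6 : (x 1 - (z s).2) ^ 2 ≤ 1 := by
        rw [sq_le_one_iff_abs_le_one, abs_le]
        constructor <;> linarith
      simp
      linarith
    have h2 := ENNReal.toReal_mono hfin h1
    have h3 := (vol_cells H).2
    unfold vol at h3
    rwa [h3] at h2
  have hq0 : 0 < Real.exp (-(ν / 25)) := Real.exp_pos _
  have hq1 : Real.exp (-(ν / 25)) ≤ 1 := by
    rw [Real.exp_le_one_iff]
    linarith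
  have hterm : ∀ V : Finset (ℤ × ℤ), 0 ≤ if ∀ s ≤ t, z s ∈ cells (core V) then
      Real.exp (-(ν / 25)) ^ V.card *
        (1 - Real.exp (-(ν / 25))) ^ ((fat (box N)).card - V.card) else 0 := by
    intro V
    split_ifs
    · apply mul_nonneg (by positivity)
      apply pow_nonneg
      linarith
    · exact le_refl _
  have hsum0 : 0 ≤ ∑ V ∈ (fat (box N)).powerset, if ∀ s ≤ t, z s ∈ cells (core V) then
      Real.exp (-(ν / 25)) ^ V.card *
        (1 - Real.exp (-(ν / 25))) ^ ((fat (box N)).card - V.card) else 0 :=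
    Finset.sum_nonneg fun V _ => hterm V
  rcases lt_or_ge N H.card with hN | hN
  · have h1 : Real.exp (-ν * (volume (swp z 2 t)).toReal) ≤ Real.exp (-ν * N) := by
      apply Real.exp_le_exp.2
      have h2 : (N : ℝ) ≤ H.card := by exact_mod_cast hN.le
      nlinarith
    linarith
  · have hbox : H ⊆ box N := by
      intro c hc
      obtain ⟨s, hs, hsc⟩ := (hH c).1 hc
      rw [hit2_mem_cell] at hsc
      have b1 := hit2_bound (φ := fun s => (z s).1) (by fun_prop) (by simp [h0])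
        (fun c : ℤ × ℤ => c.1) hN (fun s hs => ⟨_, hfl s hs, rfl⟩) hs
      have b2 := hit2_bound (φ := fun s => (z s).2) (by fun_prop) (by simp [h0])
        (fun c : ℤ × ℤ => c.2) hN (fun s hs => ⟨_, hfl s hs, rfl⟩) hs
      have key : ∀ (a : ℤ) (x : ℝ), -((N : ℝ) + 1) < x → x < (N : ℝ) + 1 → (a : ℝ) ≤ x →
          x ≤ (a : ℝ) + 1 → -(N : ℤ) - 1 ≤ a ∧ a ≤ (N : ℤ) + 1 := by
        intro a x x1 x2 x3 x4
        constructor
        · have : -(N : ℤ) - 2 < a := by
            have h5 : -(N : ℝ) - 2 < (a : ℝ) := by linarith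
            exact_mod_cast h5
          omega
        · have h5 : (a : ℝ) < (N : ℝ) + 1 := by linarith
          have : a < (N : ℤ) + 1 := by exact_mod_cast h5
          omega
      unfold box
      rw [Finset.mem_product, Finset.mem_Icc, Finset.mem_Icc]
      exact ⟨key _ _ b1.1 b1.2 hsc.1.1 hsc.1.2, key _ _ b2.1 b2.2 hsc.2.1 hsc.2.2⟩
    have h1 : Real.exp (-ν * (volume (swp z 2 t)).toReal) ≤
        Real.exp (-(ν / 25)) ^ (fat H).card := by
      rw [← Real.exp_nat_mul]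
      apply Real.exp_le_exp.2
      nlinarith
    have h2 : Real.exp (-(ν / 25)) ^ (fat H).card ≤
        ∑ V ∈ (fat (box N)).powerset, if ∀ s ≤ t, z s ∈ cells (core V) then
        Real.exp (-(ν / 25)) ^ V.card *
          (1 - Real.exp (-(ν / 25))) ^ ((fat (box N)).card - V.card) else 0 := by
      rw [← sum_weights (fat_mono hbox) (Real.exp (-(ν / 25))), Finset.sum_filter]
      apply Finset.sum_le_sum
      intro V _
      by_cases hHV : fat H ⊆ V
      · have h3 : ∀ s ≤ t, z s ∈ cells (core V) := by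
          intro s hs
          unfold cells
          rw [Set.mem_iUnion₂]
          refine ⟨(⌊(z s).1⌋, ⌊(z s).2⌋), fat_subset.mp hHV (hfl s hs), ?_⟩
          rw [hit2_mem_cell]
          exact ⟨⟨Int.floor_le _, (Int.lt_floor_add_one _).le⟩, Int.floor_le _,
            (Int.lt_floor_add_one _).le⟩
        rw [if_pos hHV, if_pos h3]
      · rw [if_neg hHV]
        exact hterm V
    have h3 := Real.exp_pos (-ν * N)
    linarith

end Pool.Agent.BSs
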