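import Pool.Agent.BSs.Counts3
import Pool.Agent.BSv.Key

/-!
# The deterministic estimate with the gain of the surface term (helper98)
-/

open MeasureTheory Set Filter Topology Pool.Agent.BSv
open scoped ENNReal NNReal ContDiff

noncomputable section

namespace Pool.Agent.BSs

theorem e4_eq {m r l e : ℝ} (hm : 0 < m) (hr : 0 < r) (hl : 0 < l)
    (h : e = m / r * l ^ (-(1 / 4) : ℝ)) : e ^ 4 * l = (m / r) ^ 4 := by
  have h1 : (l ^ (-(1 / 4) : ℝ)) ^ 4 = l⁻¹ := by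
    rw [← Real.rpow_natCast, ← Real.rpow_mul hl.le]
    norm_num
    exact Real.rpow_neg_one l
  rw [h, mul_pow, h1]
  field_simp

theorem e_le {m r l e c1 : ℝ} (hm : 0 < m) (hr : 0 < r) (hl : 0 < l) (hc : 0 < c1)
    (h4 : e ^ 4 * l = (m / r) ^ 4) (h : c1 ≤ l) : e ≤ (1 + 1 / c1) * (m / r) := by
  by_contra hcon
  push Not at hcon
  have h0 : 0 < m / r := by positivity
  have h1 : (1 : ℝ) ≤ 1 + 1 / c1 := by
    have : 0 < 1 / c1 := by positivity
    linarith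
  have h2 : ((1 + 1 / c1) * (m / r)) ^ 4 < e ^ 4 := by gcongr
  have h3 : (1 + 1 / c1) ≤ (1 + 1 / c1) ^ 4 := by
    calc (1 + 1 / c1) = (1 + 1 / c1) ^ 1 := by ring
      _ ≤ (1 + 1 / c1) ^ 4 := pow_le_pow_right₀ h1 (by norm_num)
  have h5 : ((1 + 1 / c1) * (m / r)) ^ 4 * l < (m / r) ^ 4 := by
    rw [← h4]; gcongr
  have h6 : (1 + 1 / c1) * c1 * (m / r) ^ 4 ≤ ((1 + 1 / c1) * (m / r)) ^ 4 * l := by
    rw [mul_pow]
    calc (1 + 1 / c1) * c1 * (m / r) ^ 4 ≤ (1 + 1 / c1) ^ 4 * l * (m / r) ^ 4 := by gcongr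
      _ = _ := by ring
  have h7 : (1 + 1 / c1) * c1 = c1 + 1 := by field_simp
  rw [h7] at h6
  have h8 : 0 < (m / r) ^ 4 := by positivity
  nlinarith

theorem X_le {m r l e b : ℝ} (hm : 0 < m) (hr : 0 < r) (hl : 0 < l) (he : 0 < e)
    (h4 : e ^ 4 * l = (m / r) ^ 4) (h : l ≤ b) : l / e ≤ (1 + b) ^ 2 * (r / m) := by
  by_contra hcon
  push Not at hcon
  have hb : 0 < b := hl.trans_le h
  rw [lt_div_iff₀ he] at hcon
  have h1 : ((1 + b) ^ 2 * (r / m) * e) ^ 4 < l ^ 4 := by gcongr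
  have h2 : ((1 + b) ^ 2 * (r / m) * e) ^ 4 * l < l ^ 4 * l := by gcongr
  have h3 : ((1 + b) ^ 2 * (r / m) * e) ^ 4 * l = (1 + b) ^ 8 := by
    have : ((1 + b) ^ 2 * (r / m) * e) ^ 4 * l = (1 + b) ^ 8 * (r / m) ^ 4 * (e ^ 4 * l) := by ring
    rw [this, h4]
    field_simp
  have h5 : l ^ 4 * l ≤ (1 + b) ^ 8 := by
    calc l ^ 4 * l = l ^ 5 := by ring
      _ ≤ (1 + b) ^ 5 := by gcongr; linarith
      _ ≤ (1 + b) ^ 8 := pow_le_pow_right₀ (by linarith) (by norm_num)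
  linarith

theorem lam_le_e {m r l e t c0 KV η a : ℝ} (hm : 0 < m) (hr : 1 ≤ r) (hl : 0 < l) (he : 0 < e)
    (ht : 0 < t) (hlt : l = t * a) (h4 : e ^ 4 * l = (m / r) ^ 4) (hc0 : 0 < c0)
    (htc : t ≤ 2 * (m ^ 4 * c0) / r ^ 2) (ha : a ≤ 3 * (KV * r ^ 4)) (hKV : 0 < KV) (hη : 0 < η)
    (hrb : 96 * c0 ^ 5 * KV * m ^ 16 / η ^ 4 ≤ r) : t ≤ η * e := by
  by_contra hcon
  push Not at hcon
  have hr0 : 0 < r := by linarith
  have h1 : (η * e) ^ 4 < t ^ 4 := by gcongr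
  have h2 : (η * e) ^ 4 * l < t ^ 4 * l := by gcongr
  have h3 : (η * e) ^ 4 * l = η ^ 4 * (m / r) ^ 4 := by
    rw [mul_pow, mul_assoc, h4]
  have h5 : l ≤ (2 * (m ^ 4 * c0) / r ^ 2) * (3 * (KV * r ^ 4)) := by
    rw [hlt]
    have ha0 : 0 < a := by
      by_contra h
      push Not at h
      have : t * a ≤ 0 := mul_nonpos_of_nonneg_of_nonpos ht.le h
      linarith
    gcongr
  have h6 : t ^ 4 * l ≤ (2 * (m ^ 4 * c0) / r ^ 2) ^ 4 *
      ((2 * (m ^ 4 * c0) / r ^ 2) * (3 * (KV * r ^ 4))) := by gcongr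
  have h7 : (2 * (m ^ 4 * c0) / r ^ 2) ^ 4 *
      ((2 * (m ^ 4 * c0) / r ^ 2) * (3 * (KV * r ^ 4))) =
      (96 * c0 ^ 5 * KV * m ^ 16) * (m ^ 4 / r ^ 6) := by
    field_simp
    ring
  have h8 : η ^ 4 * (m / r) ^ 4 = (η ^ 4 * r ^ 2) * (m ^ 4 / r ^ 6) := by
    field_simp
  rw [h3, h8] at h2
  rw [h7] at h6
  have h9 : (η ^ 4 * r ^ 2) * (m ^ 4 / r ^ 6) < (96 * c0 ^ 5 * KV * m ^ 16) * (m ^ 4 / r ^ 6) :=
    h2.trans_le h6
  have h10 : η ^ 4 * r ^ 2 < 96 * c0 ^ 5 * KV * m ^ 16 :=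
    lt_of_mul_lt_mul_right h9 (by positivity)
  rw [div_le_iff₀ (by positivity)] at hrb
  have h11 : r ≤ r ^ 2 := by nlinarith
  have h12 : r * η ^ 4 ≤ η ^ 4 * r ^ 2 := by
    rw [mul_comm]; gcongr
  linarith

theorem sqrtT_ge {a F T : ℝ} (ha : 0 ≤ a) (h1 : a / 16 ≤ F) (h2 : F ≤ 81 * T / 25) :
    5 / 36 * √a ≤ √T := by
  have h3 : 5 / 36 * √a = √(25 / 1296 * a) := by
    rw [Real.sqrt_mul (by norm_num), show (25 / 1296 : ℝ) = (5 / 36) ^ 2 by norm_num,
      Real.sqrt_sq (by norm_num)]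
  rw [h3]
  apply Real.sqrt_le_sqrt
  linarith

theorem log192 : Real.log 192 ≤ 6 := by
  rw [Real.log_le_iff_le_exp (by norm_num)]
  have h1 : (2.7 : ℝ) ≤ Real.exp 1 := by
    have := Real.exp_one_gt_d9
    linarith
  have h2 : Real.exp 6 = Real.exp 1 ^ 6 := by
    rw [← Real.exp_nat_mul]; norm_num
  rw [h2]
  calc (192 : ℝ) ≤ 2.7 ^ 6 := by norm_num
    _ ≤ _ := by gcongr

theorem key2 : ∃ m0 c2 : ℝ, 1 ≤ m0 ∧ 0 < c2 ∧ ∀ m : ℝ, m0 ≤ m → ∀ KV : ℝ, 0 < KV →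
    ∃ r0 : ℝ, 1 ≤ r0 ∧
    ∀ r : ℝ, r0 ≤ r → ∀ V : Finset (ℤ × ℤ), V.Nonempty → (V.card : ℝ) ≤ KV * r ^ 4 →
    lam (UV V) ≤ 2 * cst (m ^ 8) / r ^ 2 →
    ∃ (k : ℕ) (i j : ℤ) (w : List Alf), cellsOf k i j ⊆ V ∧
      Tst (wlk w (k, i, j, true)) ⊆ V ∧
      cst (m ^ 8) * r ^ 2 + c2 * m ^ 6 * r + Real.log 192 * w.length ≤
        r ^ 4 * lam (UV V) + m ^ 8 * ((fat (Tst (wlk w (k, i, j, true)))).card / 25) := by
  obtain ⟨ε0, c1, C1, C2, hε0, hc1, hC1, hC2, hmain⟩ := counts3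
  have hc0 : 0 < cst 1 := cst_pos one_pos
  set c0 := cst 1 with hc0def
  set κ : ℝ := 1 + 1 / c1 with hκ
  have hκ0 : 0 < κ := by positivity
  set c3 : ℝ := √(c1 / (2 * c0)) with hc3
  have hc30 : 0 < c3 := Real.sqrt_pos.mpr (by positivity)
  set Cr : ℝ := 2 * c0 * κ with hCr
  have hCr0 : 0 < Cr := by positivity
  set K5 : ℝ := 12 * C2 + C1 with hK5
  have hK50 : 0 < K5 := by positivity
  set b : ℝ := 128 * c0 ^ 2 with hb
  have hb0 : 0 < b := by positivity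
  set Pc : ℝ := 1176 * 16384 * κ ^ 2 with hPc
  have hPc0 : 0 < Pc := by positivity
  set η : ℝ := min (1 / (32 * C1)) (1 / (301056 * K5)) with hη
  have hη0 : 0 < η := lt_min (by positivity) (by positivity)
  refine ⟨150528 + (1806336000 * Cr + 12000 * Cr + 32 * Pc + 1536 * Pc * c0 +
    451584 * K5 * (1 + b) ^ 2) * (1 + 1 / c3), c3 / 96, ?_, by positivity, ?_⟩
  · have : 0 ≤ (1806336000 * Cr + 12000 * Cr + 32 * Pc + 1536 * Pc * c0 +
      451584 * K5 * (1 + b) ^ 2) * (1 + 1 / c3) := by positivity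
    linarith
  intro m hm KV hKV
  set S : ℝ := 1806336000 * Cr + 12000 * Cr + 32 * Pc + 1536 * Pc * c0 +
    451584 * K5 * (1 + b) ^ 2 with hS
  have hS0 : 0 ≤ S := by positivity
  have hm1 : 150528 ≤ m := by
    have : 0 ≤ S * (1 + 1 / c3) := by positivity
    linarith
  have hm0 : 0 < m := by linarith
  have hm1' : 1 ≤ m := by linarith
  have hSm : S ≤ m := by
    have : 0 ≤ S * (1 / c3) := by positivity
    have : S * (1 + 1 / c3) = S + S * (1 / c3) := by ring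
    linarith
  have hSc : S ≤ c3 * m := by
    have h1 : S * (1 / c3) ≤ m := by
      have : S * (1 + 1 / c3) = S + S * (1 / c3) := by ring
      linarith
    rw [mul_one_div, div_le_iff₀ hc30] at h1
    linarith
  have q1 : 1806336000 * Cr ≤ c3 * m := by
    have : 0 ≤ 12000 * Cr + 32 * Pc + 1536 * Pc * c0 + 451584 * K5 * (1 + b) ^ 2 := by positivity
    linarith
  have q2 : 12000 * Cr ≤ c3 * m := by
    have : 0 ≤ 1806336000 * Cr + 32 * Pc + 1536 * Pc * c0 + 451584 * K5 * (1 + b) ^ 2 := by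
      positivity
    linarith
  have q3 : 32 * Pc ≤ m := by
    have : 0 ≤ 1806336000 * Cr + 12000 * Cr + 1536 * Pc * c0 + 451584 * K5 * (1 + b) ^ 2 := by
      positivity
    linarith
  have q4 : 1536 * Pc * c0 ≤ c3 * m := by
    have : 0 ≤ 1806336000 * Cr + 12000 * Cr + 32 * Pc + 451584 * K5 * (1 + b) ^ 2 := by
      positivity
    linarith
  have q5 : 451584 * K5 * (1 + b) ^ 2 ≤ c3 * m := by
    have : 0 ≤ 1806336000 * Cr + 12000 * Cr + 32 * Pc + 1536 * Pc * c0 := by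
      positivity
    linarith
  have hν : (0 : ℝ) < m ^ 8 := by positivity
  have hcst : cst (m ^ 8) = m ^ 4 * c0 := by
    have := cst_scale (ν := 1) (h := m ^ 4) one_pos (by positivity)
    rw [← this]
    congr 1
    ring
  rw [hcst]
  refine ⟨max 1 (max (m / ε0) (max (320 * (m ^ 4 * c0) / c1)
    (96 * c0 ^ 5 * KV * m ^ 16 / η ^ 4))), le_max_left _ _, ?_⟩
  intro r hr V hVne hVcard hlam
  have hr1 : 1 ≤ r := (le_max_left _ _).trans hr
  have hr' := (le_max_right _ _).trans hr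
  have hr2 : m / ε0 ≤ r := (le_max_left _ _).trans hr'
  have hr'' := (le_max_right _ _).trans hr'
  have hr3 : 320 * (m ^ 4 * c0) / c1 ≤ r := (le_max_left _ _).trans hr''
  have hr4 : 96 * c0 ^ 5 * KV * m ^ 16 / η ^ 4 ≤ r := (le_max_right _ _).trans hr''
  have hr0 : 0 < r := by linarith
  have hrr : r ≤ r ^ 2 := by nlinarith
  have hε1 : m / r ≤ ε0 := by
    rw [div_le_iff₀ hε0] at hr2
    rw [div_le_iff₀ hr0]
    linarith
  have hlam1 : lam (UV V) ≤ c1 / 160 := by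
    refine hlam.trans ?_
    rw [div_le_iff₀ hc1] at hr3
    rw [div_le_div_iff₀ (by positivity) (by norm_num)]
    nlinarith
  set l := lam (UV V) with hl
  have hlpos : 0 < l := by
    obtain ⟨c', hc'⟩ := hVne
    have hUne : (UV V).Nonempty := by
      obtain ⟨p, hp⟩ : (cell c').Nonempty := by
        refine ⟨((c'.1 : ℝ), (c'.2 : ℝ)), ?_⟩
        simp [cell, Pool.Agent.BSv.sq]
      exact ⟨p, cells_subset_UV V (Set.mem_biUnion hc' hp)⟩
    exact lam_pos (isOpen_UV V) hUne (vol_UV V).1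
  have hsmall : ∀ a : ℝ, 0 < a → c1 ≤ l * a → a ≤ 3 * V.card →
      l ≤ η * (m / r * (l * a) ^ (-(1 / 4) : ℝ)) := by
    intro a ha hca haV
    have hla : 0 < l * a := by positivity
    refine lam_le_e (m := m) (r := r) (l := l * a) (c0 := c0) (KV := KV) (a := a) hm0 hr1 hla
      (by positivity) hlpos rfl (e4_eq hm0 hr0 hla rfl) hc0 hlam ?_ hKV hη0 hr4
    linarith
  obtain ⟨D, a, e, W, B, Wp, k0, i0, j0, w, ha, hca, haV, hea, he, hvD, hWWp, hWp, hWpc, hwl, hw,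
    hk0, hBc, hgain, hlev⟩ := hmain (m ^ 8) hν r hr0 (m / r) (by positivity) hε1 V hVne hlam1
      (by
        intro a ha hca haV
        have h1 := hsmall a ha hca haV
        have h2 : η ≤ 1 / (32 * C1) := min_le_left _ _
        have h3 : 0 < m / r * (l * a) ^ (-(1 / 4) : ℝ) := by positivity
        calc 16 * C1 * l ≤ 16 * C1 * (1 / (32 * C1) * (m / r * (l * a) ^ (-(1 / 4) : ℝ))) := by
              gcongr
              exact h1.trans (by gcongr)
          _ = 1 / 2 * (m / r * (l * a) ^ (-(1 / 4) : ℝ)) := by field_simp; ring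
          _ < _ := by linarith)
  rw [← hl] at hca hea hgain hlev hBc
  rw [hcst] at hgain hlev
  have hla : 0 < l * a := by positivity
  have he4 : e ^ 4 * (l * a) = (m / r) ^ 4 := e4_eq hm0 hr0 hla hea
  have hele : e ≤ κ * (m / r) := e_le hm0 hr0 hla hc1 he4 hca
  have hlη : l ≤ η * e := by rw [hea]; exact hsmall a ha hca haV
  refine ⟨k0, i0, j0, w, hk0, ?_, ?_⟩
  · rw [hw]; exact famT_subset hWp
  rw [hw]
  set T := famT Wp with hT
  set Ft : ℝ := ((fat T).card : ℝ) / 25 with hFt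
  set G := r ^ 4 * l + m ^ 8 * Ft - m ^ 4 * c0 * r ^ 2 with hG
  set X := l * a / e with hX
  have hX0 : 0 < X := by positivity
  -- the error term
  have hR : r ^ 4 * l * e ≤ Cr * m ^ 5 * r := by
    calc r ^ 4 * l * e ≤ r ^ 4 * (2 * (m ^ 4 * c0) / r ^ 2) * (κ * (m / r)) := by gcongr
      _ = Cr * m ^ 5 * r := by rw [hCr]; field_simp
  have hR0 : 0 < r ^ 4 * l * e := by positivity
  -- lower bound for the number of cells
  have hFT : Ft ≤ 81 * (T.card : ℝ) / 25 := by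
    have h1 : ((fat T).card : ℝ) ≤ 81 * T.card := by exact_mod_cast card_fat_le T
    rw [hFt]; linarith
  have hTF : (T.card : ℝ) ≤ Ft := by
    have h1 := slice T
    have h2 : vol (cells T) ≤ vol (Metric.thickening (1 / 4) (cells T)) :=
      vol_mono (vol_UV T).1 (Metric.self_subset_thickening (by norm_num) _)
    rw [(vol_cells T).2] at h2
    have h3 : 0 ≤ 3 / 10 * √(T.card : ℝ) := by positivity
    rw [hFt]; linarith
  have hsT : 5 / 36 * √a ≤ √(T.card : ℝ) := sqrtT_ge ha.le hvD hFT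
  have hsa : c3 * r / m ^ 2 ≤ √a := by
    have h1 : c3 * r / m ^ 2 = √(c1 / (2 * c0) * r ^ 2 / m ^ 4) := by
      have e1 : c1 / (2 * c0) * r ^ 2 / m ^ 4 = c1 / (2 * c0) * (r / m ^ 2) ^ 2 := by
        field_simp
      rw [e1, Real.sqrt_mul (by positivity), Real.sqrt_sq (by positivity), hc3]
      ring
    rw [h1]
    apply Real.sqrt_le_sqrt
    have h2 : c1 ≤ (2 * (m ^ 4 * c0) / r ^ 2) * a := hca.trans (by gcongr)
    have h3 : (2 * (m ^ 4 * c0) / r ^ 2) * a = a * (2 * c0 * m ^ 4 / r ^ 2) := by ring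
    rw [h3] at h2
    rw [div_mul_eq_mul_div, div_div, div_le_iff₀ (by positivity)]
    calc c1 * r ^ 2 ≤ (a * (2 * c0 * m ^ 4 / r ^ 2)) * r ^ 2 := by gcongr
      _ = a * (2 * c0 * m ^ 4) := by field_simp
  have hma : c3 * m ^ 6 * r ≤ m ^ 8 * √a := by
    calc c3 * m ^ 6 * r = m ^ 8 * (c3 * r / m ^ 2) := by field_simp
      _ ≤ _ := by gcongr
  have hG1 : m ^ 8 * √a / 48 ≤ G := by
    have h1 : 3 / 10 * m ^ 8 * (5 / 36 * √a) ≤ 3 / 10 * m ^ 8 * √(T.card : ℝ) := by gcongr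
    have h2 : 250 * r ^ 4 * l * e ≤ 250 * (Cr * m ^ 5 * r) := by
      calc 250 * r ^ 4 * l * e = 250 * (r ^ 4 * l * e) := by ring
        _ ≤ _ := by gcongr
    have h3 : 250 * (Cr * m ^ 5 * r) ≤ c3 * m ^ 6 * r / 48 := by
      calc 250 * (Cr * m ^ 5 * r) = (12000 * Cr) * (m ^ 5 * r) / 48 := by ring
        _ ≤ (c3 * m) * (m ^ 5 * r) / 48 := by gcongr
        _ = _ := by ring
    linarith only [h1, h2, h3, hsT, hma, hgain, hG]
  have hG2 : c3 * m ^ 6 * r / 48 ≤ G := by linarith only [hma, hG1]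
  have hGpos : 0 < G := lt_of_lt_of_le (by positivity) hG2
  have hmax : max G 0 = G := max_eq_left hGpos.le
  rw [hmax] at hlev
  -- the number of squares
  set C4 : ℝ := 250 * (r ^ 4 * l * e) / (m ^ 8 * X) with hC4
  have hC40 : 0 ≤ C4 := by positivity
  have hWwh : ∀ q ∈ W, wh V q.1 q.2.1 q.2.2 := fun q hq => hWp q (hWWp hq)
  have hTsum : ((famT W).card : ℝ) = ∑ q ∈ W, (4 : ℝ) ^ q.1 := by
    rw [card_famT hWwh]; push_cast; rfl
  have hL : ∀ k, ((lev W k).card : ℝ) ≤ (if k < 0 then C1 * (1 + k) ^ 2 * X else 0) +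
      (C2 * (1 + k) ^ 2 + 4 * C4) / 2 ^ k * X +
      (if 0 ≤ k then (4 / m ^ 8) * G / 4 ^ k else 0) +
      (128 * e) ^ 2 * (4 ^ k * (lev W k).card) := by
    intro k
    rw [if_neg (by omega), if_pos (by omega)]
    have p1 : 0 ≤ (C2 * (1 + k) ^ 2 + 4 * C4) / 2 ^ k * X := by positivity
    have p2 : 0 ≤ (128 * e) ^ 2 * (4 ^ k * ((lev W k).card : ℝ)) := by positivity
    have p3 : 0 ≤ (4 / m ^ 8) * G / 4 ^ k := by positivity
    by_cases hg : 128 * 2 ^ k * e ≤ 1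
    · have h1 := hlev k hg
      have h2 : (C2 * (1 + k) ^ 2 + 4 * C4) / 2 ^ k * X =
          C2 * (1 + k) ^ 2 / 2 ^ k * X + 1000 / m ^ 8 * (r ^ 4 * l * e) / 2 ^ k := by
        rw [hC4]
        field_simp
        ring
      rw [h2]
      linarith only [h1, p2]
    · push Not at hg
      have h1 : (1 : ℝ) ≤ (128 * e) ^ 2 * 4 ^ k := by
        have h5 : (128 * 2 ^ k * e) ^ 2 = (128 * e) ^ 2 * 4 ^ k := by
          have : (4 : ℝ) ^ k = (2 ^ k) ^ 2 := by rw [← pow_mul, mul_comm k 2, pow_mul]; norm_num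
          rw [this]
          ring
        rw [← h5]
        exact one_le_pow₀ hg.le
      have h2 : ((lev W k).card : ℝ) ≤ (128 * e) ^ 2 * (4 ^ k * ((lev W k).card : ℝ)) := by
        calc ((lev W k).card : ℝ) = 1 * ((lev W k).card : ℝ) := by ring
          _ ≤ ((128 * e) ^ 2 * 4 ^ k) * ((lev W k).card : ℝ) := by gcongr
          _ = _ := by ring
      linarith only [h2, p1, p3]
  have hWc := sum_levels (T := ((famT W).card : ℝ)) hX0.le hGpos.le hν hC1.le hC2.le hC40 hTsum hL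
  have hWT : ((famT W).card : ℝ) ≤ T.card := by
    have : famT W ⊆ T := by
      rw [hT]
      unfold famT
      exact Finset.biUnion_subset_biUnion_of_subset_left _ hWWp
    exact_mod_cast Finset.card_le_card this
  -- bad levels
  have hνT : m ^ 8 * (T.card : ℝ) ≤ G + m ^ 4 * c0 * r ^ 2 := by
    have h1 : m ^ 8 * (T.card : ℝ) ≤ m ^ 8 * Ft := by gcongr
    have h2 : 0 ≤ r ^ 4 * l := by positivity
    linarith only [h1, h2, hG]
  have hbad : 1176 * ((128 * e) ^ 2 * (famT W).card) ≤ G / 16 := by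
    have h1 : 1176 * ((128 * e) ^ 2 * ((famT W).card : ℝ)) ≤
        1176 * ((128 * (κ * (m / r))) ^ 2 * ((G + m ^ 4 * c0 * r ^ 2) / m ^ 8)) := by
      have : ((famT W).card : ℝ) ≤ (G + m ^ 4 * c0 * r ^ 2) / m ^ 8 := by
        rw [le_div_iff₀ hν]
        have h3 : ((famT W).card : ℝ) * m ^ 8 ≤ T.card * m ^ 8 := by gcongr
        linarith only [h3, hνT]
      gcongr
    have h2 : 1176 * ((128 * (κ * (m / r))) ^ 2 * ((G + m ^ 4 * c0 * r ^ 2) / m ^ 8)) =
        Pc * G / (m ^ 6 * r ^ 2) + Pc * c0 / m ^ 2 := by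
      rw [hPc]
      field_simp
      ring
    have h3 : Pc * G / (m ^ 6 * r ^ 2) ≤ G / 32 := by
      rw [div_le_div_iff₀ (by positivity) (by norm_num)]
      have h4 : (1 : ℝ) ≤ m ^ 5 * r ^ 2 := by
        have h5 : (1 : ℝ) ≤ m ^ 5 := one_le_pow₀ hm1'
        have h6 : (1 : ℝ) ≤ r ^ 2 := one_le_pow₀ hr1
        nlinarith only [h5, h6]
      calc Pc * G * 32 = (32 * Pc) * G * 1 := by ring
        _ ≤ m * G * (m ^ 5 * r ^ 2) := by gcongr
        _ = _ := by ring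
    have h4 : Pc * c0 / m ^ 2 ≤ G / 32 := by
      have h5 : Pc * c0 / m ^ 2 ≤ Pc * c0 := div_le_self (by positivity) (one_le_pow₀ hm1')
      have h6 : Pc * c0 ≤ c3 * m ^ 6 * r / 1536 := by
        have h7 : (1 : ℝ) ≤ m ^ 5 * r := by
          have h8 : (1 : ℝ) ≤ m ^ 5 := one_le_pow₀ hm1'
          nlinarith only [h8, hr1]
        calc Pc * c0 = (1536 * Pc * c0) * 1 / 1536 := by ring
          _ ≤ (c3 * m) * (m ^ 5 * r) / 1536 := by gcongr
          _ = _ := by ring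
      linarith only [h5, h6, hG2]
    linarith only [h1, h2, h3, h4]
  -- the error of the good levels
  have hgood : 1176 * (8 * C4 * X) ≤ G / 16 := by
    have h1 : 1176 * (8 * C4 * X) = 2352000 * (r ^ 4 * l * e) / m ^ 8 := by
      rw [hC4]; field_simp; ring
    rw [h1, div_le_div_iff₀ hν (by norm_num)]
    have h2 : 2352000 * (r ^ 4 * l * e) * 16 ≤ 2352000 * (Cr * m ^ 5 * r) * 16 := by gcongr
    have h3 : 2352000 * (Cr * m ^ 5 * r) * 16 ≤ (c3 * m ^ 6 * r / 48) * m ^ 8 := by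
      have h7 : (1 : ℝ) ≤ m ^ 8 := one_le_pow₀ hm1'
      calc 2352000 * (Cr * m ^ 5 * r) * 16 = (1806336000 * Cr) * (m ^ 5 * r) / 48 * 1 := by ring
        _ ≤ (c3 * m) * (m ^ 5 * r) / 48 * m ^ 8 := by gcongr
        _ = _ := by ring
    have h4 : (c3 * m ^ 6 * r / 48) * m ^ 8 ≤ G * m ^ 8 := by gcongr
    linarith only [h2, h3, h4]
  have hfour : 1176 * ((8 / m ^ 8) / 4 ^ 0 * G) ≤ G / 16 := by
    have h1 : 1176 * ((8 / m ^ 8) / 4 ^ 0 * G) = 9408 * G / m ^ 8 := by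
      field_simp; ring
    rw [h1, div_le_div_iff₀ hν (by norm_num)]
    have h2 : (150528 : ℝ) ≤ m ^ 8 := by
      calc (150528 : ℝ) ≤ m := hm1
        _ = m ^ 1 := by ring
        _ ≤ m ^ 8 := pow_le_pow_right₀ hm1' (by norm_num)
    calc 9408 * G * 16 = G * 150528 := by ring
      _ ≤ G * m ^ 8 := by gcongr
  -- the main term
  have hXG : 1176 * (K5 * X) ≤ G / 8 := by
    by_cases hcase : a ≤ 64 * c0 / m ^ 4 * r ^ 2
    · have h1 : l * a ≤ b := by
        calc l * a ≤ (2 * (m ^ 4 * c0) / r ^ 2) * (64 * c0 / m ^ 4 * r ^ 2) := by gcongr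
          _ = b := by rw [hb]; field_simp; ring
      have h2 : X ≤ (1 + b) ^ 2 * (r / m) := X_le hm0 hr0 hla he he4 h1
      have h3 : 1176 * (K5 * X) ≤ 1176 * (K5 * ((1 + b) ^ 2 * (r / m))) := by gcongr
      have h4 : 1176 * (K5 * ((1 + b) ^ 2 * (r / m))) ≤ c3 * m ^ 6 * r / 384 := by
        have h7 : (1 : ℝ) ≤ m ^ 6 := one_le_pow₀ hm1'
        calc 1176 * (K5 * ((1 + b) ^ 2 * (r / m))) =
            (451584 * K5 * (1 + b) ^ 2) * (r / m) / 384 * 1 := by ring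
          _ ≤ (c3 * m) * (r / m) / 384 * m ^ 6 := by gcongr
          _ = _ := by field_simp
      linarith only [h3, h4, hG2]
    · push Not at hcase
      have h1 : m ^ 4 * c0 * r ^ 2 ≤ m ^ 8 * a / 64 := by
        calc m ^ 4 * c0 * r ^ 2 = m ^ 8 * (64 * c0 / m ^ 4 * r ^ 2) / 64 := by field_simp
          _ ≤ _ := by gcongr
      have h2 : m ^ 8 * (a / 16) ≤ m ^ 8 * Ft := by gcongr
      have h3 : m ^ 8 * a / 32 ≤ G := by
        have : 0 ≤ r ^ 4 * l := by positivity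
        have h5 : 0 < m ^ 8 * a := by positivity
        linarith only [h1, h2, hG, this, h5]
      have h4 : X ≤ η * a := by
        rw [hX, div_le_iff₀ he]
        calc l * a ≤ (η * e) * a := by gcongr
          _ = _ := by ring
      have h5 : η ≤ 1 / (301056 * K5) := min_le_right _ _
      have h6 : 1176 * (K5 * X) ≤ a / 256 := by
        calc 1176 * (K5 * X) ≤ 1176 * (K5 * (1 / (301056 * K5) * a)) := by
              gcongr
              exact h4.trans (by gcongr)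
          _ = a / 256 := by field_simp; ring
      have h7 : (1 : ℝ) ≤ m ^ 8 := one_le_pow₀ hm1'
      have h8 : a / 256 ≤ m ^ 8 * a / 256 := by
        have : a ≤ m ^ 8 * a := by nlinarith only [h7, ha]
        linarith only [this]
      linarith only [h3, h6, h8]
  -- the length of the walk
  have hwlen : (w.length : ℝ) ≤ 196 * ((W.card : ℝ) + B.card) := by
    have h1 : (w.length : ℝ) ≤ 2 * ((Wp.card : ℝ) + B.card) := by exact_mod_cast hwl
    have h2 : (Wp.card : ℝ) ≤ 97 * ((W.card : ℝ) + B.card) := by exact_mod_cast hWpc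
    have h3 : (0 : ℝ) ≤ W.card := Nat.cast_nonneg _
    have h4 : (0 : ℝ) ≤ B.card := Nat.cast_nonneg _
    linarith only [h1, h2, h3, h4]
  have hcard : (W.card : ℝ) + B.card ≤ K5 * X + 8 * C4 * X + (8 / m ^ 8) / 4 ^ 0 * G +
      (128 * e) ^ 2 * (famT W).card := by
    have h1 : (C1 * ((0 : ℕ) : ℝ) ^ 3 + 12 * C2 + 8 * C4) * X = 12 * C2 * X + 8 * C4 * X := by
      push_cast; ring
    rw [h1] at hWc
    have h2 : K5 * X = 12 * C2 * X + C1 * X := by rw [hK5]; ring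
    rw [h2]
    linarith only [hWc, hBc]
  have hfin : Real.log 192 * (w.length : ℝ) ≤ G / 2 := by
    have h1 : Real.log 192 * (w.length : ℝ) ≤ 6 * (196 * ((W.card : ℝ) + B.card)) := by
      have h2 : (0 : ℝ) ≤ w.length := Nat.cast_nonneg _
      calc Real.log 192 * (w.length : ℝ) ≤ 6 * (w.length : ℝ) := by gcongr; exact log192
        _ ≤ _ := by gcongr
    linarith only [h1, hcard, hbad, hgood, hfour, hXG]
  have hlast : c3 / 96 * m ^ 6 * r ≤ G / 2 := by linarith only [hG2]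
  linarith only [hfin, hlast, hG]

end Pool.Agent.BSs
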