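import Pool.Agent.BSs.PackE
import Pool.Agent.BSv.Cross
import Pool.Agent.BSv.Cnt

/-!
# Module LOWE: a nearly optimal set whose neighbourhood is not much larger, explicit constants

`lowE1` (thickening radius 2, unit cells): exactly the proof of `Pool.Agent.BSv.lowvol` (file
Pool/Agent/BSv/LowVol.lean, helper40) with `packE` in place of `pack`:
`D`, `g` from `packE`, `e = ε (λ a)^(-1/4) ≤ ε c1^(-1/4)`; `v` for `x = 1`: `v ≥ s/2` on `D`,
`en v ≤ 40 λ e`, `v = 0` outside `U`; `vol D ≥ a/16 ≥ c1/(16 λ) > 441` if `lam U` is small;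
`cross0` with `B = cell c \ U`, sum with `overlap21` over the cells meeting `cthickening 2 D`:
`∑ vol (cell c \ U) ≤ (4 C/s²) 1000 · 40 λ e = C' λ a / e = C' (λ a)^(5/4)/ε ≤ C' (λ vol U)^(5/4)/ε`
(`a ≤ vol U`).

`lowE`: apply `lowE1` to `{p | (ρ/2) p ∈ U}` and scale back (module Dil).
-/

open MeasureTheory Set Filter Topology Pool.Agent.BSv
open scoped ENNReal NNReal ContDiff

noncomputable section

namespace Pool.Agent.BSs

private theorem LowE_sq_meas (x y L : ℝ) : MeasurableSet (sq x y L) :=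
  (measurableSet_Icc.prod measurableSet_Icc)

private theorem LowE_sq_fin (x y L : ℝ) : volume (sq x y L) ≠ ⊤ :=
  ((isCompact_Icc.prod isCompact_Icc).measure_lt_top).ne

private theorem LowE_cell_mono (c : ℤ × ℤ) :
    cell c ⊆ sq ((c.1 : ℝ) - 10) ((c.2 : ℝ) - 10) 21 := by
  rintro p ⟨⟨h1, h2⟩, h3, h4⟩
  refine ⟨⟨by linarith, by linarith⟩, by linarith, by linarith⟩

private theorem LowE_floor (p : Pl) : p ∈ cell (⌊p.1⌋, ⌊p.2⌋) := by
  refine ⟨⟨Int.floor_le _, (Int.lt_floor_add_one _).le⟩, Int.floor_le _,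
    (Int.lt_floor_add_one _).le⟩

private theorem LowE_near {D : Set Pl} {c : ℤ × ℤ}
    (h : (cell c ∩ Metric.cthickening 2 D).Nonempty) (hD : D.Nonempty) :
    (D ∩ sq ((c.1 : ℝ) - 3) ((c.2 : ℝ) - 3) 7).Nonempty := by
  obtain ⟨p, ⟨⟨h1, h2⟩, h3, h4⟩, hp⟩ := h
  have hp' : Metric.infDist p D ≤ 2 := by
    rw [Metric.mem_cthickening_iff] at hp
    unfold Metric.infDist
    exact ENNReal.toReal_le_of_le_ofReal (by norm_num) hp
  obtain ⟨q, hq, hq2⟩ := (Metric.infDist_lt_iff hD).1 (lt_of_le_of_lt hp' (by norm_num : (2:ℝ) < 3))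
  rw [Prod.dist_eq, max_lt_iff, Real.dist_eq, Real.dist_eq, abs_lt, abs_lt] at hq2
  refine ⟨q, hq, ⟨?_, ?_⟩, ?_, ?_⟩ <;> [linarith [hq2.1.1, hq2.1.2]; linarith [hq2.1.1, hq2.1.2];
    linarith [hq2.2.1, hq2.2.2]; linarith [hq2.2.1, hq2.2.2]]

private theorem LowE_cover {D U : Set Pl} (hb : Bornology.IsBounded D) (hU : volume U ≠ ⊤) :
    ∃ J : Finset (ℤ × ℤ), (∀ c ∈ J, (cell c ∩ Metric.cthickening 2 D).Nonempty) ∧
      vol (Metric.cthickening 2 D) ≤ vol U + ∑ c ∈ J, vol (cell c \ U) := by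
  classical
  have hb2 : Bornology.IsBounded (Metric.cthickening 2 D) := hb.cthickening
  obtain ⟨M, hM⟩ := hb2.subset_closedBall (0 : Pl)
  let N : ℤ := ⌈|M| + 2⌉
  let J : Finset (ℤ × ℤ) := ((Finset.Icc (-N) N) ×ˢ (Finset.Icc (-N) N)).filter
    (fun c => (cell c ∩ Metric.cthickening 2 D).Nonempty)
  refine ⟨J, fun c hc => (Finset.mem_filter.1 hc).2, ?_⟩
  have hsub : Metric.cthickening 2 D ⊆ U ∪ ⋃ c ∈ J, (cell c \ U) := by
    intro p hp
    by_cases hpU : p ∈ U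
    · exact Or.inl hpU
    · right
      have hMp := hM hp
      rw [mem_closedBall_zero_iff, Prod.norm_def, max_le_iff, Real.norm_eq_abs,
        Real.norm_eq_abs] at hMp
      have hMa : M ≤ |M| := le_abs_self M
      have hN : |M| + 2 ≤ (N : ℝ) := Int.le_ceil _
      have key : ∀ x : ℝ, |x| ≤ M → ⌊x⌋ ∈ Finset.Icc (-N) N := by
        intro x hx
        have := abs_le.1 hx
        have h1 := Int.floor_le x
        have h2 := Int.lt_floor_add_one x
        rw [Finset.mem_Icc]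
        constructor
        · have : (-(N : ℝ)) ≤ (⌊x⌋ : ℝ) := by linarith
          exact_mod_cast this
        · have : (⌊x⌋ : ℝ) ≤ (N : ℝ) := by linarith
          exact_mod_cast this
      refine mem_iUnion₂.2 ⟨(⌊p.1⌋, ⌊p.2⌋), ?_, LowE_floor p, hpU⟩
      refine Finset.mem_filter.2 ⟨Finset.mem_product.2 ⟨key _ hMp.1, key _ hMp.2⟩, ?_⟩
      exact ⟨p, LowE_floor p, hp⟩
  have hfin : ∀ c : ℤ × ℤ, volume (cell c \ U) ≠ ⊤ := fun c =>
    ne_top_of_le_ne_top (LowE_sq_fin _ _ _) (measure_mono sdiff_subset)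
  have h1 : volume (U ∪ ⋃ c ∈ J, (cell c \ U)) ≤ volume U + ∑ c ∈ J, volume (cell c \ U) :=
    (measure_union_le _ _).trans (add_le_add le_rfl (measure_biUnion_finset_le _ _))
  have hsum : ∑ c ∈ J, volume (cell c \ U) ≠ ⊤ := by
    rw [ENNReal.sum_ne_top]
    exact fun c _ => hfin c
  have h2 : vol (Metric.cthickening 2 D) ≤
      (volume U + ∑ c ∈ J, volume (cell c \ U)).toReal :=
    ENNReal.toReal_mono (ENNReal.add_ne_top.2 ⟨hU, hsum⟩) ((measure_mono hsub).trans h1)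
  rw [ENNReal.toReal_add hU hsum, ENNReal.toReal_sum (fun c _ => hfin c)] at h2
  exact h2

theorem lowE1 : ∃ ε0 c1 C : ℝ, 0 < ε0 ∧ 0 < c1 ∧ 0 < C ∧
    ∀ U : Set Pl, IsOpen U → U.Nonempty → volume U ≠ ⊤ → ∀ ε : ℝ, 0 < ε → ε ≤ ε0 → lam U ≤ c1 →
    ∃ (D : Set Pl) (g : Pl → ℝ), IsOpen D ∧ D.Nonempty ∧ D ⊆ U ∧ Bornology.IsBounded D ∧ CC D g ∧
      ms g = 1 ∧ en g ≤ lam U * (1 + C * ε) ∧
      vol (Metric.cthickening 2 D) ≤ vol U + C * (lam U * vol U) ^ (5 / 4 : ℝ) / ε := by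
  obtain ⟨ε1, k1, hε1, hk1, hpack⟩ := packE
  obtain ⟨C2, hC2, hcross⟩ := cross0
  have hkp : 0 < k1 ^ (-(1 / 4) : ℝ) := Real.rpow_pos_of_pos hk1 _
  set C : ℝ := max (50 * k1 ^ (-(1 / 4) : ℝ)) (160000 * C2) with hC
  have hC0 : 0 < C := lt_of_lt_of_le (by positivity) (le_max_right _ _)
  refine ⟨ε1, k1 / 7057, C, hε1, by positivity, hC0, ?_⟩
  intro U hU hne hUf ε hε hεr hlU
  have hl : 0 < lam U := lam_pos hU hne hUf
  obtain ⟨f, D, a, e, s, hf, he, hs, ha0, ha1, haU, he0, he1, hs0, hDo, hDc, hDU, hfD, haD,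
    ⟨g, hg, hg1, hg2⟩, hx, -⟩ := hpack U hU hne hUf ε hε hεr
  obtain ⟨v, hv, hv2, hv3, hv4, -⟩ := hx 1 le_rfl
  have hla : 0 < lam U * a := by positivity
  have hav : 7057 ≤ a := by
    have h1 : lam U * 7057 ≤ k1 := by
      have := (le_div_iff₀ (by norm_num : (0 : ℝ) < 7057)).1 hlU
      exact this
    have h2 : lam U * 7057 ≤ lam U * a := h1.trans ha1
    exact le_of_mul_le_mul_left h2 hl
  have hbD : Bornology.IsBounded D := by
    refine (hf.cpt.isCompact.isBounded).subset fun p hp => subset_tsupport f ?_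
    have := hfD p hp
    exact (Function.mem_support).2 (by linarith [hs0] : (0:ℝ) < f p).ne'
  obtain ⟨J, hJ1, hJ2⟩ := LowE_cover (D := D) (U := U) hbD hUf
  refine ⟨D, g, hDo, hDc.nonempty, hDU, hbD, hg, hg1, ?_, ?_⟩
  · refine hg2.trans (mul_le_mul_of_nonneg_left ?_ hl.le)
    have h1 : e ≤ ε * k1 ^ (-(1 / 4) : ℝ) := by
      rw [he]
      refine mul_le_mul_of_nonneg_left ?_ hε.le
      exact Real.rpow_le_rpow_of_nonpos hk1 ha1 (by norm_num)
    have h2 : 50 * k1 ^ (-(1 / 4) : ℝ) * ε ≤ C * ε :=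
      mul_le_mul_of_nonneg_right (le_max_left _ _) hε.le
    linarith
  · refine hJ2.trans (add_le_add le_rfl ?_)
    have hvo : ∀ p, p ∉ U → v p = 0 := fun p hp =>
      image_eq_zero_of_notMem_tsupport (fun h => hp (hv.sub h))
    have hcell : ∀ c ∈ J, (s / 2) ^ 2 * vol (cell c \ U) ≤
        C2 * ∫ p in sq ((c.1 : ℝ) - 10) ((c.2 : ℝ) - 10) 21, gr2 v p := by
      intro c hc
      have hm := LowE_near (hJ1 c hc) hDc.nonempty
      have h3 : ((c.1 : ℝ) - 3) - 7 = (c.1 : ℝ) - 10 := by ring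
      have h4 : ((c.2 : ℝ) - 3) - 7 = (c.2 : ℝ) - 10 := by ring
      have hnot : ¬ D ⊆ sq ((c.1 : ℝ) - 10) ((c.2 : ℝ) - 10) 21 := by
        intro hsub
        have h5 : vol D ≤ vol (sq ((c.1 : ℝ) - 10) ((c.2 : ℝ) - 10) 21) :=
          ENNReal.toReal_mono (LowE_sq_fin _ _ _) (measure_mono hsub)
        rw [vol_sq _ _ (by norm_num)] at h5
        linarith
      have := hcross D hDo hDc ((c.1 : ℝ) - 3) ((c.2 : ℝ) - 3) hm (by rwa [h3, h4]) v
        (hv.smooth.of_le (by exact_mod_cast le_top)) (s / 2) (by positivity) hv4 (cell c \ U)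
        ((LowE_sq_meas _ _ _).diff hU.measurableSet)
        (by rw [h3, h4]; exact sdiff_subset.trans (LowE_cell_mono c))
        (fun p hp => hvo p hp.2)
      rwa [h3, h4] at this
    have hsum : (s / 2) ^ 2 * ∑ c ∈ J, vol (cell c \ U) ≤ C2 * (1000 * en v) := by
      rw [Finset.mul_sum]
      refine (Finset.sum_le_sum hcell).trans ?_
      rw [← Finset.mul_sum]
      exact mul_le_mul_of_nonneg_left (overlap21 J hv) hC2.le
    have hs2 : s ^ 2 = e ^ 2 / a := by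
      rw [hs, div_pow, Real.sq_sqrt ha0.le]
    set S := ∑ c ∈ J, vol (cell c \ U) with hS
    have hS0 : 0 ≤ S := Finset.sum_nonneg fun c _ => ENNReal.toReal_nonneg
    have h7 : e ^ 2 * S ≤ 160000 * C2 * lam U * e * a := by
      have h8 : (s / 2) ^ 2 * S ≤ C2 * (1000 * (40 * lam U * 1 * e)) := by
        refine hsum.trans ?_
        gcongr
      have h9 : (s / 2) ^ 2 * S = (e ^ 2 * S) / (4 * a) := by
        rw [div_pow, hs2]; field_simp; ring
      rw [h9, div_le_iff₀ (by positivity)] at h8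
      nlinarith
    have h10 : e * S ≤ 160000 * C2 * (lam U * a) := by
      have : e * (e * S) ≤ e * (160000 * C2 * (lam U * a)) := by nlinarith
      exact le_of_mul_le_mul_left this he0
    have hq0 : 0 < (lam U * a) ^ (1 / 4 : ℝ) := Real.rpow_pos_of_pos hla _
    have heq : e * (lam U * a) ^ (1 / 4 : ℝ) = ε := by
      rw [he, mul_assoc, ← Real.rpow_add hla]
      norm_num
    have h11 : ε * S ≤ 160000 * C2 * (lam U * a) ^ (5 / 4 : ℝ) := by
      have h12 := mul_le_mul_of_nonneg_right h10 hq0.le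
      have h13 : e * S * (lam U * a) ^ (1 / 4 : ℝ) = ε * S := by rw [← heq]; ring
      have h14 : (lam U * a) ^ (5 / 4 : ℝ) = (lam U * a) * (lam U * a) ^ (1 / 4 : ℝ) := by
        rw [show (5 / 4 : ℝ) = 1 + 1 / 4 by norm_num, Real.rpow_add hla, Real.rpow_one]
      rw [h13] at h12
      rw [h14]
      linarith
    have h15 : (lam U * a) ^ (5 / 4 : ℝ) ≤ (lam U * vol U) ^ (5 / 4 : ℝ) :=
      Real.rpow_le_rpow hla.le (mul_le_mul_of_nonneg_left haU hl.le) (by norm_num)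
    have h16 : 0 ≤ (lam U * vol U) ^ (5 / 4 : ℝ) := (Real.rpow_nonneg hla.le _).trans h15
    rw [le_div_iff₀ hε]
    calc S * ε = ε * S := mul_comm _ _
      _ ≤ 160000 * C2 * (lam U * a) ^ (5 / 4 : ℝ) := h11
      _ ≤ 160000 * C2 * (lam U * vol U) ^ (5 / 4 : ℝ) :=
          mul_le_mul_of_nonneg_left h15 (by positivity)
      _ ≤ C * (lam U * vol U) ^ (5 / 4 : ℝ) :=
          mul_le_mul_of_nonneg_right (le_max_right _ _) h16

open scoped Pointwise in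
private theorem LowE_pre_eq {μ : ℝ} (hμ : 0 < μ) (D : Set Pl) :
    (fun p : Pl => μ⁻¹ • p) ⁻¹' D = μ • D := by
  rw [← preimage_smul_inv₀ hμ.ne']

open scoped Pointwise in
private theorem LowE_bdd {μ : ℝ} (hμ : 0 < μ) {D : Set Pl} (hD : Bornology.IsBounded D) :
    Bornology.IsBounded ((fun p : Pl => μ⁻¹ • p) ⁻¹' D) := by
  rw [LowE_pre_eq hμ]
  exact hD.smul₀ μ

open scoped Pointwise in
private theorem LowE_thick {μ : ℝ} (hμ : 0 < μ) (D : Set Pl) :
    Metric.cthickening (2 * μ) ((fun p : Pl => μ⁻¹ • p) ⁻¹' D) =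
      (fun p : Pl => μ⁻¹ • p) ⁻¹' Metric.cthickening 2 D := by
  ext p
  rw [mem_preimage, Metric.mem_cthickening_iff, Metric.mem_cthickening_iff, LowE_pre_eq hμ]
  have h1 : p = μ • (μ⁻¹ • p) := by rw [smul_smul, mul_inv_cancel₀ hμ.ne', one_smul]
  have h2 : Metric.infEDist p (μ • D) = ENNReal.ofReal μ * Metric.infEDist (μ⁻¹ • p) D := by
    conv_lhs => rw [h1]
    rw [infEDist_smul₀ hμ.ne', ENNReal.smul_def, smul_eq_mul]
    congr 1
    rw [← Real.enorm_of_nonneg hμ.le]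
    rfl
  rw [h2, mul_comm (2 : ℝ) μ, ENNReal.ofReal_mul hμ.le]
  rw [ENNReal.mul_le_mul_iff_right (by simpa using hμ) ENNReal.ofReal_ne_top]

theorem lowE : ∃ ε0 c1 C : ℝ, 0 < ε0 ∧ 0 < c1 ∧ 0 < C ∧
    ∀ U : Set Pl, IsOpen U → U.Nonempty → volume U ≠ ⊤ → ∀ ε : ℝ, 0 < ε → ε ≤ ε0 →
    ∀ ρ : ℝ, 0 < ρ → ρ ^ 2 * lam U ≤ c1 →
    ∃ (D : Set Pl) (g : Pl → ℝ), IsOpen D ∧ D.Nonempty ∧ D ⊆ U ∧ Bornology.IsBounded D ∧ CC D g ∧
      ms g = 1 ∧ en g ≤ lam U * (1 + C * ε) ∧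
      vol (Metric.cthickening ρ D) ≤ vol U + C * ρ ^ 2 * (lam U * vol U) ^ (5 / 4 : ℝ) / ε := by
  obtain ⟨ε0, c1, C, hε0, hc1, hC, hmain⟩ := lowE1
  refine ⟨ε0, c1, C, hε0, hc1, hC, ?_⟩
  intro U hU hne hUf ε hε hεr ρ hρ hlU
  set μ : ℝ := ρ / 2 with hμd
  have hμ : 0 < μ := by positivity
  have hμ' : μ ≠ 0 := hμ.ne'
  have hi : 0 < μ⁻¹ := inv_pos.2 hμ
  have hμ20 : 0 < μ ^ 2 := by positivity
  set U' : Set Pl := (fun p : Pl => μ • p) ⁻¹' U with hU'
  have hback : (fun p : Pl => μ⁻¹ • p) ⁻¹' U' = U := by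
    ext p
    simp [hU', smul_smul, hμ']
  have hU'o : IsOpen U' := hU.preimage (continuous_const_smul μ)
  have hU'ne : U'.Nonempty := by
    obtain ⟨p, hp⟩ := hne
    refine ⟨μ⁻¹ • p, ?_⟩
    show μ • μ⁻¹ • p ∈ U
    rw [smul_smul, mul_inv_cancel₀ hμ', one_smul]
    exact hp
  have hU'v : volume U' ≠ ⊤ := by
    rw [hU', volume_pre hμ]
    exact ENNReal.mul_ne_top ENNReal.ofReal_ne_top hUf
  have hlU' : lam U' = μ ^ 2 * lam U := by rw [hU', lam_pre hμ]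
  have hvU' : vol U' = (μ ^ 2)⁻¹ * vol U := by rw [hU', vol_pre hμ]
  have hl0 : 0 ≤ lam U := lam_nonneg U
  have hlc : lam U' ≤ c1 := by
    rw [hlU', hμd]
    have : 0 ≤ ρ ^ 2 * lam U := by positivity
    nlinarith
  obtain ⟨D', g', hDo, hDne, hDU, hDb, hg', hg1, hg2, hvol⟩ :=
    hmain U' hU'o hU'ne hU'v ε hε hεr hlc
  have hprod : lam U' * vol U' = lam U * vol U := by
    rw [hlU', hvU']
    field_simp
  refine ⟨(fun p : Pl => μ⁻¹ • p) ⁻¹' D', dil μ⁻¹ g', hDo.preimage (continuous_const_smul μ⁻¹),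
    ?_, ?_, LowE_bdd hμ hDb, dil_cc hi hg', by rw [dil_ms hi, hg1], ?_, ?_⟩
  · obtain ⟨p, hp⟩ := hDne
    refine ⟨μ • p, ?_⟩
    show μ⁻¹ • μ • p ∈ D'
    rw [smul_smul, inv_mul_cancel₀ hμ', one_smul]
    exact hp
  · rw [← hback]
    exact preimage_mono hDU
  · rw [dil_en hi hg'.smooth, inv_pow]
    have h1 := mul_le_mul_of_nonneg_left hg2 (inv_nonneg.2 hμ20.le)
    rw [hlU'] at h1
    have h2 : (μ ^ 2)⁻¹ * (μ ^ 2 * lam U * (1 + C * ε)) = lam U * (1 + C * ε) := by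
      field_simp
    rw [h2] at h1
    exact h1
  · have h1 : ρ = 2 * μ := by rw [hμd]; ring
    have h2 : vol (Metric.cthickening ρ ((fun p : Pl => μ⁻¹ • p) ⁻¹' D')) =
        μ ^ 2 * vol (Metric.cthickening 2 D') := by
      rw [h1, LowE_thick hμ, vol_pre hi, inv_pow, inv_inv]
    rw [h2]
    have h3 := mul_le_mul_of_nonneg_left hvol hμ20.le
    rw [hprod] at h3
    set Q : ℝ := (lam U * vol U) ^ (5 / 4 : ℝ) with hQ
    have hQ0 : 0 ≤ Q := by
      refine Real.rpow_nonneg (mul_nonneg hl0 ?_) _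
      exact ENNReal.toReal_nonneg
    have h4 : μ ^ 2 * (vol U' + C * Q / ε) = vol U + C * μ ^ 2 * Q / ε := by
      rw [hvU']
      field_simp
    rw [h4] at h3
    refine h3.trans (add_le_add le_rfl ?_)
    have h5 : μ ^ 2 ≤ ρ ^ 2 := by
      rw [hμd]
      nlinarith [sq_nonneg ρ]
    have h6 : C * μ ^ 2 * Q ≤ C * ρ ^ 2 * Q :=
      mul_le_mul_of_nonneg_right (mul_le_mul_of_nonneg_left h5 hC.le) hQ0
    exact div_le_div_of_nonneg_right h6 hε.le

end Pool.Agent.BSs
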