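import Pool.Agent.BSs.Dil
import Pool.Agent.BSv.Pack

/-!
# Module PACKE: the selection lemma in scale free form

From `pack 1` (`Λ0 = 1`, constants `r0`, `c1`) by scaling; `ε0 = 1 / r0`.  Let `λ = lam U > 0`
(`lam_pos`), `r' = 1/ε ≥ r0`, `μ = √λ r'`, `U' = {p | μ⁻¹ p ∈ U}` (so `lam U' = μ^(-2) λ = 1/r'^2`,
`vol U' = μ² vol U`, `lam_pre`, `vol_pre` with `μ⁻¹`).  `pack 1` for `U'`, `r'` gives
`f', D', a', e', s'`.  Put `f = dil μ f'`, `D = {p | μ p ∈ D'}`, `a = μ^(-2) a'`, `e = e'`, `s = μ s'`: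
`r'^2 a' = r'^4 λ a`, so `e' = ee r' a' = (r'^4 λ a)^(-1/4) = ε (λ a)^(-1/4)`; `s = μ e'/√a' = e/√a`;
`c1 r'^2 ≤ a' = λ r'^2 a` gives `c1 ≤ λ a`.  `g = dil μ g'`, `v = dil μ v'`
(`f' (μ p) > s'/2 ↔ f p > s/2`), energies are multiplied by `μ²` and `μ² lam U' = λ`; the sets
`D ∩ {x s/2 < f}` are the preimages of `D' ∩ {x s'/2 < f'}`.
-/

open MeasureTheory Set Filter Topology Pool.Agent.BSv
open scoped ENNReal NNReal ContDiff

noncomputable section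

namespace Pool.Agent.BSs

private theorem PackE_pow {ε l a : ℝ} (hε : 0 < ε) (hla : 0 < l * a) :
    ((1 / ε) ^ 2 * ((1 / ε) ^ 2 * (l * a))) ^ (-(1 / 4) : ℝ) =
      ε * (l * a) ^ (-(1 / 4) : ℝ) := by
  have h1 : (1 / ε) ^ 2 * ((1 / ε) ^ 2 * (l * a)) = (1 / ε) ^ (4 : ℝ) * (l * a) := by
    have : (1 / ε) ^ (4 : ℝ) = (1 / ε) ^ (4 : ℕ) := by
      rw [← Real.rpow_natCast]
      norm_num
    rw [this]
    ring
  rw [h1, Real.mul_rpow (by positivity) hla.le, ← Real.rpow_mul (by positivity)]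
  have h2 : (4 : ℝ) * (-(1 / 4)) = -1 := by norm_num
  rw [h2, Real.rpow_neg_one, one_div, inv_inv]

theorem packE : ∃ ε0 c1 : ℝ, 0 < ε0 ∧ 0 < c1 ∧
    ∀ U : Set Pl, IsOpen U → U.Nonempty → volume U ≠ ⊤ → ∀ ε : ℝ, 0 < ε → ε ≤ ε0 →
    ∃ (f : Pl → ℝ) (D : Set Pl) (a e s : ℝ), CC U f ∧
      e = ε * (lam U * a) ^ (-(1 / 4) : ℝ) ∧ s = e / √a ∧ 0 < a ∧ c1 ≤ lam U * a ∧ a ≤ vol U ∧
      0 < e ∧ e ≤ 1 / 1000 ∧ 0 < s ∧
      IsOpen D ∧ IsConnected D ∧ D ⊆ U ∧ (∀ p ∈ D, s / 2 < f p) ∧ a / 16 ≤ vol D ∧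
      (∃ g, CC D g ∧ ms g = 1 ∧ en g ≤ lam U * (1 + 50 * e)) ∧
      (∀ x : ℝ, 1 ≤ x → ∃ v, CC U v ∧ en v ≤ 40 * lam U * x * e ∧ (∀ p, f p = 0 → v p = 0) ∧
        (∀ p ∈ D, s / 2 ≤ v p) ∧ (∀ p ∈ D, x * s / 2 < f p → x * s / 2 ≤ v p)) ∧
      (∀ x : ℝ, 1 ≤ x → 128 * x * e ≤ 1 → IsOpen (D ∩ {p | x * s / 2 < f p}) ∧
        (D ∩ {p | x * s / 2 < f p}).Nonempty ∧
        lam (D ∩ {p | x * s / 2 < f p}) ≤ lam U * (1 + 250 * x * e)) := by
  obtain ⟨r0, c1, hr0, hc1, hpack⟩ := pack 1 one_pos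
  have hr00 : 0 < r0 := by linarith
  refine ⟨1 / r0, c1, by positivity, hc1, fun U hU hUne hUv ε hε hεr => ?_⟩
  have hl : 0 < lam U := lam_pos hU hUne hUv
  set l := lam U with hldef
  set r : ℝ := 1 / ε with hr
  have hr1 : 0 < r := by positivity
  have hrr : r0 ≤ r := by
    rw [hr, le_div_iff₀ hε]
    rw [le_div_iff₀ hr00] at hεr
    linarith
  set μ : ℝ := √l * r with hμdef
  have hμ : 0 < μ := by positivity
  have hμ' : μ ≠ 0 := hμ.ne'
  have hi : 0 < μ⁻¹ := inv_pos.2 hμ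
  have hμ2 : μ ^ 2 = l * r ^ 2 := by
    rw [hμdef, mul_pow, Real.sq_sqrt hl.le]
  have hμ20 : 0 < μ ^ 2 := by positivity
  set U' : Set Pl := (fun p : Pl => μ⁻¹ • p) ⁻¹' U with hU'
  have hback : (fun p : Pl => μ • p) ⁻¹' U' = U := by
    ext p
    simp [hU', smul_smul, hμ']
  have hU'o : IsOpen U' := hU.preimage (continuous_const_smul μ⁻¹)
  have hU'ne : U'.Nonempty := by
    obtain ⟨p, hp⟩ := hUne
    refine ⟨μ • p, ?_⟩
    show μ⁻¹ • μ • p ∈ U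
    rw [smul_smul, inv_mul_cancel₀ hμ', one_smul]
    exact hp
  have hU'v : volume U' ≠ ⊤ := by
    rw [hU', volume_pre hi]
    exact ENNReal.mul_ne_top ENNReal.ofReal_ne_top hUv
  have hlU' : lam U' = (μ ^ 2)⁻¹ * l := by
    rw [hU', lam_pre hi, inv_pow]
  have hμl : μ ^ 2 * lam U' = l := by
    rw [hlU', ← mul_assoc, mul_inv_cancel₀ hμ20.ne', one_mul]
  have hlU'2 : lam U' ≤ 1 / r ^ 2 := by
    rw [hlU', hμ2, mul_inv, one_div]
    apply le_of_eq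
    field_simp
  have hvU' : vol U' = μ ^ 2 * vol U := by
    rw [hU', vol_pre hi, inv_pow, inv_inv]
  obtain ⟨f', D', a', e', s', hf', he', hs', hca', hav', he0, he1, hs0, hDo, hDc, hDU, hfD, haD,
    ⟨g', hg', hg1, hg2⟩, hv, hx⟩ := hpack U' hU'o hU'ne hU'v r hrr hlU'2
  have ha'0 : 0 < a' := lt_of_lt_of_le (by positivity) hca'
  set D : Set Pl := (fun p : Pl => μ • p) ⁻¹' D' with hD
  set a : ℝ := (μ ^ 2)⁻¹ * a' with ha
  have ha0 : 0 < a := by positivity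
  have ha' : a' = r ^ 2 * (l * a) := by
    have : μ ^ 2 * a = a' := by rw [ha, ← mul_assoc, mul_inv_cancel₀ hμ20.ne', one_mul]
    rw [← this, hμ2]
    ring
  have hla : 0 < l * a := by positivity
  have hcont : Continuous fun p : Pl => μ • p := continuous_const_smul μ
  have hccU : ∀ {h : Pl → ℝ}, CC U' h → CC U (dil μ h) := by
    intro h hh
    have := dil_cc hμ hh
    rwa [hback] at this
  refine ⟨dil μ f', D, a, e', μ * s', hccU hf', ?_, ?_, ha0, ?_, ?_, he0, he1, by positivity,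
    hDo.preimage hcont, ?_, ?_, ?_, ?_, ?_, ?_, ?_⟩
  · rw [he', ee, ha', hr]
    exact PackE_pow hε hla
  · have h1 : √a' = μ * √a := by
      have : a' = μ ^ 2 * a := by rw [ha, ← mul_assoc, mul_inv_cancel₀ hμ20.ne', one_mul]
      rw [this, Real.sqrt_mul hμ20.le, Real.sqrt_sq hμ.le]
    rw [hs', h1]
    have h2 : √a ≠ 0 := (Real.sqrt_pos.2 ha0).ne'
    field_simp
  · rw [ha'] at hca'
    have h1 : 0 < r ^ 2 := by positivity
    have h2 : r ^ 2 * c1 ≤ r ^ 2 * (l * a) := by linarith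
    exact le_of_mul_le_mul_left h2 h1
  · rw [hvU'] at hav'
    have : a' = μ ^ 2 * a := by rw [ha, ← mul_assoc, mul_inv_cancel₀ hμ20.ne', one_mul]
    rw [this] at hav'
    exact le_of_mul_le_mul_left hav' hμ20
  · exact (Homeomorph.smulOfNeZero μ hμ' : Pl ≃ₜ Pl).isConnected_preimage.2 hDc
  · intro p hp
    have h1 : μ • p ∈ U' := hDU hp
    rw [← hback]
    exact h1
  · intro p hp
    have h1 := hfD (μ • p) hp
    show μ * s' / 2 < μ * f' (μ • p)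
    have h2 := mul_lt_mul_of_pos_left h1 hμ
    linarith
  · rw [hD, vol_pre hμ, ha, mul_div_assoc]
    exact mul_le_mul_of_nonneg_left haD (by positivity)
  · refine ⟨dil μ g', dil_cc hμ hg', by rw [dil_ms hμ, hg1], ?_⟩
    rw [dil_en hμ hg'.smooth]
    have h1 := mul_le_mul_of_nonneg_left hg2 hμ20.le
    rw [← mul_assoc, hμl] at h1
    exact h1
  · intro x hx1
    obtain ⟨v, hv1, hv2, hv3, hv4, hv5⟩ := hv x hx1
    refine ⟨dil μ v, hccU hv1, ?_, ?_, ?_, ?_⟩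
    · rw [dil_en hμ hv1.smooth]
      have h1 := mul_le_mul_of_nonneg_left hv2 hμ20.le
      have h2 : μ ^ 2 * (40 * lam U' * x * e') = 40 * (μ ^ 2 * lam U') * x * e' := by ring
      rw [h2, hμl] at h1
      exact h1
    · intro p hp
      have h1 : μ * f' (μ • p) = 0 := hp
      have h2 : f' (μ • p) = 0 := by
        rcases mul_eq_zero.1 h1 with h | h
        · exact absurd h hμ'
        · exact h
      show μ * v (μ • p) = 0
      rw [hv3 _ h2, mul_zero]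
    · intro p hp
      have h1 := mul_le_mul_of_nonneg_left (hv4 (μ • p) hp) hμ.le
      show μ * s' / 2 ≤ μ * v (μ • p)
      linarith
    · intro p hp hpx
      have h0 : x * (μ * s') / 2 < μ * f' (μ • p) := hpx
      have h1 : x * s' / 2 < f' (μ • p) := by
        have : μ * (x * s' / 2) < μ * f' (μ • p) := by linarith
        exact lt_of_mul_lt_mul_left this hμ.le
      have h2 := mul_le_mul_of_nonneg_left (hv5 (μ • p) hp h1) hμ.le
      show x * (μ * s') / 2 ≤ μ * v (μ • p)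
      linarith
  · intro x hx1 hxe
    obtain ⟨h1, h2, h3⟩ := hx x hx1 hxe
    have hset : D ∩ {p | x * (μ * s') / 2 < dil μ f' p} =
        (fun p : Pl => μ • p) ⁻¹' (D' ∩ {p | x * s' / 2 < f' p}) := by
      ext p
      show (μ • p ∈ D' ∧ x * (μ * s') / 2 < μ * f' (μ • p)) ↔
        (μ • p ∈ D' ∧ x * s' / 2 < f' (μ • p))
      refine and_congr_right fun _ => ?_
      have h4 : x * (μ * s') / 2 = μ * (x * s' / 2) := by ring
      rw [h4]
      exact mul_lt_mul_iff_right₀ hμ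
    rw [hset]
    refine ⟨h1.preimage hcont, ?_, ?_⟩
    · obtain ⟨p, hp⟩ := h2
      refine ⟨μ⁻¹ • p, ?_⟩
      show μ • μ⁻¹ • p ∈ D' ∩ {p | x * s' / 2 < f' p}
      rw [smul_smul, mul_inv_cancel₀ hμ', one_smul]
      exact hp
    · rw [lam_pre hμ]
      have h4 := mul_le_mul_of_nonneg_left h3 hμ20.le
      rw [← mul_assoc, hμl] at h4
      exact h4

end Pool.Agent.BSs
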