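import Pool.Agent.BSs.Union2
import Pool.Agent.BSv.ProbSum

/-!
# Upper bound of `S(t)` by a sum over fine configurations (helper98)
-/

open MeasureTheory Set Filter Topology ProbabilityTheory Pool.Agent.BSv
open scoped ENNReal NNReal ContDiff

noncomputable section

namespace Pool.Agent.BSs

variable {Ω : Type*} [MeasurableSpace Ω] {P : Measure Ω} {X Y : ℝ≥0 → Ω → ℝ}

open Classical in
/-- the fine configurations whose core is nonempty -/
def cfg (N : ℕ) : Finset (Finset (ℤ × ℤ)) := (fat (box N)).powerset.filter fun V => (core V).Nonempty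

open Classical in
theorem surv_le_sum2 (h : PBM P X Y) {ν : ℝ} (hν : 0 < ν) {t : ℝ≥0} (ht : 1 ≤ t) (N : ℕ) :
    surv P X Y ν 2 t ≤ Real.exp (-ν * N) + ∑ V ∈ cfg N,
      wt (Real.exp (-(ν / 25))) (fat (box N)) V *
        (√(core V).card * Real.exp (-((t : ℝ) - 1) * lam (UV (core V)))) := by
  set q := Real.exp (-(ν / 25)) with hq
  have hq0 : 0 < q := Real.exp_pos _
  have hq1 : q ≤ 1 := by rw [hq]; exact Real.exp_le_one_iff.mpr (by linarith)
  set Λ := fat (box N) with hΛ
  let E : Finset (ℤ × ℤ) → Set Ω := fun V => {o | ∀ s ≤ t, pos X Y 0 s o ∈ cells (core V)}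
  let M : Finset (ℤ × ℤ) → Set Ω := fun V => toMeasurable P (E V)
  have hprob := h.isProb
  have hX0 := h.fst.toIsPreBrownianReal.eval_zero_ae_eq_zero
  have hY0 := h.snd.toIsPreBrownianReal.eval_zero_ae_eq_zero
  -- pointwise bound
  have hpt : ∀ᵐ o ∂P, ENNReal.ofReal (Real.exp (-ν * (volume (sausage X Y 2 t o)).toReal)) ≤
      ENNReal.ofReal (Real.exp (-ν * N)) + ∑ V ∈ Λ.powerset,
        (M V).indicator (fun _ => ENNReal.ofReal (wt q Λ V)) o := by
    filter_upwards [h.fst.cont, h.snd.cont, hX0, hY0] with o hXc hYc h1 h2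
    have hz : Continuous (fun s : ℝ≥0 => ((X s o, Y s o) : Pl)) := hXc.prodMk hYc
    have hz0 : (fun s : ℝ≥0 => ((X s o, Y s o) : Pl)) 0 = 0 := by
      simp [h1, h2]
    have h3 := hit2 hz hz0 hν t N
    have h4 : swp (fun s : ℝ≥0 => ((X s o, Y s o) : Pl)) 2 t = sausage X Y 2 t o := rfl
    rw [h4] at h3
    have h5 : ENNReal.ofReal (Real.exp (-ν * (volume (sausage X Y 2 t o)).toReal)) ≤
        ENNReal.ofReal (Real.exp (-ν * N)) + ∑ V ∈ Λ.powerset,
          ENNReal.ofReal (if ∀ s ≤ t, ((X s o, Y s o) : Pl) ∈ cells (core V) then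
            wt q Λ V else 0) := by
      rw [← ENNReal.ofReal_sum_of_nonneg, ← ENNReal.ofReal_add (Real.exp_pos _).le]
      · apply ENNReal.ofReal_le_ofReal
        exact h3
      · apply Finset.sum_nonneg
        intro V _
        split_ifs
        · exact wt_nonneg hq0.le hq1 _ _
        · exact le_rfl
      · intro V _
        split_ifs
        · exact wt_nonneg hq0.le hq1 _ _
        · exact le_rfl
    refine h5.trans ?_
    gcongr with V hV
    split_ifs with h6
    · have h7 : o ∈ M V := by
        apply subset_toMeasurable P (E V)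
        intro s hs
        have := h6 s hs
        simpa [pos] using this
      rw [Set.indicator_of_mem h7]
    · simp
  have hPE : ∀ V ∈ cfg N, P (M V) ≤
      ENNReal.ofReal (√(core V).card * Real.exp (-((t : ℝ) - 1) * lam (UV (core V)))) := by
    intro V hV
    unfold cfg at hV
    rw [Finset.mem_filter] at hV
    have hne : (cells (core V)).Nonempty := by
      obtain ⟨c0, hc0⟩ := hV.2
      obtain ⟨p, hp⟩ : (cell c0).Nonempty := by
        refine ⟨((c0.1 : ℝ), (c0.2 : ℝ)), ?_⟩
        simp [cell, Pool.Agent.BSv.sq]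
      exact ⟨p, Set.mem_biUnion hc0 hp⟩
    have h1 := surv_up h (isCompact_cells (core V)) hne ht
    rw [(vol_cells (core V)).2] at h1
    show P (toMeasurable P (E V)) ≤ _
    rw [measure_toMeasurable]
    exact h1
  have hE0 : ∀ V, ¬ (core V).Nonempty → P (M V) = 0 := by
    intro V hV
    rw [Finset.not_nonempty_iff_eq_empty] at hV
    show P (toMeasurable P (E V)) = 0
    rw [measure_toMeasurable]
    have : E V = ∅ := by
      ext o
      simp only [E, Set.mem_ofPred_eq, Set.mem_empty_iff_false, iff_false]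
      intro hcon
      have := hcon 0 zero_le
      rw [hV] at this
      simp [cells] at this
    rw [this]; exact measure_empty
  have hint : ENNReal.ofReal (surv P X Y ν 2 t) ≤ ENNReal.ofReal (Real.exp (-ν * N)) +
      ∑ V ∈ cfg N, ENNReal.ofReal (wt q Λ V) *
        ENNReal.ofReal (√(core V).card * Real.exp (-((t : ℝ) - 1) * lam (UV (core V)))) := by
    rw [ofReal_surv h hν (by norm_num) t]
    calc ∫⁻ o, ENNReal.ofReal (Real.exp (-ν * (volume (sausage X Y 2 t o)).toReal)) ∂P
        ≤ ∫⁻ o, (ENNReal.ofReal (Real.exp (-ν * N)) + ∑ V ∈ Λ.powerset,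
          (M V).indicator (fun _ => ENNReal.ofReal (wt q Λ V)) o) ∂P := lintegral_mono_ae hpt
      _ = ENNReal.ofReal (Real.exp (-ν * N)) + ∑ V ∈ Λ.powerset,
          ENNReal.ofReal (wt q Λ V) * P (M V) := by
          rw [lintegral_add_left measurable_const, lintegral_const, measure_univ, mul_one,
            lintegral_finsetSum]
          · congr 1
            apply Finset.sum_congr rfl
            intro V _
            rw [lintegral_indicator_const (measurableSet_toMeasurable _ _)]
          · intro V _
            exact measurable_const.indicator (measurableSet_toMeasurable _ _)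
      _ = ENNReal.ofReal (Real.exp (-ν * N)) + ∑ V ∈ cfg N,
          ENNReal.ofReal (wt q Λ V) * P (M V) := by
          unfold cfg
          rw [Finset.sum_filter]
          congr 1
          apply Finset.sum_congr rfl
          intro V _
          split_ifs with h8
          · rfl
          · rw [hE0 V h8, mul_zero]
      _ ≤ _ := by
          gcongr with V hV
          exact hPE V hV
  have hnn : 0 ≤ ∑ V ∈ cfg N, wt q Λ V *
        (√(core V).card * Real.exp (-((t : ℝ) - 1) * lam (UV (core V)))) := by
    apply Finset.sum_nonneg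
    intro V _
    have := wt_nonneg hq0.le hq1 Λ V
    positivity
  have hfin : ENNReal.ofReal (surv P X Y ν 2 t) ≤ ENNReal.ofReal (Real.exp (-ν * N) +
      ∑ V ∈ cfg N, wt q Λ V *
        (√(core V).card * Real.exp (-((t : ℝ) - 1) * lam (UV (core V))))) := by
    refine hint.trans (le_of_eq ?_)
    rw [ENNReal.ofReal_add (Real.exp_pos _).le hnn, ENNReal.ofReal_sum_of_nonneg]
    · congr 1
      apply Finset.sum_congr rfl
      intro V _
      rw [ENNReal.ofReal_mul (wt_nonneg hq0.le hq1 Λ V)]
    · intro V _
      have := wt_nonneg hq0.le hq1 Λ V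
      positivity
  have hpos : 0 ≤ Real.exp (-ν * N) +
      ∑ V ∈ cfg N, wt q Λ V *
        (√(core V).card * Real.exp (-((t : ℝ) - 1) * lam (UV (core V)))) := by
    have := Real.exp_pos (-ν * N)
    linarith
  exact (ENNReal.ofReal_le_ofReal_iff hpos).mp hfin

end Pool.Agent.BSs
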