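import Pool.Agent.BSv.Lam

/-!
# Module SMOO: local root mean square of a test function

Let `k` be the normed bump (`ContDiffBump.normed`) of `(0 : Pl)`, `rIn = 2 ρ`, `rOut = 3 ρ` (sup
norm): smooth, `≥ 0`, `∫ k = 1`, `k = 0` outside the ball of radius `3 ρ`,
`k ≥ 1/(36 ρ²)` on the closed ball of radius `2 ρ` (the bump is `1` there and its integral is at most
`(6 ρ)²`).  `G p = ∫ k (p - q) g q² dq`, `u = √(G + ζ²) - ζ`.
* `G` is smooth, `G = 0` outside the closed `3 ρ`-neighbourhood of `tsupport g`, `∫ G = ms g`.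
* `u² + 2 ζ u = G`, `0 ≤ u ≤ √G`, so `ms u ≤ ms g` and
  `ms u = ∫ (G - 2 ζ u) ≥ ms g - 2 ζ ∫ √G ≥ ms g - 2 ζ √(vol (thickening (4ρ) D)) √(ms g)`.
* `dx G = (2 g dx g) * k`, Cauchy-Schwarz: `gr2 G ≤ 4 G · (gr2 g * k)`; `gr2 u = gr2 G/(4 (G + ζ²))
  ≤ gr2 g * k`, so `en u ≤ en g`.
-/

open MeasureTheory Set Filter Topology Pool.Agent.BSv
open scoped ENNReal NNReal ContDiff Convolution

noncomputable section

namespace Pool.Agent.BSs

/-- Cauchy-Schwarz from the pointwise inequality `0 ≤ F + 2 s H + s² C` -/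
private theorem Smoo_cs {F H C : Pl → ℝ} (hF : Integrable F) (hH : Integrable H)
    (hC : Integrable C) (h : ∀ p : Pl, ∀ s : ℝ, 0 ≤ F p + 2 * s * H p + s ^ 2 * C p) :
    (∫ p, H p) ^ 2 ≤ (∫ p, F p) * ∫ p, C p := by
  have h1 : ∀ s : ℝ, 0 ≤ (∫ p, C p) * (s * s) + (2 * ∫ p, H p) * s + ∫ p, F p := by
    intro s
    have h2 : 0 ≤ ∫ p, (F p + 2 * s * H p + s ^ 2 * C p) :=
      integral_nonneg fun p => h p s
    have e1 : Integrable fun p => 2 * s * H p := hH.const_mul (2 * s)
    have e2 : Integrable fun p => s ^ 2 * C p := hC.const_mul (s ^ 2)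
    have e3 : Integrable fun p => F p + 2 * s * H p := hF.add e1
    rw [integral_add e3 e2, integral_add hF e1, integral_const_mul, integral_const_mul] at h2
    linarith
  have h3 := discrim_le_zero h1
  unfold discrim at h3
  nlinarith

/-- the kernel -/
private def Smoo_b {ρ : ℝ} (hρ : 0 < ρ) : ContDiffBump (0 : Pl) where
  rIn := 2 * ρ
  rOut := 3 * ρ
  rIn_pos := by positivity
  rIn_lt_rOut := by linarith

private def Smoo_k {ρ : ℝ} (hρ : 0 < ρ) : Pl → ℝ := (Smoo_b hρ).normed volume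

private theorem Smoo_k_smooth {ρ : ℝ} (hρ : 0 < ρ) : ContDiff ℝ ∞ (Smoo_k hρ) :=
  (Smoo_b hρ).contDiff_normed

private theorem Smoo_k_cpt {ρ : ℝ} (hρ : 0 < ρ) : HasCompactSupport (Smoo_k hρ) :=
  (Smoo_b hρ).hasCompactSupport_normed

private theorem Smoo_k_nonneg {ρ : ℝ} (hρ : 0 < ρ) (p : Pl) : 0 ≤ Smoo_k hρ p :=
  (Smoo_b hρ).nonneg_normed p

private theorem Smoo_k_int {ρ : ℝ} (hρ : 0 < ρ) : Integrable (Smoo_k hρ) :=
  (Smoo_k_smooth hρ).continuous.integrable_of_hasCompactSupport (Smoo_k_cpt hρ)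

private theorem Smoo_k_one {ρ : ℝ} (hρ : 0 < ρ) : ∫ p, Smoo_k hρ p = 1 :=
  (Smoo_b hρ).integral_normed

private theorem Smoo_k_supp {ρ : ℝ} (hρ : 0 < ρ) :
    Function.support (Smoo_k hρ) = Metric.ball 0 (3 * ρ) :=
  (Smoo_b hρ).support_normed_eq

private theorem Smoo_volball {r : ℝ} (hr : 0 ≤ r) :
    volume.real (Metric.closedBall (0 : Pl) r) = (2 * r) ^ 2 := by
  have h1 : Metric.closedBall (0 : Pl) r = Metric.closedBall (0 : ℝ) r ×ˢ Metric.closedBall (0 : ℝ) r := by
    rw [closedBall_prod_same]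
    rfl
  rw [h1, Measure.real, Measure.volume_eq_prod, Measure.prod_prod, ENNReal.toReal_mul,
    Real.volume_closedBall, ENNReal.toReal_ofReal (by positivity)]
  ring

private theorem Smoo_k_low {ρ : ℝ} (hρ : 0 < ρ) {p : Pl} (hp : ‖p‖ ≤ 2 * ρ) :
    1 ≤ 36 * ρ ^ 2 * Smoo_k hρ p := by
  have h1 : (Smoo_b hρ) p = 1 := by
    apply (Smoo_b hρ).one_of_mem_closedBall
    rw [mem_closedBall_zero_iff]
    exact hp
  have h2 : ∫ q, (Smoo_b hρ) q ∂(volume : Measure Pl) ≤ 36 * ρ ^ 2 := by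
    have h3 := (Smoo_b hρ).integral_le_measure_closedBall (μ := (volume : Measure Pl))
    have h4 : volume.real (Metric.closedBall (0 : Pl) (Smoo_b hρ).rOut) = (2 * (3 * ρ)) ^ 2 :=
      Smoo_volball (r := 3 * ρ) (by positivity)
    rw [h4] at h3
    linarith
  have h5 : 0 < ∫ q, (Smoo_b hρ) q ∂(volume : Measure Pl) := (Smoo_b hρ).integral_pos
  have h6 : Smoo_k hρ p = 1 / ∫ q, (Smoo_b hρ) q ∂(volume : Measure Pl) := by
    unfold Smoo_k
    rw [(Smoo_b hρ).normed_def, h1]
  rw [h6, mul_one_div, le_div_iff₀ h5, one_mul]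
  exact h2

/-- the convolution with the kernel -/
private def Smoo_c {ρ : ℝ} (hρ : 0 < ρ) (f : Pl → ℝ) : Pl → ℝ :=
  (Smoo_k hρ) ⋆[ContinuousLinearMap.mul ℝ ℝ, volume] f

private theorem Smoo_c_apply {ρ : ℝ} (hρ : 0 < ρ) (f : Pl → ℝ) (p : Pl) :
    Smoo_c hρ f p = ∫ t, Smoo_k hρ t * f (p - t) := rfl

private theorem Smoo_c_swap {ρ : ℝ} (hρ : 0 < ρ) (f : Pl → ℝ) (p : Pl) :
    Smoo_c hρ f p = ∫ t, Smoo_k hρ (p - t) * f t := convolution_mul_swap

private theorem Smoo_c_smooth {ρ : ℝ} (hρ : 0 < ρ) {f : Pl → ℝ} (hf : ContDiff ℝ ∞ f)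
    (hc : HasCompactSupport f) : ContDiff ℝ ∞ (Smoo_c hρ f) :=
  hc.contDiff_convolution_right _ (Smoo_k_int hρ).locallyIntegrable hf

private theorem Smoo_c_fderiv {ρ : ℝ} (hρ : 0 < ρ) {f : Pl → ℝ} (hf : ContDiff ℝ ∞ f)
    (hc : HasCompactSupport f) (p v : Pl) :
    fderiv ℝ (Smoo_c hρ f) p v = Smoo_c hρ (fun q => fderiv ℝ f q v) p := by
  have h1 := hc.hasFDerivAt_convolution_right (ContinuousLinearMap.mul ℝ ℝ)
    (Smoo_k_int hρ).locallyIntegrable (hf.of_le (by simp) : ContDiff ℝ 1 f) p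
  have h2 : fderiv ℝ (Smoo_c hρ f) p = _ := h1.fderiv
  rw [h2]
  exact convolution_precompR_apply (ContinuousLinearMap.mul ℝ ℝ)
    (Smoo_k_int hρ).locallyIntegrable (hc.fderiv ℝ) (hf.continuous_fderiv (by simp)) p v

private theorem Smoo_c_ii {ρ : ℝ} (hρ : 0 < ρ) {f : Pl → ℝ} (hf : Integrable f) :
    Integrable (Smoo_c hρ f) :=
  (Smoo_k_int hρ).integrable_convolution _ hf

private theorem Smoo_c_int {ρ : ℝ} (hρ : 0 < ρ) {f : Pl → ℝ} (hf : Integrable f) :
    ∫ p, Smoo_c hρ f p = ∫ p, f p := by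
  have h1 := integral_convolution (ContinuousLinearMap.mul ℝ ℝ) (Smoo_k_int hρ) hf
    (μ := (volume : Measure Pl))
  unfold Smoo_c
  rw [h1, Smoo_k_one hρ]
  simp

private theorem Smoo_ki {ρ : ℝ} (hρ : 0 < ρ) {f : Pl → ℝ} (hf : Continuous f) (p : Pl) :
    Integrable fun t => Smoo_k hρ t * f (p - t) := by
  refine Continuous.integrable_of_hasCompactSupport ?_ ?_
  · exact (Smoo_k_smooth hρ).continuous.mul (hf.comp (continuous_const.sub continuous_id))
  · exact (Smoo_k_cpt hρ).mul_right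

private theorem Smoo_c_nonneg {ρ : ℝ} (hρ : 0 < ρ) {f : Pl → ℝ} (hf : ∀ p, 0 ≤ f p) (p : Pl) :
    0 ≤ Smoo_c hρ f p := by
  rw [Smoo_c_apply]
  exact integral_nonneg fun t => mul_nonneg (Smoo_k_nonneg hρ t) (hf _)

private theorem Smoo_c_cs {ρ : ℝ} (hρ : 0 < ρ) {f g : Pl → ℝ} (hf : Continuous f)
    (hg : Continuous g) (p : Pl) :
    Smoo_c hρ (fun q => f q * g q) p ^ 2 ≤
      Smoo_c hρ (fun q => f q ^ 2) p * Smoo_c hρ (fun q => g q ^ 2) p := by
  rw [Smoo_c_apply, Smoo_c_apply, Smoo_c_apply]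
  refine Smoo_cs (Smoo_ki hρ (hf.pow 2) p) (Smoo_ki hρ (hf.mul hg) p) (Smoo_ki hρ (hg.pow 2) p) ?_
  intro t s
  have h1 := Smoo_k_nonneg hρ t
  have h2 : Smoo_k hρ t * f (p - t) ^ 2 + 2 * s * (Smoo_k hρ t * (f (p - t) * g (p - t))) +
      s ^ 2 * (Smoo_k hρ t * g (p - t) ^ 2) =
      Smoo_k hρ t * (f (p - t) + s * g (p - t)) ^ 2 := by ring
  have h3 := mul_nonneg h1 (sq_nonneg (f (p - t) + s * g (p - t)))
  rw [← h2] at h3
  exact h3

private theorem Smoo_c_supp {ρ : ℝ} (hρ : 0 < ρ) {f : Pl → ℝ} {K : Set Pl}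
    (hK : Function.support f ⊆ K) :
    Function.support (Smoo_c hρ f) ⊆ Metric.cthickening (3 * ρ) K := by
  intro x hx
  have h1 := support_convolution_subset (ContinuousLinearMap.mul ℝ ℝ) (μ := volume) hx
  rw [Smoo_k_supp] at h1
  obtain ⟨a, ha, b, hb, rfl⟩ := h1
  apply Metric.mem_cthickening_of_dist_le _ b _ _ (hK hb)
  rw [dist_eq_norm]
  rw [mem_ball_zero_iff] at ha
  simpa using ha.le

private theorem Smoo_c_gr {ρ : ℝ} (hρ : 0 < ρ) {g : Pl → ℝ} (hg : ContDiff ℝ ∞ g)
    (hc : HasCompactSupport g) (p v : Pl) :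
    (fderiv ℝ (Smoo_c hρ fun q => g q ^ 2) p v) ^ 2 ≤
      4 * (Smoo_c hρ (fun q => g q ^ 2) p * Smoo_c hρ (fun q => fderiv ℝ g q v ^ 2) p) := by
  have hc2 : HasCompactSupport fun q => g q ^ 2 := by
    have := hc.comp_left (g := fun x : ℝ => x ^ 2) (by simp)
    exact this
  have h1 := Smoo_c_fderiv hρ (hg.pow 2) hc2 p v
  have h2 : (fun q => fderiv ℝ (fun q => g q ^ 2) q v) = fun q => 2 * (g q * fderiv ℝ g q v) := by
    funext q
    have h3 : HasFDerivAt g (fderiv ℝ g q) q :=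
      (hg.differentiable (by simp)).differentiableAt.hasFDerivAt
    have h4 := h3.pow 2
    rw [h4.fderiv]
    simp
    ring
  have h5 : Smoo_c hρ (fun q => 2 * (g q * fderiv ℝ g q v)) p =
      2 * Smoo_c hρ (fun q => g q * fderiv ℝ g q v) p := by
    rw [Smoo_c_apply, Smoo_c_apply, ← integral_const_mul]
    congr 1
    funext t
    ring
  rw [h1, h2, h5]
  have h6 : Continuous fun q => fderiv ℝ g q v :=
    (hg.continuous_fderiv (by simp)).clm_apply continuous_const
  have h7 := Smoo_c_cs hρ hg.continuous h6 p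
  nlinarith

theorem smoo {ρ ζ : ℝ} (hρ : 0 < ρ) (hζ : 0 < ζ) {D : Set Pl} (hD : Bornology.IsBounded D)
    {g : Pl → ℝ} (hg : CC D g) :
    ∃ u : Pl → ℝ, CC (Metric.thickening (4 * ρ) D) u ∧ (∀ p, 0 ≤ u p) ∧ en u ≤ en g ∧
      ms g - 2 * ζ * √(vol (Metric.thickening (4 * ρ) D)) * √(ms g) ≤ ms u ∧ ms u ≤ ms g ∧
      ∀ p, ∫ q in Metric.closedBall p (2 * ρ), g q ^ 2 ≤
        36 * ρ ^ 2 * (u p ^ 2 + 2 * ζ * u p) := by
  obtain ⟨T, hT⟩ : ∃ T, T = Metric.thickening (4 * ρ) D := ⟨_, rfl⟩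
  rw [← hT]
  have hc2 : HasCompactSupport fun q => g q ^ 2 := by
    have := hg.cpt.comp_left (g := fun x : ℝ => x ^ 2) (by simp)
    exact this
  obtain ⟨G, hG⟩ : ∃ G : Pl → ℝ, G = Smoo_c hρ (fun q => g q ^ 2) := ⟨_, rfl⟩
  have hGs : ContDiff ℝ ∞ G := by
    rw [hG]
    exact Smoo_c_smooth hρ (hg.smooth.pow 2) hc2
  have hG0 : ∀ p, 0 ≤ G p := by
    intro p
    rw [hG]
    exact Smoo_c_nonneg hρ (fun q => sq_nonneg _) p
  have hGi : Integrable G := by
    rw [hG]
    exact Smoo_c_ii hρ hg.integrable_sq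
  have hGint : ∫ p, G p = ms g := by
    rw [hG]
    exact Smoo_c_int hρ hg.integrable_sq
  have hpos : ∀ p, 0 < G p + ζ ^ 2 := fun p => add_pos_of_nonneg_of_pos (hG0 p) (by positivity)
  obtain ⟨u, hu⟩ : ∃ u : Pl → ℝ, u = fun p => √(G p + ζ ^ 2) - ζ := ⟨_, rfl⟩
  have hus : ContDiff ℝ ∞ u := by
    rw [hu]
    exact ((hGs.add contDiff_const).sqrt fun p => (hpos p).ne').sub contDiff_const
  have huG : ∀ p, u p ^ 2 + 2 * ζ * u p = G p := by
    intro p
    rw [hu]
    have h1 := Real.sq_sqrt (hpos p).le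
    simp only
    nlinarith
  have hu0 : ∀ p, 0 ≤ u p := by
    intro p
    rw [hu]
    simp only
    rw [sub_nonneg]
    apply Real.le_sqrt_of_sq_le
    linarith [hG0 p]
  have huz : ∀ p, G p = 0 → u p = 0 := by
    intro p hp
    rw [hu]
    simp only
    rw [hp, zero_add, Real.sqrt_sq hζ.le, sub_self]
  have hsG : Function.support u ⊆ Metric.cthickening (3 * ρ) (tsupport g) := by
    intro p hp
    have h1 : p ∈ Function.support G := fun h => hp (huz p h)
    rw [hG] at h1
    refine Smoo_c_supp hρ ?_ h1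
    intro q hq
    apply subset_tsupport
    intro h2
    apply hq
    simp only
    rw [h2]
    ring
  have hts : tsupport u ⊆ Metric.cthickening (3 * ρ) (tsupport g) :=
    closure_minimal hsG Metric.isClosed_cthickening
  have hcomp : IsCompact (Metric.cthickening (3 * ρ) (tsupport g)) :=
    hg.cpt.isCompact.cthickening
  have huc : HasCompactSupport u := hcomp.of_isClosed_subset (isClosed_tsupport u) hts
  have hcc : CC T u := by
    refine ⟨hus, huc, hts.trans ?_⟩
    rw [hT]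
    exact (Metric.cthickening_subset_thickening' (by positivity) (by linarith) _).trans
      (Metric.thickening_subset_of_subset _ hg.sub)
  have hui : Integrable u := hcc.integrable
  have hu2i : Integrable fun p => u p ^ 2 := hcc.integrable_sq
  have hTo : IsOpen T := by
    rw [hT]
    exact Metric.isOpen_thickening
  have hTv : volume T ≠ ⊤ := by
    rw [hT]
    exact (hD.thickening).measure_lt_top.ne
  have hmsu : ms u ≤ ms g := by
    rw [← hGint]
    refine integral_mono hu2i hGi fun p => ?_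
    have h1 := huG p
    have h2 := mul_nonneg hζ.le (hu0 p)
    simp only
    linarith
  refine ⟨u, hcc, hu0, ?_, ?_, hmsu, ?_⟩
  · -- energy
    have hdi : Integrable fun q => dx g q ^ 2 := by
      have h1 : Continuous fun q => dx g q :=
        (hg.smooth.continuous_fderiv (by simp)).clm_apply continuous_const
      refine Integrable.mono' hg.integrable_gr2 (h1.pow 2).aestronglyMeasurable ?_
      refine Eventually.of_forall fun q => ?_
      rw [Real.norm_of_nonneg (sq_nonneg _)]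
      unfold gr2
      linarith [sq_nonneg (dy g q)]
    have hdi' : Integrable fun q => dy g q ^ 2 := by
      have h1 : Continuous fun q => dy g q :=
        (hg.smooth.continuous_fderiv (by simp)).clm_apply continuous_const
      refine Integrable.mono' hg.integrable_gr2 (h1.pow 2).aestronglyMeasurable ?_
      refine Eventually.of_forall fun q => ?_
      rw [Real.norm_of_nonneg (sq_nonneg _)]
      unfold gr2
      linarith [sq_nonneg (dx g q)]
    obtain ⟨R, hR⟩ : ∃ R : Pl → ℝ, R = fun p =>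
        Smoo_c hρ (fun q => dx g q ^ 2) p + Smoo_c hρ (fun q => dy g q ^ 2) p := ⟨_, rfl⟩
    have hRi : Integrable R := by
      rw [hR]
      exact (Smoo_c_ii hρ hdi).add (Smoo_c_ii hρ hdi')
    have hRint : ∫ p, R p = ∫ p, gr2 g p := by
      rw [hR]
      simp only
      rw [integral_add (Smoo_c_ii hρ hdi) (Smoo_c_ii hρ hdi'), Smoo_c_int hρ hdi,
        Smoo_c_int hρ hdi', ← integral_add hdi hdi']
      rfl
    have hR0 : ∀ p, 0 ≤ R p := by
      intro p
      rw [hR]
      exact add_nonneg (Smoo_c_nonneg hρ (fun q => sq_nonneg _) p)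
        (Smoo_c_nonneg hρ (fun q => sq_nonneg _) p)
    have hle : ∀ p, gr2 u p ≤ R p := by
      intro p
      have h1 : HasFDerivAt G (fderiv ℝ G p) p :=
        (hGs.differentiable (by simp)).differentiableAt.hasFDerivAt
      have h2 : HasFDerivAt u ((1 / (2 * √(G p + ζ ^ 2))) • fderiv ℝ G p) p := by
        rw [hu]
        exact ((h1.add_const (ζ ^ 2)).sqrt (hpos p).ne').sub_const ζ
      have h3 : gr2 u p = gr2 G p / (4 * (G p + ζ ^ 2)) := by
        unfold gr2 dx dy
        rw [h2.fderiv]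
        simp only [smul_apply, smul_eq_mul]
        have h4 := Real.sq_sqrt (hpos p).le
        have h5 : √(G p + ζ ^ 2) ≠ 0 := (Real.sqrt_pos.2 (hpos p)).ne'
        rw [mul_pow, mul_pow, div_pow, mul_pow, h4]
        have h6 := (hpos p).ne'
        field_simp
        ring
      have h7 : gr2 G p ≤ 4 * (G p * R p) := by
        have h8 := Smoo_c_gr hρ hg.smooth hg.cpt p (1, 0)
        have h9 := Smoo_c_gr hρ hg.smooth hg.cpt p (0, 1)
        rw [← hG] at h8 h9
        rw [hR]
        unfold gr2 dx dy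
        simp only
        linarith
      rw [h3, div_le_iff₀ (by linarith [hpos p])]
      have h10 := mul_nonneg (sq_nonneg ζ) (hR0 p)
      linarith
    unfold en
    rw [← hRint]
    have h11 : ∫ p, gr2 u p ≤ ∫ p, R p := integral_mono hcc.integrable_gr2 hRi hle
    linarith
  · -- lower bound for the mass
    have h1 : ms u = ms g - 2 * ζ * ∫ p, u p := by
      rw [← hGint, ← integral_const_mul, ← integral_sub hGi (hui.const_mul _)]
      unfold ms
      congr 1
      funext p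
      linarith [huG p]
    have h2 : (∫ p, u p) ^ 2 ≤ (∫ p, T.indicator 1 p) * ∫ p, u p ^ 2 := by
      refine Smoo_cs ?_ hui hu2i ?_
      · have e1 : IntegrableOn (fun _ : Pl => (1 : ℝ)) T := integrableOn_const hTv
        exact (integrable_indicator_iff hTo.measurableSet).2 e1
      · intro p s
        by_cases hp : p ∈ T
        · rw [indicator_of_mem hp]
          simp only [Pi.one_apply]
          nlinarith [sq_nonneg (1 + s * u p)]
        · rw [indicator_of_notMem hp]
          have h3 : u p = 0 := by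
            by_contra h4
            exact hp (hcc.sub (subset_tsupport u h4))
          rw [h3]
          simp
    have h3 : ∫ p, T.indicator (1 : Pl → ℝ) p = vol T := integral_indicator_one hTo.measurableSet
    rw [h3] at h2
    have h4 : (∫ p, u p) ≤ √(vol T) * √(ms g) := by
      have e2 : 0 ≤ vol T := ENNReal.toReal_nonneg
      rw [← Real.sqrt_mul e2]
      apply Real.le_sqrt_of_sq_le
      refine h2.trans ?_
      exact mul_le_mul_of_nonneg_left hmsu ENNReal.toReal_nonneg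
    rw [h1]
    have h5 := mul_le_mul_of_nonneg_left h4 (by positivity : 0 ≤ 2 * ζ)
    linarith
  · -- the local mass
    intro p
    rw [huG, hG, Smoo_c_swap, ← integral_const_mul, ← integral_indicator measurableSet_closedBall]
    have h1 : Integrable fun t => 36 * ρ ^ 2 * (Smoo_k hρ (p - t) * g t ^ 2) := by
      refine Integrable.const_mul ?_ _
      refine Continuous.integrable_of_hasCompactSupport ?_ hc2.mul_left
      exact ((Smoo_k_smooth hρ).continuous.comp (continuous_const.sub continuous_id)).mul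
        (hg.smooth.continuous.pow 2)
    refine integral_mono (hg.integrable_sq.indicator measurableSet_closedBall) h1 fun t => ?_
    simp only
    by_cases ht : t ∈ Metric.closedBall p (2 * ρ)
    · rw [indicator_of_mem ht]
      rw [mem_closedBall_iff_norm'] at ht
      have h2 := Smoo_k_low hρ ht
      have h3 := mul_le_mul_of_nonneg_right h2 (sq_nonneg (g t))
      linarith
    · rw [indicator_of_notMem ht]
      have h2 := mul_nonneg (Smoo_k_nonneg hρ (p - t)) (sq_nonneg (g t))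
      positivity

end Pool.Agent.BSs
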