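import Pool.Agent.BSs.Hit2
import Pool.Agent.BSv.Union

/-!
# The union bound over codes, fine cells (helper98)
-/

open MeasureTheory Set Filter Topology Pool.Agent.BSv
open scoped ENNReal NNReal ContDiff

noncomputable section

namespace Pool.Agent.BSs

theorem union_bound2 {q : ℝ} (h0 : 0 < q) (h1 : q ≤ 1) (Λ : Finset (ℤ × ℤ))
    (S : Finset (Finset (ℤ × ℤ))) (hS : S ⊆ Λ.powerset) (g : Finset (ℤ × ℤ) → ℝ) {A : ℝ}
    (hA : 0 ≤ A)
    (hcode : ∀ V ∈ S, ∃ (k : ℕ) (i j : ℤ) (w : List Alf), cellsOf k i j ⊆ core V ∧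
      Tst (wlk w (k, i, j, true)) ⊆ core V ∧
      g V ≤ A * (1 / 192) ^ w.length * (1 / q) ^ (fat (Tst (wlk w (k, i, j, true)))).card) :
    ∑ V ∈ S, wt q Λ V * g V ≤ A * (2 * ((Λ.card + 1) * Λ.card)) := by
  classical
  -- the index set of the starting squares
  set I : Finset (ℕ × ℤ × ℤ) := Finset.range (Λ.card + 1) ×ˢ core Λ with hI
  let st : ℕ × ℤ × ℤ → Vx := fun x => (x.1, x.2.1 / 2 ^ x.1, x.2.2 / 2 ^ x.1, true)
  have hcore : ∀ V ∈ S, core V ⊆ core Λ := by
    intro V hV
    have hVΛ : V ⊆ Λ := Finset.mem_powerset.mp (hS hV)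
    exact fat_subset.mp ((fat_subset.mpr (Finset.Subset.refl (core V))).trans hVΛ)
  have hcode' : ∀ V ∈ S, ∃ x ∈ I, ∃ w : List Alf, fat (Tst (wlk w (st x))) ⊆ V ∧
      g V ≤ A * (1 / 192) ^ w.length * (1 / q) ^ (fat (Tst (wlk w (st x)))).card := by
    intro V hV
    obtain ⟨k, i, j, w, g1, g2, g3⟩ := hcode V hV
    have hcard : 4 ^ k ≤ Λ.card := by
      rw [← card_cellsOf k i j]
      exact (Finset.card_le_card (g1.trans (hcore V hV))).trans (card_core_le Λ)
    have hk : k < Λ.card + 1 := by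
      have : k < 4 ^ k := Nat.lt_pow_self (by norm_num)
      omega
    have hne : (cellsOf k i j).Nonempty := by
      rw [← Finset.card_pos, card_cellsOf]
      positivity
    obtain ⟨c, hc⟩ := hne
    obtain ⟨e1, e2⟩ := mem_cellsOf.mp hc
    refine ⟨(k, c), ?_, w, ?_, ?_⟩
    · rw [hI, Finset.mem_product]
      exact ⟨Finset.mem_range.mpr hk, hcore V hV (g1 hc)⟩
    · show fat (Tst (wlk w (k, c.1 / 2 ^ k, c.2 / 2 ^ k, true))) ⊆ V
      rw [e1, e2]; exact fat_subset.mpr g2
    · show g V ≤ A * (1 / 192) ^ w.length *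
        (1 / q) ^ (fat (Tst (wlk w (k, c.1 / 2 ^ k, c.2 / 2 ^ k, true)))).card
      rw [e1, e2]; exact g3
  choose! x hxI w hwV hwg using hcode'
  set L := S.sup (fun V => (w V).length) + 1 with hL
  have hlen : ∀ V ∈ S, (w V).length ∈ Finset.range L := by
    intro V hV
    rw [Finset.mem_range, hL]
    exact Nat.lt_succ_of_le (Finset.le_sup (f := fun V => (w V).length) hV)
  -- the bound for one configuration
  let F : ℕ × ℤ × ℤ → ℕ → List Alf → ℝ := fun x n w =>
    A * (1 / 192) ^ n * (1 / q) ^ (fat (Tst (wlk w (st x)))).card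
  have hF : ∀ x n w, 0 ≤ F x n w := by
    intro x n w
    positivity
  have hone : ∀ V ∈ S, g V ≤ ∑ x ∈ I, ∑ n ∈ Finset.range L, ∑ w ∈ words n,
      if fat (Tst (wlk w (st x))) ⊆ V then F x n w else 0 := by
    intro V hV
    have n1 : ∀ x n w, 0 ≤ (if fat (Tst (wlk w (st x))) ⊆ V then F x n w else 0) := by
      intro x n w
      split_ifs
      · exact hF x n w
      · exact le_rfl
    have s1 : (if fat (Tst (wlk (w V) (st (x V)))) ⊆ V then F (x V) (w V).length (w V) else 0) ≤
        ∑ w' ∈ words (w V).length, if fat (Tst (wlk w' (st (x V)))) ⊆ V then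
          F (x V) (w V).length w' else 0 :=
      Finset.single_le_sum (f := fun w' => if fat (Tst (wlk w' (st (x V)))) ⊆ V then
          F (x V) (w V).length w' else 0) (fun w' _ => n1 _ _ _) (mem_words (w V))
    have s2 : ∑ w' ∈ words (w V).length, (if fat (Tst (wlk w' (st (x V)))) ⊆ V then
          F (x V) (w V).length w' else 0) ≤ ∑ n ∈ Finset.range L, ∑ w' ∈ words n,
          if fat (Tst (wlk w' (st (x V)))) ⊆ V then F (x V) n w' else 0 :=
      Finset.single_le_sum (f := fun n => ∑ w' ∈ words n,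
          if fat (Tst (wlk w' (st (x V)))) ⊆ V then F (x V) n w' else 0)
        (fun n _ => Finset.sum_nonneg fun w' _ => n1 _ _ _) (hlen V hV)
    have s3 : ∑ n ∈ Finset.range L, ∑ w' ∈ words n,
          (if fat (Tst (wlk w' (st (x V)))) ⊆ V then F (x V) n w' else 0) ≤
          ∑ x ∈ I, ∑ n ∈ Finset.range L, ∑ w ∈ words n,
      if fat (Tst (wlk w (st x))) ⊆ V then F x n w else 0 :=
      Finset.single_le_sum (f := fun x => ∑ n ∈ Finset.range L, ∑ w ∈ words n,
      if fat (Tst (wlk w (st x))) ⊆ V then F x n w else 0)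
        (fun x _ => Finset.sum_nonneg fun n _ => Finset.sum_nonneg fun w' _ => n1 _ _ _)
        (hxI V hV)
    refine le_trans ?_ (s1.trans (s2.trans s3))
    rw [if_pos (hwV V hV)]
    exact hwg V hV
  have hsum : ∑ V ∈ S, wt q Λ V * g V ≤ ∑ V ∈ S, ∑ x ∈ I, ∑ n ∈ Finset.range L, ∑ w ∈ words n,
      wt q Λ V * (if fat (Tst (wlk w (st x))) ⊆ V then F x n w else 0) := by
    apply Finset.sum_le_sum
    intro V hV
    have := mul_le_mul_of_nonneg_left (hone V hV) (wt_nonneg h0.le h1 Λ V)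
    simpa only [Finset.mul_sum] using this
  refine hsum.trans ?_
  have hswap : ∑ V ∈ S, ∑ x ∈ I, ∑ n ∈ Finset.range L, ∑ w ∈ words n,
      wt q Λ V * (if fat (Tst (wlk w (st x))) ⊆ V then F x n w else 0) =
      ∑ x ∈ I, ∑ n ∈ Finset.range L, ∑ w ∈ words n, ∑ V ∈ S,
      wt q Λ V * (if fat (Tst (wlk w (st x))) ⊆ V then F x n w else 0) := by
    rw [Finset.sum_comm]
    apply Finset.sum_congr rfl
    intro x _
    rw [Finset.sum_comm]
    apply Finset.sum_congr rfl
    intro n _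
    rw [Finset.sum_comm]
  rw [hswap]
  have hin : ∀ x n w, ∑ V ∈ S, wt q Λ V * (if fat (Tst (wlk w (st x))) ⊆ V then F x n w else 0) ≤
      A * (1 / 192) ^ n := by
    intro x n w
    have e1 : ∑ V ∈ S, wt q Λ V * (if fat (Tst (wlk w (st x))) ⊆ V then F x n w else 0) =
        F x n w * ∑ V ∈ S with fat (Tst (wlk w (st x))) ⊆ V, wt q Λ V := by
      rw [Finset.mul_sum, Finset.sum_filter]
      apply Finset.sum_congr rfl
      intro V _
      split_ifs <;> ring
    rw [e1]
    calc F x n w * ∑ V ∈ S with fat (Tst (wlk w (st x))) ⊆ V, wt q Λ V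
        ≤ F x n w * q ^ (fat (Tst (wlk w (st x)))).card :=
          mul_le_mul_of_nonneg_left (sum_wt_le h0.le h1 Λ S hS _) (hF x n w)
      _ = A * (1 / 192) ^ n := by
          show A * (1 / 192) ^ n * (1 / q) ^ (fat (Tst (wlk w (st x)))).card *
            q ^ (fat (Tst (wlk w (st x)))).card = _
          rw [mul_assoc, ← mul_pow, one_div_mul_cancel h0.ne', one_pow, mul_one]
  have hn : ∀ n, ∑ _w ∈ words n, A * (1 / 192) ^ n ≤ A * (1 / 2) ^ n := by
    intro n
    rw [Finset.sum_const, nsmul_eq_mul]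
    have h3 : ((words n).card : ℝ) ≤ 96 ^ n := by exact_mod_cast card_words n
    calc ((words n).card : ℝ) * (A * (1 / 192) ^ n) ≤ 96 ^ n * (A * (1 / 192) ^ n) := by gcongr
      _ = A * (96 ^ n * (1 / 192) ^ n) := by ring
      _ = A * (1 / 2) ^ n := by rw [← mul_pow]; norm_num
  have hgeo : ∑ n ∈ Finset.range L, A * (1 / 2 : ℝ) ^ n ≤ A * 2 := by
    rw [← Finset.mul_sum]
    gcongr
    have : ∀ m : ℕ, ∑ n ∈ Finset.range m, (1 / 2 : ℝ) ^ n = 2 - 2 * (1 / 2) ^ m := by
      intro m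
      induction m with
      | zero => norm_num
      | succ m ih => rw [Finset.sum_range_succ, ih, pow_succ]; ring
    rw [this]
    have : (0 : ℝ) ≤ 2 * (1 / 2) ^ L := by positivity
    linarith
  have hcc : ((core Λ).card : ℝ) ≤ Λ.card := by exact_mod_cast card_core_le Λ
  calc ∑ x ∈ I, ∑ n ∈ Finset.range L, ∑ w ∈ words n, ∑ V ∈ S,
      wt q Λ V * (if fat (Tst (wlk w (st x))) ⊆ V then F x n w else 0)
      ≤ ∑ _x ∈ I, A * 2 := by
        apply Finset.sum_le_sum
        intro x _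
        refine le_trans ?_ hgeo
        apply Finset.sum_le_sum
        intro n _
        refine le_trans ?_ (hn n)
        apply Finset.sum_le_sum
        intro w _
        exact hin x n w
    _ = A * (2 * ((Λ.card + 1) * (core Λ).card)) := by
        rw [Finset.sum_const, hI, Finset.card_product, Finset.card_range, nsmul_eq_mul]
        push_cast
        ring
    _ ≤ _ := by gcongr

end Pool.Agent.BSs
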