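import Pool.Agent.BSs.Key2
import Pool.Agent.BSs.ProbSum2
import Pool.Agent.BSv.Upper

/-!
# Upper bound with the surface term, radius 2, large intensity (helper98)
-/

open MeasureTheory Set Filter Topology ProbabilityTheory Pool.Agent.BSv
open scoped ENNReal NNReal ContDiff

noncomputable section

namespace Pool.Agent.BSs

theorem poly_le_exp {A δ r : ℝ} (hA : 0 < A) (hδ : 0 < δ)
    (hr : 4 * (A * (48 / δ) ^ 12) / δ ≤ r) : A * r ^ 12 ≤ Real.exp (δ / 2 * r) := by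
  have hr0 : 0 < r := lt_of_lt_of_le (by positivity) hr
  have h1 : (δ / 48 * r) ^ 12 ≤ Real.exp (12 * (δ / 48 * r)) := by
    have := pow_le_exp (r := δ / 48 * r) (by positivity) 12
    exact_mod_cast this
  have h2 : A * (48 / δ) ^ 12 ≤ Real.exp (δ / 4 * r) := by
    have h3 : A * (48 / δ) ^ 12 ≤ δ / 4 * r := by
      rw [div_le_iff₀ hδ] at hr
      linarith
    have h4 := Real.add_one_le_exp (δ / 4 * r)
    linarith
  calc A * r ^ 12 = (A * (48 / δ) ^ 12) * (δ / 48 * r) ^ 12 := by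
        field_simp
    _ ≤ Real.exp (δ / 4 * r) * Real.exp (12 * (δ / 48 * r)) := by gcongr
    _ = Real.exp (δ / 2 * r) := by
        rw [← Real.exp_add]; congr 1; ring

theorem upper2 : ∃ m0 c2 : ℝ, 1 ≤ m0 ∧ 0 < c2 ∧ ∀ m : ℝ, m0 ≤ m → ∃ r1 : ℝ, 1 ≤ r1 ∧
    ∀ (Ω : Type) [MeasurableSpace Ω] (P : Measure Ω)
    (X Y : ℝ≥0 → Ω → ℝ), PBM P X Y → ∀ t : ℝ≥0, 1 ≤ t → r1 ≤ (t : ℝ) ^ (1 / 4 : ℝ) →
    surv P X Y (m ^ 8) 2 t ≤
      Real.exp (-(cst (m ^ 8)) * √t - c2 * m ^ 6 * (t : ℝ) ^ (1 / 4 : ℝ)) := by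
  obtain ⟨m0, c2, hm01, hc2, hkey0⟩ := key2
  refine ⟨m0, c2 / 2, hm01, by positivity, ?_⟩
  intro m hm
  have hm0 : 0 < m := by linarith
  have hν : (0 : ℝ) < m ^ 8 := by positivity
  set ν := m ^ 8 with hνdef
  have hc := cst_pos hν
  set c := cst ν with hcdef
  set δ := c2 * m ^ 6 with hδ
  have hδ0 : 0 < δ := by positivity
  set KV : ℝ := (20 * c / ν + 30) ^ 2 with hKV
  have hKV1 : 1 ≤ KV := by
    have : 0 < 20 * c / ν := by positivity
    rw [hKV]; nlinarith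
  have hKV0 : 0 < KV := by linarith
  obtain ⟨r0, hr0, hkey⟩ := hkey0 m hm KV hKV0
  set A0 : ℝ := 6 * KV ^ 3 * Real.exp (2 * c) with hA0
  have hA0pos : 0 < A0 := by positivity
  refine ⟨max r0 (max (δ / c) (4 * (A0 * (48 / δ) ^ 12) / δ)), hr0.trans (le_max_left _ _), ?_⟩
  intro Ω _ P X Y h t ht htr
  have ht1 : (1 : ℝ) ≤ (t : ℝ) := by exact_mod_cast ht
  obtain ⟨hr1, hrsq, hr4⟩ := quarter ht1
  set r : ℝ := (t : ℝ) ^ (1 / 4 : ℝ) with hr
  have hrpos : 0 < r := by linarith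
  have hcase : r0 ≤ r := (le_max_left _ _).trans htr
  have hr' := (le_max_right _ _).trans htr
  have hrδ : δ / c ≤ r := (le_max_left _ _).trans hr'
  have hrA : 4 * (A0 * (48 / δ) ^ 12) / δ ≤ r := (le_max_right _ _).trans hr'
  rw [← hrsq]
  set q := Real.exp (-(ν / 25)) with hq
  have hq0 : 0 < q := Real.exp_pos _
  have hq1 : q ≤ 1 := by rw [hq]; exact Real.exp_le_one_iff.mpr (by linarith)
  set N : ℕ := ⌈2 * c * r ^ 2 / ν⌉₊ with hN
  have hN1 : 2 * c * r ^ 2 ≤ ν * N := by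
    have := Nat.le_ceil (2 * c * r ^ 2 / ν)
    rw [div_le_iff₀ hν] at this
    linarith
  have hN2 : (N : ℝ) ≤ 2 * c * r ^ 2 / ν + 1 := (Nat.ceil_lt_add_one (by positivity)).le
  set Λ := fat (box N) with hΛ
  have hbox : (Λ.card : ℝ) ≤ KV * r ^ 4 := by
    have h1 : 10 * (N : ℝ) + 20 ≤ (20 * c / ν + 30) * r ^ 2 := by
      have h2 : (1 : ℝ) ≤ r ^ 2 := one_le_pow₀ hr1
      have h3 : (20 * c / ν + 30) * r ^ 2 = 10 * (2 * c * r ^ 2 / ν) + 30 * r ^ 2 := by
        field_simp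
        ring
      rw [h3]; linarith
    calc (Λ.card : ℝ) ≤ (10 * (N : ℝ) + 20) ^ 2 := card_fat_box N
      _ ≤ ((20 * c / ν + 30) * r ^ 2) ^ 2 := by gcongr
      _ = KV * r ^ 4 := by rw [hKV]; ring
  have hmain := surv_le_sum2 h hν ht N
  rw [← hr4] at hmain
  rw [← hq, ← hΛ] at hmain
  set S0 := cfg N with hS0
  have hS0sub : S0 ⊆ Λ.powerset := by
    rw [hS0]; unfold cfg; exact Finset.filter_subset _ _
  have hS0ne : ∀ V ∈ S0, (core V).Nonempty := by
    intro V hV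
    rw [hS0] at hV
    unfold cfg at hV
    exact (Finset.mem_filter.mp hV).2
  let g : Finset (ℤ × ℤ) → ℝ := fun V =>
    √(core V).card * Real.exp (-(r ^ 4 - 1) * lam (UV (core V)))
  classical
  have hsplit : ∑ V ∈ S0, wt q Λ V * g V =
      ∑ V ∈ S0 with lam (UV (core V)) ≤ 2 * c / r ^ 2, wt q Λ V * g V +
      ∑ V ∈ S0 with ¬ lam (UV (core V)) ≤ 2 * c / r ^ 2, wt q Λ V * g V :=
    (Finset.sum_filter_add_sum_filter_not _ _ _).symm
  have hcardV : ∀ V ∈ S0, ((core V).card : ℝ) ≤ KV * r ^ 4 := by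
    intro V hV
    have h1 : V ⊆ Λ := Finset.mem_powerset.mp (hS0sub hV)
    have h2 : ((core V).card : ℝ) ≤ Λ.card := by
      exact_mod_cast (card_core_le V).trans (Finset.card_le_card h1)
    linarith
  have hsqrtV : ∀ V ∈ S0, √((core V).card : ℝ) ≤ KV * r ^ 4 := by
    intro V hV
    have h1 : (1 : ℝ) ≤ (core V).card := by
      exact_mod_cast Finset.card_pos.mpr (hS0ne V hV)
    have h2 : √((core V).card : ℝ) ≤ (core V).card := by
      rw [Real.sqrt_le_left (by linarith)]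
      nlinarith
    exact h2.trans (hcardV V hV)
  -- the bad configurations
  have hbad : ∑ V ∈ S0 with ¬ lam (UV (core V)) ≤ 2 * c / r ^ 2, wt q Λ V * g V ≤
      KV * r ^ 4 * Real.exp (2 * c) * Real.exp (-(2 * c * r ^ 2)) := by
    have h1 : ∀ V ∈ S0.filter (fun V => ¬ lam (UV (core V)) ≤ 2 * c / r ^ 2), wt q Λ V * g V ≤
        wt q Λ V * (KV * r ^ 4 * Real.exp (2 * c) * Real.exp (-(2 * c * r ^ 2))) := by
      intro V hV
      rw [Finset.mem_filter, not_le] at hV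
      apply mul_le_mul_of_nonneg_left _ (wt_nonneg hq0.le hq1 _ _)
      show √((core V).card : ℝ) * Real.exp (-(r ^ 4 - 1) * lam (UV (core V))) ≤ _
      have h2 : -(r ^ 4 - 1) * lam (UV (core V)) ≤ 2 * c + -(2 * c * r ^ 2) := by
        have h3 : (1 : ℝ) ≤ r ^ 4 := one_le_pow₀ hr1
        have h4 : (r ^ 4 - 1) * (2 * c / r ^ 2) ≤ (r ^ 4 - 1) * lam (UV (core V)) :=
          mul_le_mul_of_nonneg_left hV.2.le (by linarith)
        have h5 : (r ^ 4 - 1) * (2 * c / r ^ 2) = 2 * c * r ^ 2 - 2 * c / r ^ 2 := by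
          field_simp
        have h6 : 2 * c / r ^ 2 ≤ 2 * c := by
          apply div_le_self (by positivity) (one_le_pow₀ hr1)
        linarith
      calc √((core V).card : ℝ) * Real.exp (-(r ^ 4 - 1) * lam (UV (core V))) ≤
          (KV * r ^ 4) * Real.exp (2 * c + -(2 * c * r ^ 2)) := by
            gcongr
            exact hsqrtV V hV.1
        _ = _ := by rw [Real.exp_add]; ring
    refine (Finset.sum_le_sum h1).trans ?_
    rw [← Finset.sum_mul]
    have h2 : ∑ V ∈ S0 with ¬ lam (UV (core V)) ≤ 2 * c / r ^ 2, wt q Λ V ≤ 1 := by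
      have h3 := sum_wt_le hq0.le hq1 Λ
        (S0.filter fun V => ¬ lam (UV (core V)) ≤ 2 * c / r ^ 2)
        ((Finset.filter_subset _ _).trans hS0sub) ∅
      rw [Finset.card_empty, pow_zero] at h3
      refine le_trans (le_of_eq ?_) h3
      apply Finset.sum_congr _ (fun _ _ => rfl)
      rw [Finset.filter_filter]
      simp
    calc _ ≤ 1 * (KV * r ^ 4 * Real.exp (2 * c) * Real.exp (-(2 * c * r ^ 2))) := by gcongr
      _ = _ := by ring
  -- the good configurations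
  set A : ℝ := KV * r ^ 4 * Real.exp (2 * c) * Real.exp (-(c * r ^ 2) - δ * r) with hA
  have hApos : 0 < A := by positivity
  have hgood : ∑ V ∈ S0 with lam (UV (core V)) ≤ 2 * c / r ^ 2, wt q Λ V * g V ≤
      A * (2 * ((Λ.card + 1) * Λ.card)) := by
    apply union_bound2 hq0 hq1 Λ _ ((Finset.filter_subset _ _).trans hS0sub) g hApos.le
    intro V hV
    rw [Finset.mem_filter] at hV
    obtain ⟨k, i, j, w, g1, g2, g3⟩ := hkey r hcase (core V) (hS0ne V hV.1) (hcardV V hV.1) hV.2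
    refine ⟨k, i, j, w, g1, g2, ?_⟩
    show √((core V).card : ℝ) * Real.exp (-(r ^ 4 - 1) * lam (UV (core V))) ≤ _
    set n := (fat (Tst (wlk w (k, i, j, true)))).card with hn
    have h1 : -(r ^ 4 - 1) * lam (UV (core V)) ≤
        2 * c + (-(c * r ^ 2) - δ * r) + (w.length : ℝ) * (-Real.log 192) +
          (n : ℝ) * (ν / 25) := by
      have h2 : lam (UV (core V)) ≤ 2 * c :=
        hV.2.trans (div_le_self (by positivity) (one_le_pow₀ hr1))
      linarith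
    have h192 : (1 / 192 : ℝ) ^ w.length = Real.exp ((w.length : ℝ) * (-Real.log 192)) := by
      rw [Real.exp_nat_mul, Real.exp_neg, Real.exp_log (by norm_num)]
      norm_num
    have hqm : (1 / q) ^ n = Real.exp ((n : ℝ) * (ν / 25)) := by
      rw [Real.exp_nat_mul, hq, Real.exp_neg]
      norm_num
    rw [h192, hqm, hA]
    calc √((core V).card : ℝ) * Real.exp (-(r ^ 4 - 1) * lam (UV (core V))) ≤
        (KV * r ^ 4) * Real.exp (2 * c + (-(c * r ^ 2) - δ * r) +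
          (w.length : ℝ) * (-Real.log 192) + (n : ℝ) * (ν / 25)) := by
          gcongr
          exact hsqrtV V hV.1
      _ = _ := by
          rw [Real.exp_add, Real.exp_add, Real.exp_add]
          ring
  -- summing up
  have hboxpos : 0 ≤ (Λ.card : ℝ) := Nat.cast_nonneg _
  have hr41 : (1 : ℝ) ≤ r ^ 4 := one_le_pow₀ hr1
  have hKr1 : 1 ≤ KV * r ^ 4 := by nlinarith
  have hpoly : 2 * ((Λ.card + 1 : ℝ) * Λ.card) ≤ 4 * KV ^ 2 * r ^ 8 := by
    have h1 : (Λ.card + 1 : ℝ) ≤ 2 * (KV * r ^ 4) := by linarith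
    calc 2 * ((Λ.card + 1 : ℝ) * Λ.card) ≤
        2 * ((2 * (KV * r ^ 4)) * (KV * r ^ 4)) := by gcongr
      _ = _ := by ring
  have hcδ : δ * r ≤ c * r ^ 2 := by
    rw [div_le_iff₀ hc] at hrδ
    nlinarith
  set E := Real.exp (-(c * r ^ 2) - δ * r) with hE
  have hE0 : 0 < E := Real.exp_pos _
  have hE2 : Real.exp (-(2 * c * r ^ 2)) ≤ E := by
    apply Real.exp_le_exp.mpr
    linarith
  have hE1 : Real.exp (-ν * N) ≤ E := by
    refine le_trans ?_ hE2
    apply Real.exp_le_exp.mpr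
    linarith
  have he1 : 1 ≤ Real.exp (2 * c) := Real.one_le_exp (by positivity)
  have hK3 : 1 ≤ KV ^ 3 := one_le_pow₀ hKV1
  have hr12 : (1 : ℝ) ≤ r ^ 12 := one_le_pow₀ hr1
  have hfirst : Real.exp (-ν * N) ≤ KV ^ 3 * Real.exp (2 * c) * r ^ 12 * E := by
    refine hE1.trans ?_
    calc E = 1 * 1 * 1 * E := by ring
      _ ≤ _ := by gcongr
  have hbad' : KV * r ^ 4 * Real.exp (2 * c) * Real.exp (-(2 * c * r ^ 2)) ≤
      KV ^ 3 * Real.exp (2 * c) * r ^ 12 * E := by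
    have h1 : r ^ 4 ≤ r ^ 12 := pow_le_pow_right₀ hr1 (by norm_num)
    have h2 : KV ≤ KV ^ 3 := by
      calc KV = KV ^ 1 := by ring
        _ ≤ KV ^ 3 := pow_le_pow_right₀ hKV1 (by norm_num)
    calc KV * r ^ 4 * Real.exp (2 * c) * Real.exp (-(2 * c * r ^ 2)) ≤
        KV ^ 3 * r ^ 12 * Real.exp (2 * c) * E := by gcongr
      _ = _ := by ring
  have hgood' : A * (2 * ((Λ.card + 1) * Λ.card)) ≤
      4 * (KV ^ 3 * Real.exp (2 * c) * r ^ 12 * E) := by
    calc A * (2 * ((Λ.card + 1) * Λ.card)) ≤ A * (4 * KV ^ 2 * r ^ 8) := by gcongr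
      _ = 4 * (KV ^ 3 * Real.exp (2 * c) * r ^ 12 * E) := by rw [hA]; ring
  have htotal : surv P X Y ν 2 t ≤ A0 * r ^ 12 * E := by
    have h1 : surv P X Y ν 2 t ≤ Real.exp (-ν * N) + ∑ V ∈ S0, wt q Λ V * g V := hmain
    rw [hsplit] at h1
    have h2 : A0 * r ^ 12 * E = 6 * (KV ^ 3 * Real.exp (2 * c) * r ^ 12 * E) := by
      rw [hA0]; ring
    rw [h2]
    linarith only [h1, hbad, hgood, hfirst, hbad', hgood']
  refine htotal.trans ?_
  calc A0 * r ^ 12 * E ≤ Real.exp (δ / 2 * r) * E := by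
        gcongr
        exact poly_le_exp hA0pos hδ0 hrA
    _ = Real.exp (-c * r ^ 2 - c2 / 2 * m ^ 6 * r) := by
        rw [hE, ← Real.exp_add, hδ]
        congr 1
        ring

end Pool.Agent.BSs
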